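import Pool.Agent.H76.PP.Df0

/-!
The basis `1, θ, θ^2` of the cubic extension `L = K(θ)`, norm and trace (no row, proved).
-/

set_option autoImplicit false

open NumberField IsDedekindDomain
open scoped Matrix

namespace H76PP

section

variable {K L : Type} [Field K] [Field L] [Algebra K L] {A B : K} {θ : L}

/-- The basis `1, θ, θ^2`. -/
noncomputable def Cub.basis (h : Cub K L A B θ) : Module.Basis (Fin 3) K L :=
  Module.Basis.mk (v := ![1, θ, θ ^ 2]) (by
    rw [Fintype.linearIndependent_iff]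
    intro g hg
    rw [Fin.sum_univ_three] at hg
    simp only [Matrix.cons_val_zero, Matrix.cons_val_one, Matrix.cons_val_two, Matrix.head_cons,
      Matrix.tail_cons, Algebra.smul_def, mul_one] at hg
    obtain ⟨h0, h1, h2⟩ := h.li _ _ _ hg
    intro i
    fin_cases i
    · exact h0
    · exact h1
    · exact h2) (by
    intro x _
    obtain ⟨c₀, c₁, c₂, rfl⟩ := h.sp x
    have h0 : (1 : L) ∈ Submodule.span K (Set.range ![1, θ, θ ^ 2]) :=
      Submodule.subset_span ⟨0, rfl⟩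
    have h1 : θ ∈ Submodule.span K (Set.range ![1, θ, θ ^ 2]) :=
      Submodule.subset_span ⟨1, rfl⟩
    have h2 : θ ^ 2 ∈ Submodule.span K (Set.range ![1, θ, θ ^ 2]) :=
      Submodule.subset_span ⟨2, rfl⟩
    have e0 := Submodule.smul_mem _ c₀ h0
    have e1 := Submodule.smul_mem _ c₁ h1
    have e2 := Submodule.smul_mem _ c₂ h2
    rw [Algebra.smul_def] at e0 e1 e2
    rw [mul_one] at e0
    exact Submodule.add_mem _ (Submodule.add_mem _ e0 e1) e2)

lemma Cub.basis_coe (h : Cub K L A B θ) : ⇑h.basis = ![1, θ, θ ^ 2] := Module.Basis.coe_mk _ _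

/-- The coordinates with respect to `1, θ, θ^2`. -/
noncomputable def Cub.co (h : Cub K L A B θ) (i : Fin 3) : L →ₗ[K] K := h.basis.coord i

lemma Cub.eq_co (h : Cub K L A B θ) (x : L) :
    x = algebraMap K L (h.co 0 x) + algebraMap K L (h.co 1 x) * θ +
      algebraMap K L (h.co 2 x) * θ ^ 2 := by
  have h1 := h.basis.sum_repr x
  rw [Fin.sum_univ_three, h.basis_coe] at h1
  simp only [Matrix.cons_val_zero, Matrix.cons_val_one, Matrix.cons_val_two, Matrix.head_cons,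
      Matrix.tail_cons, Algebra.smul_def, mul_one] at h1
  exact h1.symm

lemma Cub.co_mk (h : Cub K L A B θ) (c : Fin 3 → K) (i : Fin 3) :
    h.co i (algebraMap K L (c 0) + algebraMap K L (c 1) * θ + algebraMap K L (c 2) * θ ^ 2) =
      c i := by
  set x := algebraMap K L (c 0) + algebraMap K L (c 1) * θ + algebraMap K L (c 2) * θ ^ 2 with hx
  have h1 := h.eq_co x
  have h2 : algebraMap K L (h.co 0 x - c 0) + algebraMap K L (h.co 1 x - c 1) * θ +
      algebraMap K L (h.co 2 x - c 2) * θ ^ 2 = 0 := by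
    rw [map_sub, map_sub, map_sub]
    linear_combination hx - h1
  obtain ⟨e0, e1, e2⟩ := h.li _ _ _ h2
  fin_cases i
  · exact sub_eq_zero.1 e0
  · exact sub_eq_zero.1 e1
  · exact sub_eq_zero.1 e2

lemma Cub.co_mk' (h : Cub K L A B θ) (c₀ c₁ c₂ : K) :
    h.co 0 (algebraMap K L c₀ + algebraMap K L c₁ * θ + algebraMap K L c₂ * θ ^ 2) = c₀ ∧
    h.co 1 (algebraMap K L c₀ + algebraMap K L c₁ * θ + algebraMap K L c₂ * θ ^ 2) = c₁ ∧
    h.co 2 (algebraMap K L c₀ + algebraMap K L c₁ * θ + algebraMap K L c₂ * θ ^ 2) = c₂ :=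
  ⟨h.co_mk ![c₀, c₁, c₂] 0, h.co_mk ![c₀, c₁, c₂] 1, h.co_mk ![c₀, c₁, c₂] 2⟩

lemma Cub.ext_co (h : Cub K L A B θ) {x y : L} (h0 : h.co 0 x = h.co 0 y)
    (h1 : h.co 1 x = h.co 1 y) (h2 : h.co 2 x = h.co 2 y) : x = y := by
  rw [h.eq_co x, h.eq_co y, h0, h1, h2]

theorem Cub.finrank (h : Cub K L A B θ) : Module.finrank K L = 3 := by
  rw [Module.finrank_eq_card_basis h.basis, Fintype.card_fin]

/-- The coordinates of a product. -/
theorem Cub.co_mul (h : Cub K L A B θ) (x y : L) :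
    h.co 0 (x * y) = h.co 0 x * h.co 0 y - B * (h.co 1 x * h.co 2 y + h.co 2 x * h.co 1 y) ∧
    h.co 1 (x * y) = h.co 0 x * h.co 1 y + h.co 1 x * h.co 0 y -
      A * (h.co 1 x * h.co 2 y + h.co 2 x * h.co 1 y) - B * (h.co 2 x * h.co 2 y) ∧
    h.co 2 (x * y) = h.co 0 x * h.co 2 y + h.co 1 x * h.co 1 y + h.co 2 x * h.co 0 y -
      A * (h.co 2 x * h.co 2 y) := by
  have hr := h.root
  have e : x * y = algebraMap K L (h.co 0 x * h.co 0 y -
        B * (h.co 1 x * h.co 2 y + h.co 2 x * h.co 1 y)) +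
      algebraMap K L (h.co 0 x * h.co 1 y + h.co 1 x * h.co 0 y -
        A * (h.co 1 x * h.co 2 y + h.co 2 x * h.co 1 y) - B * (h.co 2 x * h.co 2 y)) * θ +
      algebraMap K L (h.co 0 x * h.co 2 y + h.co 1 x * h.co 1 y + h.co 2 x * h.co 0 y -
        A * (h.co 2 x * h.co 2 y)) * θ ^ 2 := by
    conv_lhs => rw [h.eq_co x, h.eq_co y]
    simp only [map_add, map_sub, map_mul]
    generalize algebraMap K L (h.co 0 x) = a0
    generalize algebraMap K L (h.co 1 x) = a1
    generalize algebraMap K L (h.co 2 x) = a2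
    generalize algebraMap K L (h.co 0 y) = b0
    generalize algebraMap K L (h.co 1 y) = b1
    generalize algebraMap K L (h.co 2 y) = b2
    linear_combination (a1 * b2 + a2 * b1 + a2 * b2 * θ) * hr
  have e2 := congrArg (fun z => (h.co 0 z, h.co 1 z, h.co 2 z)) e
  simp only [Prod.mk.injEq] at e2
  obtain ⟨i0, i1, i2⟩ := h.co_mk' (h.co 0 x * h.co 0 y -
        B * (h.co 1 x * h.co 2 y + h.co 2 x * h.co 1 y))
      (h.co 0 x * h.co 1 y + h.co 1 x * h.co 0 y -
        A * (h.co 1 x * h.co 2 y + h.co 2 x * h.co 1 y) - B * (h.co 2 x * h.co 2 y))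
      (h.co 0 x * h.co 2 y + h.co 1 x * h.co 1 y + h.co 2 x * h.co 0 y -
        A * (h.co 2 x * h.co 2 y))
  exact ⟨e2.1.trans i0, e2.2.1.trans i1, e2.2.2.trans i2⟩

lemma Cub.co_one (h : Cub K L A B θ) : h.co 0 1 = 1 ∧ h.co 1 1 = 0 ∧ h.co 2 1 = 0 := by
  have := h.co_mk' 1 0 0
  simpa using this

lemma Cub.co_theta (h : Cub K L A B θ) : h.co 0 θ = 0 ∧ h.co 1 θ = 1 ∧ h.co 2 θ = 0 := by
  have := h.co_mk' 0 1 0
  simpa using this

lemma Cub.co_theta_sq (h : Cub K L A B θ) :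
    h.co 0 (θ ^ 2) = 0 ∧ h.co 1 (θ ^ 2) = 0 ∧ h.co 2 (θ ^ 2) = 1 := by
  have := h.co_mk' 0 0 1
  simpa using this

/-- The matrix of the multiplication by `x`. -/
theorem Cub.leftMul (h : Cub K L A B θ) (x : L) : Algebra.leftMulMatrix h.basis x =
    !![h.co 0 x, -B * h.co 2 x, -B * h.co 1 x;
      h.co 1 x, h.co 0 x - A * h.co 2 x, -A * h.co 1 x - B * h.co 2 x;
      h.co 2 x, h.co 1 x, h.co 0 x - A * h.co 2 x] := by
  have key : ∀ i j, Algebra.leftMulMatrix h.basis x i j = h.co i (x * h.basis j) := by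
    intro i j
    rw [Algebra.leftMulMatrix_eq_repr_mul]
    rfl
  obtain ⟨a0, a1, a2⟩ := h.co_theta
  obtain ⟨b0, b1, b2⟩ := h.co_theta_sq
  obtain ⟨c0, c1, c2⟩ := h.co_mul x θ
  obtain ⟨d0, d1, d2⟩ := h.co_mul x (θ ^ 2)
  rw [a0, a1, a2] at c0 c1 c2
  rw [b0, b1, b2] at d0 d1 d2
  ext i j
  rw [key, h.basis_coe]
  fin_cases i <;> fin_cases j <;> simp [c0, c1, c2, d0, d1, d2] <;> ring

theorem Cub.trace (h : Cub K L A B θ) (x : L) :
    Algebra.trace K L x = 3 * h.co 0 x - 2 * A * h.co 2 x := by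
  rw [Algebra.trace_eq_matrix_trace h.basis, h.leftMul, Matrix.trace_fin_three]
  simp
  ring

theorem Cub.norm (h : Cub K L A B θ) (x : L) :
    Algebra.norm K x = (!![h.co 0 x, -B * h.co 2 x, -B * h.co 1 x;
      h.co 1 x, h.co 0 x - A * h.co 2 x, -A * h.co 1 x - B * h.co 2 x;
      h.co 2 x, h.co 1 x, h.co 0 x - A * h.co 2 x]).det := by
  rw [Algebra.norm_eq_matrix_det h.basis, h.leftMul]

/-- The norm of `x - θ`. -/
theorem Cub.norm_sub (h : Cub K L A B θ) (x : K) :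
    Algebra.norm K (algebraMap K L x - θ) = x ^ 3 + A * x + B := by
  obtain ⟨a0, a1, a2⟩ := h.co_theta
  obtain ⟨b0, b1, b2⟩ := h.co_mk' x 0 0
  have hx : algebraMap K L x + algebraMap K L 0 * θ + algebraMap K L 0 * θ ^ 2 =
      algebraMap K L x := by simp
  rw [hx] at b0 b1 b2
  rw [h.norm, Matrix.det_fin_three]
  simp only [map_sub, a0, a1, a2, b0, b1, b2, Matrix.of_apply, Matrix.cons_val', Matrix.cons_val_zero,
    Matrix.cons_val_one, Matrix.cons_val_two, Matrix.head_cons, Matrix.tail_cons,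
    Matrix.head_fin_const, Matrix.empty_val', Matrix.cons_val_fin_one]
  simp
  ring

end

end H76PP
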