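import Pool.Agent.H76.PP.Ta
import Pool.Agent.H76.PP.E0

/-!
ROW Te (project MP_78d38b_PP, about 250 lines): from a local condition over the completion to elements of `K`
and `L` (approximation at one finite place). Use only the STATEMENTS of Ta and the file E0.

PROOF. Let `x₀, y₀, z₀` be the elements over `K_v = v.adicCompletion K` given by `LC`. `K` is dense in `K_v`
(`HeightOneSpectrum.denseRange_algebraMap` / completion of `K` for the `v`-adic topology; models in `Pool/Agent/H10/RatLoc.lean`,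
`Pool/Agent/H10/GrPlace.lean`), so for every `N` there are `x, y, z j ∈ K` with `Valued.v (x₀ - x) ≤ exp (-N)` etc.
(1) `R` := the polynomial expressions: over `K_v` the identity `m3 a b d (x₀,-1,0) = m3 a b z₀ z₀` and `y₀^2 = x₀^3 + a x₀ + b`. All
coordinate functions are polynomials, hence continuous; for `N` large the three coordinates of
`E = m3 a b d (x,-1,0) - m3 a b z z` (elements of `K`) have `v`-valuation `≤ exp (-M)`, `M` as large as we like, and
`v.valuation K ((x^3 + a x + b) / y^2 - 1) < 1`, `y ≠ 0` (`y₀ ≠ 0`).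
(2) Let `Z = ev θ z ∈ L`, `δ = ev θ d`. By `Cub.co_mul` (E0) the coordinates of `δ (x - θ) - Z^2` are those of `E`
(`m3` is the multiplication of coordinates).
(3) The norm form: `N(ev θ c) = nf(c)` is a polynomial in the coordinates (`Cub.norm`), and there is the adjugate:
`N(Z) = Z * Z'` where the coordinates of `Z' ∈ L` are polynomials in `z` (the first column of the adjugate of
`leftMulMatrix`; or `Z' = N(Z) / Z`, bounded because ... simplest: `Z'` from `Matrix.mul_adjugate` applied to `Cub.leftMul`).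
`nf(z₀)^2 = nf(d) nf(x₀,-1,0) = nf(d) y₀^2 ≠ 0` (the norm form is multiplicative for `m3` over any commutative ring: a
polynomial identity, `Matrix.det_mul` for the matrices of `Cub.leftMul`; `nf (x,-1,0) = x^3 + a x + b`; `nf(d) = N(δ) ≠ 0`). So
`v.valuation (nf z)` is constant for `z` close to `z₀`, and the valuations of the `z j` are bounded.
(4) For `w` above `v` (finitely many, fin_above): `w.valuation (Z') ≤ exp (M₁)`, `w.valuation (N Z) ≥ exp (-M₁)` with `M₁` independent of
`M` (ord_dn), so `w.valuation Z ≥ exp (-2M₁)`; and `w.valuation (δ(x-θ) - Z^2) ≤ exp (M₁ - M)` (`val_exp_le`, the valuations of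
`1, θ, θ^2` are bounded). For `M > 5 M₁ + 1` the quotient `δ (x - θ) / Z^2 - 1` has valuation `< 1`.
-/

set_option autoImplicit false
set_option linter.unusedSectionVars false
open scoped Classical

open WithZero NumberField IsDedekindDomain H38RT
open H38T1 (SC sc scu rep eo la si Pri OddP tp unif)

namespace H76PP

variable {K L : Type} [Field K] [NumberField K] [Field L] [NumberField L] [Algebra K L]

/-- The first column of the adjugate of the matrix of the multiplication by `z`. -/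
def Te_C {F : Type*} [CommRing F] (a b : F) (z : Fin 3 → F) : Fin 3 → F :=
  ![(z 0 - a * z 2) ^ 2 + a * z 1 ^ 2 + b * z 1 * z 2, -(z 0 * z 1 + b * z 2 ^ 2),
    z 1 ^ 2 - z 0 * z 2 + a * z 2 ^ 2]

/-- The norm form. -/
def Te_nf {F : Type*} [CommRing F] (a b : F) (z : Fin 3 → F) : F :=
  z 0 * ((z 0 - a * z 2) ^ 2 + a * z 1 ^ 2 + b * z 1 * z 2) + b * z 2 * (z 0 * z 1 + b * z 2 ^ 2) -
    b * z 1 * (z 1 ^ 2 - z 0 * z 2 + a * z 2 ^ 2)

lemma Te_nf_mul {F : Type*} [CommRing F] (a b : F) (u v : Fin 3 → F) :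
    Te_nf a b (m3 a b u v) = Te_nf a b u * Te_nf a b v := by
  simp only [Te_nf, m3, Matrix.cons_val_zero, Matrix.cons_val_one, Matrix.cons_val_two,
    Matrix.head_cons, Matrix.tail_cons, Matrix.cons_val]
  ring

lemma Te_m3_adj {F : Type*} [CommRing F] (a b : F) (z : Fin 3 → F) :
    m3 a b z (Te_C a b z) = ![Te_nf a b z, 0, 0] := by
  funext j
  fin_cases j <;> simp [m3, Te_C, Te_nf] <;> ring

lemma Te_ev_mul {a b : K} {θ : L} (h : Cub K L a b θ) (u v : Fin 3 → K) :
    ev θ u * ev θ v = ev θ (m3 a b u v) := by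
  have hr := h.root
  simp only [ev, m3, Matrix.cons_val_zero, Matrix.cons_val_one, Matrix.cons_val_two,
    Matrix.head_cons, Matrix.tail_cons, Matrix.cons_val, map_add, map_sub, map_mul]
  generalize algebraMap K L (u 0) = a0
  generalize algebraMap K L (u 1) = a1
  generalize algebraMap K L (u 2) = a2
  generalize algebraMap K L (v 0) = b0
  generalize algebraMap K L (v 1) = b1
  generalize algebraMap K L (v 2) = b2
  linear_combination (a1 * b2 + a2 * b1 + a2 * b2 * θ) * hr

lemma Te_ev_adj {a b : K} {θ : L} (h : Cub K L a b θ) (z : Fin 3 → K) :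
    ev θ z * ev θ (Te_C a b z) = algebraMap K L (Te_nf a b z) := by
  rw [Te_ev_mul h, Te_m3_adj]
  simp [ev]

lemma Te_norm {a b : K} {θ : L} (h : Cub K L a b θ) (d : Fin 3 → K) :
    Algebra.norm K (ev θ d) = Te_nf a b d := by
  rw [h.norm]
  obtain ⟨e0, e1, e2⟩ := h.co_mk' (d 0) (d 1) (d 2)
  unfold ev
  rw [e0, e1, e2, Matrix.det_fin_three]
  simp [Te_nf]
  ring

lemma Te_nhd {F : Type*} [Field F] {Γ₀ : Type*} [LinearOrderedCommGroupWithZero Γ₀] [Valued F Γ₀]
    (x₀ : F) {c : F} (hc : c ≠ 0) : {y | Valued.v (y - x₀) < Valued.v c} ∈ nhds x₀ := by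
  rw [Valued.mem_nhds]
  have h' : Valued.v.restrict c ≠ 0 := by simp [hc]
  exact ⟨Units.mk0 _ h', fun y hy => by
    rw [Set.mem_ofPred_eq, Units.val_mk0] at hy
    exact Valued.v.restrict_lt_iff.mp hy⟩

lemma Te_le {F : Type*} [Field F] {Γ₀ : Type*} [LinearOrderedCommGroupWithZero Γ₀] [Valued F Γ₀]
    {y x₀ c : F} (h : Valued.v (y - x₀) < Valued.v c) (h₀ : Valued.v x₀ ≤ Valued.v c) :
    Valued.v y ≤ Valued.v c := by
  have : y = (y - x₀) + x₀ := by ring
  rw [this]
  exact (Valuation.map_add _ _ _).trans (max_le h.le h₀)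

lemma Te_m3_map {F F' : Type*} [CommRing F] [CommRing F'] (i : F →+* F') (a b : F)
    (u v : Fin 3 → F) (j : Fin 3) :
    m3 (i a) (i b) (fun j => i (u j)) (fun j => i (v j)) j = i (m3 a b u v j) := by
  fin_cases j <;> simp [m3]

lemma Te_C_map {F F' : Type*} [CommRing F] [CommRing F'] (i : F →+* F') (a b : F)
    (u : Fin 3 → F) (j : Fin 3) :
    Te_C (i a) (i b) (fun j => i (u j)) j = i (Te_C a b u j) := by
  fin_cases j <;> simp [Te_C]

lemma Te_nf_map {F F' : Type*} [CommRing F] [CommRing F'] (i : F →+* F') (a b : F)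
    (u : Fin 3 → F) :
    Te_nf (i a) (i b) (fun j => i (u j)) = i (Te_nf a b u) := by
  simp [Te_nf]

/-- Bound for the valuation of an element with bounded coordinates. -/
lemma Te_val_ev (w : HeightOneSpectrum (𝓞 L)) (θ : L) (c : Fin 3 → K) {g : K}
    (hc : ∀ j, (dn K w).valuation K (c j) ≤ (dn K w).valuation K g) :
    w.valuation L (ev θ c) ≤ w.valuation L (algebraMap K L g) *
      max 1 (max (w.valuation L θ) (w.valuation L (θ ^ 2))) := by
  have key : ∀ j, w.valuation L (algebraMap K L (c j)) ≤ w.valuation L (algebraMap K L g) := by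
    intro j
    by_cases hg : g = 0
    · have h0 := hc j
      rw [hg, map_zero, le_zero_iff] at h0
      rw [(Valuation.zero_iff _).1 h0, hg]
    · have h1 : (dn K w).valuation K (c j / g) ≤ 1 := by
        rw [map_div₀]
        exact div_le_one_of_le₀ (hc j) zero_le
      have h2 := val_le h1
      rw [map_div₀, map_div₀] at h2
      have hg' : w.valuation L (algebraMap K L g) ≠ 0 := by
        rw [Ne, Valuation.zero_iff, map_eq_zero]
        exact hg
      rwa [div_le_one₀ (zero_lt_iff.2 hg')] at h2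
  set B := max (1 : WithZero (Multiplicative ℤ)) (max (w.valuation L θ) (w.valuation L (θ ^ 2)))
  unfold ev
  refine (Valuation.map_add _ _ _).trans (max_le ((Valuation.map_add _ _ _).trans (max_le ?_ ?_)) ?_)
  · calc w.valuation L (algebraMap K L (c 0)) ≤ w.valuation L (algebraMap K L g) := key 0
      _ = w.valuation L (algebraMap K L g) * 1 := (mul_one _).symm
      _ ≤ _ := mul_le_mul' le_rfl (le_max_left _ _)
  · rw [map_mul]
    exact mul_le_mul' (key 1) ((le_max_left _ _).trans (le_max_right _ _))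
  · rw [map_mul]
    exact mul_le_mul' (key 2) ((le_max_right _ _).trans (le_max_right _ _))

theorem LC_approx {a b : K} {θ : L} (h : Cub K L a b θ) {d : Fin 3 → K} (hd : ev θ d ≠ 0)
    (v : HeightOneSpectrum (𝓞 K)) (hLC : LC (algebraMap K (v.adicCompletion K)) a b d) :
    ∃ (x y : K) (z : L), y ≠ 0 ∧ z ≠ 0 ∧ v.valuation K ((x ^ 3 + a * x + b) / y ^ 2 - 1) < 1 ∧
      ∀ w : HeightOneSpectrum (𝓞 L), dn K w = v →
        w.valuation L (ev θ d * (algebraMap K L x - θ) / z ^ 2 - 1) < 1 := by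
  obtain ⟨x₀, y₀, z₀, hy₀, e₀, E₀⟩ := hLC
  set i : K →+* v.adicCompletion K := algebraMap K (v.adicCompletion K) with hi
  have hiv : ∀ k : K, Valued.v (i k) = v.valuation K k := fun k =>
    HeightOneSpectrum.valuedAdicCompletion_eq_valuation' v k
  have hiinj : ∀ k : K, i k = 0 → k = 0 := fun k hk => (map_eq_zero i).1 hk
  have hdense : DenseRange (⇑i) := HeightOneSpectrum.denseRange_algebraMap (K := K) v
  -- the norm form is not zero
  have hnd : Te_nf a b d ≠ 0 := by
    rw [← Te_norm h]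
    exact Algebra.norm_ne_zero_iff.2 hd
  have hn₀ : Te_nf (i a) (i b) z₀ ≠ 0 := by
    intro h0
    have h1 := congrArg (Te_nf (i a) (i b)) E₀
    rw [Te_nf_mul, Te_nf_mul, h0, zero_mul, mul_eq_zero] at h1
    rcases h1 with h1 | h1
    · apply hnd
      apply hiinj
      rw [← h1]
      simp [Te_nf]
    · apply hy₀
      have h2 : Te_nf (i a) (i b) ![x₀, -1, 0] = x₀ ^ 3 + i a * x₀ + i b := by
        simp [Te_nf]
        ring
      rw [h2, ← e₀] at h1
      exact pow_eq_zero_iff (two_ne_zero) |>.1 h1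
  -- the uniformizer and the constants
  obtain ⟨π, hπ⟩ := v.valuation_exists_uniformizer K
  have hπ0 : π ≠ 0 := by
    rintro rfl
    rw [map_zero] at hπ
    exact absurd hπ.symm (by simp)
  have hπ1 : v.valuation K π < 1 := by
    rw [hπ]
    exact (WithZero.exp_lt_exp.2 (by norm_num : (-1 : ℤ) < 0)).trans_eq WithZero.exp_zero
  obtain ⟨n₀, hn₀'⟩ := hdense.mem_nhds (Valued.locally_const (x := Te_nf (i a) (i b) z₀)
    ((Valuation.ne_zero_iff _).2 hn₀))
  rw [Set.mem_ofPred_eq, hiv] at hn₀'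
  have hn₀0 : n₀ ≠ 0 := by
    rintro rfl
    rw [map_zero] at hn₀'
    exact hn₀ ((Valuation.zero_iff _).1 hn₀'.symm)
  obtain ⟨c, hc0, hc⟩ : ∃ c : K, c ≠ 0 ∧
      ∀ j, Valued.v (Te_C (i a) (i b) z₀ j) ≤ Valued.v (i c) := by
    set γ := max 1 (max (Valued.v (Te_C (i a) (i b) z₀ 0)) (max (Valued.v (Te_C (i a) (i b) z₀ 1))
      (Valued.v (Te_C (i a) (i b) z₀ 2)))) with hγ
    have hγ1 : 1 ≤ γ := le_max_left _ _
    have hγ0 : γ ≠ 0 := fun hh => by
      rw [hh] at hγ1
      exact absurd hγ1 (by simp)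
    obtain ⟨n, hn⟩ := exists_pow_lt₀ hπ1 (Units.mk0 γ hγ0)⁻¹
    refine ⟨(π ^ n)⁻¹, inv_ne_zero (pow_ne_zero _ hπ0), fun j => ?_⟩
    have h1 : γ ≤ Valued.v (i (π ^ n)⁻¹) := by
      rw [hiv, map_inv₀, map_pow]
      rw [Units.val_inv_eq_inv_val, Units.val_mk0] at hn
      have hpos : 0 < v.valuation K π ^ n :=
        pow_pos (zero_lt_iff.2 ((Valuation.ne_zero_iff _).2 hπ0)) n
      exact (le_inv_comm₀ (zero_lt_iff.2 hγ0) hpos).2 hn.le
    refine le_trans ?_ h1
    fin_cases j
    · exact (le_max_left _ _).trans (le_max_right _ _)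
    · exact (le_max_left _ _).trans ((le_max_right _ _).trans (le_max_right _ _))
    · exact (le_max_right _ _).trans ((le_max_right _ _).trans (le_max_right _ _))
  -- the precision
  have hM : ∀ w : HeightOneSpectrum (𝓞 L), dn K w = v → ∃ M : ℕ, ∀ m : ℕ, M ≤ m →
      w.valuation L (algebraMap K L (π ^ m)) *
        (max 1 (max (w.valuation L θ) (w.valuation L (θ ^ 2))) ^ 3 *
          w.valuation L (algebraMap K L c) ^ 2) < w.valuation L (algebraMap K L n₀) ^ 2 := by
    intro w hw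
    set B := max (1 : WithZero (Multiplicative ℤ)) (max (w.valuation L θ) (w.valuation L (θ ^ 2)))
      with hB
    have hB1 : 1 ≤ B := le_max_left _ _
    have hB0 : B ≠ 0 := fun hh => by
      rw [hh] at hB1
      exact absurd hB1 (by simp)
    have hcL : w.valuation L (algebraMap K L c) ≠ 0 := by
      rw [Valuation.ne_zero_iff, Ne, map_eq_zero]
      exact hc0
    have hnL : w.valuation L (algebraMap K L n₀) ≠ 0 := by
      rw [Valuation.ne_zero_iff, Ne, map_eq_zero]
      exact hn₀0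
    have hq : B ^ 3 * w.valuation L (algebraMap K L c) ^ 2 ≠ 0 :=
      mul_ne_zero (pow_ne_zero _ hB0) (pow_ne_zero _ hcL)
    have hpi : w.valuation L (algebraMap K L π) < 1 := val_lt (by rw [hw]; exact hπ1)
    obtain ⟨M, hM⟩ := exists_pow_lt₀ hpi (Units.mk0 (w.valuation L (algebraMap K L n₀) ^ 2 /
      (B ^ 3 * w.valuation L (algebraMap K L c) ^ 2)) (div_ne_zero (pow_ne_zero _ hnL) hq))
    refine ⟨M, fun m hm => ?_⟩
    rw [Units.val_mk0] at hM
    rw [map_pow, map_pow]
    have h1 : w.valuation L (algebraMap K L π) ^ m <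
        w.valuation L (algebraMap K L n₀) ^ 2 / (B ^ 3 * w.valuation L (algebraMap K L c) ^ 2) :=
      (pow_le_pow_right_of_le_one' hpi.le hm).trans_lt hM
    rwa [lt_div_iff₀ (zero_lt_iff.2 hq)] at h1
  obtain ⟨M, hM⟩ : ∃ M : ℕ, ∀ w : HeightOneSpectrum (𝓞 L), dn K w = v →
      w.valuation L (algebraMap K L (π ^ M)) *
        (max 1 (max (w.valuation L θ) (w.valuation L (θ ^ 2))) ^ 3 *
          w.valuation L (algebraMap K L c) ^ 2) < w.valuation L (algebraMap K L n₀) ^ 2 := by
    choose f hf using hM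
    refine ⟨(fin_above v).toFinset.attach.sup (fun w => f w.1 ((fin_above v).mem_toFinset.1 w.2)),
      fun w hw => hf w hw _ ?_⟩
    have hmem : w ∈ (fin_above (L := L) v).toFinset := (fin_above v).mem_toFinset.2 hw
    exact Finset.le_sup (f := fun w : {x // x ∈ (fin_above (L := L) v).toFinset} =>
      f w.1 ((fin_above v).mem_toFinset.1 w.2)) (Finset.mem_attach _ ⟨w, hmem⟩)
  -- the neighbourhood
  let p₀ : Fin 5 → v.adicCompletion K := ![x₀, y₀, z₀ 0, z₀ 1, z₀ 2]
  have hz₀ : (![z₀ 0, z₀ 1, z₀ 2] : Fin 3 → v.adicCompletion K) = z₀ := by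
    funext j; fin_cases j <;> rfl
  have c1 : ∀ j, Continuous (fun p : Fin 5 → v.adicCompletion K =>
      m3 (i a) (i b) (fun j => i (d j)) ![p 0, -1, 0] j -
        m3 (i a) (i b) ![p 2, p 3, p 4] ![p 2, p 3, p 4] j) := by
    intro j
    fin_cases j <;> simp [m3] <;> fun_prop
  have c2 : ∀ j, Continuous (fun p : Fin 5 → v.adicCompletion K =>
      Te_C (i a) (i b) ![p 2, p 3, p 4] j) := by
    intro j
    fin_cases j <;> simp [Te_C] <;> fun_prop
  have c3 : Continuous (fun p : Fin 5 → v.adicCompletion K =>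
      Te_nf (i a) (i b) ![p 2, p 3, p 4]) := by
    simp [Te_nf]
    fun_prop
  have c4 : ContinuousAt (fun p : Fin 5 → v.adicCompletion K =>
      (p 0 ^ 3 + i a * p 0 + i b) / p 1 ^ 2 - 1) p₀ := by
    refine ContinuousAt.sub (ContinuousAt.div ?_ ?_ (pow_ne_zero 2 hy₀)) continuousAt_const
    · exact Continuous.continuousAt (by fun_prop)
    · exact Continuous.continuousAt (by fun_prop)
  have c5 : Continuous (fun p : Fin 5 → v.adicCompletion K => p 1) := by fun_prop
  have n1 : ∀ j, ∀ᶠ p in nhds p₀, Valued.v (m3 (i a) (i b) (fun j => i (d j)) ![p 0, -1, 0] j -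
        m3 (i a) (i b) ![p 2, p 3, p 4] ![p 2, p 3, p 4] j) < Valued.v (i (π ^ M)) := by
    intro j
    have hz : m3 (i a) (i b) (fun j => i (d j)) ![p₀ 0, -1, 0] j -
        m3 (i a) (i b) ![p₀ 2, p₀ 3, p₀ 4] ![p₀ 2, p₀ 3, p₀ 4] j = 0 := by
      rw [sub_eq_zero]
      change m3 (i a) (i b) (fun j => i (d j)) ![x₀, -1, 0] j =
        m3 (i a) (i b) ![z₀ 0, z₀ 1, z₀ 2] ![z₀ 0, z₀ 1, z₀ 2] j
      rw [hz₀, E₀]
    have h1 := ((c1 j).continuousAt (x := p₀)).preimage_mem_nhds (Te_nhd (F := v.adicCompletion K) _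
      (c := i (π ^ M)) (fun h0 => pow_ne_zero M hπ0 (hiinj _ h0)))
    filter_upwards [h1] with p hp
    simp only [Set.mem_preimage, Set.mem_ofPred_eq] at hp
    rwa [hz, sub_zero] at hp
  have n2 : ∀ j, ∀ᶠ p in nhds p₀, Valued.v (Te_C (i a) (i b) ![p 2, p 3, p 4] j) ≤
      Valued.v (i c) := by
    intro j
    have h1 := ((c2 j).continuousAt (x := p₀)).preimage_mem_nhds (Te_nhd (F := v.adicCompletion K) _
      (c := i c) (fun h0 => hc0 (hiinj _ h0)))
    filter_upwards [h1] with p hp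
    simp only [Set.mem_preimage, Set.mem_ofPred_eq] at hp
    refine Te_le hp ?_
    change Valued.v (Te_C (i a) (i b) ![z₀ 0, z₀ 1, z₀ 2] j) ≤ _
    rw [hz₀]
    exact hc j
  have n3 : ∀ᶠ p in nhds p₀, Valued.v (Te_nf (i a) (i b) ![p 2, p 3, p 4]) =
      Valued.v (Te_nf (i a) (i b) z₀) := by
    have h1 := (c3.continuousAt (x := p₀)).preimage_mem_nhds (Valued.locally_const
      (x := Te_nf (i a) (i b) ![p₀ 2, p₀ 3, p₀ 4]) ((Valuation.ne_zero_iff _).2 (by
        change Te_nf (i a) (i b) ![z₀ 0, z₀ 1, z₀ 2] ≠ 0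
        rw [hz₀]; exact hn₀)))
    filter_upwards [h1] with p hp
    simp only [Set.mem_preimage, Set.mem_ofPred_eq] at hp
    rw [hp]
    change Valued.v (Te_nf (i a) (i b) ![z₀ 0, z₀ 1, z₀ 2]) = _
    rw [hz₀]
  have n4 : ∀ᶠ p in nhds p₀, Valued.v ((p 0 ^ 3 + i a * p 0 + i b) / p 1 ^ 2 - 1) <
      Valued.v (i 1) := by
    have hz : (p₀ 0 ^ 3 + i a * p₀ 0 + i b) / p₀ 1 ^ 2 - 1 = 0 := by
      change (x₀ ^ 3 + i a * x₀ + i b) / y₀ ^ 2 - 1 = 0
      rw [← e₀, div_self (pow_ne_zero 2 hy₀), sub_self]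
    have h1 := c4.preimage_mem_nhds (Te_nhd (F := v.adicCompletion K) _
      (c := i 1) (fun h0 => one_ne_zero (hiinj _ h0)))
    filter_upwards [h1] with p hp
    simp only [Set.mem_preimage, Set.mem_ofPred_eq] at hp
    rwa [hz, sub_zero] at hp
  have n5 : ∀ᶠ p in nhds p₀, p 1 ≠ 0 := (c5.continuousAt (x := p₀)).eventually_ne hy₀
  have hD : DenseRange (Pi.map (fun _ : Fin 5 => (⇑i : K → v.adicCompletion K))) :=
    DenseRange.piMap (fun _ => hdense)
  obtain ⟨k, hk1, hk2, hk3, hk4, hk5⟩ : ∃ k : Fin 5 → K,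
      (∀ j, Valued.v (m3 (i a) (i b) (fun j => i (d j)) ![i (k 0), -1, 0] j -
        m3 (i a) (i b) ![i (k 2), i (k 3), i (k 4)] ![i (k 2), i (k 3), i (k 4)] j) <
          Valued.v (i (π ^ M))) ∧
      (∀ j, Valued.v (Te_C (i a) (i b) ![i (k 2), i (k 3), i (k 4)] j) ≤ Valued.v (i c)) ∧
      Valued.v (Te_nf (i a) (i b) ![i (k 2), i (k 3), i (k 4)]) =
        Valued.v (Te_nf (i a) (i b) z₀) ∧
      Valued.v ((i (k 0) ^ 3 + i a * i (k 0) + i b) / i (k 1) ^ 2 - 1) < Valued.v (i 1) ∧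
      i (k 1) ≠ 0 := by
    obtain ⟨k, hk⟩ := hD.mem_nhds (((Filter.eventually_all.2 n1).and ((Filter.eventually_all.2
      n2).and (n3.and (n4.and n5)))))
    exact ⟨k, hk⟩
  -- the elements of `K` and `L`
  have t1 : (![i (k 2), i (k 3), i (k 4)] : Fin 3 → v.adicCompletion K) =
      fun j => i ((![k 2, k 3, k 4] : Fin 3 → K) j) := by
    funext j; fin_cases j <;> rfl
  have t2 : (![i (k 0), -1, 0] : Fin 3 → v.adicCompletion K) =
      fun j => i ((![k 0, -1, 0] : Fin 3 → K) j) := by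
    funext j; fin_cases j <;> simp
  set z : Fin 3 → K := ![k 2, k 3, k 4] with hz
  set e : Fin 3 → K := fun j => m3 a b d ![k 0, -1, 0] j - m3 a b z z j with he
  have r1 : ∀ j, v.valuation K (e j) ≤ v.valuation K (π ^ M) := by
    intro j
    have := hk1 j
    rw [t1, t2, Te_m3_map, Te_m3_map, ← map_sub, hiv, hiv] at this
    exact this.le
  have r2 : ∀ j, v.valuation K (Te_C a b z j) ≤ v.valuation K c := by
    intro j
    have := hk2 j
    rwa [t1, Te_C_map, hiv, hiv] at this
  have r3 : v.valuation K (Te_nf a b z) = v.valuation K n₀ := by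
    rw [t1, Te_nf_map, hiv] at hk3
    rw [hk3, hn₀']
  have r4 : v.valuation K ((k 0 ^ 3 + a * k 0 + b) / k 1 ^ 2 - 1) < 1 := by
    rw [hiv, map_one] at hk4
    rw [← hiv]
    simpa using hk4
  have r5 : k 1 ≠ 0 := fun h0 => hk5 (by rw [h0, map_zero])
  have hnz : Te_nf a b z ≠ 0 := by
    intro h0
    rw [h0, map_zero] at r3
    exact hn₀0 ((Valuation.zero_iff _).1 r3.symm)
  have hadj := Te_ev_adj h z
  have hZ : ev θ z ≠ 0 := by
    intro h0
    rw [h0, zero_mul] at hadj
    exact hnz ((map_eq_zero _).1 hadj.symm)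
  have hE : ev θ d * (algebraMap K L (k 0) - θ) - ev θ z ^ 2 = ev θ e := by
    have q1 := Te_ev_mul h d ![k 0, -1, 0]
    have q2 := Te_ev_mul h z z
    have q3 : ev θ (![k 0, -1, 0] : Fin 3 → K) = algebraMap K L (k 0) - θ := by
      simp [ev]
      ring
    rw [q3] at q1
    rw [q1, pow_two, q2]
    simp only [ev, he, map_sub]
    ring
  refine ⟨k 0, k 1, ev θ z, r5, hZ, r4, ?_⟩
  intro w hw
  subst hw
  have s1 := Te_val_ev w θ e r1
  have s2 := Te_val_ev w θ (Te_C a b z) r2
  set B := max (1 : WithZero (Multiplicative ℤ)) (max (w.valuation L θ) (w.valuation L (θ ^ 2)))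
    with hB
  have s3 : w.valuation L (ev θ z) * w.valuation L (ev θ (Te_C a b z)) =
      w.valuation L (algebraMap K L n₀) := by
    rw [← map_mul, hadj]
    have h1 : (dn K w).valuation K (Te_nf a b z / n₀) = 1 := by
      rw [map_div₀, r3, div_self ((Valuation.ne_zero_iff _).2 hn₀0)]
    have h2 := val_one h1
    rw [map_div₀, map_div₀] at h2
    exact (div_eq_one_iff_eq ((Valuation.ne_zero_iff _).2 (by
      rw [Ne, map_eq_zero]; exact hn₀0))).1 h2
  have s4 : w.valuation L (ev θ e) * w.valuation L (ev θ (Te_C a b z)) ^ 2 <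
      w.valuation L (ev θ z) ^ 2 * w.valuation L (ev θ (Te_C a b z)) ^ 2 := by
    calc w.valuation L (ev θ e) * w.valuation L (ev θ (Te_C a b z)) ^ 2
        ≤ (w.valuation L (algebraMap K L (π ^ M)) * B) *
          (w.valuation L (algebraMap K L c) * B) ^ 2 :=
          mul_le_mul' s1 (pow_le_pow_left' s2 2)
      _ = w.valuation L (algebraMap K L (π ^ M)) *
          (B ^ 3 * w.valuation L (algebraMap K L c) ^ 2) := by
          rw [mul_pow, pow_succ B 2]
          simp only [mul_comm, mul_left_comm, mul_assoc]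
      _ < w.valuation L (algebraMap K L n₀) ^ 2 := hM w rfl
      _ = _ := by rw [← s3, mul_pow]
  have s5 : w.valuation L (ev θ e) < w.valuation L (ev θ z) ^ 2 :=
    lt_of_mul_lt_mul_right s4 zero_le
  have s6 : ev θ d * (algebraMap K L (k 0) - θ) / ev θ z ^ 2 - 1 = ev θ e / ev θ z ^ 2 := by
    rw [← hE]
    field_simp
  rw [s6, map_div₀, map_pow]
  exact (div_lt_one₀ (pow_pos (zero_lt_iff.2 ((Valuation.ne_zero_iff _).2 hZ)) 2)).2 s5

end H76PP
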