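import Pool.Agent.H76.PP.Df0

/-!
ROW Le (project MP_78d38b_PP, about 110 lines, Mathlib only): elementary properties of `bx K T`.

PROOF. mem_bx_mono, bx_add, bx_neg, bx_mul, bx_zero_mem: norms in `ℂ` (`T, T' ≥ 0` for the product: use
`norm_nonneg` at one embedding, `Nonempty (K →+* ℂ)`; `‖s a‖ ‖s b‖ ≤ T T'` with `mul_le_mul`).
bx_norm: `Algebra.norm_eq_prod_embeddings ℚ ℂ`: the norm of `a` is the product of all `s a`, so its absolute value is at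
most `T ^ card`, `card (K →+* ℂ) = Module.finrank ℚ K` (`NumberField.Embeddings.card`);
`Algebra.coe_norm_int` for the integral norm. one_le_of_mem: the norm of a nonzero integer is a nonzero integer, so
`1 ≤ T^n`, `T ≥ 0`, `n > 0`; if `T < 1` then `T^n < 1` (`pow_lt_one₀`).
not_mem_of_lt: `a ∈ v` gives `Ideal.absNorm v.asIdeal ∣ Ideal.absNorm (span {a}) = |norm a| ≠ 0`
(`Ideal.absNorm_dvd_absNorm_of_le`, `Ideal.absNorm_span_singleton`) so `Nv v ≤ T^n`.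
not_mem_sq_of_lt: the same with `v ^ 2` (`map_pow`).
exists_bx: finitely many embeddings.
-/

set_option autoImplicit false
open scoped Classical

open NumberField IsDedekindDomain

namespace H76PP

variable (K : Type) [Field K] [NumberField K]

variable {K}

theorem bx_mono {T T' : ℝ} (h : T ≤ T') : bx K T ⊆ bx K T' := fun _ ha s => (ha s).trans h

theorem Le_nonneg {T : ℝ} {a : 𝓞 K} (ha : a ∈ bx K T) : 0 ≤ T := by
  obtain ⟨s⟩ : Nonempty (K →+* ℂ) := inferInstance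
  exact (norm_nonneg _).trans (ha s)

theorem bx_zero_mem {T : ℝ} (h : 0 ≤ T) : (0 : 𝓞 K) ∈ bx K T := by
  intro s
  simpa using h

theorem bx_add {T T' : ℝ} {a b : 𝓞 K} (ha : a ∈ bx K T) (hb : b ∈ bx K T') :
    a + b ∈ bx K (T + T') := by
  intro s
  have h1 : ((a + b : 𝓞 K) : K) = (a : K) + (b : K) := by push_cast; rfl
  rw [h1, map_add]
  exact (norm_add_le _ _).trans (add_le_add (ha s) (hb s))

theorem bx_neg {T : ℝ} {a : 𝓞 K} (ha : a ∈ bx K T) : -a ∈ bx K T := by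
  intro s
  have h1 : ((-a : 𝓞 K) : K) = -(a : K) := by push_cast; rfl
  rw [h1, map_neg, norm_neg]
  exact ha s

theorem bx_sub {T T' : ℝ} {a b : 𝓞 K} (ha : a ∈ bx K T) (hb : b ∈ bx K T') :
    a - b ∈ bx K (T + T') := by
  rw [sub_eq_add_neg]
  exact bx_add ha (bx_neg hb)

theorem bx_mul {T T' : ℝ} {a b : 𝓞 K} (ha : a ∈ bx K T) (hb : b ∈ bx K T') :
    a * b ∈ bx K (T * T') := by
  intro s
  have h1 : ((a * b : 𝓞 K) : K) = (a : K) * (b : K) := by push_cast; rfl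
  rw [h1, map_mul, norm_mul]
  exact mul_le_mul (ha s) (hb s) (norm_nonneg _) (Le_nonneg ha)

theorem exists_bx (a : 𝓞 K) : ∃ T : ℝ, a ∈ bx K T := by
  refine ⟨∑ s : K →+* ℂ, ‖s (a : K)‖, fun s => ?_⟩
  exact Finset.single_le_sum (f := fun s : K →+* ℂ => ‖s (a : K)‖)
    (fun _ _ => norm_nonneg _) (Finset.mem_univ s)

theorem bx_norm {T : ℝ} {a : 𝓞 K} (ha : a ∈ bx K T) :
    (((Algebra.norm ℤ a).natAbs : ℕ) : ℝ) ≤ T ^ (Module.finrank ℚ K) := by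
  have h1 : (algebraMap ℚ ℂ) (Algebra.norm ℚ (a : K)) = ∏ s : K →ₐ[ℚ] ℂ, s (a : K) :=
    Algebra.norm_eq_prod_embeddings ℚ ℂ (a : K)
  have h2 : ((Algebra.norm ℤ a : ℤ) : ℚ) = Algebra.norm ℚ (a : K) := Algebra.coe_norm_int a
  rw [← h2] at h1
  have h3 : (((Algebra.norm ℤ a).natAbs : ℕ) : ℝ) =
      ‖(algebraMap ℚ ℂ) ((Algebra.norm ℤ a : ℤ) : ℚ)‖ := by
    rw [map_intCast, Complex.norm_intCast, Nat.cast_natAbs, Int.cast_abs]
  rw [h3, h1, norm_prod]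
  have h4 : ∏ s : K →ₐ[ℚ] ℂ, ‖s (a : K)‖ ≤ ∏ _s : K →ₐ[ℚ] ℂ, T :=
    Finset.prod_le_prod (fun _ _ => norm_nonneg _) fun s _ => ha (s : K →+* ℂ)
  refine h4.trans (le_of_eq ?_)
  rw [Finset.prod_const, Finset.card_univ, AlgHom.card]

theorem Le_norm_ne {a : 𝓞 K} (h0 : a ≠ 0) : 0 < (Algebra.norm ℤ a).natAbs := by
  rw [← Ideal.absNorm_span_singleton, Nat.pos_iff_ne_zero, Ne, Ideal.absNorm_eq_zero_iff,
    Ideal.span_singleton_eq_bot]
  exact h0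

theorem one_le_of_mem {T : ℝ} {a : 𝓞 K} (ha : a ∈ bx K T) (h0 : a ≠ 0) : 1 ≤ T := by
  by_contra hT
  rw [not_le] at hT
  have h1 := bx_norm ha
  have h2 : (1 : ℝ) ≤ (((Algebra.norm ℤ a).natAbs : ℕ) : ℝ) := by exact_mod_cast Le_norm_ne h0
  have hn0 : Module.finrank ℚ K ≠ 0 := Module.finrank_pos.ne'
  exact absurd (h2.trans h1) (not_le.2 (pow_lt_one₀ (Le_nonneg ha) hT hn0))

theorem Le_dvd {T : ℝ} {a : 𝓞 K} (ha : a ∈ bx K T) (h0 : a ≠ 0) {b : Ideal (𝓞 K)} (hb : a ∈ b) :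
    (Ideal.absNorm b : ℝ) ≤ T ^ (Module.finrank ℚ K) := by
  have h1 : Ideal.absNorm b ≤ (Algebra.norm ℤ a).natAbs := by
    refine Nat.le_of_dvd (Le_norm_ne h0) ?_
    rw [← Ideal.absNorm_span_singleton]
    exact Ideal.absNorm_dvd_absNorm_of_le ((Ideal.span_singleton_le_iff_mem b).2 hb)
  have h2 : (Ideal.absNorm b : ℝ) ≤ (((Algebra.norm ℤ a).natAbs : ℕ) : ℝ) := by exact_mod_cast h1
  exact h2.trans (bx_norm ha)

theorem not_mem_of_lt {T : ℝ} {a : 𝓞 K} (ha : a ∈ bx K T) (h0 : a ≠ 0)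
    {v : HeightOneSpectrum (𝓞 K)} (h : T ^ (Module.finrank ℚ K) < (Nv v : ℝ)) : a ∉ v.asIdeal := by
  intro hb
  exact absurd (Le_dvd ha h0 hb) (not_le.2 h)

theorem not_mem_sq_of_lt {T : ℝ} {a : 𝓞 K} (ha : a ∈ bx K T) (h0 : a ≠ 0)
    {v : HeightOneSpectrum (𝓞 K)} (h : T ^ (Module.finrank ℚ K) < (Nv v : ℝ) ^ 2) :
    a ∉ v.asIdeal ^ 2 := by
  intro hb
  have h1 := Le_dvd ha h0 hb
  rw [map_pow, Nat.cast_pow] at h1
  exact absurd h1 (not_le.2 h)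

end H76PP
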