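import Pool.Agent.H76.PP.Df1
import Pool.Agent.H76.PP.E0
import Pool.Agent.H76.PP.Le

/-!
Assembly of the final theorem, part a: twisting the cubic extension, the choice of the auxiliary
primes.
-/

set_option autoImplicit false
set_option linter.unusedSectionVars false
open scoped Classical

open WithZero NumberField IsDedekindDomain H38RT
open H38T1 (SC sc scu rep eo la si Pri OddP tp unif)

namespace H76PP

theorem Cub.twist {K L : Type} [Field K] [Field L] [Algebra K L] {A B : K} {θ : L}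
    (h : Cub K L A B θ) {D : K} (hD : D ≠ 0) :
    Cub K L (D ^ 2 * A) (D ^ 3 * B) (algebraMap K L D * θ) := by
  have hr := h.root
  have hD' : algebraMap K L D ≠ 0 := (map_ne_zero _).2 hD
  refine ⟨?_, ?_, ?_⟩
  · simp only [map_mul, map_pow]
    linear_combination (algebraMap K L D) ^ 3 * hr
  · intro c₀ c₁ c₂ hc
    have h1 : algebraMap K L c₀ + algebraMap K L (c₁ * D) * θ +
        algebraMap K L (c₂ * D ^ 2) * θ ^ 2 = 0 := by
      simp only [map_mul, map_pow]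
      linear_combination hc
    obtain ⟨h0, h2, h3⟩ := h.li _ _ _ h1
    refine ⟨h0, ?_, ?_⟩
    · exact (mul_eq_zero.1 h2).resolve_right hD
    · exact (mul_eq_zero.1 h3).resolve_right (pow_ne_zero 2 hD)
  · intro x
    obtain ⟨c₀, c₁, c₂, hx⟩ := h.sp x
    refine ⟨c₀, c₁ / D, c₂ / D ^ 2, ?_⟩
    rw [hx]
    simp only [map_div₀, map_pow]
    field_simp

theorem ratio_le {q : ℕ} (hq : 40 ≤ q) :
    (1 + 1 / (q : ℝ)) ^ 2 / 4 ≤ 0.55 * (1 / 2 * (1 - 1 / (q : ℝ))) := by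
  have hq' : (40 : ℝ) ≤ (q : ℝ) := by exact_mod_cast hq
  have hu : 1 / (q : ℝ) ≤ 1 / 40 := one_div_le_one_div_of_le (by norm_num) hq'
  have hu0 : 0 ≤ 1 / (q : ℝ) := by positivity
  set u := 1 / (q : ℝ)
  nlinarith

theorem prod_ratio_le {K : Type} [Field K] [NumberField K]
    {T : Finset (HeightOneSpectrum (𝓞 K))} (hT : ∀ v ∈ T, 40 ≤ Nv v) :
    (∏ v ∈ T, ((1 + 1 / (Nv v : ℝ)) ^ 2 / 4)) ≤
      0.55 ^ T.card * ∏ v ∈ T, (1 / 2 * (1 - 1 / (Nv v : ℝ))) := by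
  rw [← Finset.prod_const, ← Finset.prod_mul_distrib]
  refine Finset.prod_le_prod (fun v _ => by positivity) fun v hv => ratio_le (hT v hv)

theorem fin_norm (K : Type) [Field K] [NumberField K] (N : ℕ) :
    {v : HeightOneSpectrum (𝓞 K) | ¬ N ≤ Nv v}.Finite := by
  have h := Ideal.finite_setOf_absNorm_le (S := 𝓞 K) N
  refine Set.Finite.of_finite_image (f := fun v : HeightOneSpectrum (𝓞 K) => v.asIdeal)
    (h.subset ?_) ?_
  · rintro _ ⟨v, hv, rfl⟩
    exact (not_le.1 hv).le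
  · intro v _ w _ hvw
    exact HeightOneSpectrum.ext hvw

theorem exists_T {K : Type} [Field K] [NumberField K] {Z : Set (HeightOneSpectrum (𝓞 K))}
    (hZ : Z.Infinite) (N k : ℕ) : ∃ T : Finset (HeightOneSpectrum (𝓞 K)),
      (∀ v ∈ T, v ∈ Z ∧ N ≤ Nv v) ∧ T.card = k := by
  have h1 : (Z \ {v : HeightOneSpectrum (𝓞 K) | ¬ N ≤ Nv v}).Infinite :=
    hZ.diff (fin_norm K N)
  obtain ⟨T, hT, hk⟩ := h1.exists_subset_card_eq k
  refine ⟨T, fun v hv => ?_, hk⟩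
  obtain ⟨h2, h3⟩ := hT hv
  exact ⟨h2, not_not.1 h3⟩

theorem bx_int_mul {K : Type} [Field K] [NumberField K] {D A : 𝓞 K} {κ X : ℝ}
    (hD : D ∈ bx K κ) (hA : A ∈ bx K (X ^ 2)) : D ^ 2 * A ∈ bx K ((κ * X) ^ 2) := by
  have h := bx_mul (bx_mul hD hD) hA
  rwa [← pow_two, ← pow_two, ← mul_pow] at h

theorem bx_int_mul3 {K : Type} [Field K] [NumberField K] {D A : 𝓞 K} {κ X : ℝ}
    (hD : D ∈ bx K κ) (hA : A ∈ bx K (X ^ 3)) : D ^ 3 * A ∈ bx K ((κ * X) ^ 3) := by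
  have h := bx_mul (bx_mul (bx_mul hD hD) hD) hA
  have e1 : D * D * D = D ^ 3 := by ring
  have e2 : κ * κ * κ * X ^ 3 = (κ * X) ^ 3 := by ring
  rwa [e1, e2] at h

end H76PP
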