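import Pool.Agent.H76.PP.Df0
import Pool.Agent.H38.T1.Df
import Pool.Agent.H10.Sha

/-!
Definitions for the project MP_78d38b_PP, arithmetic part (no row).
-/

set_option autoImplicit false
set_option linter.unusedSectionVars false
open scoped Classical

open WithZero NumberField IsDedekindDomain H38RT
open H38T1 (SC sc scu rep eo la si Pri OddP tp unif)

namespace H76PP

/-- The product in `F[T] / (T^3 + a T + b)` in the basis `1, T, T^2`. -/
def m3 {F : Type*} [CommRing F] (a b : F) (u v : Fin 3 → F) : Fin 3 → F :=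
  ![u 0 * v 0 - b * (u 1 * v 2 + u 2 * v 1),
    u 0 * v 1 + u 1 * v 0 - a * (u 1 * v 2 + u 2 * v 1) - b * (u 2 * v 2),
    u 0 * v 2 + u 1 * v 1 + u 2 * v 0 - a * (u 2 * v 2)]

/-- The local condition for the curve `y^2 = x^3 + a x + b` over the extension `F` of `K` on the
element `d 0 + d 1 θ + d 2 θ^2`: it is the class of `x - θ` for a point `(x, y)` over `F`, `y ≠ 0`. -/
def LC {K F : Type*} [Field K] [Field F] (i : K →+* F) (a b : K) (d : Fin 3 → K) : Prop :=
  ∃ (x y : F) (z : Fin 3 → F), y ≠ 0 ∧ y ^ 2 = x ^ 3 + i a * x + i b ∧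
    m3 (i a) (i b) (fun j => i (d j)) ![x, -1, 0] = m3 (i a) (i b) z z

/-- The element with given coordinates. -/
def ev {K L : Type*} [Field K] [Field L] [Algebra K L] (θ : L) (d : Fin 3 → K) : L :=
  algebraMap K L (d 0) + algebraMap K L (d 1) * θ + algebraMap K L (d 2) * θ ^ 2

/-- The two-Selmer group of `y^2 = x^3 + a x + b` is trivial (in terms of classes of `L`). -/
def SelTriv (K L : Type) [Field K] [NumberField K] [Field L] [NumberField L] [Algebra K L]
    (a b : K) (θ : L) : Prop :=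
  ∀ d : Fin 3 → K, ev θ d ≠ 0 → IsSquare (Algebra.norm K (ev θ d)) →
    (∀ v : HeightOneSpectrum (𝓞 K), LC (algebraMap K (v.adicCompletion K)) a b d) →
    (∀ s : K →+* ℝ, LC s a b d) → IsSquare (ev θ d)

/-- The map of square classes induced by a multiplicative map of fields. -/
noncomputable def scm {F F' : Type} [Field F] [Field F'] (f : F →* F') : SC F →+ SC F' :=
  (MonoidHom.toAdditive (QuotientGroup.map (powMonoidHom 2 : Fˣ →* Fˣ).range
    (powMonoidHom 2 : F'ˣ →* F'ˣ).range (Units.map f) (by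
    rintro x ⟨y, rfl⟩
    exact ⟨Units.map f y, by
      ext
      simp [powMonoidHom_apply]⟩)) :
    Additive (Fˣ ⧸ (powMonoidHom 2 : Fˣ →* Fˣ).range) →+
      Additive (F'ˣ ⧸ (powMonoidHom 2 : F'ˣ →* F'ˣ).range))

lemma scm_scu {F F' : Type} [Field F] [Field F'] (f : F →* F') (u : Additive Fˣ) :
    scm f (scu F u) = scu F' (Additive.ofMul (Units.map f (Additive.toMul u))) := rfl

lemma scm_ne {F F' : Type} [Field F] [Field F'] (f : F →* F') {x : F} (hx : x ≠ 0) : f x ≠ 0 := by
  have h : IsUnit (f x) := (Units.mk0 x hx).isUnit.map f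
  exact h.ne_zero

lemma scm_sc {F F' : Type} [Field F] [Field F'] (f : F →* F') {x : F} (hx : x ≠ 0) :
    scm f (sc x) = sc (f x) := by
  rw [H38T1.sc_of_ne hx, H38T1.sc_of_ne (scm_ne f hx), scm_scu]
  congr 1
  apply Additive.toMul.injective
  ext
  rfl

section Places

variable (K : Type) {L : Type} [Field K] [NumberField K] [Field L] [NumberField L] [Algebra K L]

/-- The place of `K` below a place of `L`. -/
noncomputable def dn (w : HeightOneSpectrum (𝓞 L)) : HeightOneSpectrum (𝓞 K) where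
  asIdeal := w.asIdeal.comap (algebraMap (𝓞 K) (𝓞 L))
  isPrime := w.isPrime.comap _
  ne_bot := by
    have h := w.isPrime
    exact Ideal.IsIntegral.comap_ne_bot (R := 𝓞 K) w.ne_bot

end Places

section Main

variable {K : Type} [Field K] [NumberField K]

/-- There is a nontrivial class of `L`, `L = K[x] / (x^3 + A x + B)`, of square norm, with even
valuations and trivial at the primes above `T`. -/
def BadP (T : Finset (HeightOneSpectrum (𝓞 K))) (A B : 𝓞 K) : Prop :=
  ∃ (L : Type) (_ : Field L) (_ : NumberField L) (_ : Algebra K L) (θ : L) (c : SC L),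
    Cub K L (A : K) (B : K) θ ∧ c ≠ 0 ∧ scm (Algebra.norm K : L →* K) c = 0 ∧
    (∀ w : HeightOneSpectrum (𝓞 L), eo w c = 0) ∧
    ∀ w : HeightOneSpectrum (𝓞 L), dn K w ∈ T → la w c = 0

/-- `p` is an auxiliary prime (relative to `q₀`): `p / q₀` has a generator which is congruent to one
modulo eight and positive at the real places. -/
def AuxP (q₀ p : HeightOneSpectrum (𝓞 K)) : Prop :=
  (6 : 𝓞 K) ∉ p.asIdeal ∧ p ≠ q₀ ∧ ∃ D : K, D ≠ 0 ∧ p.valuation K D = exp (-1) ∧
    q₀.valuation K D = exp 1 ∧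
    (∀ v : HeightOneSpectrum (𝓞 K), v ≠ p → v ≠ q₀ → v.valuation K D = 1) ∧
    (∀ v : HeightOneSpectrum (𝓞 K), v.valuation K 2 < 1 →
      v.valuation K (D - 1) ≤ v.valuation K 8) ∧ ∀ s : K →+* ℝ, 0 < s D

/-- `D` is a twisting factor for the set `J` of auxiliary primes. -/
structure TwD (q₀ : HeightOneSpectrum (𝓞 K)) (J : Finset (HeightOneSpectrum (𝓞 K))) (D : K) :
    Prop where
  ne : D ≠ 0
  odd : ∀ v ∈ J, Odd (ord (v.valuation K) D)
  even : ∀ v : HeightOneSpectrum (𝓞 K), v ∉ J → v ≠ q₀ → Even (ord (v.valuation K) D)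
  two : ∀ v : HeightOneSpectrum (𝓞 K), v.valuation K 2 < 1 → ∃ m : K, m ≠ 0 ∧
    v.valuation K (D * m ^ 2 - 1) ≤ v.valuation K 8
  pos : ∀ s : K →+* ℝ, 0 < s D

end Main

end H76PP
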