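import Pool.Agent.H76.PP.Ea
import Pool.Agent.H76.PP.Df1

/-! ROW Fa (project MP_78d38b_PP): the place of `L` attached to a root of the cubic modulo `v`. -/

set_option autoImplicit false
open scoped Classical

open WithZero NumberField IsDedekindDomain

namespace H76PP

theorem exists_place {K : Type} [Field K] [NumberField K] {q₀ : HeightOneSpectrum (𝓞 K)}
    {T : Finset (HeightOneSpectrum (𝓞 K))} {A B : 𝓞 K} (hF : Fam q₀ T A B) {L : Type} [Field L]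
    [NumberField L] [Algebra K L] {θ : L} (h : Cub K L (A : K) (B : K) θ)
    (v : HeightOneSpectrum (𝓞 K)) {t : 𝓞 K} (ht : t ^ 3 + A * t + B ∈ v.asIdeal) :
    ∃ (w : HeightOneSpectrum (𝓞 L)) (χ : 𝓞 L →+* 𝓞 K ⧸ v.asIdeal), dn K w = v ∧
      (∀ x : 𝓞 L, χ x = 0 ↔ x ∈ w.asIdeal) ∧
      (∀ a : 𝓞 K, χ (algebraMap (𝓞 K) (𝓞 L) a) = Ideal.Quotient.mk v.asIdeal a) ∧
      ∀ (x : 𝓞 L) (c : Fin 3 → 𝓞 K), (∀ i, h.co i (x : L) = (c i : K)) →
        χ x = Ideal.Quotient.mk v.asIdeal (c 0 + c 1 * t + c 2 * t ^ 2) := by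
  have ka : ∀ x y : 𝓞 K, ((x + y : 𝓞 K) : K) = (x : K) + (y : K) := fun _ _ => rfl
  have ks : ∀ x y : 𝓞 K, ((x - y : 𝓞 K) : K) = (x : K) - (y : K) := fun _ _ => rfl
  have km : ∀ x y : 𝓞 K, ((x * y : 𝓞 K) : K) = (x : K) * (y : K) := fun _ _ => rfl
  have la : ∀ x y : 𝓞 L, ((x + y : 𝓞 L) : L) = (x : L) + (y : L) := fun _ _ => rfl
  have lm : ∀ x y : 𝓞 L, ((x * y : 𝓞 L) : L) = (x : L) * (y : L) := fun _ _ => rfl
  have kz : ((0 : 𝓞 K) : K) = 0 := rfl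
  choose c hc using fun x : 𝓞 L => int_coord hF h x
  have huniq : ∀ (x : 𝓞 L) (d : Fin 3 → 𝓞 K), (∀ i, h.co i (x : L) = (d i : K)) →
      ∀ i, c x i = d i := fun x d hd i => RingOfIntegers.ext ((hc x i).symm.trans (hd i))
  have hadd : ∀ (x y : 𝓞 L) (i : Fin 3), c (x + y) i = c x i + c y i := by
    intro x y
    refine huniq (x + y) (fun i => c x i + c y i) (fun i => ?_)
    rw [ka, ← hc x i, ← hc y i, la, map_add]
  have hmul0 : ∀ x y : 𝓞 L, c (x * y) 0 =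
      c x 0 * c y 0 - B * (c x 1 * c y 2 + c x 2 * c y 1) := by
    intro x y
    apply RingOfIntegers.ext
    have e := (h.co_mul (x : L) (y : L)).1
    rw [hc x, hc x, hc x, hc y, hc y, hc y] at e
    rw [← hc (x * y) 0, lm, e]
    simp only [ks, km, ka]
  have hmul1 : ∀ x y : 𝓞 L, c (x * y) 1 = c x 0 * c y 1 + c x 1 * c y 0 -
      A * (c x 1 * c y 2 + c x 2 * c y 1) - B * (c x 2 * c y 2) := by
    intro x y
    apply RingOfIntegers.ext
    have e := (h.co_mul (x : L) (y : L)).2.1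
    rw [hc x, hc x, hc x, hc y, hc y, hc y] at e
    rw [← hc (x * y) 1, lm, e]
    simp only [ks, km, ka]
  have hmul2 : ∀ x y : 𝓞 L, c (x * y) 2 = c x 0 * c y 2 + c x 1 * c y 1 + c x 2 * c y 0 -
      A * (c x 2 * c y 2) := by
    intro x y
    apply RingOfIntegers.ext
    have e := (h.co_mul (x : L) (y : L)).2.2
    rw [hc x, hc x, hc x, hc y, hc y, hc y] at e
    rw [← hc (x * y) 2, lm, e]
    simp only [ks, km, ka]
  have halg : ∀ a : 𝓞 K, c (algebraMap (𝓞 K) (𝓞 L) a) 0 = a ∧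
      c (algebraMap (𝓞 K) (𝓞 L) a) 1 = 0 ∧ c (algebraMap (𝓞 K) (𝓞 L) a) 2 = 0 := by
    intro a
    have e1 : ((algebraMap (𝓞 K) (𝓞 L) a : 𝓞 L) : L) = algebraMap K L (a : K) := rfl
    obtain ⟨b0, b1, b2⟩ := h.co_mk' (a : K) 0 0
    have hx : algebraMap K L (a : K) + algebraMap K L 0 * θ + algebraMap K L 0 * θ ^ 2 =
        algebraMap K L (a : K) := by simp
    rw [hx] at b0 b1 b2
    refine ⟨RingOfIntegers.ext ?_, RingOfIntegers.ext ?_, RingOfIntegers.ext ?_⟩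
    · rw [← hc, e1, b0]
    · rw [← hc, e1, b1, kz]
    · rw [← hc, e1, b2, kz]
  obtain ⟨χ, hχ⟩ : ∃ χ : 𝓞 L →+* 𝓞 K ⧸ v.asIdeal, ∀ x, χ x =
      Ideal.Quotient.mk v.asIdeal (c x 0 + c x 1 * t + c x 2 * t ^ 2) := by
    refine ⟨RingHom.mk' ⟨⟨fun x =>
        Ideal.Quotient.mk v.asIdeal (c x 0 + c x 1 * t + c x 2 * t ^ 2), ?_⟩, ?_⟩ ?_,
        fun x => rfl⟩
    · obtain ⟨e0, e1, e2⟩ := halg 1
      rw [map_one (algebraMap (𝓞 K) (𝓞 L))] at e0 e1 e2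
      rw [e0, e1, e2, zero_mul, zero_mul, add_zero, add_zero, map_one]
    · intro x y
      rw [← map_mul, Ideal.Quotient.eq, hmul0, hmul1, hmul2]
      have e : c x 0 * c y 0 - B * (c x 1 * c y 2 + c x 2 * c y 1) +
          (c x 0 * c y 1 + c x 1 * c y 0 - A * (c x 1 * c y 2 + c x 2 * c y 1) -
            B * (c x 2 * c y 2)) * t +
          (c x 0 * c y 2 + c x 1 * c y 1 + c x 2 * c y 0 - A * (c x 2 * c y 2)) * t ^ 2 -
          (c x 0 + c x 1 * t + c x 2 * t ^ 2) * (c y 0 + c y 1 * t + c y 2 * t ^ 2) =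
          (-((c x 1 * c y 2 + c x 2 * c y 1) + c x 2 * c y 2 * t)) * (t ^ 3 + A * t + B) := by
        ring
      rw [e]
      exact Ideal.mul_mem_left _ _ ht
    · intro x y
      show Ideal.Quotient.mk v.asIdeal (c (x + y) 0 + c (x + y) 1 * t + c (x + y) 2 * t ^ 2) =
        Ideal.Quotient.mk v.asIdeal (c x 0 + c x 1 * t + c x 2 * t ^ 2) +
        Ideal.Quotient.mk v.asIdeal (c y 0 + c y 1 * t + c y 2 * t ^ 2)
      rw [← map_add, hadd, hadd, hadd]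
      congr 1
      ring
  have hχa : ∀ a : 𝓞 K, χ (algebraMap (𝓞 K) (𝓞 L) a) = Ideal.Quotient.mk v.asIdeal a := by
    intro a
    obtain ⟨e0, e1, e2⟩ := halg a
    rw [hχ, e0, e1, e2, zero_mul, zero_mul, add_zero, add_zero]
  have hpr : (RingHom.ker χ).IsPrime := RingHom.ker_isPrime χ
  have hne : RingHom.ker χ ≠ ⊥ := by
    intro hbot
    obtain ⟨a, ha, ha0⟩ := Submodule.exists_mem_ne_zero_of_ne_bot v.ne_bot
    have h1 : algebraMap (𝓞 K) (𝓞 L) a ∈ RingHom.ker χ := by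
      rw [RingHom.mem_ker, hχa]
      exact Ideal.Quotient.eq_zero_iff_mem.2 ha
    rw [hbot, Ideal.mem_bot] at h1
    exact ha0 ((map_eq_zero_iff _ (FaithfulSMul.algebraMap_injective (𝓞 K) (𝓞 L))).1 h1)
  refine ⟨⟨RingHom.ker χ, hpr, hne⟩, χ, ?_, fun x => RingHom.mem_ker.symm, hχa, ?_⟩
  · apply HeightOneSpectrum.ext
    ext a
    show algebraMap (𝓞 K) (𝓞 L) a ∈ RingHom.ker χ ↔ a ∈ v.asIdeal
    rw [RingHom.mem_ker, hχa, Ideal.Quotient.eq_zero_iff_mem]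
  · intro x d hd
    rw [hχ, huniq x d hd, huniq x d hd, huniq x d hd]

end H76PP
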