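import Pool.Agent.H76.PP.Tb
import Pool.Agent.H76.PP.Fa

/-!
ROW Tc (project MP_78d38b_PP, about 200 lines): (4.4) of the note, the orders of `x - θ`. Use only the STATEMENTS of
the imported rows (`int_coord`, `exists_place`, `ord_norm`, Ta).

PROOF. First for `x = (a : 𝓞 K)`. Put `τ = a - θ ∈ 𝓞 L` (`theta_int`).
(1) If `w` is a place above `v` with `τ ∈ w`: then for every `y : 𝓞 L` with coordinates `c` (int_coord)
`y - (c 0 + c 1 a + c 2 a^2) ∈ w` (it is a multiple of `τ`). Hence `𝓞 K → 𝓞 L / w` is onto, so `inertiaDeg = 1`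
(`Ideal.inertiaDeg` is the dimension of `𝓞 L / w` over `𝓞 K / v`; `Ideal.inertiaDeg_algebraMap`,
`finrank_eq_one_iff`). If `w, w'` are both such and `w ≠ w'`: choose `y ∈ w`, `y ∉ w'` (both maximal) and `c` as above:
`s = c 0 + c 1 a + c 2 a^2 ∈ 𝓞 K` is congruent to `y` modulo `w` and modulo `w'`: so `s ∈ w ∩ 𝓞 K = v = w' ∩ 𝓞 K`, hence
`y ∈ w'`, contradiction. So there is at most one such `w`.
(2) `ord_norm` for `u = a - θ` (norm `f(a) = a^3 + A a + B`, `Cub.norm_sub`): all terms with `ord_w (a - θ) = 0` vanish. If there is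
no `w` with `τ ∈ w` then `ord_v f(a) = 0` and `w₁` arbitrary (exists_above) works. Otherwise `ord_v f(a) = 1 * ord_{w₁}`.
(3) General `x ∈ K`, `v.valuation K x ≤ 1`: choose `a : 𝓞 K` with `v.valuation K (x - a) ≤ exp (-N)`, `N` larger than
`ord_v f(x)` and than all `ord_w (x - θ)`, `w` above `v` (finitely many; they are `≥ 0`; `x ≠ θ`; density of `𝓞 K` in the integers at
`v`: `HeightOneSpectrum.exists_valuation_sub_lt_of_integer` or multiply by a denominator prime to `v`). Then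
`ord_w (a - θ) = ord_w (x - θ)` (`val_exp_le`) and `ord_v f(a) = ord_v f(x)`
(`f(a) - f(x) = (a - x)(..)` with integral factor).
-/

set_option autoImplicit false
set_option linter.unusedSectionVars false
open scoped Classical

open WithZero NumberField IsDedekindDomain H38RT
open H38T1 (SC sc scu rep eo la si Pri OddP tp unif)

namespace H76PP

variable {K L : Type} [Field K] [NumberField K] [Field L] [NumberField L] [Algebra K L]

theorem Tc_s {q₀ : HeightOneSpectrum (𝓞 K)} {T : Finset (HeightOneSpectrum (𝓞 K))} {A B : 𝓞 K}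
    (hF : Fam q₀ T A B) {θ : L} (h : Cub K L (A : K) (B : K) θ) {t : 𝓞 L} (ht : (t : L) = θ)
    (a : 𝓞 K) (y : 𝓞 L) : ∃ s : 𝓞 K, y - algebraMap (𝓞 K) (𝓞 L) s ∈
      Ideal.span {algebraMap (𝓞 K) (𝓞 L) a - t} := by
  obtain ⟨c, hc⟩ := int_coord hF h y
  refine ⟨c 0 + c 1 * a + c 2 * a ^ 2, ?_⟩
  rw [Ideal.mem_span_singleton]
  refine ⟨-(algebraMap (𝓞 K) (𝓞 L) (c 1) + algebraMap (𝓞 K) (𝓞 L) (c 2) * (t + algebraMap (𝓞 K) (𝓞 L) a)), ?_⟩
  apply RingOfIntegers.ext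
  have e := h.eq_co (y : L)
  rw [hc, hc, hc] at e
  change (y : L) - algebraMap K L ((c 0 : K) + (c 1 : K) * (a : K) + (c 2 : K) * (a : K) ^ 2) =
    (algebraMap K L (a : K) - (t : L)) * -(algebraMap K L (c 1 : K) + algebraMap K L (c 2 : K) * ((t : L) + algebraMap K L (a : K)))
  rw [e, ht]
  simp only [map_add, map_mul, map_pow]
  ring

theorem Tc_inertia {q₀ : HeightOneSpectrum (𝓞 K)} {T : Finset (HeightOneSpectrum (𝓞 K))} {A B : 𝓞 K}
    (hF : Fam q₀ T A B) {θ : L} (h : Cub K L (A : K) (B : K) θ) {t : 𝓞 L} (ht : (t : L) = θ)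
    (a : 𝓞 K) {w : HeightOneSpectrum (𝓞 L)} (hw : algebraMap (𝓞 K) (𝓞 L) a - t ∈ w.asIdeal) :
    w.asIdeal.inertiaDeg (𝓞 K) = 1 := by
  have hm1 := w.isMaximal
  have hm2 := (dn K w).isMaximal
  have hl : w.asIdeal.LiesOver (dn K w).asIdeal := ⟨rfl⟩
  rw [Ideal.inertiaDeg_eq_of_isMaximal (dn K w).asIdeal w.asIdeal]
  refine finrank_eq_one (1 : 𝓞 L ⧸ w.asIdeal) one_ne_zero fun z => ?_
  obtain ⟨y, rfl⟩ := Ideal.Quotient.mk_surjective z
  obtain ⟨s, hs⟩ := Tc_s hF h ht a y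
  refine ⟨Ideal.Quotient.mk _ s, ?_⟩
  have h1 : y - algebraMap (𝓞 K) (𝓞 L) s ∈ w.asIdeal := (Ideal.span_singleton_le_iff_mem _).2 hw hs
  have h2 : Ideal.Quotient.mk w.asIdeal y = Ideal.Quotient.mk w.asIdeal (algebraMap (𝓞 K) (𝓞 L) s) :=
    Ideal.Quotient.eq.2 h1
  rw [h2, Algebra.smul_def, mul_one]
  rfl

theorem Tc_uniq {q₀ : HeightOneSpectrum (𝓞 K)} {T : Finset (HeightOneSpectrum (𝓞 K))} {A B : 𝓞 K}
    (hF : Fam q₀ T A B) {θ : L} (h : Cub K L (A : K) (B : K) θ) {t : 𝓞 L} (ht : (t : L) = θ)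
    (a : 𝓞 K) {w w' : HeightOneSpectrum (𝓞 L)} (hw : algebraMap (𝓞 K) (𝓞 L) a - t ∈ w.asIdeal)
    (hw' : algebraMap (𝓞 K) (𝓞 L) a - t ∈ w'.asIdeal) (hd : dn K w = dn K w') : w = w' := by
  by_contra hne
  have hle : ¬ (w.asIdeal ≤ w'.asIdeal) := fun hle =>
    hne (HeightOneSpectrum.ext (w.isMaximal.eq_of_le w'.isPrime.ne_top hle))
  obtain ⟨y, hy, hy'⟩ := SetLike.not_le_iff_exists.1 hle
  obtain ⟨s, hs⟩ := Tc_s hF h ht a y
  have hs1 : y - algebraMap (𝓞 K) (𝓞 L) s ∈ w.asIdeal := (Ideal.span_singleton_le_iff_mem _).2 hw hs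
  have hs2 : y - algebraMap (𝓞 K) (𝓞 L) s ∈ w'.asIdeal := (Ideal.span_singleton_le_iff_mem _).2 hw' hs
  have hsw : algebraMap (𝓞 K) (𝓞 L) s ∈ w.asIdeal := by
    have h3 := Ideal.sub_mem _ hy hs1
    rwa [sub_sub_cancel] at h3
  have hsv : s ∈ (dn K w).asIdeal := hsw
  rw [hd] at hsv
  have hsw' : algebraMap (𝓞 K) (𝓞 L) s ∈ w'.asIdeal := hsv
  apply hy'
  have h3 := Ideal.add_mem _ hs2 hsw'
  rwa [sub_add_cancel] at h3

theorem Tc_ord_one {E : Type} [Field E] {V : Valuation E ℤᵐ⁰} {x : E} (hx : V x = 1) : ord V x = 0 := by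
  unfold ord
  rw [hx, log_one, neg_zero]

theorem Tc_int {q₀ : HeightOneSpectrum (𝓞 K)} {T : Finset (HeightOneSpectrum (𝓞 K))} {A B : 𝓞 K}
    (hF : Fam q₀ T A B) {θ : L} (h : Cub K L (A : K) (B : K) θ) (v : HeightOneSpectrum (𝓞 K))
    (a : 𝓞 K) (hfx : (a : K) ^ 3 + (A : K) * (a : K) + (B : K) ≠ 0) :
    ∃ w₁ : HeightOneSpectrum (𝓞 L), dn K w₁ = v ∧
      ord (w₁.valuation L) (algebraMap K L (a : K) - θ) =
        ord (v.valuation K) ((a : K) ^ 3 + (A : K) * (a : K) + (B : K)) ∧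
      ∀ w : HeightOneSpectrum (𝓞 L), dn K w = v → w ≠ w₁ →
        w.valuation L (algebraMap K L (a : K) - θ) = 1 := by
  obtain ⟨t, ht⟩ := theta_int h
  have hn := h.norm_sub (a : K)
  have hu : algebraMap K L (a : K) - θ ≠ 0 := by
    intro h0
    rw [h0, Algebra.norm_zero] at hn
    exact hfx hn.symm
  have hval : ∀ w : HeightOneSpectrum (𝓞 L), algebraMap (𝓞 K) (𝓞 L) a - t ∉ w.asIdeal →
      w.valuation L (algebraMap K L (a : K) - θ) = 1 := by
    intro w hw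
    have h1 := (HeightOneSpectrum.valuation_eq_one_iff_notMem (K := L) (v := w)).2 hw
    rw [← ht]
    exact h1
  have hsum := ord_norm (K := K) v hu
  rw [hn] at hsum
  by_cases hex : ∃ w : HeightOneSpectrum (𝓞 L), dn K w = v ∧ algebraMap (𝓞 K) (𝓞 L) a - t ∈ w.asIdeal
  · obtain ⟨w₁, hw1, hw2⟩ := hex
    have hother : ∀ w : HeightOneSpectrum (𝓞 L), dn K w = v → w ≠ w₁ →
        w.valuation L (algebraMap K L (a : K) - θ) = 1 := by
      intro w hw hne
      refine hval w fun hmem => hne ?_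
      exact Tc_uniq hF h ht a hmem hw2 (hw.trans hw1.symm)
    refine ⟨w₁, hw1, ?_, hother⟩
    rw [hsum, finsum_eq_single _ (⟨w₁, hw1⟩ : {w : HeightOneSpectrum (𝓞 L) // dn K w = v})]
    · change _ = (w₁.asIdeal.inertiaDeg (𝓞 K) : ℤ) * ord (w₁.valuation L) (algebraMap K L (a : K) - θ)
      rw [Tc_inertia hF h ht a hw2, Nat.cast_one, one_mul]
    · rintro ⟨w, hw⟩ hne
      have hne' : w ≠ w₁ := fun h0 => hne (Subtype.ext h0)
      change (w.asIdeal.inertiaDeg (𝓞 K) : ℤ) * ord (w.valuation L) (algebraMap K L (a : K) - θ) = 0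
      rw [Tc_ord_one (hother w hw hne'), mul_zero]
  · have hall : ∀ w : HeightOneSpectrum (𝓞 L), dn K w = v → w.valuation L (algebraMap K L (a : K) - θ) = 1 :=
      fun w hw => hval w fun hmem => hex ⟨w, hw, hmem⟩
    obtain ⟨w₁, hw1⟩ := exists_above (L := L) v
    refine ⟨w₁, hw1, ?_, fun w hw _ => hall w hw⟩
    rw [Tc_ord_one (hall w₁ hw1), hsum, finsum_eq_zero_of_forall_eq_zero]
    rintro ⟨w, hw⟩
    change (w.asIdeal.inertiaDeg (𝓞 K) : ℤ) * ord (w.valuation L) (algebraMap K L (a : K) - θ) = 0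
    rw [Tc_ord_one (hall w hw), mul_zero]

theorem Tc_small {ι : Type} (S : Finset ι) (g : ι → ℤᵐ⁰) (hg : ∀ i ∈ S, g i ≠ 0) :
    ∃ N : ℤ, 0 ≤ N ∧ ∀ i ∈ S, exp (-N) < g i := by
  refine ⟨∑ i ∈ S, |log (g i)| + 1, ?_, fun i hi => ?_⟩
  · have := Finset.sum_nonneg (s := S) (f := fun i => |log (g i)|) fun i _ => abs_nonneg _
    linarith
  · have h1 : |log (g i)| ≤ ∑ i ∈ S, |log (g i)| :=
      Finset.single_le_sum (f := fun i => |log (g i)|) (fun i _ => abs_nonneg _) hi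
    have h2 := neg_abs_le (log (g i))
    rw [← exp_log (hg i hi), exp_lt_exp]
    linarith

theorem ord_sub {q₀ : HeightOneSpectrum (𝓞 K)} {T : Finset (HeightOneSpectrum (𝓞 K))} {A B : 𝓞 K}
    (hF : Fam q₀ T A B) {θ : L} (h : Cub K L (A : K) (B : K) θ) (v : HeightOneSpectrum (𝓞 K))
    {x : K} (hx : v.valuation K x ≤ 1) (hfx : x ^ 3 + (A : K) * x + (B : K) ≠ 0) :
    ∃ w₁ : HeightOneSpectrum (𝓞 L), dn K w₁ = v ∧
      ord (w₁.valuation L) (algebraMap K L x - θ) =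
        ord (v.valuation K) (x ^ 3 + (A : K) * x + (B : K)) ∧
      ∀ w : HeightOneSpectrum (𝓞 L), dn K w = v → w ≠ w₁ →
        w.valuation L (algebraMap K L x - θ) = 1 := by
  have hn := h.norm_sub x
  have hu : algebraMap K L x - θ ≠ 0 := by
    intro h0
    rw [h0, Algebra.norm_zero] at hn
    exact hfx hn.symm
  obtain ⟨N1, hN1, hN1'⟩ := Tc_small (fin_above (K := K) (L := L) v).toFinset
    (fun w => w.valuation L (algebraMap K L x - θ)) (fun w _ => (Valuation.ne_zero_iff _).2 hu)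
  obtain ⟨N2, hN2, hN2'⟩ := Tc_small ({0} : Finset ℕ)
    (fun _ => v.valuation K (x ^ 3 + (A : K) * x + (B : K))) (fun w _ => (Valuation.ne_zero_iff _).2 hfx)
  have hN2'' := hN2' 0 (Finset.mem_singleton_self _)
  obtain ⟨N, hN⟩ : ∃ N, N = N1 + N2 := ⟨_, rfl⟩
  have hN0 : 0 ≤ N := by omega
  have hNN1 : exp (-N) ≤ (exp (-N1) : ℤᵐ⁰) := by rw [exp_le_exp]; omega
  have hNN2 : exp (-N) ≤ (exp (-N2) : ℤᵐ⁰) := by rw [exp_le_exp]; omega
  obtain ⟨a, ha⟩ := v.exists_valuation_sub_lt_of_integer hx (Units.mk0 (exp (-N)) exp_ne_zero)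
  rw [Units.val_mk0] at ha
  have ha' : v.valuation K ((a : K) - x) < exp (-N) := ha
  -- the value of f
  have hvA : v.valuation K (A : K) ≤ 1 := v.valuation_le_one A
  have hva : v.valuation K (a : K) ≤ 1 := v.valuation_le_one a
  have hfd : v.valuation K (((a : K) ^ 3 + (A : K) * (a : K) + (B : K)) - (x ^ 3 + (A : K) * x + (B : K))) <
      v.valuation K (x ^ 3 + (A : K) * x + (B : K)) := by
    have e1 : ((a : K) ^ 3 + (A : K) * (a : K) + (B : K)) - (x ^ 3 + (A : K) * x + (B : K)) =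
        ((a : K) - x) * ((a : K) ^ 2 + (a : K) * x + x ^ 2 + (A : K)) := by ring
    have e2 : v.valuation K ((a : K) ^ 2 + (a : K) * x + x ^ 2 + (A : K)) ≤ 1 := by
      refine (v.valuation K).map_add_le ((v.valuation K).map_add_le ((v.valuation K).map_add_le ?_ ?_) ?_) hvA
      · rw [map_pow]; exact pow_le_one' hva 2
      · rw [map_mul]; exact mul_le_one' hva hx
      · rw [map_pow]; exact pow_le_one' hx 2
    rw [e1, map_mul]
    calc _ ≤ v.valuation K ((a : K) - x) * 1 := mul_le_mul_right e2 _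
      _ < _ := by rw [mul_one]; exact ha'.trans_le (hNN2.trans hN2''.le)
  have hfa : v.valuation K ((a : K) ^ 3 + (A : K) * (a : K) + (B : K)) =
      v.valuation K (x ^ 3 + (A : K) * x + (B : K)) := Valuation.map_eq_of_sub_lt _ hfd
  have hfa0 : (a : K) ^ 3 + (A : K) * (a : K) + (B : K) ≠ 0 := by
    rw [← Valuation.ne_zero_iff (v.valuation K), hfa]
    exact (Valuation.ne_zero_iff _).2 hfx
  have hwa : ∀ w : HeightOneSpectrum (𝓞 L), dn K w = v →
      w.valuation L (algebraMap K L (a : K) - θ) = w.valuation L (algebraMap K L x - θ) := by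
    intro w hw
    refine Valuation.map_eq_of_sub_lt _ ?_
    have e1 : (algebraMap K L (a : K) - θ) - (algebraMap K L x - θ) = algebraMap K L ((a : K) - x) := by
      rw [map_sub]; ring
    rw [e1]
    have e2 : w.valuation L (algebraMap K L ((a : K) - x)) ≤ exp (-N) := by
      refine val_exp_le hN0 ?_
      rw [hw]
      exact ha'.le
    refine lt_of_le_of_lt (e2.trans hNN1) (hN1' w ?_)
    rw [Set.Finite.mem_toFinset]
    exact hw
  obtain ⟨w₁, hw1, hw2, hw3⟩ := Tc_int hF h v a hfa0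
  refine ⟨w₁, hw1, ?_, fun w hw hne => ?_⟩
  · unfold ord at hw2 ⊢
    rw [← hwa w₁ hw1, ← hfa]
    exact hw2
  · rw [← hwa w hw]
    exact hw3 w hw hne

/-- The case of a denominator. -/
theorem ord_sub_big {A B : 𝓞 K} {θ : L} (h : Cub K L (A : K) (B : K) θ)
    {w : HeightOneSpectrum (𝓞 L)} {x : K} (hx : 1 < (dn K w).valuation K x) :
    w.valuation L (algebraMap K L x - θ) = w.valuation L (algebraMap K L x) ∧
    w.valuation L (θ / algebraMap K L x) < 1 ∧
    (dn K w).valuation K ((x ^ 3 + (A : K) * x + (B : K)) / x ^ 3 - 1) < 1 ∧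
    (dn K w).valuation K (x ^ 3 + (A : K) * x + (B : K)) = (dn K w).valuation K x ^ 3 := by
  obtain ⟨t, ht⟩ := theta_int h
  obtain ⟨v, hv⟩ : ∃ v, v = dn K w := ⟨_, rfl⟩
  have hx0 : x ≠ 0 := by
    rintro rfl
    rw [map_zero] at hx
    exact absurd hx (not_lt.2 zero_le_one)
  have hxi : (dn K w).valuation K x⁻¹ < 1 := by
    rw [map_inv₀]
    exact inv_lt_one_of_one_lt₀ hx
  have hwi : w.valuation L (algebraMap K L x⁻¹) < 1 := val_lt hxi
  have hwt : w.valuation L θ ≤ 1 := by rw [← ht]; exact w.valuation_le_one t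
  have hwx0 : w.valuation L (algebraMap K L x) ≠ 0 := (Valuation.ne_zero_iff _).2 ((map_ne_zero _).2 hx0)
  have hwx : 1 < w.valuation L (algebraMap K L x) := by
    rw [map_inv₀, map_inv₀] at hwi
    exact (inv_lt_one₀ (zero_lt_iff.2 hwx0)).1 hwi
  have hvA : (dn K w).valuation K (A : K) ≤ 1 := (dn K w).valuation_le_one A
  have hvB : (dn K w).valuation K (B : K) ≤ 1 := (dn K w).valuation_le_one B
  have h3 : (dn K w).valuation K ((x ^ 3 + (A : K) * x + (B : K)) / x ^ 3 - 1) < 1 := by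
    have e1 : (x ^ 3 + (A : K) * x + (B : K)) / x ^ 3 - 1 = x⁻¹ * (x⁻¹ * ((A : K) + (B : K) * x⁻¹)) := by
      field_simp
      ring
    have e2 : (dn K w).valuation K ((A : K) + (B : K) * x⁻¹) ≤ 1 := by
      refine ((dn K w).valuation K).map_add_le hvA ?_
      rw [map_mul]
      exact mul_le_one' hvB hxi.le
    rw [e1, map_mul, map_mul]
    calc _ ≤ (dn K w).valuation K x⁻¹ * 1 := mul_le_mul_right (mul_le_one' hxi.le e2) _
      _ < 1 := by rw [mul_one]; exact hxi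
  refine ⟨?_, ?_, h3, ?_⟩
  · refine Valuation.map_eq_of_sub_lt _ ?_
    have e1 : algebraMap K L x - θ - algebraMap K L x = -θ := by ring
    rw [e1, Valuation.map_neg]
    exact lt_of_le_of_lt hwt hwx
  · rw [map_div₀]
    rw [div_lt_one₀ (zero_lt_iff.2 hwx0)]
    exact lt_of_le_of_lt hwt hwx
  · have h4 : (dn K w).valuation K ((x ^ 3 + (A : K) * x + (B : K)) / x ^ 3) = 1 := by
      have h5 := Valuation.map_eq_of_sub_lt ((dn K w).valuation K) (x := 1) (y := (x ^ 3 + (A : K) * x + (B : K)) / x ^ 3)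
        (by rw [map_one]; exact h3)
      rw [h5, map_one]
    rw [map_div₀, map_pow] at h4
    have h6 : (dn K w).valuation K x ^ 3 ≠ 0 := pow_ne_zero 3 ((Valuation.ne_zero_iff _).2 hx0)
    exact (div_eq_one_iff_eq h6).1 h4

end H76PP
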