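import Pool.Agent.H76.PP.Te
import Pool.Agent.H76.PP.Tc
import Pool.Agent.H38.T1.Ea

/-!
The classes are even outside `J` (project MP_78d38b_PP, row Tf).
-/

set_option autoImplicit false
set_option linter.unusedSectionVars false
open scoped Classical

open WithZero NumberField IsDedekindDomain H38RT
open H38T1 (SC sc scu rep eo la si Pri OddP tp unif)

namespace H76PP

variable {K L : Type} [Field K] [NumberField K] [Field L] [NumberField L] [Algebra K L]

theorem Tf_twist {A B : K} {θ : L} (h : Cub K L A B θ) {D : K} (hD : D ≠ 0) :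
    Cub K L (D ^ 2 * A) (D ^ 3 * B) (algebraMap K L D * θ) := by
  have hr := h.root
  refine ⟨?_, ?_, ?_⟩
  · simp only [map_mul, map_pow]
    linear_combination (algebraMap K L D) ^ 3 * hr
  · intro c₀ c₁ c₂ hc
    have h1 : algebraMap K L c₀ + algebraMap K L (c₁ * D) * θ +
        algebraMap K L (c₂ * D ^ 2) * θ ^ 2 = 0 := by
      simp only [map_mul, map_pow]
      linear_combination hc
    obtain ⟨h0, h2, h3⟩ := h.li _ _ _ h1
    refine ⟨h0, ?_, ?_⟩
    · exact (mul_eq_zero.1 h2).resolve_right hD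
    · exact (mul_eq_zero.1 h3).resolve_right (pow_ne_zero 2 hD)
  · intro x
    have hD' : algebraMap K L D ≠ 0 := (map_ne_zero _).2 hD
    obtain ⟨c₀, c₁, c₂, hx⟩ := h.sp x
    refine ⟨c₀, c₁ / D, c₂ / D ^ 2, ?_⟩
    rw [hx]
    simp only [map_div₀, map_pow]
    field_simp

theorem Tf_ratio {F : Type*} [Field F] (V : Valuation F (WithZero (Multiplicative ℤ))) {a b : F}
    (hb : b ≠ 0) (h : V (a / b - 1) < 1) : a ≠ 0 ∧ ord V a = ord V b := by
  have h1 : V (a / b) = 1 := by
    have e : a / b = 1 + (a / b - 1) := by ring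
    rw [e]
    exact V.map_one_add_of_lt h
  have ha : a ≠ 0 := by
    rintro rfl
    rw [zero_div, map_zero] at h1
    exact zero_ne_one h1
  refine ⟨ha, ?_⟩
  have e : a = a / b * b := by field_simp
  have h2 : V a = V b := by
    rw [e, map_mul, h1, one_mul]
  unfold ord
  rw [h2]

theorem Tf_ord_one {F : Type*} [Field F] (V : Valuation F (WithZero (Multiplicative ℤ))) {a : F}
    (h : V a = 1) : ord V a = 0 := by
  unfold ord
  rw [h, log_one, neg_zero]

theorem Tf_ord_pow {F : Type*} [Field F] (V : Valuation F (WithZero (Multiplicative ℤ))) (a : F)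
    (n : ℕ) : ord V (a ^ n) = n * ord V a := by
  unfold ord
  rw [map_pow, log_pow, nsmul_eq_mul]
  ring

/-- An element integral at `v` is congruent to an integer of `K`. -/
theorem Tf_approx (v : HeightOneSpectrum (𝓞 K)) {x : K} (hx : v.valuation K x ≤ 1) :
    ∃ a : 𝓞 K, v.valuation K (x - (a : K)) < 1 := by
  obtain ⟨n, ⟨d, hd⟩, hnd⟩ := v.exists_primeCompl_mul_eq_of_integer x hx
  have hnd' : x * algebraMap (𝓞 K) K d = algebraMap (𝓞 K) K n := hnd
  have hmax : v.asIdeal.IsMaximal := v.isMaximal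
  obtain ⟨d', hd'⟩ : ∃ d' : 𝓞 K, d * d' - 1 ∈ v.asIdeal := by
    have hd0 : Ideal.Quotient.mk v.asIdeal d ≠ 0 := fun h =>
      hd (Ideal.Quotient.eq_zero_iff_mem.1 h)
    obtain ⟨d', hd'⟩ := Ideal.Quotient.mk_surjective ((Ideal.Quotient.mk v.asIdeal d)⁻¹)
    refine ⟨d', ?_⟩
    rw [← Ideal.Quotient.eq, map_mul, hd', map_one]
    exact mul_inv_cancel₀ hd0
  refine ⟨n * d', ?_⟩
  have e : x - ((n * d' : 𝓞 K) : K) = - (x * algebraMap (𝓞 K) K (d * d' - 1)) := by
    have e1 : ((n * d' : 𝓞 K) : K) = algebraMap (𝓞 K) K n * algebraMap (𝓞 K) K d' :=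
      map_mul (algebraMap (𝓞 K) K) n d'
    rw [e1, map_sub, map_mul, map_one, ← hnd']
    ring
  rw [e, Valuation.map_neg, map_mul]
  have h1 : v.valuation K (algebraMap (𝓞 K) K (d * d' - 1)) < 1 :=
    (v.valuation_lt_one_iff_mem (K := K) _).2 hd'
  exact (mul_le_of_le_one_left' hx).trans_lt h1

/-- If the polynomial has no root modulo `v` its values at integral elements are units. -/
theorem Tf_unit (v : HeightOneSpectrum (𝓞 K)) {A B : 𝓞 K}
    (hirr : ∀ t : 𝓞 K, t ^ 3 + A * t + B ∉ v.asIdeal) {x : K} (hx : v.valuation K x ≤ 1) :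
    v.valuation K (x ^ 3 + (A : K) * x + (B : K)) = 1 := by
  obtain ⟨a, ha⟩ := Tf_approx v hx
  have hint : ∀ y : 𝓞 K, v.valuation K (y : K) ≤ 1 := fun y => v.valuation_le_one y
  have hfa : v.valuation K ((a : K) ^ 3 + (A : K) * (a : K) + (B : K)) = 1 := by
    have h1 := v.valuation_eq_one_iff_notMem (K := K).2 (hirr a)
    have e1 : algebraMap (𝓞 K) K (a ^ 3 + A * a + B) =
        (a : K) ^ 3 + (A : K) * (a : K) + (B : K) := by
      rw [map_add, map_add, map_mul, map_pow]
    rwa [e1] at h1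
  have hq : v.valuation K (x ^ 2 + x * (a : K) + (a : K) ^ 2 + (A : K)) ≤ 1 := by
    have b1 : v.valuation K (x ^ 2) ≤ 1 := by
      rw [map_pow]
      exact pow_le_one₀ zero_le hx
    have b2 : v.valuation K (x * (a : K)) ≤ 1 := by
      rw [map_mul]
      exact mul_le_one' hx (hint a)
    have b3 : v.valuation K ((a : K) ^ 2) ≤ 1 := by
      rw [map_pow]
      exact pow_le_one₀ zero_le (hint a)
    exact (v.valuation K).map_add_le ((v.valuation K).map_add_le
      ((v.valuation K).map_add_le b1 b2) b3) (hint A)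
  have e : x ^ 3 + (A : K) * x + (B : K) = ((a : K) ^ 3 + (A : K) * (a : K) + (B : K)) +
      (x - (a : K)) * (x ^ 2 + x * (a : K) + (a : K) ^ 2 + (A : K)) := by ring
  rw [e]
  have h2 : v.valuation K ((x - (a : K)) * (x ^ 2 + x * (a : K) + (a : K) ^ 2 + (A : K))) <
      v.valuation K ((a : K) ^ 3 + (A : K) * (a : K) + (B : K)) := by
    rw [hfa, map_mul]
    exact (mul_le_of_le_one_right' hq).trans_lt ha
  rw [Valuation.map_add_eq_of_lt_left _ h2, hfa]

theorem even_off {q₀ : HeightOneSpectrum (𝓞 K)} {T J : Finset (HeightOneSpectrum (𝓞 K))}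
    {A B : 𝓞 K} (hF : Fam q₀ T A B) {θ : L} (h : Cub K L (A : K) (B : K) θ) {D : K}
    (hD : TwD q₀ J D) {d : Fin 3 → K} (hd : ev (algebraMap K L D * θ) d ≠ 0)
    {w : HeightOneSpectrum (𝓞 L)} (hw : dn K w ∉ J)
    (hLC : LC (algebraMap K ((dn K w).adicCompletion K)) (D ^ 2 * A) (D ^ 3 * B) d) :
    eo w (sc (ev (algebraMap K L D * θ) d)) = 0 := by
  have hD0 := hD.ne
  have hDL : algebraMap K L D ≠ 0 := (map_ne_zero _).2 hD0
  obtain ⟨x', y, z, hy, hz, h1, h2⟩ := LC_approx (Tf_twist h hD0) hd (dn K w) hLC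
  have h2w := h2 w rfl
  obtain ⟨x, rfl⟩ : ∃ x : K, x' = D * x := ⟨x' / D, by field_simp⟩
  obtain ⟨h3, h4⟩ := Tf_ratio ((dn K w).valuation K) (pow_ne_zero 2 hy) h1
  obtain ⟨h5, h6⟩ := Tf_ratio (w.valuation L) (pow_ne_zero 2 hz) h2w
  have e1 : (D * x) ^ 3 + D ^ 2 * (A : K) * (D * x) + D ^ 3 * (B : K) =
      D ^ 3 * (x ^ 3 + (A : K) * x + (B : K)) := by ring
  have e2 : ev (algebraMap K L D * θ) d * (algebraMap K L (D * x) - algebraMap K L D * θ) =
      ev (algebraMap K L D * θ) d * (algebraMap K L D * (algebraMap K L x - θ)) := by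
    rw [map_mul]
    ring
  rw [e1] at h3 h4
  rw [e2] at h5 h6
  have hf : x ^ 3 + (A : K) * x + (B : K) ≠ 0 := right_ne_zero_of_mul h3
  have hxt : algebraMap K L x - θ ≠ 0 := right_ne_zero_of_mul (right_ne_zero_of_mul h5)
  rw [ord_mul (pow_ne_zero 3 hD0) hf, Tf_ord_pow, Tf_ord_pow] at h4
  rw [ord_mul hd (mul_ne_zero hDL hxt), ord_mul hDL hxt, Tf_ord_pow] at h6
  obtain ⟨e, -, he⟩ := ord_dn (K := K) w
  have key : Even (ord (w.valuation L) (algebraMap K L D) +
      ord (w.valuation L) (algebraMap K L x - θ)) := by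
    rw [he D hD0]
    by_cases hx : (dn K w).valuation K x ≤ 1
    · obtain ⟨w₁, -, hw1, hw2⟩ := ord_sub hF h (dn K w) hx hf
      have hcase : Even (ord ((dn K w).valuation K) (x ^ 3 + (A : K) * x + (B : K))) →
          Even (ord (w.valuation L) (algebraMap K L x - θ)) := by
        intro hev
        by_cases hww : w = w₁
        · rw [hww, hw1]
          exact hev
        · rw [Tf_ord_one _ (hw2 w rfl hww)]
          exact Even.zero
      have hf0 : Even (ord ((dn K w).valuation K) (x ^ 3 + (A : K) * x + (B : K))) := by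
        by_cases hq : dn K w = q₀
        · rw [Tf_ord_one]
          · exact Even.zero
          · refine Tf_unit (dn K w) ?_ hx
            rw [hq]
            exact hF.irr
        · obtain ⟨m, hm⟩ := hD.even (dn K w) hw hq
          refine ⟨ord ((dn K w).valuation K) y - 3 * m, ?_⟩
          push_cast at h4
          rw [hm] at h4
          linarith
      have hDe : Even (ord ((dn K w).valuation K) D) := by
        obtain ⟨m, hm⟩ := hf0
        refine ⟨ord ((dn K w).valuation K) y - m - ord ((dn K w).valuation K) D, ?_⟩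
        push_cast at h4
        linarith
      exact (hDe.mul_left _).add (hcase hf0)
    · rw [not_le] at hx
      obtain ⟨g1, -, -, g4⟩ := ord_sub_big (w := w) h hx
      have hx0 : x ≠ 0 := by
        rintro rfl
        rw [map_zero] at hx
        exact absurd hx (not_lt.2 zero_le)
      have g5 : ord (w.valuation L) (algebraMap K L x - θ) =
          e * ord ((dn K w).valuation K) x := by
        rw [← he x hx0]
        unfold ord
        rw [g1]
      have g6 : ord ((dn K w).valuation K) (x ^ 3 + (A : K) * x + (B : K)) =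
          3 * ord ((dn K w).valuation K) x := by
        have g7 := Tf_ord_pow ((dn K w).valuation K) x 3
        rw [Nat.cast_ofNat] at g7
        rw [← g7]
        unfold ord
        rw [g4, map_pow]
      rw [g5, ← mul_add]
      refine Even.mul_left ?_ _
      refine ⟨ord ((dn K w).valuation K) y - ord ((dn K w).valuation K) D -
        ord ((dn K w).valuation K) x, ?_⟩
      rw [g6] at h4
      push_cast at h4
      linarith
  rw [H38T1.eo_sc hd]
  obtain ⟨m, hm⟩ := key
  have h7 : ord (w.valuation L) (ev (algebraMap K L D * θ) d) =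
      (ord (w.valuation L) z - m) + (ord (w.valuation L) z - m) := by
    push_cast at h6
    linarith
  rw [h7, Int.cast_add]
  exact CharTwo.add_self_eq_zero _

end H76PP
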