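import Pool.Agent.H76.PP.Ta

/-!
ROW Tb (project MP_78d38b_PP, about 170 lines): the order of a norm. Use only the STATEMENTS of Ta.

PROOF. Both sides are additive in `u ∈ Lˣ`, so it suffices to treat `u = (x : 𝓞 L)`, `x ≠ 0` (`IsFractionRing.div_surjective`;
`H38RT.ord_mul`-like lemma: `log_mul`; the finsum is over a finite set by fin_above). The norm of `x` over `𝓞 K` is
`Algebra.intNorm (𝓞 K) (𝓞 L) x` (`Algebra.algebraMap_intNorm`) and `Ideal.relNorm (𝓞 K) (span {x}) = span {intNorm x}`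
(`Ideal.relNorm_singleton`). `Ideal.relNorm` is multiplicative and for a maximal ideal `P` above `p`:
`Ideal.relNorm_eq_pow_of_isMaximal`: `relNorm P = p ^ (P.inertiaDeg ..)`. So prove by induction on the factorisation
(`UniqueFactorizationMonoid.induction_on_prime` or `induction_on_coprime`) for every nonzero ideal `J` of `𝓞 L`:
multiplicity of `v.asIdeal` in `relNorm J` = `∑ w above v, inertiaDeg w * multiplicity of w in J`. (Use
`emultiplicity`/`multiplicity` additive in products, or `Associates.count`; `multiplicity v (p^f) = f` if `p = v`, zero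
otherwise.) The relation with the valuations: `HeightOneSpectrum.intValuation_eq_exp_neg_multiplicity`.
-/

set_option autoImplicit false
set_option linter.unusedSectionVars false
open scoped Classical

open WithZero NumberField IsDedekindDomain H38RT
open H38T1 (SC sc scu rep eo la si Pri OddP tp unif)

namespace H76PP

variable {K L : Type} [Field K] [NumberField K] [Field L] [NumberField L] [Algebra K L]

private theorem Tb_mul (v : HeightOneSpectrum (𝓞 K)) {I J : Ideal (𝓞 K)} (hI : I ≠ 0) (hJ : J ≠ 0) :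
    (multiplicity v.asIdeal (I * J) : ℤ) = multiplicity v.asIdeal I + multiplicity v.asIdeal J := by
  rw [multiplicity_mul v.prime (FiniteMultiplicity.of_prime_left v.prime (mul_ne_zero hI hJ))]
  push_cast
  rfl

private theorem Tb_prime (v w : HeightOneSpectrum (𝓞 K)) (n : ℕ) :
    (multiplicity v.asIdeal (w.asIdeal ^ n) : ℤ) = if w = v then (n : ℤ) else 0 := by
  split_ifs with h
  · rw [h, multiplicity_pow_self_of_prime v.prime]
  · rw [Nat.cast_eq_zero, multiplicity_eq_zero]
    intro h1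
    have h2 := v.prime.dvd_of_dvd_pow h1
    apply h
    have h3 := (Prime.dvd_prime_iff_associated v.prime w.prime).1 h2
    rw [associated_iff_eq] at h3
    exact (HeightOneSpectrum.ext h3).symm

private theorem Tb_rel (w : HeightOneSpectrum (𝓞 L)) :
    Ideal.relNorm (𝓞 K) w.asIdeal = (dn K w).asIdeal ^ (w.asIdeal.inertiaDeg (𝓞 K)) := by
  have h1 : w.asIdeal.IsMaximal := w.isMaximal
  have h2 : (dn K w).asIdeal.IsMaximal := (dn K w).isMaximal
  have h3 : w.asIdeal.LiesOver (dn K w).asIdeal := ⟨rfl⟩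
  exact Ideal.relNorm_eq_pow_of_isMaximal w.asIdeal (dn K w).asIdeal

private theorem Tb_main (v : HeightOneSpectrum (𝓞 K)) (J : Ideal (𝓞 L)) (hJ : J ≠ 0) :
    (multiplicity v.asIdeal (Ideal.relNorm (𝓞 K) J) : ℤ) =
      ∑ w ∈ (fin_above (L := L) v).toFinset,
        (w.asIdeal.inertiaDeg (𝓞 K) : ℤ) * multiplicity w.asIdeal J := by
  revert hJ
  refine UniqueFactorizationMonoid.induction_on_prime
    (P := fun J : Ideal (𝓞 L) => J ≠ 0 →
      (multiplicity v.asIdeal (Ideal.relNorm (𝓞 K) J) : ℤ) =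
      ∑ w ∈ (fin_above (L := L) v).toFinset,
        (w.asIdeal.inertiaDeg (𝓞 K) : ℤ) * multiplicity w.asIdeal J) J ?_ ?_ ?_
  · intro h
    exact absurd rfl h
  · intro I hI _
    have h1 : I = ⊤ := Ideal.isUnit_iff.1 hI
    subst h1
    rw [Ideal.relNorm_top]
    have h2 : ∀ w : HeightOneSpectrum (𝓞 L), multiplicity w.asIdeal (⊤ : Ideal (𝓞 L)) = 0 := by
      intro w
      rw [multiplicity_eq_zero, ← Ideal.one_eq_top]
      intro h3
      exact w.prime.not_isUnit (isUnit_of_dvd_one h3)
    have h3 : multiplicity v.asIdeal (⊤ : Ideal (𝓞 K)) = 0 := by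
      rw [multiplicity_eq_zero, ← Ideal.one_eq_top]
      intro h3
      exact v.prime.not_isUnit (isUnit_of_dvd_one h3)
    rw [h3, Finset.sum_eq_zero]
    · rfl
    · intro w _
      rw [h2 w]
      simp
  · intro I P hI hP ih h
    let w0 : HeightOneSpectrum (𝓞 L) := ⟨P, Ideal.isPrime_of_prime hP, hP.ne_zero⟩
    have hw0 : w0.asIdeal = P := rfl
    rw [map_mul, Tb_mul v _ _, ih hI, ← hw0, Tb_rel, Tb_prime]
    · have h1 : ∀ w : HeightOneSpectrum (𝓞 L), (multiplicity w.asIdeal (w0.asIdeal * I) : ℤ) =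
          (if w0 = w then (1 : ℤ) else 0) + multiplicity w.asIdeal I := by
        intro w
        rw [Tb_mul w hP.ne_zero hI]
        have h2 := Tb_prime w w0 1
        rw [pow_one] at h2
        rw [h2]
        push_cast
        rfl
      have h4 : ∀ w : HeightOneSpectrum (𝓞 L),
          (w.asIdeal.inertiaDeg (𝓞 K) : ℤ) * multiplicity w.asIdeal (w0.asIdeal * I) =
          (if w0 = w then (w.asIdeal.inertiaDeg (𝓞 K) : ℤ) else 0) +
            (w.asIdeal.inertiaDeg (𝓞 K) : ℤ) * multiplicity w.asIdeal I := by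
        intro w
        rw [h1 w, mul_add, mul_ite, mul_one, mul_zero]
      have h5 : w0 ∈ (fin_above (L := L) v).toFinset ↔ dn K w0 = v := by
        rw [Set.Finite.mem_toFinset]
        exact Iff.rfl
      rw [Finset.sum_congr rfl (fun w _ => h4 w), Finset.sum_add_distrib, Finset.sum_ite_eq]
      simp only [h5]
    · intro h3
      exact hP.ne_zero (Ideal.relNorm_eq_bot_iff.1 h3)
    · intro h3
      exact hI (Ideal.relNorm_eq_bot_iff.1 h3)

private theorem Tb_ord (v : HeightOneSpectrum (𝓞 K)) (x : 𝓞 K) (hx : x ≠ 0) :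
    ord (v.valuation K) (x : K) = multiplicity v.asIdeal (Ideal.span {x}) := by
  have h1 : v.valuation K (x : K) = v.intValuation x := v.valuation_of_algebraMap x
  unfold ord
  rw [h1, v.intValuation_eq_exp_neg_multiplicity hx, log_exp, neg_neg]

private theorem Tb_int (v : HeightOneSpectrum (𝓞 K)) (x : 𝓞 L) (hx : x ≠ 0) :
    ord (v.valuation K) (Algebra.norm K (x : L)) =
      ∑ w ∈ (fin_above (L := L) v).toFinset,
        (w.asIdeal.inertiaDeg (𝓞 K) : ℤ) * ord (w.valuation L) (x : L) := by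
  have h1 : Algebra.norm K (x : L) = ((Algebra.intNorm (𝓞 K) (𝓞 L) x : 𝓞 K) : K) :=
    (Algebra.algebraMap_intNorm (A := 𝓞 K) (K := K) (L := L) (B := 𝓞 L) x).symm
  have h2 : Algebra.intNorm (𝓞 K) (𝓞 L) x ≠ 0 := by
    rw [Ne, Algebra.intNorm_eq_zero]
    exact hx
  rw [h1, Tb_ord v _ h2, ← Ideal.relNorm_singleton, Tb_main v _ (by
    rw [Ne, Ideal.zero_eq_bot, Ideal.span_singleton_eq_bot]
    exact hx)]
  refine Finset.sum_congr rfl fun w _ => ?_
  rw [Tb_ord w x hx]

private theorem Tb_div (v : HeightOneSpectrum (𝓞 K)) {x y : K} (hx : x ≠ 0) (hy : y ≠ 0) :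
    ord (v.valuation K) (x / y) = ord (v.valuation K) x - ord (v.valuation K) y := by
  have h1 := ord_mul (V := v.valuation K) (div_ne_zero hx hy) hy
  rw [div_mul_cancel₀ x hy] at h1
  rw [h1]
  ring

theorem ord_norm (v : HeightOneSpectrum (𝓞 K)) {u : L} (hu : u ≠ 0) :
    ord (v.valuation K) (Algebra.norm K u) =
      ∑ᶠ w : {w : HeightOneSpectrum (𝓞 L) // dn K w = v},
        (w.1.asIdeal.inertiaDeg (𝓞 K) : ℤ) * ord (w.1.valuation L) u := by
  have h0 : ∑ᶠ w : {w : HeightOneSpectrum (𝓞 L) // dn K w = v},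
        (w.1.asIdeal.inertiaDeg (𝓞 K) : ℤ) * ord (w.1.valuation L) u =
      ∑ w ∈ (fin_above (L := L) v).toFinset,
        (w.asIdeal.inertiaDeg (𝓞 K) : ℤ) * ord (w.valuation L) u := by
    rw [← finsum_mem_eq_finite_toFinset_sum (fun w : HeightOneSpectrum (𝓞 L) =>
      (w.asIdeal.inertiaDeg (𝓞 K) : ℤ) * ord (w.valuation L) u) (fin_above (L := L) v)]
    exact finsum_set_coe_eq_finsum_mem {w : HeightOneSpectrum (𝓞 L) | dn K w = v}
      (f := fun w => (w.asIdeal.inertiaDeg (𝓞 K) : ℤ) * ord (w.valuation L) u)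
  rw [h0]
  obtain ⟨x, y, hy, rfl⟩ := IsFractionRing.div_surjective (A := 𝓞 L) u
  have hy0 : y ≠ 0 := nonZeroDivisors.ne_zero hy
  have hx0 : x ≠ 0 := by
    rintro rfl
    apply hu
    simp
  have hxL : (x : L) ≠ 0 := by
    simpa using hx0
  have hyL : (y : L) ≠ 0 := by
    simpa using hy0
  have h1 := Tb_int v x hx0
  have h2 := Tb_int v y hy0
  have hNx : Algebra.norm K (x : L) ≠ 0 := by
    rw [Algebra.norm_ne_zero_iff]
    exact hxL
  have hNy : Algebra.norm K (y : L) ≠ 0 := by
    rw [Algebra.norm_ne_zero_iff]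
    exact hyL
  have hdiv : Algebra.norm K ((x : L) / (y : L)) =
      Algebra.norm K (x : L) / Algebra.norm K (y : L) := by
    rw [eq_div_iff hNy, ← map_mul, div_mul_cancel₀ _ hyL]
  change ord (v.valuation K) (Algebra.norm K ((x : L) / (y : L))) = _
  rw [hdiv, Tb_div v hNx hNy, h1, h2, ← Finset.sum_sub_distrib]
  refine Finset.sum_congr rfl fun w _ => ?_
  rw [Tb_div w hxL hyL]
  ring

end H76PP
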