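import Pool.Agent.H76.PP.E0

/-!
ROW Eb (project MP_78d38b_PP, about 150 lines): Euler's formula and the bound for the last coordinate.
`E0.lean` gives `Cub.co`, `Cub.co_mul`, `Cub.trace`, `Cub.norm`, `Cub.co_mk'`.

PROOF. der_inv: `(3 θ^2 + A) (4 A^2 - 9 B θ + 6 A θ^2) = 4 A^3 + 27 B^2` from `θ^3 = -A θ - B`
(`linear_combination (18 * A * θ - 27 * B) * h.root`, up to the exact coefficients).
der_norm: `Cub.norm` with the coordinates `(A, 0, 3)`: the determinant is `4 A^3 + 27 B^2`.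
euler: `(3 θ^2 + A)⁻¹ = (4 A^2 - 9 B θ + 6 A θ^2) / d`, `d = 4 A^3 + 27 B^2 ≠ 0`; with `z = c₀ + c₁ θ + c₂ θ^2` compute the
coordinates 0 and 2 of the product by `Cub.co_mul` and use `Cub.trace`:
`3 (4A^2 c₀ - B (c₁ 6A - c₂ 9B)) - 2A (c₀ 6A - 9B c₁ + 4A^2 c₂ - A c₂ 6A) = (27 B^2 + 4 A^3) c₂`.
co_bound: let `s : K →+* ℂ`; with `Algebra K ℂ := s.toAlgebra` (use `letI`), `trace_eq_sum_embeddings` (`ℂ`, separable as
characteristic zero): `s (trace w) = ∑ τ : L →ₐ[K] ℂ, τ w`. For `w = z (3θ^2+A)⁻¹`: `‖s (co 2 z)‖ ≤ ∑ τ : L →ₐ[K] ℂ, ‖τ z‖ /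
‖τ (3θ^2+A)‖`, and `τ ↦ (τ : L →+* ℂ)` is injective, all terms are nonnegative (`Finset.sum_le_univ_sum_of_nonneg`,
`Finset.sum_image`/`Finset.sum_map`).
root_bound: `x = τ θ` satisfies `x^3 + τ A x + τ B = 0` with `‖τ A‖ ≤ X^2`, `‖τ B‖ ≤ X^3` (the restriction of `τ` to `K` is an
embedding of `K`: `τ.comp (algebraMap K L)`). If `‖x‖ > 2 X` then `‖x‖^3 ≤ X^2 ‖x‖ + X^3 < ‖x‖^3/4 + ‖x‖^3/8`, a contradiction
(`X ≥ 0`).
-/

set_option autoImplicit false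
open scoped Classical

open NumberField IsDedekindDomain

namespace H76PP

section

variable {K L : Type} [Field K] [Field L] [Algebra K L] {A B : K} {θ : L}

theorem Cub.der_inv (h : Cub K L A B θ) :
    (3 * θ ^ 2 + algebraMap K L A) * (4 * algebraMap K L A ^ 2 - 9 * algebraMap K L B * θ +
      6 * algebraMap K L A * θ ^ 2) = algebraMap K L (4 * A ^ 3 + 27 * B ^ 2) := by
  simp only [map_add, map_mul, map_pow, map_ofNat]
  linear_combination (18 * algebraMap K L A * θ - 27 * algebraMap K L B) * h.root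

theorem Eb_co_u (h : Cub K L A B θ) : h.co 0 (3 * θ ^ 2 + algebraMap K L A) = A ∧
    h.co 1 (3 * θ ^ 2 + algebraMap K L A) = 0 ∧ h.co 2 (3 * θ ^ 2 + algebraMap K L A) = 3 := by
  have h1 := h.co_mk' A 0 3
  have e : algebraMap K L A + algebraMap K L 0 * θ + algebraMap K L 3 * θ ^ 2 =
      3 * θ ^ 2 + algebraMap K L A := by
    rw [map_zero, map_ofNat]
    ring
  rw [e] at h1
  exact h1

theorem Eb_co_w (h : Cub K L A B θ) :
    h.co 0 (4 * algebraMap K L A ^ 2 - 9 * algebraMap K L B * θ +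
      6 * algebraMap K L A * θ ^ 2) = 4 * A ^ 2 ∧
    h.co 1 (4 * algebraMap K L A ^ 2 - 9 * algebraMap K L B * θ +
      6 * algebraMap K L A * θ ^ 2) = -9 * B ∧
    h.co 2 (4 * algebraMap K L A ^ 2 - 9 * algebraMap K L B * θ +
      6 * algebraMap K L A * θ ^ 2) = 6 * A := by
  have h1 := h.co_mk' (4 * A ^ 2) (-9 * B) (6 * A)
  have e : algebraMap K L (4 * A ^ 2) + algebraMap K L (-9 * B) * θ +
      algebraMap K L (6 * A) * θ ^ 2 = 4 * algebraMap K L A ^ 2 - 9 * algebraMap K L B * θ +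
      6 * algebraMap K L A * θ ^ 2 := by
    simp only [map_mul, map_pow, map_neg, map_ofNat]
    ring
  rw [e] at h1
  exact h1

theorem Cub.der_norm (h : Cub K L A B θ) :
    Algebra.norm K (3 * θ ^ 2 + algebraMap K L A) = 4 * A ^ 3 + 27 * B ^ 2 := by
  obtain ⟨a0, a1, a2⟩ := Eb_co_u h
  rw [h.norm, Matrix.det_fin_three, a0, a1, a2]
  simp
  ring

theorem Cub.der_ne (h : Cub K L A B θ) (hd : 4 * A ^ 3 + 27 * B ^ 2 ≠ 0) :
    3 * θ ^ 2 + algebraMap K L A ≠ 0 := by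
  intro h0
  have h1 := h.der_inv
  rw [h0, zero_mul] at h1
  exact hd ((map_eq_zero_iff (algebraMap K L) (algebraMap K L).injective).1 h1.symm)

theorem Cub.euler (h : Cub K L A B θ) (hd : 4 * A ^ 3 + 27 * B ^ 2 ≠ 0) (z : L) :
    Algebra.trace K L (z * (3 * θ ^ 2 + algebraMap K L A)⁻¹) = h.co 2 z := by
  have hu := h.der_ne hd
  have hinv := h.der_inv
  obtain ⟨w0, w1, w2⟩ := Eb_co_w h
  set w : L := 4 * algebraMap K L A ^ 2 - 9 * algebraMap K L B * θ +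
      6 * algebraMap K L A * θ ^ 2 with hw
  set u : L := 3 * θ ^ 2 + algebraMap K L A with hu'
  have hdL : algebraMap K L (4 * A ^ 3 + 27 * B ^ 2) ≠ 0 := by
    rw [Ne, map_eq_zero_iff (algebraMap K L) (algebraMap K L).injective]
    exact hd
  have e : z * u⁻¹ = (4 * A ^ 3 + 27 * B ^ 2)⁻¹ • (z * w) := by
    rw [Algebra.smul_def, map_inv₀]
    field_simp
    rw [← hinv]
    ring
  rw [e, map_smul, h.trace, smul_eq_mul]
  obtain ⟨c0, c1, c2⟩ := h.co_mul z w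
  rw [c0, c2, w0, w1, w2]
  field_simp
  ring

end

section

variable {K L : Type} [Field K] [NumberField K] [Field L] [NumberField L] [Algebra K L]

theorem Cub.co_bound {A B : K} {θ : L} (h : Cub K L A B θ) (hd : 4 * A ^ 3 + 27 * B ^ 2 ≠ 0)
    (s : K →+* ℂ) (z : L) : ‖s (h.co 2 z)‖ ≤
      ∑ τ : L →+* ℂ, ‖τ z‖ / ‖τ (3 * θ ^ 2 + algebraMap K L A)‖ := by
  letI : Algebra K ℂ := s.toAlgebra
  haveI : FiniteDimensional K L := Module.Finite.of_basis h.basis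
  have h1 : s (h.co 2 z) = ∑ τ : L →ₐ[K] ℂ, τ (z * (3 * θ ^ 2 + algebraMap K L A)⁻¹) := by
    rw [← h.euler hd z]
    exact trace_eq_sum_embeddings ℂ
  rw [h1]
  refine (norm_sum_le _ _).trans ?_
  have h2 : ∀ τ : L →ₐ[K] ℂ, ‖τ (z * (3 * θ ^ 2 + algebraMap K L A)⁻¹)‖ =
      (fun τ : L →+* ℂ => ‖τ z‖ / ‖τ (3 * θ ^ 2 + algebraMap K L A)‖) (τ : L →+* ℂ) := by
    intro τ
    rw [map_mul, map_inv₀, norm_mul, norm_inv]
    rfl
  rw [Finset.sum_congr rfl fun τ _ => h2 τ]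
  have hinj : Function.Injective (fun τ : L →ₐ[K] ℂ => (τ : L →+* ℂ)) :=
    AlgHom.coe_ringHom_injective
  have h3 := Finset.sum_map (Finset.univ : Finset (L →ₐ[K] ℂ)) ⟨_, hinj⟩
    (fun τ : L →+* ℂ => ‖τ z‖ / ‖τ (3 * θ ^ 2 + algebraMap K L A)‖)
  have h4 : ∑ τ : L →ₐ[K] ℂ, (fun τ : L →+* ℂ => ‖τ z‖ / ‖τ (3 * θ ^ 2 + algebraMap K L A)‖)
      (τ : L →+* ℂ) = ∑ x ∈ Finset.map ⟨_, hinj⟩ (Finset.univ : Finset (L →ₐ[K] ℂ)),
      (fun τ : L →+* ℂ => ‖τ z‖ / ‖τ (3 * θ ^ 2 + algebraMap K L A)‖) x := h3.symm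
  rw [h4]
  apply Finset.sum_le_univ_sum_of_nonneg
  intro τ
  positivity

theorem Cub.root_bound {A B : 𝓞 K} {θ : L} (h : Cub K L (A : K) (B : K) θ) {X : ℝ} (hX : 0 ≤ X)
    (hA : A ∈ bx K (X ^ 2)) (hB : B ∈ bx K (X ^ 3)) (τ : L →+* ℂ) : ‖τ θ‖ ≤ 2 * X := by
  have h1 := congrArg τ h.root
  rw [map_add, map_add, map_mul, map_pow, map_zero] at h1
  have hA' : ‖τ (algebraMap K L (A : K))‖ ≤ X ^ 2 := hA (τ.comp (algebraMap K L))
  have hB' : ‖τ (algebraMap K L (B : K))‖ ≤ X ^ 3 := hB (τ.comp (algebraMap K L))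
  generalize τ (algebraMap K L (A : K)) = a at h1 hA'
  generalize τ (algebraMap K L (B : K)) = b at h1 hB'
  generalize τ θ = x at h1
  have h2 : x ^ 3 = -(a * x) - b := by linear_combination h1
  have h3 : ‖x‖ ^ 3 ≤ X ^ 2 * ‖x‖ + X ^ 3 := by
    rw [← norm_pow, h2]
    refine (norm_sub_le _ _).trans ?_
    rw [norm_neg, norm_mul]
    have h4 := mul_le_mul_of_nonneg_right hA' (norm_nonneg x)
    linarith
  by_contra hcon
  push Not at hcon
  have hx := norm_nonneg x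
  generalize ‖x‖ = r at h3 hcon hx
  have h5 : X ^ 2 * r ≤ r ^ 3 / 4 := by
    have : X ^ 2 ≤ r ^ 2 / 4 := by nlinarith
    nlinarith [mul_le_mul_of_nonneg_right this hx]
  have h6 : X ^ 3 ≤ r ^ 3 / 8 := by
    have : X ^ 3 ≤ (r / 2) ^ 3 := pow_le_pow_left₀ hX (by linarith) 3
    nlinarith
  have h7 : 0 < r ^ 3 := by
    have : 0 < r := by linarith
    positivity
  linarith

end

end H76PP
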