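import Pool.Agent.H76.PP.R0

/-!
ROW Rb (project MP_78d38b_PP, about 150 lines, Mathlib only): a primitive integer vector is the first
row of an integer matrix with determinant a unit.

PROOF (induction on `N`, or by strong induction on `∑ i, |x i|`). Claim: there is `V` with unit determinant and
`x ᵥ* V = Pi.single 0 1` (then `U = V⁻¹`, `U 0 = (Pi.single 0 1) ᵥ* U = x`).
Strong induction on `s = ∑ |x i|` for vectors with the property that common divisors are units, more precisely show: for
every integer vector `x` there is `V` with unit determinant such that `x ᵥ* V` is supported at the coordinate 0. If `x` has two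
nonzero coordinates `i ≠ j` with `|x j| ≤ |x i|`, add `±` the column `j` to the column `i` (`Matrix.transvection`,
`Matrix.det_transvection_of_ne`), which decreases `s`. If only one coordinate `i` is nonzero, swap the coordinates `0` and
`i` by a permutation matrix (`Matrix.det_permutation` or `Equiv.Perm.permMatrix`). At the end the entry `c` at `0` divides all `x i` (`x = (c, 0, ..) ᵥ* V⁻¹`),
so `c` is a unit; multiply the coordinate `0` by `c`.
Alternative: `ℤ^(N+1) / ℤ x` is finitely generated and torsion free, hence free (`Module.free_of_finite_type_torsion_free'`),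
so `ℤ x` has a complement and `x` is part of a basis; `Module.Basis.toMatrix` is invertible.
-/

set_option autoImplicit false

open scoped Matrix

namespace H76PP

theorem unimod {N : ℕ} {x : Fin (N + 1) → ℤ} (hx : ∀ d : ℤ, (∀ i, d ∣ x i) → IsUnit d) :
    ∃ U : Matrix (Fin (N + 1)) (Fin (N + 1)) ℤ, IsUnit U.det ∧ U 0 = x := by
  have hx0 : x ≠ 0 := by
    rintro rfl
    have h1 := hx 0 (fun i => dvd_refl _)
    exact not_isUnit_zero h1
  set b0 : Module.Basis (Fin (N + 1)) ℤ (Fin (N + 1) → ℤ) := Pi.basisFun ℤ (Fin (N + 1)) with hb0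
  obtain ⟨n, snf⟩ := Submodule.smithNormalForm b0 (Submodule.span ℤ {x})
  have hn : n = 1 := by
    have h1 := Module.finrank_eq_card_basis snf.bN
    rw [Fintype.card_fin] at h1
    rw [← h1, ← (LinearEquiv.toSpanNonzeroSingleton ℤ _ x hx0).finrank_eq]
    exact Module.finrank_self ℤ
  subst hn
  have hxN : x ∈ Submodule.span ℤ {x} := Submodule.mem_span_singleton_self x
  obtain ⟨c, hc⟩ : ∃ c : ℤ, x = c • (snf.bM (snf.f 0)) := by
    have h1 := snf.bN.sum_repr ⟨x, hxN⟩
    rw [Fin.sum_univ_one] at h1
    have h2 := congrArg Subtype.val h1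
    have h3 := snf.snf 0
    refine ⟨(snf.bN.repr ⟨x, hxN⟩) 0 * snf.a 0, ?_⟩
    rw [mul_smul, ← h3]
    exact h2.symm
  have hcu : IsUnit c := by
    apply hx
    intro i
    refine ⟨snf.bM (snf.f 0) i, ?_⟩
    have h1 := congrFun hc i
    rw [Pi.smul_apply, smul_eq_mul] at h1
    exact h1
  obtain ⟨u, hu⟩ := hcu
  let b : Module.Basis (Fin (N + 1)) ℤ (Fin (N + 1) → ℤ) :=
    (snf.bM.reindex (Equiv.swap (snf.f 0) 0)).unitsSMul fun i => if i = 0 then u else 1
  have hb : b 0 = x := by
    show ((snf.bM.reindex (Equiv.swap (snf.f 0) 0)).unitsSMul fun i => if i = 0 then u else 1) 0 = x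
    rw [Module.Basis.unitsSMul_apply, Module.Basis.reindex_apply, if_pos rfl, Equiv.symm_swap,
      Equiv.swap_apply_right]
    refine Eq.trans ?_ hc.symm
    rw [← hu]
    rfl
  refine ⟨Matrix.of fun i j => b i j, ?_, ?_⟩
  · have h1 := Module.Basis.isUnit_det b0 b
    rw [Module.Basis.det_apply] at h1
    rw [← Matrix.det_transpose]
    have h2 : b0.toMatrix b = (Matrix.of fun i j => b i j)ᵀ := by
      ext i j
      rw [Module.Basis.toMatrix_apply, Matrix.transpose_apply, Matrix.of_apply, hb0,
        Pi.basisFun_repr]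
    rw [← h2]
    exact h1
  · exact hb

end H76PP
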