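import Pool.Agent.H76.PP.R0

/-!
ROW Rc (project MP_78d38b_PP, about 150 lines, Mathlib only): projection along the first basis vector.

PROOF. `g = G 0 0 > 0` (`hG` at the vector `Pi.single 0 1`). `sch G` is the Schur complement. For a real vector `(c, v)`
(`Fin.cons c v`): `(c,v) G (c,v)ᵀ = g (c + l / g)^2 + v (sch G) vᵀ`, `l = ∑ j, G 0 j.succ * v j` (expand with
`Fin.sum_univ_succ`; `G` is symmetric by `hG.isHermitian`: `G i.succ 0 = G 0 i.succ`).
sch_posDef: `sch G` is symmetric; for `v ≠ 0` take `c = -l/g`: `v (sch G) vᵀ = (c,v) G (c,v)ᵀ > 0`.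
sch_det: `det G = g * det (sch G)`: add multiples of row 0 to the other rows: multiply `G` on the left by the lower
triangular matrix with first column `(1, - G i.succ 0 / g)`: determinant one, the product has the first column
`(g, 0, .., 0)` and the lower right block `sch G` (`Matrix.det_succ_column_zero`, or `Matrix.det_fromBlocks₁₁` after
reindexing by `finSumFinEquiv`/`Fin 1 ⊕ Fin N`).
qf_cons: the formula for integer vectors.
-/

set_option autoImplicit false

open scoped Matrix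

namespace H76PP

/-- The Schur complement. -/
noncomputable def sch {N : ℕ} (G : Matrix (Fin (N + 1)) (Fin (N + 1)) ℝ) :
    Matrix (Fin N) (Fin N) ℝ :=
  Matrix.of fun i j => G i.succ j.succ - G i.succ 0 * G 0 j.succ / G 0 0

theorem Rc_pos {N : ℕ} {G : Matrix (Fin (N + 1)) (Fin (N + 1)) ℝ} (hG : G.PosDef) : 0 < G 0 0 :=
  hG.diag_pos

theorem Rc_symm {N : ℕ} {G : Matrix (Fin (N + 1)) (Fin (N + 1)) ℝ} (hG : G.PosDef)
    (i j : Fin (N + 1)) : G i j = G j i := by
  have h := hG.isHermitian.apply i j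
  simpa using h.symm

theorem Rc_cons {N : ℕ} {G : Matrix (Fin (N + 1)) (Fin (N + 1)) ℝ} (hG : G.PosDef) (c : ℝ)
    (v : Fin N → ℝ) :
    (Fin.cons c v : Fin (N + 1) → ℝ) ⬝ᵥ G.mulVec (Fin.cons c v : Fin (N + 1) → ℝ) =
      G 0 0 * (c + (∑ j, G 0 j.succ * v j) / G 0 0) ^ 2 + v ⬝ᵥ (sch G).mulVec v := by
  have hg := (Rc_pos hG).ne'
  have e1 : (Fin.cons c v : Fin (N + 1) → ℝ) ⬝ᵥ G.mulVec (Fin.cons c v : Fin (N + 1) → ℝ) =
      c * (G 0 0 * c + ∑ j, G 0 j.succ * v j) +
        ∑ i : Fin N, v i * (G i.succ 0 * c + ∑ j, G i.succ j.succ * v j) := by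
    unfold dotProduct Matrix.mulVec dotProduct
    rw [Fin.sum_univ_succ]
    simp only [Fin.cons_zero, Fin.cons_succ, Fin.sum_univ_succ]
  have e2 : v ⬝ᵥ (sch G).mulVec v = ∑ i : Fin N, v i * (∑ j, G i.succ j.succ * v j) -
      (∑ i : Fin N, v i * G i.succ 0) * ((∑ j, G 0 j.succ * v j) / G 0 0) := by
    unfold dotProduct Matrix.mulVec dotProduct sch
    rw [Finset.sum_mul, ← Finset.sum_sub_distrib]
    refine Finset.sum_congr rfl fun i _ => ?_
    simp only [Matrix.of_apply]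
    rw [mul_assoc, ← mul_sub]
    congr 1
    rw [Finset.sum_div, Finset.mul_sum, ← Finset.sum_sub_distrib]
    refine Finset.sum_congr rfl fun j _ => ?_
    ring
  have e3 : ∑ i : Fin N, v i * (G i.succ 0 * c + ∑ j, G i.succ j.succ * v j) =
      c * (∑ i : Fin N, v i * G i.succ 0) +
        ∑ i : Fin N, v i * (∑ j, G i.succ j.succ * v j) := by
    rw [Finset.mul_sum, ← Finset.sum_add_distrib]
    refine Finset.sum_congr rfl fun i _ => ?_
    ring
  have e4 : ∑ i : Fin N, v i * G i.succ 0 = ∑ j, G 0 j.succ * v j := by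
    refine Finset.sum_congr rfl fun i _ => ?_
    rw [Rc_symm hG i.succ 0, mul_comm]
  rw [e1, e2, e3, e4]
  field_simp
  ring

theorem sch_posDef {N : ℕ} {G : Matrix (Fin (N + 1)) (Fin (N + 1)) ℝ} (hG : G.PosDef) :
    (sch G).PosDef := by
  refine Matrix.PosDef.of_dotProduct_mulVec_pos ?_ ?_
  · ext i j
    unfold sch
    simp only [Matrix.conjTranspose_apply, Matrix.of_apply, star_trivial]
    rw [Rc_symm hG j.succ i.succ, Rc_symm hG j.succ 0, Rc_symm hG 0 i.succ]
    ring
  · intro v hv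
    have hg := (Rc_pos hG).ne'
    set c : ℝ := -((∑ j, G 0 j.succ * v j) / G 0 0) with hc
    have h1 := Rc_cons hG c v
    have h2 : (Fin.cons c v : Fin (N + 1) → ℝ) ≠ 0 := by
      intro h
      apply hv
      ext i
      have h3 := congrFun h i.succ
      simpa using h3
    have h3 := hG.dotProduct_mulVec_pos h2
    rw [star_trivial] at h3 ⊢
    rw [h1, hc] at h3
    simpa using h3

theorem sch_det {N : ℕ} {G : Matrix (Fin (N + 1)) (Fin (N + 1)) ℝ} (hG : G.PosDef) :
    G.det = G 0 0 * (sch G).det := by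
  have hg := (Rc_pos hG).ne'
  set B : Matrix (Fin (N + 1)) (Fin (N + 1)) ℝ := Matrix.of fun i j =>
    G i j - (Fin.cons 0 (fun i : Fin N => G i.succ 0 / G 0 0) : Fin (N + 1) → ℝ) i * G 0 j with hB
  have h0 : ∀ j, B 0 j = G 0 j := by
    intro j
    simp [hB]
  have hs : ∀ (i : Fin N) j, B i.succ j = G i.succ j - G i.succ 0 / G 0 0 * G 0 j := by
    intro i j
    simp [hB]
  have h1 : G.det = B.det := by
    refine Matrix.det_eq_of_forall_row_eq_smul_add_const
      (Fin.cons 0 (fun i : Fin N => G i.succ 0 / G 0 0) : Fin (N + 1) → ℝ) 0 (by simp) ?_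
    intro i j
    rw [h0]
    simp [hB]
  rw [h1, Matrix.det_succ_column_zero, Fin.sum_univ_succ, Finset.sum_eq_zero, add_zero]
  · rw [h0]
    have h2 : B.submatrix (Fin.succAbove 0) Fin.succ = sch G := by
      ext i j
      rw [Matrix.submatrix_apply, Fin.succAbove_zero, hs]
      unfold sch
      rw [Matrix.of_apply]
      ring
    rw [h2]
    simp
  · intro i _
    rw [hs, div_mul_cancel₀ _ hg, sub_self]
    ring

theorem qf_cons {N : ℕ} {G : Matrix (Fin (N + 1)) (Fin (N + 1)) ℝ} (hG : G.PosDef) (c : ℤ)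
    (v : Fin N → ℤ) : qf G (Fin.cons c v) =
      G 0 0 * ((c : ℝ) + (∑ j, G 0 j.succ * (v j : ℝ)) / G 0 0) ^ 2 + qf (sch G) v := by
  unfold qf
  rw [← Rc_cons hG (c : ℝ) (fun j => (v j : ℝ))]
  have h : (fun i : Fin (N + 1) => (((Fin.cons c v : Fin (N + 1) → ℤ) i : ℤ) : ℝ)) =
      (Fin.cons (c : ℝ) (fun j => (v j : ℝ)) : Fin (N + 1) → ℝ) := by
    ext i
    refine Fin.cases ?_ (fun j => ?_) i
    · simp
    · simp
  rw [h]

theorem qf_single {N : ℕ} (G : Matrix (Fin (N + 1)) (Fin (N + 1)) ℝ) :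
    qf G (Pi.single 0 1) = G 0 0 := by
  unfold qf
  have h : (fun i : Fin (N + 1) => (((Pi.single 0 1 : Fin (N + 1) → ℤ) i : ℤ) : ℝ)) =
      Pi.single 0 1 := by
    ext i
    refine Fin.cases ?_ (fun j => ?_) i
    · simp
    · simp
  rw [h]
  simp

end H76PP
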