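import Pool.Agent.H76.PP.Ra
import Pool.Agent.H76.PP.Rb
import Pool.Agent.H76.PP.Rc

/-! ROW Rd (project MP_78d38b_PP): Hermite reduction. -/

set_option autoImplicit false

open scoped Matrix

namespace H76PP

theorem Rd_qf {N : ℕ} (G : Matrix (Fin N) (Fin N) ℝ) (U : Matrix (Fin N) (Fin N) ℤ)
    (y : Fin N → ℤ) :
    qf (U.map (Int.cast : ℤ → ℝ) * G * (U.map (Int.cast : ℤ → ℝ))ᵀ) y = qf G (y ᵥ* U) := by
  unfold qf
  have h : (fun i => (((y ᵥ* U) i : ℤ) : ℝ)) =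
      (fun i => (y i : ℝ)) ᵥ* (U.map (Int.cast : ℤ → ℝ)) := by
    funext i
    simp [Matrix.vecMul, dotProduct]
  rw [h, ← Matrix.mulVec_mulVec, ← Matrix.mulVec_mulVec, Matrix.mulVec_transpose,
    Matrix.dotProduct_mulVec]

theorem Rd_det {N : ℕ} (U : Matrix (Fin N) (Fin N) ℤ) :
    (U.map (Int.cast : ℤ → ℝ)).det = (U.det : ℝ) := (Int.cast_det U).symm

theorem Rd_sq {N : ℕ} {U : Matrix (Fin N) (Fin N) ℤ} (hU : IsUnit U.det) :
    (U.det : ℝ) * (U.det : ℝ) = 1 := by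
  rcases Int.isUnit_iff.1 hU with h | h
  · rw [h]
    norm_num
  · rw [h]
    norm_num

theorem Rd_pd {N : ℕ} {G : Matrix (Fin N) (Fin N) ℝ} (hG : G.PosDef)
    {U : Matrix (Fin N) (Fin N) ℤ} (hU : IsUnit U.det) :
    (U.map (Int.cast : ℤ → ℝ) * G * (U.map (Int.cast : ℤ → ℝ))ᵀ).PosDef := by
  rw [← Matrix.conjTranspose_eq_transpose_of_trivial]
  refine hG.mul_mul_conjTranspose_same ?_
  rw [Matrix.vecMul_injective_iff_isUnit, Matrix.isUnit_iff_isUnit_det, Rd_det]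
  refine isUnit_iff_ne_zero.2 fun h => ?_
  have h1 := Rd_sq hU
  rw [h, mul_zero] at h1
  exact zero_ne_one h1

/-- the lifted matrix -/
def Rd_W {N : ℕ} (c : Fin N → ℤ) (V : Matrix (Fin N) (Fin N) ℤ) :
    Matrix (Fin (N + 1)) (Fin (N + 1)) ℤ :=
  Fin.cons (Pi.single 0 1) (fun i => Fin.cons (c i) (V i))

theorem Rd_W0 {N : ℕ} (c : Fin N → ℤ) (V : Matrix (Fin N) (Fin N) ℤ) :
    Rd_W c V 0 = Pi.single 0 1 := rfl

theorem Rd_Ws {N : ℕ} (c : Fin N → ℤ) (V : Matrix (Fin N) (Fin N) ℤ) (i : Fin N) :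
    Rd_W c V i.succ = Fin.cons (c i) (V i) := rfl

theorem Rd_Wdet {N : ℕ} (c : Fin N → ℤ) (V : Matrix (Fin N) (Fin N) ℤ) :
    (Rd_W c V).det = V.det := by
  rw [Matrix.det_succ_row_zero, Finset.sum_eq_single 0]
  · have h1 : Rd_W c V 0 0 = 1 := by
      rw [Rd_W0]
      exact Pi.single_eq_same 0 1
    have h2 : (Rd_W c V).submatrix Fin.succ (Fin.succAbove 0) = V := by
      ext i j
      rw [Matrix.submatrix_apply, Fin.succAbove_zero, Rd_Ws]
      rfl
    rw [h1, h2]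
    simp
  · intro j _ hj
    have h1 : Rd_W c V 0 j = 0 := by
      rw [Rd_W0]
      exact Pi.single_eq_of_ne hj 1
    rw [h1]
    ring
  · intro h
    exact absurd (Finset.mem_univ 0) h

theorem hermite (N : ℕ) : ∃ C : ℝ, 1 ≤ C ∧ ∀ G : Matrix (Fin N) (Fin N) ℝ, G.PosDef →
    ∃ U : Matrix (Fin N) (Fin N) ℤ, IsUnit U.det ∧ ∏ i, qf G (U i) ≤ C * G.det := by
  induction N with
  | zero =>
    refine ⟨1, le_rfl, fun G hG => ⟨1, ?_, ?_⟩⟩
    · rw [Matrix.det_one]
      exact isUnit_one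
    · rw [Matrix.det_isEmpty, mul_one, Finset.univ_eq_empty, Finset.prod_empty]
  | succ N ih =>
    obtain ⟨C, hC, ih⟩ := ih
    refine ⟨(4 / 3) ^ N * C, ?_, fun G hG => ?_⟩
    · have h1 : (1 : ℝ) ≤ (4 / 3) ^ N := one_le_pow₀ (by norm_num)
      have h2 := mul_le_mul h1 hC zero_le_one (by linarith)
      linarith
    obtain ⟨x, hx0, hmin, hprim⟩ := exists_min hG
    obtain ⟨U, hU, hUx⟩ := unimod hprim
    obtain ⟨G1, hG1⟩ : ∃ G1, G1 = U.map (Int.cast : ℤ → ℝ) * G * (U.map (Int.cast : ℤ → ℝ))ᵀ :=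
      ⟨_, rfl⟩
    have hpd : G1.PosDef := by
      rw [hG1]
      exact Rd_pd hG hU
    have hdet : G1.det = G.det := by
      rw [hG1, Matrix.det_mul, Matrix.det_mul, Matrix.det_transpose, Rd_det]
      linear_combination G.det * Rd_sq hU
    have hqf : ∀ y : Fin (N + 1) → ℤ, qf G1 y = qf G (y ᵥ* U) := by
      intro y
      rw [hG1, Rd_qf]
    have h00 : G1 0 0 = qf G x := by
      refine (qf_single G1).symm.trans ?_
      rw [hqf, Matrix.single_one_vecMul]
      have h1 : U.row 0 = x := hUx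
      rw [h1]
    have hg : 0 < G1 0 0 := by
      rw [h00]
      exact qf_pos hG hx0
    have hmin1 : ∀ y : Fin (N + 1) → ℤ, y ≠ 0 → G1 0 0 ≤ qf G1 y := by
      intro y hy
      rw [h00, hqf]
      apply hmin
      intro h0
      apply hy
      have h1 : (y ᵥ* U) ᵥ* U⁻¹ = 0 := by rw [h0, Matrix.zero_vecMul]
      rw [Matrix.vecMul_vecMul, Matrix.mul_nonsing_inv _ hU, Matrix.vecMul_one] at h1
      exact h1
    obtain ⟨V, hV, hVp⟩ := ih (sch G1) (sch_posDef hpd)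
    obtain ⟨c, hc⟩ : ∃ c : Fin N → ℤ, ∀ i, c i =
        -round ((∑ j, G1 0 j.succ * (V i j : ℝ)) / G1 0 0) := ⟨_, fun i => rfl⟩
    have hVi : ∀ i, V i ≠ 0 := by
      intro i hi
      have h1 : V.det = 0 := Matrix.det_eq_zero_of_row_eq_zero i (fun j => congrFun hi j)
      rw [h1] at hV
      exact not_isUnit_zero hV
    have key : ∀ i : Fin N, qf G1 (Rd_W c V i.succ) ≤ 4 / 3 * qf (sch G1) (V i) := by
      intro i
      have h1 := qf_cons hpd (c i) (V i)
      have h2 : G1 0 0 ≤ qf G1 (Rd_W c V i.succ) := by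
        apply hmin1
        rw [Rd_Ws]
        intro h0
        apply hVi i
        funext j
        have h3 := congrFun h0 j.succ
        rw [Fin.cons_succ] at h3
        exact h3
      have h4 : ((c i : ℝ) + (∑ j, G1 0 j.succ * (V i j : ℝ)) / G1 0 0) ^ 2 ≤ 1 / 4 := by
        have h5 := abs_sub_round ((∑ j, G1 0 j.succ * (V i j : ℝ)) / G1 0 0)
        have h6 : (c i : ℝ) + (∑ j, G1 0 j.succ * (V i j : ℝ)) / G1 0 0 =
            (∑ j, G1 0 j.succ * (V i j : ℝ)) / G1 0 0 -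
            (round ((∑ j, G1 0 j.succ * (V i j : ℝ)) / G1 0 0) : ℝ) := by
          rw [hc, Int.cast_neg]
          ring
        rw [h6, ← sq_abs]
        have h7 := pow_le_pow_left₀ (abs_nonneg _) h5 2
        have e : ((1 : ℝ) / 2) ^ 2 = 1 / 4 := by norm_num
        rwa [e] at h7
      rw [Rd_Ws] at h2 ⊢
      have h8 := mul_le_mul_of_nonneg_left h4 hg.le
      rw [h1] at h2 ⊢
      linarith
    have hq0 : ∀ i : Fin N, 0 ≤ qf G1 (Rd_W c V i.succ) := by
      intro i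
      refine (qf_pos hpd ?_).le
      rw [Rd_Ws]
      intro h0
      apply hVi i
      funext j
      have h3 := congrFun h0 j.succ
      rw [Fin.cons_succ] at h3
      exact h3
    refine ⟨Rd_W c V * U, ?_, ?_⟩
    · rw [Matrix.det_mul, Rd_Wdet]
      exact hV.mul hU
    · have h1 : ∀ i, qf G ((Rd_W c V * U) i) = qf G1 (Rd_W c V i) := by
        intro i
        rw [Matrix.mul_apply_eq_vecMul, hqf]
      rw [Finset.prod_congr rfl (fun i _ => h1 i), Fin.prod_univ_succ, Rd_W0, qf_single]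
      have h2 : ∏ i : Fin N, qf G1 (Rd_W c V i.succ) ≤ ∏ i : Fin N, (4 / 3 * qf (sch G1) (V i)) :=
        Finset.prod_le_prod (fun i _ => hq0 i) (fun i _ => key i)
      rw [Finset.prod_mul_distrib, Finset.prod_const, Finset.card_univ, Fintype.card_fin] at h2
      have h3 : (4 / 3 : ℝ) ^ N * ∏ i : Fin N, qf (sch G1) (V i) ≤
          (4 / 3) ^ N * (C * (sch G1).det) := mul_le_mul_of_nonneg_left hVp (by positivity)
      have h4 := mul_le_mul_of_nonneg_left (h2.trans h3) hg.le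
      refine h4.trans (le_of_eq ?_)
      rw [← hdet, sch_det hpd]
      ring

end H76PP
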