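import Pool.Agent.H76.PP.Gb
import Pool.Agent.H76.PP.Rd

/-!
ROW Gc (project MP_78d38b_PP, about 190 lines): reduced bases of ideals for a weighted norm. Use only the
STATEMENTS `ideal_basis` (Gb), `hermite` (Rd), `qf_pos` (Ra).

PROOF. Let `e`, `b` be as in `ideal_basis`, `E = Matrix.of fun i j => (e i) (b j : L)` (complex). Put
`G i j = ∑ τ, w τ * ((τ (b i)) * conj (τ (b j))).re` (real). Since `w (conj τ) = w τ` and `τ ↦ conj τ` is a permutation
(`ComplexEmbedding.conjugate`, an involution; `conj (τ x) = (conjugate τ) x`) the complex number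
`∑ τ, w τ * τ (b i) * conj (τ (b j))` is real (invariant under conjugation, `Equiv.sum_comp`), so `G` mapped to `ℂ` is
`(Eᴴ) * diagonal (w ∘ e) * E` up to transposition (sum over `τ = e k`). `E` is invertible: `det E ≠ 0` by the formula of
`ideal_basis` (`absNorm I ≠ 0`, `discr L ≠ 0`: `NumberField.discr_ne_zero`).
For a real vector `y`: `y G yᵀ = ∑ τ, w τ ‖τ-row · y‖^2` where `∑ j, y j * τ (b j)`; it is positive for `y ≠ 0` because `E` is
invertible. So `G` is positive definite. For integer vectors `qf G x = ∑ τ, w τ * ‖τ (∑ x i b i)‖^2`.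
`det G = ‖det E‖^2 ∏ w = (absNorm I)^2 |d_L| ∏ w` (`Matrix.det_mul`, `det_conjTranspose`, `det_diagonal`;
`Complex.ofReal` and `Matrix.det`: `RingHom.map_det`).
hermite: `U` with `∏ qf G (U i) ≤ C det G`. New vectors `b' i = ∑ j, U i j • b j ∈ I`; linearly independent over `ℤ` because
`U` has unit determinant, hence over `ℚ` (`LinearIndependent` of the images in `L`: `LinearIndependent.iff_fractionRing` or clear
denominators). `qf G (U i)` is the value of the norm at `b' i`.
-/

set_option autoImplicit false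
open scoped Classical

open NumberField IsDedekindDomain

namespace H76PP

/-- The weighted norm (squared). -/
noncomputable def qw {L : Type} [Field L] [NumberField L] (w : (L →+* ℂ) → ℝ) (x : L) : ℝ :=
  ∑ τ : L →+* ℂ, w τ * ‖τ x‖ ^ 2

/-- The Gram matrix of a family of integers for the weighted norm. -/
noncomputable def Gc_gram {L : Type} [Field L] [NumberField L] {n : ℕ} (w : (L →+* ℂ) → ℝ)
    (b : Fin n → 𝓞 L) : Matrix (Fin n) (Fin n) ℝ :=
  Matrix.of fun i j => ∑ τ : L →+* ℂ, w τ * (τ (b i : L) * (starRingEnd ℂ) (τ (b j : L))).re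

theorem Gc_form {L : Type} [Field L] [NumberField L] {n : ℕ} (w : (L →+* ℂ) → ℝ)
    (b : Fin n → 𝓞 L) (y : Fin n → ℝ) :
    dotProduct y ((Gc_gram w b).mulVec y) =
      ∑ τ : L →+* ℂ, w τ * ‖∑ i, (y i : ℂ) * τ (b i : L)‖ ^ 2 := by
  have h1 : ∀ τ : L →+* ℂ, ‖∑ i, (y i : ℂ) * τ (b i : L)‖ ^ 2 =
      ∑ i, ∑ j, y i * y j * (τ (b i : L) * (starRingEnd ℂ) (τ (b j : L))).re := by
    intro τ
    have h2 : ((‖∑ i, (y i : ℂ) * τ (b i : L)‖ ^ 2 : ℝ) : ℂ) =
        (∑ i, (y i : ℂ) * τ (b i : L)) * (starRingEnd ℂ) (∑ i, (y i : ℂ) * τ (b i : L)) := by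
      rw [Complex.mul_conj, Complex.normSq_eq_norm_sq]
    have h3 := congrArg Complex.re h2
    rw [Complex.ofReal_re] at h3
    rw [h3, map_sum, Finset.sum_mul_sum, Complex.re_sum]
    refine Finset.sum_congr rfl fun i _ => ?_
    rw [Complex.re_sum]
    refine Finset.sum_congr rfl fun j _ => ?_
    rw [map_mul, Complex.conj_ofReal]
    have h4 : (y i : ℂ) * τ (b i : L) * ((y j : ℂ) * (starRingEnd ℂ) (τ (b j : L))) =
        ((y i * y j : ℝ) : ℂ) * (τ (b i : L) * (starRingEnd ℂ) (τ (b j : L))) := by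
      push_cast
      ring
    rw [h4, Complex.re_ofReal_mul]
  calc dotProduct y ((Gc_gram w b).mulVec y)
      = ∑ i, ∑ j, ∑ τ : L →+* ℂ,
          w τ * (y i * y j * (τ (b i : L) * (starRingEnd ℂ) (τ (b j : L))).re) := by
        simp only [dotProduct, Matrix.mulVec, Gc_gram, Matrix.of_apply]
        refine Finset.sum_congr rfl fun i _ => ?_
        rw [Finset.mul_sum]
        refine Finset.sum_congr rfl fun j _ => ?_
        rw [Finset.sum_mul, Finset.mul_sum]
        refine Finset.sum_congr rfl fun τ _ => ?_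
        ring
    _ = ∑ i, ∑ τ : L →+* ℂ, ∑ j,
          w τ * (y i * y j * (τ (b i : L) * (starRingEnd ℂ) (τ (b j : L))).re) :=
        Finset.sum_congr rfl fun i _ => Finset.sum_comm
    _ = ∑ τ : L →+* ℂ, ∑ i, ∑ j,
          w τ * (y i * y j * (τ (b i : L) * (starRingEnd ℂ) (τ (b j : L))).re) := Finset.sum_comm
    _ = ∑ τ : L →+* ℂ, w τ * ‖∑ i, (y i : ℂ) * τ (b i : L)‖ ^ 2 := by
        refine Finset.sum_congr rfl fun τ _ => ?_
        rw [h1, Finset.mul_sum]
        refine Finset.sum_congr rfl fun i _ => ?_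
        rw [Finset.mul_sum]

theorem Gc_real {L : Type} [Field L] [NumberField L] {n : ℕ} {w : (L →+* ℂ) → ℝ}
    (hw : ∀ τ, w (ComplexEmbedding.conjugate τ) = w τ) (b : Fin n → 𝓞 L) (i j : Fin n) :
    ((Gc_gram w b i j : ℝ) : ℂ) =
      ∑ τ : L →+* ℂ, (w τ : ℂ) * (τ (b i : L) * (starRingEnd ℂ) (τ (b j : L))) := by
  set S : ℂ := ∑ τ : L →+* ℂ, (w τ : ℂ) * (τ (b i : L) * (starRingEnd ℂ) (τ (b j : L))) with hS
  have hre : S.re = Gc_gram w b i j := by
    rw [hS, Complex.re_sum]
    simp only [Gc_gram, Matrix.of_apply]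
    refine Finset.sum_congr rfl fun τ _ => ?_
    rw [Complex.re_ofReal_mul]
  have hconj : (starRingEnd ℂ) S = S := by
    rw [hS, map_sum]
    let c : (L →+* ℂ) ≃ (L →+* ℂ) :=
      ⟨ComplexEmbedding.conjugate, ComplexEmbedding.conjugate,
        fun τ => star_star τ, fun τ => star_star τ⟩
    rw [← Equiv.sum_comp c (fun τ : L →+* ℂ =>
      (w τ : ℂ) * (τ (b i : L) * (starRingEnd ℂ) (τ (b j : L))))]
    refine Finset.sum_congr rfl fun τ _ => ?_
    have h1 : c τ = ComplexEmbedding.conjugate τ := rfl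
    rw [h1, hw τ, map_mul, map_mul, Complex.conj_ofReal, Complex.conj_conj,
      ComplexEmbedding.conjugate_coe_eq, ComplexEmbedding.conjugate_coe_eq, Complex.conj_conj]
  rw [← hre]
  exact Complex.conj_eq_iff_re.1 hconj

theorem Gc_coe {L : Type} [Field L] [NumberField L] {n : ℕ} (τ : L →+* ℂ) (u : Fin n → ℤ)
    (b : Fin n → 𝓞 L) :
    τ (((∑ j, u j • b j : 𝓞 L)) : L) = ∑ j, (u j : ℂ) * τ (b j : L) := by
  have h1 : (((∑ j, u j • b j : 𝓞 L)) : L) = ∑ j, (u j : L) * (b j : L) := by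
    have h2 : (((∑ j, u j • b j : 𝓞 L)) : L) = algebraMap (𝓞 L) L (∑ j, u j • b j) := rfl
    rw [h2, map_sum]
    refine Finset.sum_congr rfl fun j _ => ?_
    rw [zsmul_eq_mul, map_mul, map_intCast]
  rw [h1, map_sum]
  refine Finset.sum_congr rfl fun j _ => ?_
  rw [map_mul, map_intCast]

theorem ideal_reduced (N : ℕ) : ∃ C : ℝ, 1 ≤ C ∧ ∀ (L : Type) [Field L] [NumberField L],
    Module.finrank ℚ L = N → ∀ I : Ideal (𝓞 L), I ≠ ⊥ → ∀ w : (L →+* ℂ) → ℝ, (∀ τ, 0 < w τ) →
      (∀ τ, w (ComplexEmbedding.conjugate τ) = w τ) →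
      ∃ b : Fin N → 𝓞 L, (∀ i, b i ∈ I) ∧ LinearIndependent ℚ (fun i => (b i : L)) ∧
        ∏ i, qw w (b i : L) ≤ C * ((Ideal.absNorm I : ℝ) ^ 2 *
          (((NumberField.discr L).natAbs : ℕ) : ℝ) * ∏ τ, w τ) := by
  obtain ⟨C, hC1, hC⟩ := hermite N
  refine ⟨C, hC1, ?_⟩
  intro L _ _ hN I hI w hw0 hwc
  subst hN
  obtain ⟨e, b, hbI, -, hdet⟩ := ideal_basis hI
  set E : Matrix (Fin (Module.finrank ℚ L)) (Fin (Module.finrank ℚ L)) ℂ :=
    Matrix.of fun i j => (e i) (b j : L) with hE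
  have hdisc : (((NumberField.discr L).natAbs : ℕ) : ℝ) ≠ 0 := by
    rw [Nat.cast_ne_zero, Int.natAbs_ne_zero]
    exact NumberField.discr_ne_zero L
  have hnorm : (Ideal.absNorm I : ℝ) ≠ 0 := by
    rw [Nat.cast_ne_zero]
    exact fun h => hI (Ideal.absNorm_eq_zero_iff.1 h)
  have hE0 : E.det ≠ 0 := by
    intro h
    rw [h, norm_zero] at hdet
    have h2 : (Ideal.absNorm I : ℝ) ^ 2 * (((NumberField.discr L).natAbs : ℕ) : ℝ) ≠ 0 :=
      mul_ne_zero (pow_ne_zero 2 hnorm) hdisc
    apply h2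
    rw [← hdet]
    norm_num
  set G := Gc_gram w b with hG
  -- a vector killed by all embeddings is zero
  have hinj : ∀ y : Fin (Module.finrank ℚ L) → ℂ,
      (∀ τ : L →+* ℂ, ∑ i, y i * τ (b i : L) = 0) → y = 0 := by
    intro y hy
    apply Matrix.eq_zero_of_mulVec_eq_zero hE0
    funext k
    have h1 := hy (e k)
    simp only [Matrix.mulVec, dotProduct, hE, Matrix.of_apply, Pi.zero_apply]
    rw [← h1]
    exact Finset.sum_congr rfl fun i _ => mul_comm _ _
  have hsymm : G.IsHermitian := by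
    ext i j
    simp only [Matrix.conjTranspose_apply, star_trivial, hG, Gc_gram, Matrix.of_apply]
    refine Finset.sum_congr rfl fun τ _ => ?_
    congr 1
    simp only [Complex.mul_re, Complex.conj_re, Complex.conj_im]
    ring
  have hpos : G.PosDef := by
    apply Matrix.PosDef.of_dotProduct_mulVec_pos hsymm
    intro y hy
    rw [star_trivial, hG, Gc_form]
    have hnn : ∀ τ ∈ (Finset.univ : Finset (L →+* ℂ)),
        0 ≤ w τ * ‖∑ i, (y i : ℂ) * τ (b i : L)‖ ^ 2 :=
      fun τ _ => mul_nonneg (hw0 τ).le (by positivity)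
    refine lt_of_le_of_ne (Finset.sum_nonneg hnn) ?_
    intro h0
    have h1 := (Finset.sum_eq_zero_iff_of_nonneg hnn).1 h0.symm
    apply hy
    have h2 : (fun i => (y i : ℂ)) = 0 := by
      apply hinj
      intro τ
      have h3 := h1 τ (Finset.mem_univ _)
      rcases mul_eq_zero.1 h3 with h4 | h4
      · exact absurd h4 (hw0 τ).ne'
      · exact norm_eq_zero.1 (eq_zero_of_pow_eq_zero h4)
    funext i
    have h3 := congrFun h2 i
    simpa using h3
  -- the determinant
  have hGdet : G.det = (Ideal.absNorm I : ℝ) ^ 2 *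
      (((NumberField.discr L).natAbs : ℕ) : ℝ) * ∏ τ, w τ := by
    have h1 : G.map (fun x : ℝ => (x : ℂ)) =
        E.transpose * Matrix.diagonal (fun k => (w (e k) : ℂ)) * (E.map (starRingEnd ℂ)) := by
      ext i j
      rw [Matrix.map_apply, hG, Gc_real hwc, Matrix.mul_apply]
      simp only [Matrix.mul_diagonal, Matrix.transpose_apply, Matrix.map_apply, hE,
        Matrix.of_apply]
      rw [← Equiv.sum_comp e]
      refine Finset.sum_congr rfl fun k _ => ?_
      ring
    have h2 : ((G.det : ℝ) : ℂ) = E.det * (∏ k, (w (e k) : ℂ)) * (starRingEnd ℂ) E.det := by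
      have h3 : ((G.det : ℝ) : ℂ) = (G.map (fun x : ℝ => (x : ℂ))).det :=
        RingHom.map_det Complex.ofRealHom G
      rw [h3, h1, Matrix.det_mul, Matrix.det_mul, Matrix.det_transpose, Matrix.det_diagonal]
      have h4 : (E.map (starRingEnd ℂ)).det = (starRingEnd ℂ) E.det := by
        have := RingHom.map_det (starRingEnd ℂ) E
        rw [this]
        rfl
      rw [h4]
    have h5 : ((G.det : ℝ) : ℂ) = ((‖E.det‖ ^ 2 * ∏ τ, w τ : ℝ) : ℂ) := by
      rw [h2]
      have h6 : E.det * (∏ k, (w (e k) : ℂ)) * (starRingEnd ℂ) E.det =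
          (E.det * (starRingEnd ℂ) E.det) * (∏ k, (w (e k) : ℂ)) := by ring
      rw [h6, Complex.mul_conj, Complex.normSq_eq_norm_sq]
      push_cast
      congr 1
      exact Equiv.prod_comp e (fun τ => (w τ : ℂ))
    have h7 := Complex.ofReal_injective h5
    rw [h7, hdet]
  obtain ⟨U, hU, hUle⟩ := hC G hpos
  refine ⟨fun i => ∑ j, U i j • b j, fun i => ?_, ?_, ?_⟩
  · exact Submodule.sum_mem _ fun j _ => zsmul_mem (hbI j) _
  · rw [Fintype.linearIndependent_iff]
    intro c hc
    have hU0 : (U.map (fun z : ℤ => (z : ℚ))).det ≠ 0 := by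
      have h1 : (U.map (fun z : ℤ => (z : ℚ))).det = ((U.det : ℤ) : ℚ) := by
        have := RingHom.map_det (Int.castRingHom ℚ) U
        simpa using this.symm
      rw [h1]
      exact_mod_cast hU.ne_zero
    have hc' : Matrix.vecMul c (U.map (fun z : ℤ => (z : ℚ))) = 0 := by
      have h2 : (fun j => ((Matrix.vecMul c (U.map (fun z : ℤ => (z : ℚ))) j : ℚ) : ℂ)) = 0 := by
        apply hinj
        intro τ
        have h3 := congrArg τ hc
        rw [map_zero, map_sum] at h3
        rw [← h3]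
        simp only [Matrix.vecMul, dotProduct, Matrix.map_apply]
        have h4 : ∀ i, τ (c i • (((∑ j, U i j • b j : 𝓞 L)) : L)) =
            ∑ j, (c i : ℂ) * ((U i j : ℂ) * τ (b j : L)) := by
          intro i
          rw [Rat.smul_def, map_mul, map_ratCast, ← Finset.mul_sum]
          congr 1
          exact Gc_coe τ (U i) b
        rw [Finset.sum_congr rfl fun i _ => h4 i, Finset.sum_comm]
        refine Finset.sum_congr rfl fun j _ => ?_
        push_cast
        rw [Finset.sum_mul]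
        refine Finset.sum_congr rfl fun i _ => ?_
        ring
      funext j
      have h5 := congrFun h2 j
      simpa using h5
    have h6 := Matrix.eq_zero_of_vecMul_eq_zero hU0 hc'
    intro i
    rw [h6]
    rfl
  · have h1 : ∀ i, qw w ((∑ j, U i j • b j : 𝓞 L) : L) = qf G (U i) := by
      intro i
      rw [qf, hG, Gc_form, qw]
      refine Finset.sum_congr rfl fun τ _ => ?_
      congr 3
      rw [Gc_coe τ (U i) b]
      push_cast
      rfl
    calc ∏ i, qw w ((∑ j, U i j • b j : 𝓞 L) : L) = ∏ i, qf G (U i) :=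
          Finset.prod_congr rfl fun i _ => h1 i
      _ ≤ C * G.det := hUle
      _ = _ := by rw [hGdet]

end H76PP
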