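import Pool.Agent.H76.PP.E0

/-!
ROW Gd (project MP_78d38b_PP, about 170 lines, Mathlib only): choice of three vectors.

PROOF. `n = [K : ℚ] > 0`, `[L : ℚ] = 3 n`. Let `r i ≥ 0`... first sort: there is a permutation `π` with `r ∘ π` monotone
(`Tuple.sort`, `Tuple.monotone_sort`); replace `b` by `b ∘ π` (linear independence and the product are unchanged). So assume
`r` monotone. `e 0 = 0` (index). Let `i₁` be the least index with `b i₁` not in `K • b 0`: it exists and `i₁ ≤ n`, because `b 0, .., b n` are
`n + 1` elements independent over `ℚ` and `K • b 0` has dimension `n` over `ℚ`. Let `i₂` be the least index with `b i₂` not in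
`K b 0 + K b i₁` (dimension `2n` over `ℚ`): `i₂ ≤ 2 n`. The three vectors are independent over `K`. `0 < i₁ < i₂` (minimality: `b i`
for `i < i₁` lies in `K b 0`).
Product: `∏ r i ≥ (r 0)^n (r i₁)^n (r i₂)^n`: the factors with index in `[0,n)` are `≥ r 0`, in `[n,2n)` they are `≥ r n ≥ r i₁`, in
`[2n,3n)` they are `≥ r (2n) ≥ r i₂`. (Split the product over `Fin (3n)`: `Fin.prod_univ_eq_prod_range`,
`Finset.prod_range_mul..`, or show `∏ i, r i ≥ ∏ i, g i` with `g i = r 0 / r i₁ / r i₂` according to `i / n` by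
`Finset.prod_le_prod` and compute `∏ g`.)
-/

set_option autoImplicit false
open scoped Classical

open NumberField IsDedekindDomain

namespace H76PP

/-- among the first `j n + 1` vectors there is one outside a given subspace of dimension `j` -/
lemma Gd_out {K L : Type} [Field K] [NumberField K] [Field L] [NumberField L] [Algebra K L]
    {N : ℕ} {b : Fin N → L} (hb : LinearIndependent ℚ b) (V : Submodule K L) (j : ℕ)
    (hV : Module.finrank K V ≤ j) (hj : j * Module.finrank ℚ K < N) :
    ∃ i : Fin N, (i : ℕ) ≤ j * Module.finrank ℚ K ∧ b i ∉ V := by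
  by_contra hcon
  push Not at hcon
  have hfd : FiniteDimensional K L := Module.Finite.of_restrictScalars_finite ℚ K L
  have h1 : Module.finrank ℚ K * Module.finrank K V = Module.finrank ℚ V :=
    Module.finrank_mul_finrank ℚ K V
  have hle : j * Module.finrank ℚ K + 1 ≤ N := hj
  let c : Fin (j * Module.finrank ℚ K + 1) → V := fun i =>
    ⟨b (Fin.castLE hle i), hcon _ (by
      have := i.2
      simp only [Fin.val_castLE]
      omega)⟩
  have hc : LinearIndependent ℚ c := by
    have h2 : LinearIndependent ℚ (fun i => b (Fin.castLE hle i)) :=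
      hb.comp _ (Fin.castLE_injective hle)
    have h3 : (fun i => b (Fin.castLE hle i)) =
        ((V.subtype.restrictScalars ℚ : V →ₗ[ℚ] L) : V → L) ∘ c := by
      funext i
      rfl
    rw [h3] at h2
    exact h2.of_comp _
  haveI : Module.Finite ℚ V := Module.Finite.trans K V
  have h4 := hc.fintype_card_le_finrank
  rw [Fintype.card_fin, ← h1] at h4
  have h5 : Module.finrank ℚ K * Module.finrank K V ≤ Module.finrank ℚ K * j :=
    Nat.mul_le_mul_left _ hV
  rw [mul_comm j] at h4
  omega

/-- the product -/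
lemma Gd_prod {n N : ℕ} (hN : N = 3 * n) (hn : 0 < n) (r : Fin N → ℝ) (hr : ∀ i, 0 ≤ r i)
    (hmono : Monotone r) {i0 i1 i2 : Fin N} (h0 : (i0 : ℕ) = 0) (h1 : (i1 : ℕ) ≤ n)
    (h2 : (i2 : ℕ) ≤ 2 * n) : (r i0 * r i1 * r i2) ^ n ≤ ∏ i, r i := by
  set f : ℕ → ℝ := fun i => if i < n then r i0 else if i < 2 * n then r i1 else r i2 with hf
  have e1 : ∏ i : Fin N, f i = (r i0 * r i1 * r i2) ^ n := by
    rw [Fin.prod_univ_eq_prod_range f N, hN, show 3 * n = n + n + n by ring,
      Finset.prod_range_add, Finset.prod_range_add]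
    have a1 : ∏ x ∈ Finset.range n, f x = r i0 ^ n := by
      rw [Finset.prod_congr rfl (g := fun _ => r i0), Finset.prod_const, Finset.card_range]
      intro x hx
      simp only [hf]
      rw [if_pos (Finset.mem_range.1 hx)]
    have a2 : ∏ x ∈ Finset.range n, f (n + x) = r i1 ^ n := by
      rw [Finset.prod_congr rfl (g := fun _ => r i1), Finset.prod_const, Finset.card_range]
      intro x hx
      have := Finset.mem_range.1 hx
      simp only [hf]
      rw [if_neg (by omega), if_pos (by omega)]
    have a3 : ∏ x ∈ Finset.range n, f (n + n + x) = r i2 ^ n := by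
      rw [Finset.prod_congr rfl (g := fun _ => r i2), Finset.prod_const, Finset.card_range]
      intro x hx
      have := Finset.mem_range.1 hx
      simp only [hf]
      rw [if_neg (by omega), if_neg (by omega)]
    rw [a1, a2, a3, ← mul_pow, ← mul_pow]
  rw [← e1]
  refine Finset.prod_le_prod (fun i _ => ?_) (fun i _ => ?_)
  · simp only [hf]
    split_ifs
    · exact hr _
    · exact hr _
    · exact hr _
  · simp only [hf]
    split_ifs with g1 g2
    · apply hmono
      rw [Fin.le_def, h0]
      exact Nat.zero_le _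
    · apply hmono
      rw [Fin.le_def]
      omega
    · apply hmono
      rw [Fin.le_def]
      omega

/-- the case of a monotone family -/
lemma Gd_mono {K L : Type} [Field K] [NumberField K] [Field L] [NumberField L] [Algebra K L]
    {N : ℕ} (hN : N = 3 * Module.finrank ℚ K) {b : Fin N → L}
    (hb : LinearIndependent ℚ b) (r : Fin N → ℝ) (hr : ∀ i, 0 ≤ r i) (hmono : Monotone r) :
    ∃ e : Fin 3 → Fin N, LinearIndependent K (fun i => b (e i)) ∧ r (e 0) ≤ r (e 1) ∧
      r (e 1) ≤ r (e 2) ∧ (r (e 0) * r (e 1) * r (e 2)) ^ (Module.finrank ℚ K) ≤ ∏ i, r i := by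
  have hn : 0 < Module.finrank ℚ K := Module.finrank_pos
  set n := Module.finrank ℚ K with hndef
  have hfd : FiniteDimensional K L := Module.Finite.of_restrictScalars_finite ℚ K L
  have hNpos : 0 < N := by omega
  set i0 : Fin N := ⟨0, hNpos⟩ with hi0
  obtain ⟨i1, hi1, hi1'⟩ := Gd_out hb (Submodule.span K (Set.range ![b i0])) 1
    ((finrank_range_le_card _).trans (by simp)) (by omega)
  obtain ⟨i2, hi2, hi2'⟩ := Gd_out hb (Submodule.span K (Set.range ![b i1, b i0])) 2
    ((finrank_range_le_card _).trans (by simp)) (by omega)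
  rw [← hndef, one_mul] at hi1
  rw [← hndef] at hi2
  have h00 : b i0 ≠ 0 := hb.ne_zero i0
  have hlin : LinearIndependent K ![b i2, b i1, b i0] := by
    rw [show (![b i2, b i1, b i0] : Fin 3 → L) = Fin.cons (b i2) ![b i1, b i0] from rfl,
      linearIndependent_finCons]
    refine ⟨?_, hi2'⟩
    rw [show (![b i1, b i0] : Fin 2 → L) = Fin.cons (b i1) ![b i0] from rfl,
      linearIndependent_finCons]
    refine ⟨?_, hi1'⟩
    rw [linearIndependent_unique_iff]
    exact h00
  rcases le_total i1 i2 with h | h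
  · refine ⟨![i0, i1, i2], ?_, ?_, ?_, ?_⟩
    · have h2 := hlin.comp ![2, 1, 0] (by decide)
      have e : (![b i2, b i1, b i0] ∘ ![2, 1, 0] : Fin 3 → L) = fun i => b (![i0, i1, i2] i) := by
        funext i
        fin_cases i <;> rfl
      rw [e] at h2
      exact h2
    · exact hmono (by rw [Fin.le_def]; exact Nat.zero_le _)
    · exact hmono h
    · exact Gd_prod hN hn r hr hmono rfl hi1 hi2
  · refine ⟨![i0, i2, i1], ?_, ?_, ?_, ?_⟩
    · have h2 := hlin.comp ![2, 0, 1] (by decide)
      have e : (![b i2, b i1, b i0] ∘ ![2, 0, 1] : Fin 3 → L) = fun i => b (![i0, i2, i1] i) := by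
        funext i
        fin_cases i <;> rfl
      rw [e] at h2
      exact h2
    · exact hmono (by rw [Fin.le_def]; exact Nat.zero_le _)
    · exact hmono h
    · have h3 : (i2 : ℕ) ≤ n := (Fin.le_def.1 h).trans hi1
      have h4 : (i1 : ℕ) ≤ 2 * n := by omega
      exact Gd_prod hN hn r hr hmono rfl h3 h4

theorem select {K L : Type} [Field K] [NumberField K] [Field L] [NumberField L] [Algebra K L]
    (h3 : Module.finrank K L = 3) {N : ℕ} (hN : N = 3 * Module.finrank ℚ K) {b : Fin N → L}
    (hb : LinearIndependent ℚ b) (r : Fin N → ℝ) (hr : ∀ i, 0 ≤ r i) :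
    ∃ e : Fin 3 → Fin N, LinearIndependent K (fun i => b (e i)) ∧ r (e 0) ≤ r (e 1) ∧
      r (e 1) ≤ r (e 2) ∧ (r (e 0) * r (e 1) * r (e 2)) ^ (Module.finrank ℚ K) ≤ ∏ i, r i := by
  have _ := h3
  obtain ⟨e, h1, h2, h3, h4⟩ := Gd_mono (K := K) hN (b := b ∘ Tuple.sort r)
    (hb.comp _ (Tuple.sort r).injective) (r ∘ Tuple.sort r) (fun i => hr _) (Tuple.monotone_sort r)
  refine ⟨fun i => Tuple.sort r (e i), h1, h2, h3, ?_⟩
  have h5 : ∏ i, (r ∘ Tuple.sort r) i = ∏ i, r i := Equiv.prod_comp (Tuple.sort r) r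
  rw [h5] at h4
  exact h4

end H76PP
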