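import Pool.Agent.H76.PP.Ga
import Pool.Agent.H76.PP.Gc
import Pool.Agent.H76.PP.Gd
import Pool.Agent.H76.PP.Eb

/-!
ROW Ge (project MP_78d38b_PP, about 170 lines): (5.3) of the note, three short independent vectors. Use only the
STATEMENTS of the imported rows (`disc_le`, `ideal_reduced`, `select`, `Cub.co_bound`, `Cub.root_bound`, `Cub.der_ne`).

PROOF. reduce: `n = [K : ℚ]`, `N = 3 n = [L : ℚ]` (`Module.finrank_mul_finrank`, `Cub.finrank`). `wt τ = 1 / (‖τ δ‖ ‖τ (3θ²+A)‖)` is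
positive (`Cub.der_ne`) and invariant under conjugation of `τ`. `ideal_reduced N` for `I` gives `b` with
`∏ qw (b i) ≤ C (absNorm I)^2 |d_L| ∏ wt`; `(absNorm I)^2 = absNorm (span {δ}) = ∏ ‖τ δ‖` (norm of `δ`,
`Algebra.norm_eq_prod_embeddings`), `|d_L| ≤ |d_K|^3 ∏ ‖τ (3θ²+A)‖`; so the right side is `≤ C |d_K|^3 =: C'`.
`select` with `r i = √(qw (b i))`: `(l 0 * l 1 * l 2)^n ≤ √(∏ qw) ≤ √C'`, so the product is at most `max 1 (√C')` (if it were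
larger its `n`-th power would be `≥` itself `> √C'`; `n ≥ 1`). The constant depends on `K` only.
mx_bound: `co_bound` for `z = x y δ⁻¹`: `‖s (co 2 z)‖ ≤ ∑ τ, wt τ ‖τ x‖ ‖τ y‖ ≤ √(qw x) √(qw y)` (Cauchy-Schwarz:
`Finset.sum_mul_sq_le_sq_mul_sq` or `Finset.inner_mul_le_norm_mul_norm`, with `√(wt τ) ‖τ x‖`). nx_bound: the same with
the factor `‖τ θ‖ ≤ 2 X` (root_bound).
-/

set_option autoImplicit false
open scoped Classical

open NumberField IsDedekindDomain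

namespace H76PP

/-- The weights. -/
noncomputable def wt {L : Type} [Field L] (δ d : L) (τ : L →+* ℂ) : ℝ := 1 / (‖τ δ‖ * ‖τ d‖)

lemma Ge_wt_nonneg {L : Type} [Field L] (δ d : L) (τ : L →+* ℂ) : 0 ≤ wt δ d τ := by
  unfold wt
  positivity

lemma Ge_wt_pos {L : Type} [Field L] {δ d : L} (hδ : δ ≠ 0) (hd : d ≠ 0) (τ : L →+* ℂ) :
    0 < wt δ d τ := by
  unfold wt
  have h1 : 0 < ‖τ δ‖ := norm_pos_iff.2 ((map_ne_zero τ).2 hδ)
  have h2 : 0 < ‖τ d‖ := norm_pos_iff.2 ((map_ne_zero τ).2 hd)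
  positivity

lemma Ge_cs {L : Type} [Field L] [NumberField L] (w : (L →+* ℂ) → ℝ) (hw : ∀ τ, 0 ≤ w τ)
    (x y : L) : ∑ τ : L →+* ℂ, w τ * (‖τ x‖ * ‖τ y‖) ≤ √(qw w x) * √(qw w y) := by
  have h := Real.sum_mul_le_sqrt_mul_sqrt Finset.univ (fun τ : L →+* ℂ => √(w τ) * ‖τ x‖)
    (fun τ : L →+* ℂ => √(w τ) * ‖τ y‖)
  have e1 : ∀ (z : L) (τ : L →+* ℂ), (√(w τ) * ‖τ z‖) ^ 2 = w τ * ‖τ z‖ ^ 2 := by
    intro z τ
    rw [mul_pow, Real.sq_sqrt (hw τ)]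
  simp only [e1] at h
  unfold qw
  refine le_trans (le_of_eq ?_) h
  refine Finset.sum_congr rfl fun τ _ => ?_
  have := Real.mul_self_sqrt (hw τ)
  calc w τ * (‖τ x‖ * ‖τ y‖) = (√(w τ) * √(w τ)) * (‖τ x‖ * ‖τ y‖) := by rw [this]
    _ = √(w τ) * ‖τ x‖ * (√(w τ) * ‖τ y‖) := by ring

lemma Ge_norm (L : Type) [Field L] [NumberField L] (x : L) :
    ∏ τ : L →+* ℂ, ‖τ x‖ = |((Algebra.norm ℚ x : ℚ) : ℝ)| := by
  have h1 := congr_arg (‖·‖) (Algebra.norm_eq_prod_embeddings ℚ ℂ x)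
  rw [norm_prod, ← Fintype.prod_equiv (RingHom.equivRatAlgHom L ℂ) (fun f => ‖f x‖)
      (fun φ => ‖φ x‖) fun _ => by simp [RingHom.equivRatAlgHom_apply]] at h1
  rw [← h1, eq_ratCast, ← Real.norm_eq_abs, ← Complex.norm_real, Complex.ofReal_ratCast]

lemma Ge_absNorm {L : Type} [Field L] [NumberField L] (δ : 𝓞 L) (I : Ideal (𝓞 L))
    (hI : I ^ 2 = Ideal.span {δ}) :
    ((Ideal.absNorm I : ℕ) : ℝ) ^ 2 = ∏ τ : L →+* ℂ, ‖τ (δ : L)‖ := by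
  have h1 : (Ideal.absNorm I) ^ 2 = (Algebra.norm ℤ δ).natAbs := by
    rw [← Ideal.absNorm_span_singleton, ← hI, map_pow]
  rw [Ge_norm, ← Algebra.coe_norm_int]
  have h2 : ((Ideal.absNorm I : ℕ) : ℝ) ^ 2 = (((Algebra.norm ℤ δ).natAbs : ℕ) : ℝ) := by
    exact_mod_cast h1
  rw [h2, Nat.cast_natAbs, Int.cast_abs]
  norm_cast

lemma Ge_pow {n : ℕ} (hn : 0 < n) {p S : ℝ} (h : p ^ n ≤ S) : p ≤ max 1 S := by
  by_cases h1 : p ≤ 1
  · exact h1.trans (le_max_left _ _)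
  · have h2 : 1 ≤ p := (not_le.1 h1).le
    exact ((le_self_pow₀ h2 hn.ne').trans h).trans (le_max_right _ _)

theorem reduce (K : Type) [Field K] [NumberField K] : ∃ C₂ : ℝ, 1 ≤ C₂ ∧
    ∀ (L : Type) [Field L] [NumberField L] [Algebra K L] (A B : 𝓞 K) (θ : L),
      Cub K L (A : K) (B : K) θ → (4 * (A : K) ^ 3 + 27 * (B : K) ^ 2) ≠ 0 →
      ∀ (δ : 𝓞 L) (I : Ideal (𝓞 L)), δ ≠ 0 → I ^ 2 = Ideal.span {δ} →
      ∃ e : Fin 3 → 𝓞 L, (∀ i, e i ∈ I) ∧ LinearIndependent K (fun i => (e i : L)) ∧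
        ∃ l : Fin 3 → ℝ,
          (∀ i, l i = √(qw (wt (δ : L) (3 * θ ^ 2 + algebraMap K L (A : K))) (e i : L))) ∧
          l 0 ≤ l 1 ∧ l 1 ≤ l 2 ∧ l 0 * l 1 * l 2 ≤ C₂ := by
  obtain ⟨C, hC1, hC⟩ := ideal_reduced (3 * Module.finrank ℚ K)
  refine ⟨max 1 (√(C * (((NumberField.discr K).natAbs : ℕ) : ℝ) ^ 3)), le_max_left _ _, ?_⟩
  intro L _ _ _ A B θ h hd δ I hδ hI
  obtain ⟨d, hdd⟩ : ∃ d : L, d = 3 * θ ^ 2 + algebraMap K L (A : K) := ⟨_, rfl⟩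
  have hd0 : d ≠ 0 := by
    rw [hdd]
    exact h.der_ne hd
  have hδL : (δ : L) ≠ 0 := by
    intro h0
    exact hδ (RingOfIntegers.coe_injective (h0.trans (map_zero _).symm))
  rw [← hdd]
  have hfin : Module.finrank ℚ L = 3 * Module.finrank ℚ K := by
    rw [← Module.finrank_mul_finrank ℚ K L, h.finrank, mul_comm]
  have hI0 : I ≠ ⊥ := by
    intro h0
    rw [h0] at hI
    have h1 : (⊥ : Ideal (𝓞 L)) ^ 2 = ⊥ := by
      rw [pow_two, Ideal.bot_mul]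
    rw [h1] at hI
    exact hδ (Ideal.span_singleton_eq_bot.1 hI.symm)
  have hw := Ge_wt_pos hδL hd0
  have hwc : ∀ τ, wt (δ : L) d (ComplexEmbedding.conjugate τ) = wt (δ : L) d τ := by
    intro τ
    unfold wt
    rw [ComplexEmbedding.conjugate_coe_eq, ComplexEmbedding.conjugate_coe_eq, Complex.norm_conj,
      Complex.norm_conj]
  obtain ⟨b, hb, hli, hprod⟩ := hC L hfin I hI0 _ hw hwc
  have hbd : (Ideal.absNorm I : ℝ) ^ 2 * (((NumberField.discr L).natAbs : ℕ) : ℝ) *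
      ∏ τ, wt (δ : L) d τ ≤ (((NumberField.discr K).natAbs : ℕ) : ℝ) ^ 3 := by
    have h1 := disc_le h hd
    rw [← hdd] at h1
    rw [Ge_absNorm δ I hI]
    unfold wt
    have h2 : ∏ τ : L →+* ℂ, 1 / (‖τ (δ : L)‖ * ‖τ d‖) =
        1 / ((∏ τ : L →+* ℂ, ‖τ (δ : L)‖) * ∏ τ : L →+* ℂ, ‖τ d‖) := by
      rw [Finset.prod_div_distrib, Finset.prod_const_one, Finset.prod_mul_distrib]
    rw [h2]
    have p1 : 0 < ∏ τ : L →+* ℂ, ‖τ (δ : L)‖ :=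
      Finset.prod_pos fun τ _ => norm_pos_iff.2 ((map_ne_zero τ).2 hδL)
    have p2 : 0 < ∏ τ : L →+* ℂ, ‖τ d‖ :=
      Finset.prod_pos fun τ _ => norm_pos_iff.2 ((map_ne_zero τ).2 hd0)
    rw [mul_one_div, div_le_iff₀ (by positivity)]
    calc (∏ τ : L →+* ℂ, ‖τ (δ : L)‖) * (((NumberField.discr L).natAbs : ℕ) : ℝ)
        ≤ (∏ τ : L →+* ℂ, ‖τ (δ : L)‖) * ((((NumberField.discr K).natAbs : ℕ) : ℝ) ^ 3 *
          ∏ τ : L →+* ℂ, ‖τ d‖) := mul_le_mul_of_nonneg_left h1 p1.le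
      _ = (((NumberField.discr K).natAbs : ℕ) : ℝ) ^ 3 * ((∏ τ : L →+* ℂ, ‖τ (δ : L)‖) *
          ∏ τ : L →+* ℂ, ‖τ d‖) := by ring
  have hprod2 : ∏ i, qw (wt (δ : L) d) (b i : L) ≤
      C * (((NumberField.discr K).natAbs : ℕ) : ℝ) ^ 3 :=
    hprod.trans (mul_le_mul_of_nonneg_left hbd (by linarith))
  obtain ⟨e, he1, he2, he3, he4⟩ := select h.finrank rfl hli
    (fun i => √(qw (wt (δ : L) d) (b i : L))) (fun i => Real.sqrt_nonneg _)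
  refine ⟨fun i => b (e i), fun i => hb _, he1, fun i => √(qw (wt (δ : L) d) (b (e i) : L)),
    fun i => rfl, he2, he3, ?_⟩
  refine Ge_pow Module.finrank_pos (he4.trans ?_)
  have hqn : ∀ i, 0 ≤ qw (wt (δ : L) d) (b i : L) := by
    intro i
    unfold qw
    exact Finset.sum_nonneg fun τ _ => mul_nonneg (hw τ).le (by positivity)
  rw [← Real.sqrt_prod _ fun i _ => hqn i]
  exact Real.sqrt_le_sqrt hprod2

section

variable {K L : Type} [Field K] [NumberField K] [Field L] [NumberField L] [Algebra K L]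
  {A B : 𝓞 K} {θ : L}

theorem mx_bound (h : Cub K L (A : K) (B : K) θ) (hd : (4 * (A : K) ^ 3 + 27 * (B : K) ^ 2) ≠ 0)
    {δ : L} (hδ : δ ≠ 0) (s : K →+* ℂ) (x y : L) : ‖s (h.co 2 (x * y * δ⁻¹))‖ ≤
      √(qw (wt δ (3 * θ ^ 2 + algebraMap K L (A : K))) x) *
        √(qw (wt δ (3 * θ ^ 2 + algebraMap K L (A : K))) y) := by
  obtain ⟨d, hdd⟩ : ∃ d : L, d = 3 * θ ^ 2 + algebraMap K L (A : K) := ⟨_, rfl⟩
  have h1 := h.co_bound hd s (x * y * δ⁻¹)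
  rw [← hdd] at h1 ⊢
  refine h1.trans (le_trans (le_of_eq ?_) (Ge_cs (wt δ d) (Ge_wt_nonneg δ d) x y))
  refine Finset.sum_congr rfl fun τ _ => ?_
  unfold wt
  rw [map_mul, map_mul, map_inv₀, norm_mul, norm_mul, norm_inv]
  field_simp

theorem nx_bound (h : Cub K L (A : K) (B : K) θ) (hd : (4 * (A : K) ^ 3 + 27 * (B : K) ^ 2) ≠ 0)
    {X : ℝ} (hX : 0 ≤ X) (hA : A ∈ bx K (X ^ 2)) (hB : B ∈ bx K (X ^ 3))
    {δ : L} (hδ : δ ≠ 0) (s : K →+* ℂ) (x y : L) : ‖s (h.co 2 (θ * (x * y * δ⁻¹)))‖ ≤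
      2 * X * (√(qw (wt δ (3 * θ ^ 2 + algebraMap K L (A : K))) x) *
        √(qw (wt δ (3 * θ ^ 2 + algebraMap K L (A : K))) y)) := by
  obtain ⟨d, hdd⟩ : ∃ d : L, d = 3 * θ ^ 2 + algebraMap K L (A : K) := ⟨_, rfl⟩
  have h1 := h.co_bound hd s (θ * (x * y * δ⁻¹))
  rw [← hdd] at h1 ⊢
  refine h1.trans (le_trans ?_ (mul_le_mul_of_nonneg_left
    (Ge_cs (wt δ d) (Ge_wt_nonneg δ d) x y) (by positivity)))
  rw [Finset.mul_sum]
  refine Finset.sum_le_sum fun τ _ => ?_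
  have h2 := h.root_bound hX hA hB τ
  have h3 : ‖τ (θ * (x * y * δ⁻¹))‖ / ‖τ d‖ = ‖τ θ‖ * (wt δ d τ * (‖τ x‖ * ‖τ y‖)) := by
    unfold wt
    rw [map_mul, map_mul, map_mul, map_inv₀, norm_mul, norm_mul, norm_mul, norm_inv]
    field_simp
  rw [h3]
  exact mul_le_mul_of_nonneg_right h2 (mul_nonneg (Ge_wt_nonneg δ d τ) (by positivity))

end

end H76PP
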