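import Pool.Agent.H76.PP.Eb

/-!
ROW Ed (project MP_78d38b_PP, about 130 lines): (5.5) and (5.6) of the note.

PROOF. red: let `z = x^2 / δ`, `x ≠ 0`. If `co 2 z = 0` and `co 2 (θ z) = 0`: by `Cub.co_mul` (`θ` has coordinates `(0,1,0)`,
`Cub.co_theta`) `co 2 (θ z) = co 1 z`, so `z = algebraMap (co 0 z)` (`Cub.eq_co`), `c = co 0 z ≠ 0`. Norms:
`N(δ) c^3 = N(x)^2` (`Algebra.norm_algebraMap`, `Cub.finrank`, `map_mul`, `map_pow`), `N(δ) = t^2 ≠ 0`. So
`c = (N(x)/(t c))^2` is a square in `K`, `c = r^2`, and `δ = x^2 / c = (x / r)^2` is a square in `L`. Contradiction.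
fix_one: `M, N, Q` over a field `F` (`3 × 3`), `det M ≠ 0`, `det (x M - N) = det M (x^3 + a x + b)` for all `x`, the cubic has no root in
`F`. `Qᵀ M Q = M`, `Qᵀ N Q = N`, `Q e = e`, `e ≠ 0`. `Q` is invertible (determinants). Put `S = M⁻¹ N`. From
`Qᵀ = M Q⁻¹ M⁻¹` and `Qᵀ N Q = N`: `Q⁻¹ S Q = S`, so `Q S = S Q`. Let `e₀ = e, e₁ = S e, e₂ = S^2 e`; `Q eᵢ = eᵢ`. Claim: they are
linearly independent; then `Q = 1`. If `S e = t e` then `det (t M - N) = det M det (t - S) = 0`, a root of the
cubic: contradiction; so `e, S e` are independent. If `S^2 e = α e + β S e`: the plane `P = ⟨e, S e⟩` is invariant under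
`S`, `char poly` of `S` = (char poly of `S` on `P`) times (x - t): a root again. To make this elementary: by
Cayley-Hamilton `S^3 + a S + b = 0` (the characteristic polynomial of `S` is `x^3 + a x + b`: `det (x - S) = x^3 + a x + b` for
all `x`; the field should be infinite: hypothesis), so `S^3 e = - a S e - b e`, and `S^3 e = α S e + β S^2 e =
α β e + (α + β^2) S e`; comparing coefficients: `αβ = -b`, `α + β^2 = -a`. Then `t = -β` is a root: `t^3 + a t + b =
-β^3 - aβ + b = -β^3 + (α + β^2) β - αβ = 0`. Contradiction.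
(`Matrix.aeval_self_charpoly`; the characteristic polynomial from the values: `Matrix.eval_charpoly`-like,
`Polynomial.funext` for an infinite field. Alternatively avoid Cayley-Hamilton: if `S^2 e = α e + β S e` let `R` be the matrix
with columns `e, S e, w` (basis); `R⁻¹ S R` is block upper triangular with lower right entry `t`, so
`det (t - S) = 0`.)
-/

set_option autoImplicit false
open scoped Classical

open NumberField IsDedekindDomain
open scoped Matrix

namespace H76PP

theorem Cub.red {K L : Type} [Field K] [Field L] [Algebra K L] {A B : K} {θ : L}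
    (h : Cub K L A B θ) {δ x : L} (hδ : δ ≠ 0) (hx : x ≠ 0) (hN : IsSquare (Algebra.norm K δ))
    (hs : ¬ IsSquare δ) (h0 : h.co 2 (x * x * δ⁻¹) = 0) : h.co 2 (θ * (x * x * δ⁻¹)) ≠ 0 := by
  intro h1
  set z := x * x * δ⁻¹ with hz
  obtain ⟨a0, a1, a2⟩ := h.co_theta
  obtain ⟨_, _, m2⟩ := h.co_mul θ z
  rw [a0, a1, a2] at m2
  have hz1 : h.co 1 z = 0 := by
    rw [h1] at m2
    linear_combination -m2
  have hzc := h.eq_co z
  rw [hz1, h0, map_zero, zero_mul, zero_mul, add_zero, add_zero] at hzc
  set c := h.co 0 z with hc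
  have hz0 : z ≠ 0 := by
    rw [hz]
    exact mul_ne_zero (mul_ne_zero hx hx) (inv_ne_zero hδ)
  have hc0 : c ≠ 0 := by
    intro h2
    rw [h2, map_zero] at hzc
    exact hz0 hzc
  have hxx : x * x = δ * algebraMap K L c := by
    rw [← hzc, hz]
    field_simp
  have hnn : Algebra.norm K x * Algebra.norm K x = Algebra.norm K δ * c ^ 3 := by
    rw [← map_mul, hxx, map_mul, Algebra.norm_algebraMap, h.finrank]
  obtain ⟨t, ht⟩ := hN
  have : Module.Free K L := Module.Free.of_basis h.basis
  have : Module.Finite K L := Module.Finite.of_basis h.basis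
  have hδn : Algebra.norm K δ ≠ 0 := by
    rw [Ne, Algebra.norm_eq_zero_iff]
    exact hδ
  have ht0 : t ≠ 0 := by
    intro h2
    rw [h2, mul_zero] at ht
    exact hδn ht
  set r := Algebra.norm K x / (t * c) with hr
  have hr2 : r * r = c := by
    rw [hr]
    rw [ht] at hnn
    field_simp
    linear_combination hnn
  have hr0 : r ≠ 0 := by
    intro h2
    rw [h2, mul_zero] at hr2
    exact hc0 hr2.symm
  have hrL : algebraMap K L r ≠ 0 := by
    rw [Ne, map_eq_zero]
    exact hr0
  apply hs
  refine ⟨x / algebraMap K L r, ?_⟩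
  have hcr : algebraMap K L c = algebraMap K L r * algebraMap K L r := by rw [← map_mul, hr2]
  rw [hcr] at hxx
  rw [div_mul_div_comm, hxx]
  field_simp

theorem fix_one {F : Type} [Field F] [Infinite F] {M N Q : Matrix (Fin 3) (Fin 3) F} {a b : F}
    (hM : M.det ≠ 0) (hc : ∀ x : F, (x • M - N).det = M.det * (x ^ 3 + a * x + b))
    (hr : ∀ x : F, x ^ 3 + a * x + b ≠ 0) (h1 : Qᵀ * M * Q = M) (h2 : Qᵀ * N * Q = N)
    {e : Fin 3 → F} (he : e ≠ 0) (hQ : Q.mulVec e = e) : Q = 1 := by
  have hMu : IsUnit M.det := isUnit_iff_ne_zero.2 hM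
  set S := M⁻¹ * N with hS
  have hMS : M * S = N := by
    rw [hS, ← Matrix.mul_assoc, Matrix.mul_nonsing_inv _ hMu, Matrix.one_mul]
  have hQd : Q.det ≠ 0 := by
    intro h0
    have h3 := congrArg Matrix.det h1
    rw [Matrix.det_mul, h0, mul_zero] at h3
    exact hM h3.symm
  have hcomm : S * Q = Q * S := by
    have hu : IsUnit (Qᵀ * M).det := by
      rw [Matrix.det_mul, Matrix.det_transpose]
      exact isUnit_iff_ne_zero.2 (mul_ne_zero hQd hM)
    have h3 : (Qᵀ * M) * (S * Q) = (Qᵀ * M) * (Q * S) := by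
      calc (Qᵀ * M) * (S * Q) = Qᵀ * (M * S) * Q := by simp only [Matrix.mul_assoc]
        _ = M * S := by rw [hMS, h2]
        _ = (Qᵀ * M * Q) * S := by rw [h1]
        _ = (Qᵀ * M) * (Q * S) := by simp only [Matrix.mul_assoc]
    calc S * Q = (Qᵀ * M)⁻¹ * ((Qᵀ * M) * (S * Q)) := by
          rw [← Matrix.mul_assoc, Matrix.nonsing_inv_mul _ hu, Matrix.one_mul]
      _ = (Qᵀ * M)⁻¹ * ((Qᵀ * M) * (Q * S)) := by rw [h3]
      _ = Q * S := by
          rw [← Matrix.mul_assoc, Matrix.nonsing_inv_mul _ hu, Matrix.one_mul]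
  have hchar : S.charpoly = Polynomial.X ^ 3 + Polynomial.C a * Polynomial.X + Polynomial.C b := by
    apply Polynomial.funext
    intro x
    rw [Matrix.eval_charpoly]
    have h3 : x • M - N = M * (Matrix.scalar (Fin 3) x - S) := by
      rw [Matrix.mul_sub, hMS]
      congr 1
      rw [Matrix.scalar_apply, ← Matrix.smul_one_eq_diagonal, Matrix.mul_smul, Matrix.mul_one]
    have h4 := hc x
    rw [h3, Matrix.det_mul] at h4
    rw [mul_left_cancel₀ hM h4]
    simp
  have hdeg : S.charpoly.natDegree = 3 := by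
    rw [Matrix.charpoly_natDegree_eq_dim, Fintype.card_fin]
  have hirr : Irreducible S.charpoly := by
    rw [Polynomial.irreducible_iff_roots_eq_zero_of_degree_le_three (by omega) (by omega)]
    rw [Multiset.eq_zero_iff_forall_notMem]
    intro x hx
    have h3 := (Polynomial.mem_roots'.1 hx).2
    rw [Polynomial.IsRoot.def, hchar] at h3
    apply hr x
    simpa using h3
  have hpow : ∀ j : ℕ, S ^ j * Q = Q * S ^ j := by
    intro j
    exact ((show Commute S Q from hcomm).pow_left j)
  set R : Matrix (Fin 3) (Fin 3) F := Matrix.of (fun i j => ((S ^ (j : ℕ)).mulVec e) i) with hR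
  have hQR : Q * R = R := by
    ext i j
    have h3 : (Q * R) i j = (Q.mulVec ((S ^ (j : ℕ)).mulVec e)) i := by
      rw [Matrix.mul_apply]
      rfl
    rw [h3, Matrix.mulVec_mulVec, ← hpow, ← Matrix.mulVec_mulVec, hQ]
    rfl
  have hRd : R.det ≠ 0 := by
    intro h3
    obtain ⟨v, hv, hRv⟩ := Matrix.exists_mulVec_eq_zero_iff.2 h3
    set p : Polynomial F := ∑ j : Fin 3, Polynomial.monomial (j : ℕ) (v j) with hp
    have hcoef : ∀ j : Fin 3, p.coeff (j : ℕ) = v j := by
      intro j
      rw [hp, Polynomial.finset_sum_coeff]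
      rw [Finset.sum_eq_single j]
      · rw [Polynomial.coeff_monomial, if_pos rfl]
      · intro k _ hk
        rw [Polynomial.coeff_monomial, if_neg]
        intro h4
        exact hk (Fin.ext h4)
      · intro h4
        exact absurd (Finset.mem_univ j) h4
    have hp0 : p ≠ 0 := by
      intro h4
      apply hv
      ext j
      rw [← hcoef j, h4]
      simp
    have hpdeg : p.natDegree < 3 := by
      have h4 : p.natDegree ≤ 2 := by
        rw [hp]
        refine Polynomial.natDegree_sum_le_of_forall_le _ _ fun j _ => ?_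
        refine (Polynomial.natDegree_monomial_le _).trans ?_
        have := j.isLt
        omega
      omega
    have hpe : (Polynomial.aeval S p).mulVec e = 0 := by
      rw [← hRv, hp, map_sum]
      ext i
      rw [Matrix.sum_mulVec, Finset.sum_apply]
      simp only [Matrix.mulVec, dotProduct, hR, Matrix.of_apply, Polynomial.aeval_monomial]
      refine Finset.sum_congr rfl fun j _ => ?_
      rw [Finset.sum_mul]
      refine Finset.sum_congr rfl fun k _ => ?_
      rw [← Algebra.smul_def, Matrix.smul_apply, smul_eq_mul]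
      ring
    have hcop : IsCoprime S.charpoly p := by
      rw [hirr.coprime_iff_not_dvd]
      intro h4
      have h5 := Polynomial.natDegree_le_of_dvd h4 hp0
      omega
    obtain ⟨u, w, huw⟩ := hcop
    have h4 := congrArg (fun q => (Polynomial.aeval S q).mulVec e) huw
    simp only [map_add, map_mul, Matrix.aeval_self_charpoly, mul_zero, zero_add, map_one,
      Matrix.one_mulVec] at h4
    rw [← Matrix.mulVec_mulVec, hpe, Matrix.mulVec_zero] at h4
    exact he h4.symm
  have hRu : IsUnit R.det := isUnit_iff_ne_zero.2 hRd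
  calc Q = Q * R * R⁻¹ := by rw [Matrix.mul_assoc, Matrix.mul_nonsing_inv _ hRu, Matrix.mul_one]
    _ = 1 := by rw [hQR, Matrix.mul_nonsing_inv _ hRu]

end H76PP
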