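import Pool.Agent.H76.PP.Fd
import Pool.Agent.H76.PP.Ge
import Pool.Agent.H76.PP.Ed

/-!
ROW Fe (project MP_78d38b_PP, about 230 lines): assembly of block N1: the data attached to a bad pair. Use only the
STATEMENTS of the imported rows.

PROOF. `C₂` from `reduce K` (Ge). Let `BadP T A B`: `L, θ, c`. Step 1: an integral representative: `c = sc δ₀`, `δ₀ ≠ 0`
(`H38T1.sc_surj`), multiply by the square of a nonzero integer: `δ : 𝓞 L`, `δ ≠ 0`, `sc (δ : L) = c`
(`δ₀ = a / b`, `δ = a * b`: `IsFractionRing.div_surjective`, `H38T1.sc_mul`, squares). For every place `w` the order of `δ` is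
even: `H38T1.eo_sc`: `eo w c = (ord (w.valuation L) δ : ZMod 2) = 0`. So `(δ) = I^2` for an ideal `I`: all exponents in the
factorisation of the ideal `(δ)` are even (`w.intValuation`, `Associates.count`, `Ideal.finprod_heightOneSpectrum_factorization`, or
`UniqueFactorizationMonoid`: an ideal all of whose multiplicities at primes are even is a square; a model is
`Pool/Agent/H10/Class.lean`).
`N(δ)` is a square in `K`: `scm (Algebra.norm K) (sc δ) = sc (N δ) = 0` (`scm_sc`, `H38T1.sc_eq_zero`; `N δ ≠ 0`). `δ` is not a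
square in `L` (`sc_eq_zero`, `c ≠ 0`).
Step 2: `e, l` from `reduce`. `Mx`, `Nx` (Ec) for `e` and `z₀ = δ⁻¹` have entries in `𝓞 K`: `e i e j = y δ` with `y : 𝓞 L`
(`e i e j ∈ I^2 = (δ)`), so `co 2 (e i e j δ⁻¹) = co 2 y` is integral (`int_coord`, Ea), and `θ y` is an element of `𝓞 L` (`theta_int`).
Let `M`, `N` be the integral matrices.
Step 3, the fields of `Dat`: pos: `l 0 = √(qw ..) > 0` because `e 0 ≠ 0` (`qw` is a sum of nonnegative terms, all positive);
le01, le12, prod from reduce; symM, symN: `Mx_symm`, `Nx_symm`; detM: `Mx_det` (map of the determinant to `K`,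
`RingHom.map_det`); bdM, bdN: `mx_bound`, `nx_bound` (Ge; `X ≥ 0`); char: `Mx_char` and injectivity of `𝓞 K → K`;
red: `Cub.red` (Ed) with `x = e 0`; fix: `fix_one` (Ed) over `F = K` for the mapped matrices (`A x` has no root in `K`:
a root in `K` is integral over `𝓞 K`, hence in `𝓞 K` (`IsIntegrallyClosed`), contradiction to `hF.irr` as `0 ∈ q₀`); then `Q = 1` from
injectivity; res: `res_cond` (Fd): for `w` with `dn K w = v ∈ T`: `la w c = 0`.
no_root is used by others too.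
-/

set_option autoImplicit false
open scoped Classical

open WithZero NumberField IsDedekindDomain H38RT
open scoped Matrix
open H38T1 (SC sc scu rep eo la si Pri OddP tp unif)

namespace H76PP

theorem Fam.no_root {K : Type} [Field K] [NumberField K] {q₀ : HeightOneSpectrum (𝓞 K)}
    {T : Finset (HeightOneSpectrum (𝓞 K))} {A B : 𝓞 K} (hF : Fam q₀ T A B) (x : K) :
    x ^ 3 + (A : K) * x + (B : K) ≠ 0 := by
  intro hx
  have hint : IsIntegral (𝓞 K) x := by
    refine ⟨Polynomial.X ^ 3 + (Polynomial.C A * Polynomial.X + Polynomial.C B), ?_, ?_⟩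
    · refine Polynomial.monic_X_pow_add ?_
      exact lt_of_le_of_lt Polynomial.degree_linear_le (by norm_num)
    · simp only [Polynomial.eval₂_add, Polynomial.eval₂_pow, Polynomial.eval₂_X,
        Polynomial.eval₂_mul, Polynomial.eval₂_C]
      rw [← hx]
      ring
  obtain ⟨t, ht⟩ := IsIntegrallyClosed.isIntegral_iff.1 hint
  refine hF.irr t ?_
  have h0 : t ^ 3 + A * t + B = 0 := by
    apply RingOfIntegers.coe_injective
    push_cast
    change (algebraMap (𝓞 K) K t) ^ 3 + (A : K) * (algebraMap (𝓞 K) K t) + (B : K) = 0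
    rw [ht]
    exact hx
  rw [h0]
  exact Ideal.zero_mem _

lemma Fe_rep {L : Type} [Field L] [NumberField L] (c : SC L) :
    ∃ δ : 𝓞 L, δ ≠ 0 ∧ sc (δ : L) = c := by
  obtain ⟨x, hx, rfl⟩ := H38T1.sc_surj c
  obtain ⟨a, b, hb, rfl⟩ := IsFractionRing.div_surjective (A := 𝓞 L) x
  have hb0 : b ≠ 0 := nonZeroDivisors.ne_zero hb
  have ha0 : a ≠ 0 := by
    rintro rfl
    apply hx
    simp
  have haK : (a : L) ≠ 0 := RingOfIntegers.coe_ne_zero_iff.mpr ha0
  have hbK : (b : L) ≠ 0 := RingOfIntegers.coe_ne_zero_iff.mpr hb0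
  refine ⟨a * b, mul_ne_zero ha0 hb0, ?_⟩
  have h1 : ((a * b : 𝓞 L) : L) = ((a : L) / (b : L)) * (b : L) ^ 2 := by
    push_cast
    field_simp
  rw [h1, H38T1.sc_mul (div_ne_zero haK hbK) (pow_ne_zero 2 hbK)]
  have h2 : sc ((b : L) ^ 2) = 0 := (H38T1.sc_eq_zero (pow_ne_zero 2 hbK)).2 ⟨(b : L), sq _⟩
  rw [h2, add_zero]

lemma Fe_sq {L : Type} [Field L] [NumberField L] {δ : 𝓞 L} (hδ : δ ≠ 0)
    (hev : ∀ w : HeightOneSpectrum (𝓞 L), eo w (sc (δ : L)) = 0) :
    ∃ I : Ideal (𝓞 L), I ^ 2 = Ideal.span {δ} := by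
  have hI : Ideal.span {δ} ≠ 0 := by
    rw [Ideal.zero_eq_bot, Ne, Ideal.span_singleton_eq_bot]; exact hδ
  have hδL : (δ : L) ≠ 0 := RingOfIntegers.coe_ne_zero_iff.mpr hδ
  obtain ⟨u, hu⟩ := Multiset.exists_smul_of_dvd_count
    (UniqueFactorizationMonoid.normalizedFactors (Ideal.span {δ})) (k := 2)
    (by
      intro P hP
      have hirr := UniqueFactorizationMonoid.irreducible_of_normalized_factor P hP
      have hpr : Prime P := hirr.prime
      have hev' := hev ⟨P, Ideal.isPrime_of_prime hpr, hpr.ne_zero⟩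
      set w : HeightOneSpectrum (𝓞 L) := ⟨P, Ideal.isPrime_of_prime hpr, hpr.ne_zero⟩ with hw
      rw [H38T1.eo_sc hδL] at hev'
      have h3 := w.intValuation_eq_exp_neg_multiplicity hδ
      rw [← w.valuation_of_algebraMap (K := L)] at h3
      unfold ord at hev'
      change ((-log (w.valuation L (algebraMap (𝓞 L) L δ)) : ℤ) : ZMod 2) = 0 at hev'
      rw [h3, log_exp, neg_neg] at hev'
      have h4 : ((multiplicity w.asIdeal (Ideal.span {δ}) : ℕ) : ZMod 2) = 0 := by
        exact_mod_cast hev'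
      have h5 : 2 ∣ multiplicity P (Ideal.span {δ}) := (ZMod.natCast_eq_zero_iff _ _).1 h4
      rwa [UniqueFactorizationMonoid.multiplicity_eq_count_normalizedFactors hirr hI,
        normalize_eq] at h5)
  refine ⟨u.prod, ?_⟩
  rw [← Multiset.prod_nsmul, ← hu]
  exact Ideal.prod_normalizedFactors_eq_self hI

theorem exists_dat (K : Type) [Field K] [NumberField K] : ∃ C₂ : ℝ, 1 ≤ C₂ ∧
    ∀ (q₀ : HeightOneSpectrum (𝓞 K)) (T : Finset (HeightOneSpectrum (𝓞 K))),
      (∀ v ∈ T, (6 : 𝓞 K) ∉ v.asIdeal) → ∀ (A B : 𝓞 K) (X : ℝ), 0 ≤ X → (A, B) ∈ Bx K X →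
      Fam q₀ T A B → BadP T A B →
      ∃ (l : Fin 3 → ℝ) (M N : Matrix (Fin 3) (Fin 3) (𝓞 K)), Dat X C₂ T A B l M N := by
  obtain ⟨C₂, hC₂, hred⟩ := reduce K
  refine ⟨C₂, hC₂, ?_⟩
  intro q₀ T hT A B X hX hAB hF hbad
  obtain ⟨L, _, _, _, θ, c, hcub, hc0, hcn, hce, hcl⟩ := hbad
  obtain ⟨δ, hδ, hδc⟩ := Fe_rep c
  have hδL : (δ : L) ≠ 0 := RingOfIntegers.coe_ne_zero_iff.mpr hδ
  obtain ⟨I, hI⟩ := Fe_sq hδ (fun w => by rw [hδc]; exact hce w)
  have hns : ¬ IsSquare (δ : L) := by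
    rw [← H38T1.sc_eq_zero hδL, hδc]
    exact hc0
  have hNs : IsSquare (Algebra.norm K (δ : L)) := by
    have h1 : scm (Algebra.norm K : L →* K) (sc (δ : L)) = 0 := by rw [hδc]; exact hcn
    rw [scm_sc _ hδL] at h1
    exact (H38T1.sc_eq_zero (scm_ne _ hδL)).1 h1
  have hd := hF.dsc_ne
  obtain ⟨e, heI, hli, l, hl, le01, le12, hprod⟩ := hred L A B θ hcub hd δ I hδ hI
  have hy : ∀ i j, ∃ y : 𝓞 L, (e i : L) * (e j : L) * (δ : L)⁻¹ = (y : L) := by
    intro i j
    have h1 : e i * e j ∈ Ideal.span {δ} := by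
      rw [← hI, sq]
      exact Ideal.mul_mem_mul (heI i) (heI j)
    obtain ⟨y, hy⟩ := Ideal.mem_span_singleton.1 h1
    refine ⟨y, ?_⟩
    have h2 : (e i : L) * (e j : L) = (δ : L) * (y : L) := by
      have := congrArg (algebraMap (𝓞 L) L) hy
      rw [map_mul, map_mul] at this
      exact this
    rw [h2]
    field_simp
  have hM' : ∀ i j, ∃ m : 𝓞 K, (m : K) = Mx hcub (fun i => (e i : L)) (δ : L)⁻¹ i j := by
    intro i j
    obtain ⟨y, hy⟩ := hy i j
    obtain ⟨cc, hcc⟩ := int_coord hF hcub y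
    refine ⟨cc 2, ?_⟩
    rw [← hcc 2, ← hy]
    rfl
  obtain ⟨tθ, htθ⟩ := theta_int hcub
  have hN' : ∀ i j, ∃ m : 𝓞 K, (m : K) = Nx hcub (fun i => (e i : L)) (δ : L)⁻¹ i j := by
    intro i j
    obtain ⟨y, hy⟩ := hy i j
    obtain ⟨cc, hcc⟩ := int_coord hF hcub (tθ * y)
    refine ⟨cc 2, ?_⟩
    rw [← hcc 2]
    have h3 : ((tθ * y : 𝓞 L) : L) = θ * ((e i : L) * (e j : L) * (δ : L)⁻¹) := by
      rw [hy, ← htθ]
      push_cast
      rfl
    rw [h3]
    rfl
  choose M₀ hM₀ using hM'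
  choose N₀ hN₀ using hN'
  set M : Matrix (Fin 3) (Fin 3) (𝓞 K) := Matrix.of M₀ with hMdef
  set N : Matrix (Fin 3) (Fin 3) (𝓞 K) := Matrix.of N₀ with hNdef
  have hM : ∀ i j, (M i j : K) = Mx hcub (fun i => (e i : L)) (δ : L)⁻¹ i j := hM₀
  have hN : ∀ i j, (N i j : K) = Nx hcub (fun i => (e i : L)) (δ : L)⁻¹ i j := hN₀
  have hinj : Function.Injective (algebraMap (𝓞 K) K) := RingOfIntegers.coe_injective
  have hMm : M.map (algebraMap (𝓞 K) K) = Mx hcub (fun i => (e i : L)) (δ : L)⁻¹ := by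
    ext i j
    exact hM i j
  have hNm : N.map (algebraMap (𝓞 K) K) = Nx hcub (fun i => (e i : L)) (δ : L)⁻¹ := by
    ext i j
    exact hN i j
  have hdetM : algebraMap (𝓞 K) K M.det = (Mx hcub (fun i => (e i : L)) (δ : L)⁻¹).det := by
    rw [← hMm, RingHom.map_det]
    rfl
  have hMne := Mx_det hcub hli (inv_ne_zero hδL)
  have hchar : ∀ x : 𝓞 K, (x • M - N).det = M.det * (x ^ 3 + A * x + B) := by
    intro x
    apply hinj
    rw [RingHom.map_det, map_mul, hdetM]
    have h4 : (algebraMap (𝓞 K) K).mapMatrix (x • M - N) =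
        algebraMap (𝓞 K) K x • Mx hcub (fun i => (e i : L)) (δ : L)⁻¹ -
          Nx hcub (fun i => (e i : L)) (δ : L)⁻¹ := by
      rw [← hMm, ← hNm]
      ext i j
      change algebraMap (𝓞 K) K (x * M i j - N i j) =
        algebraMap (𝓞 K) K x * algebraMap (𝓞 K) K (M i j) - algebraMap (𝓞 K) K (N i j)
      rw [map_sub, map_mul]
    rw [h4, Mx_char]
    simp only [map_add, map_mul, map_pow]
  refine ⟨l, M, N, ?_⟩
  refine ⟨?_, le01, le12, hprod, ?_, ?_, ?_, ?_, ?_, hchar, ?_, ?_, ?_⟩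
  · -- pos
    rw [hl 0, Real.sqrt_pos]
    unfold qw
    refine Finset.sum_pos (fun τ _ => ?_) Finset.univ_nonempty
    have h5 : (e 0 : L) ≠ 0 := hli.ne_zero 0
    have h6 : τ (e 0 : L) ≠ 0 := (map_ne_zero τ).2 h5
    have h7 : τ (δ : L) ≠ 0 := (map_ne_zero τ).2 hδL
    have h8 : τ (3 * θ ^ 2 + algebraMap K L (A : K)) ≠ 0 := (map_ne_zero τ).2 (hcub.der_ne hd)
    unfold wt
    have h6' : 0 < ‖τ (e 0 : L)‖ := norm_pos_iff.2 h6
    have h7' : 0 < ‖τ (δ : L)‖ := norm_pos_iff.2 h7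
    have h8' : 0 < ‖τ (3 * θ ^ 2 + algebraMap K L (A : K))‖ := norm_pos_iff.2 h8
    positivity
  · -- symM
    ext i j
    have h9 := congrFun (congrFun (Mx_symm hcub (fun i => (e i : L)) (δ : L)⁻¹) i) j
    rw [Matrix.transpose_apply] at h9 ⊢
    rw [hM j i, hM i j]
    exact h9
  · -- symN
    ext i j
    have h9 := congrFun (congrFun (Nx_symm hcub (fun i => (e i : L)) (δ : L)⁻¹) i) j
    rw [Matrix.transpose_apply] at h9 ⊢
    rw [hN j i, hN i j]
    exact h9
  · -- detM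
    intro h0
    apply hMne
    rw [← hdetM, h0, map_zero]
  · -- bdM
    intro s i j
    rw [hM i j, hl i, hl j]
    exact mx_bound hcub hd hδL s (e i : L) (e j : L)
  · -- bdN
    intro s i j
    rw [hN i j, hl i, hl j]
    exact nx_bound hcub hd hX hAB.1 hAB.2 hδL s (e i : L) (e j : L)
  · -- red
    intro h00 hN0
    have h10 : hcub.co 2 ((e 0 : L) * (e 0 : L) * (δ : L)⁻¹) = 0 := by
      have := hM 0 0
      rw [h00] at this
      exact this.symm.trans (map_zero (algebraMap (𝓞 K) K))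
    refine hcub.red hδL (hli.ne_zero 0) hNs hns h10 ?_
    have := hN 0 0
    rw [hN0] at this
    exact this.symm.trans (map_zero (algebraMap (𝓞 K) K))
  · -- fix
    rintro Q hQM hQN ⟨v, hv, hQv⟩
    have hinf : Infinite K := Infinite.of_injective ((↑) : ℕ → K) Nat.cast_injective
    set Q' := (algebraMap (𝓞 K) K).mapMatrix Q with hQ'
    have hMm' : (algebraMap (𝓞 K) K).mapMatrix M = Mx hcub (fun i => (e i : L)) (δ : L)⁻¹ := hMm
    have hNm' : (algebraMap (𝓞 K) K).mapMatrix N = Nx hcub (fun i => (e i : L)) (δ : L)⁻¹ := hNm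
    have hQT : Q'ᵀ = (algebraMap (𝓞 K) K).mapMatrix Qᵀ := rfl
    have hfix := fix_one (F := K) (M := Mx hcub (fun i => (e i : L)) (δ : L)⁻¹)
      (N := Nx hcub (fun i => (e i : L)) (δ : L)⁻¹) (Q := Q') (a := (A : K)) (b := (B : K))
      (e := fun i => (v i : K)) hMne (fun x => Mx_char _ _ _ x) (hF.no_root)
      (by rw [← hMm', hQT, hQ', ← map_mul, ← map_mul, hQM])
      (by rw [← hNm', hQT, hQ', ← map_mul, ← map_mul, hQN])
      (by
        intro h0
        apply hv
        refine funext (fun i => ?_)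
        have := congrFun h0 i
        have h15 : algebraMap (𝓞 K) K (v i) = algebraMap (𝓞 K) K 0 := by
          rw [map_zero]; exact this
        exact hinj h15)
      (by
        ext i
        have h11 := congrFun hQv i
        have h12 := congrArg (algebraMap (𝓞 K) K) h11
        change (Q'.mulVec fun i => (v i : K)) i = algebraMap (𝓞 K) K (v i)
        rw [← h12]
        simp [hQ', Matrix.mulVec, dotProduct, Matrix.map_apply])
    have h13 : (algebraMap (𝓞 K) K).mapMatrix Q = (algebraMap (𝓞 K) K).mapMatrix 1 := by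
      rw [map_one]; exact hfix
    exact Matrix.map_injective hinj h13
  · -- res
    intro v hv hdet
    exact res_cond hF hcub hδ hI heI hli hM hN hchar hv (hT v hv)
      (fun w hw => by rw [hδc]; exact hcl w (by rw [hw]; exact hv)) hdet

end H76PP
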