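import Pool.Agent.H76.PP.Df1
import Pool.Agent.H10.GrHen

/-!
ROW Th (project MP_78d38b_PP, about 130 lines): the local conditions at a place where the twisting factor is a square.

PROOF. LC_twist: let `r ∈ F`, `r ≠ 0`, `i D = r^2`, and let `x', y', z'` be given by `LC i (D^2 A) (D^3 B) d'`. Put `x = x' / r^2`,
`y = y' / r^3`, `z j = z' j * (i D)^j / r`, and `d j = d' j * D^j`. Then `y^2 = x^3 + A x + B` (divide by `r^6`), and with the scaling
`c ↦ (c j D^j)` of coordinates, `m3 (D^2 A) (D^3 B) u v` is carried to `m3 A B (scaled u) (scaled v)` (three polynomial identities;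
`field_simp`, `ring`); `(x', -1, 0)` scales to `(x', -D, 0) = D (x, -1, 0)`. So
`m3 A B d (x,-1,0) = (1/D) scaled (m3 .. d' (x',-1,0)) = (1/D) m3 A B (scaled z') (scaled z') = m3 A B z z`.
sq_two: `v.valuation K (D m^2 - 1) ≤ v.valuation K 8`: in the completion `D m^2 = 1 + x` with `Valued.v x ≤ Valued.v 8`,
`isSquare_one_add` in `Pool/Agent/H10/GrHen.lean` (squares near one) gives a square root (its condition is of the form
`Valued.v x < Valued.v 4`; `Valued.v 8 < Valued.v 4` as `Valued.v 2 < 1`, `2 ≠ 0`).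
`valuedAdicCompletion_eq_valuation'` for the valuation of elements of `K` in the completion.
-/

set_option autoImplicit false
set_option linter.unusedSectionVars false
open scoped Classical

open WithZero NumberField IsDedekindDomain H38RT
open H38T1 (SC sc scu rep eo la si Pri OddP tp unif)

namespace H76PP

theorem Th_m3_0 {F : Type*} [CommRing F] (a b : F) (u v : Fin 3 → F) :
    m3 a b u v 0 = u 0 * v 0 - b * (u 1 * v 2 + u 2 * v 1) := rfl

theorem Th_m3_1 {F : Type*} [CommRing F] (a b : F) (u v : Fin 3 → F) :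
    m3 a b u v 1 = u 0 * v 1 + u 1 * v 0 - a * (u 1 * v 2 + u 2 * v 1) - b * (u 2 * v 2) := rfl

theorem Th_m3_2 {F : Type*} [CommRing F] (a b : F) (u v : Fin 3 → F) :
    m3 a b u v 2 = u 0 * v 2 + u 1 * v 1 + u 2 * v 0 - a * (u 2 * v 2) := rfl

theorem LC_twist {K F : Type*} [Field K] [Field F] (i : K →+* F) {A B D : K} (hD : D ≠ 0)
    {d' : Fin 3 → K} {r : F} (hr : i D = r ^ 2) (hLC : LC i (D ^ 2 * A) (D ^ 3 * B) d') :
    LC i A B (fun j => d' j * D ^ (j : ℕ)) := by
  have hr0 : r ≠ 0 := by
    intro h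
    rw [h] at hr
    apply hD
    have h1 : i D = 0 := by rw [hr]; ring
    exact (map_eq_zero i).1 h1
  obtain ⟨x, y, z, hy, hxy, hm⟩ := hLC
  have h0 := congrFun hm 0
  have h1 := congrFun hm 1
  have h2 := congrFun hm 2
  rw [Th_m3_0, Th_m3_0] at h0
  rw [Th_m3_1, Th_m3_1] at h1
  rw [Th_m3_2, Th_m3_2] at h2
  simp only [Matrix.cons_val_zero, Matrix.cons_val_one, Matrix.cons_val_two, Matrix.head_cons,
    Matrix.tail_cons, map_mul, map_pow, hr] at h0 h1 h2 hxy
  refine ⟨x / r ^ 2, y / r ^ 3, fun j => z j * (r ^ 2) ^ (j : ℕ) / r, ?_, ?_, ?_⟩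
  · exact div_ne_zero hy (pow_ne_zero 3 hr0)
  · field_simp
    linear_combination hxy
  · funext j
    fin_cases j
    · show m3 (i A) (i B) _ _ 0 = m3 (i A) (i B) _ _ 0
      rw [Th_m3_0, Th_m3_0]
      simp only [Matrix.cons_val_zero, Matrix.cons_val_one, Matrix.cons_val_two, Matrix.head_cons,
        Matrix.tail_cons, map_mul, map_pow, hr, Fin.val_zero, Fin.val_one,
        Fin.val_two, pow_zero, pow_one, mul_one]
      field_simp
      linear_combination h0
    · show m3 (i A) (i B) _ _ 1 = m3 (i A) (i B) _ _ 1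
      rw [Th_m3_1, Th_m3_1]
      simp only [Matrix.cons_val_zero, Matrix.cons_val_one, Matrix.cons_val_two, Matrix.head_cons,
        Matrix.tail_cons, map_mul, map_pow, hr, Fin.val_zero, Fin.val_one,
        Fin.val_two, pow_zero, pow_one, mul_one]
      field_simp
      linear_combination h1
    · show m3 (i A) (i B) _ _ 2 = m3 (i A) (i B) _ _ 2
      rw [Th_m3_2, Th_m3_2]
      simp only [Matrix.cons_val_zero, Matrix.cons_val_one, Matrix.cons_val_two, Matrix.head_cons,
        Matrix.tail_cons, map_mul, map_pow, hr, Fin.val_zero, Fin.val_one,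
        Fin.val_two, pow_zero, pow_one, mul_one]
      field_simp
      linear_combination r ^ 2 * h2

theorem sq_two {K : Type} [Field K] [NumberField K] {v : HeightOneSpectrum (𝓞 K)}
    (h2 : v.valuation K 2 < 1) {D m : K} (hm : m ≠ 0)
    (h : v.valuation K (D * m ^ 2 - 1) ≤ v.valuation K 8) :
    ∃ r : v.adicCompletion K, algebraMap K (v.adicCompletion K) D = r ^ 2 := by
  have hval : ∀ k : K, (Valued.v (algebraMap K (v.adicCompletion K) k) :
      WithZero (Multiplicative ℤ)) = v.valuation K k := fun k =>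
    HeightOneSpectrum.valuedAdicCompletion_eq_valuation' v k
  have h20 : (2 : v.adicCompletion K) ≠ 0 := by
    have e : (2 : v.adicCompletion K) = algebraMap K (v.adicCompletion K) 2 := by
      rw [map_ofNat]
    rw [e, Ne, map_eq_zero]
    exact two_ne_zero
  have h8 : v.valuation K 8 < v.valuation K 4 := by
    have e1 : (8 : K) = 4 * 2 := by norm_num
    have e2 : v.valuation K 4 ≠ 0 := (Valuation.ne_zero_iff _).2 (by norm_num)
    rw [e1, map_mul]
    have h3 := mul_lt_mul_of_pos_left h2 (zero_lt_iff.2 e2)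
    rwa [mul_one] at h3
  have h4 : (Valued.v (algebraMap K (v.adicCompletion K) (D * m ^ 2 - 1)) :
      WithZero (Multiplicative ℤ)) < Valued.v (4 : v.adicCompletion K) := by
    have e : (4 : v.adicCompletion K) = algebraMap K (v.adicCompletion K) 4 := by
      rw [map_ofNat]
    rw [e, hval, hval]
    exact lt_of_le_of_lt h h8
  obtain ⟨t, ht⟩ := Pool.Agent.H10.isSquare_one_add h20 h4
  have e3 : 1 + algebraMap K (v.adicCompletion K) (D * m ^ 2 - 1) =
      algebraMap K (v.adicCompletion K) D * algebraMap K (v.adicCompletion K) m ^ 2 := by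
    rw [map_sub, map_one, map_mul, map_pow]
    ring
  rw [e3] at ht
  have hm0 : algebraMap K (v.adicCompletion K) m ≠ 0 := by
    rw [Ne, map_eq_zero]
    exact hm
  refine ⟨t / algebraMap K (v.adicCompletion K) m, ?_⟩
  rw [div_pow, eq_div_iff (pow_ne_zero 2 hm0), ht]
  ring

end H76PP
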