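import Pool.Agent.H76.PP.Lb
import Pool.Agent.H76.PP.Le

/-!
ROW Lc (project MP_78d38b_PP, about 150 lines): upper bound for the number of small elements of a
residue class. Use the STATEMENTS `coord` (La), `bx_finite` (Lb), `bx_norm` (Le).

PROOF. `C` from `coord`, `N = Ideal.absNorm b ≥ 1`, `r = N^(1/n)` (real power, `r^n = N`), `n = Module.finrank ℚ K > 0`.
If `a ≠ a'` are in the same class then `β = a - a' ∈ b` is nonzero, `Ideal.absNorm (span {β}) ≥ N`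
(`Ideal.absNorm_dvd_absNorm_of_le`, `b ∣ span {β}`, positive; `Ideal.absNorm_span_singleton` is `|norm|`). If all
coordinates of `β` were `< r / C =: ρ` in absolute value then `β ∈ bx K (C * max) ` with `C * max < r`, so
`bx_norm` gives `|norm β| ≤ (C max)^n < r^n = N`, a contradiction. So some coordinate of `a - a'` is `≥ ρ` in absolute
value. Hence the map `a ↦ (⌊repr a i / ρ⌋)_i ∈ ι → ℤ` is injective on the class (if the floors agree all
coordinate differences are `< ρ`). For `a ∈ bx K T` the coordinates are at most `C T`, so each floor lies in an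
interval of integers with at most `2 C T / ρ + 2` elements. The number of elements is at most
`(2 C^2 T / r + 2)^n ≤ 2^(n-1) ((2 C^2 T / r)^n + 2^n) ` (`add_pow_le_pow_mul_pow_of_add_eq_one` or simply: the
maximum of the two summands times two: `(x + y)^n ≤ (2 max x y)^n ≤ 2^n (x^n + y^n)`), and `T^n / r^n = T^n / N`.
-/

set_option autoImplicit false
open scoped Classical

open NumberField IsDedekindDomain

namespace H76PP

variable (K : Type) [Field K] [NumberField K]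

/-- distinct elements of a residue class differ in some coordinate -/
theorem Lc_sep {C : ℝ} (hC1 : 1 ≤ C)
    (hC3 : ∀ (a : 𝓞 K) (T : ℝ), (∀ i, |((RingOfIntegers.basis K).repr a i : ℝ)| ≤ T) →
      a ∈ bx K (C * T)) {b : Ideal (𝓞 K)} {r : ℝ}
    (hrn : r ^ (Module.finrank ℚ K) = (Ideal.absNorm b : ℝ)) {β : 𝓞 K} (hβ : β ∈ b)
    (h0 : β ≠ 0) : ∃ i, r / C ≤ |((RingOfIntegers.basis K).repr β i : ℝ)| := by
  by_contra hcon
  push Not at hcon
  have hn0 : 0 < Module.finrank ℚ K := Module.finrank_pos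
  have hcard : Fintype.card (Module.Free.ChooseBasisIndex ℤ (𝓞 K)) = Module.finrank ℚ K := by
    rw [← Module.finrank_eq_card_chooseBasisIndex, RingOfIntegers.rank]
  have hne : Nonempty (Module.Free.ChooseBasisIndex ℤ (𝓞 K)) := by
    rw [← Fintype.card_pos_iff, hcard]
    exact hn0
  obtain ⟨i, _, hi⟩ := Finset.exists_max_image
    (Finset.univ : Finset (Module.Free.ChooseBasisIndex ℤ (𝓞 K)))
    (fun i => |((RingOfIntegers.basis K).repr β i : ℝ)|) Finset.univ_nonempty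
  have h1 := bx_norm (hC3 β _ fun j => hi j (Finset.mem_univ j))
  have hC0 : 0 < C := by linarith
  have h2 : C * |((RingOfIntegers.basis K).repr β i : ℝ)| < r := by
    have h3 := hcon i
    rw [lt_div_iff₀ hC0] at h3
    linarith
  have h4 : (C * |((RingOfIntegers.basis K).repr β i : ℝ)|) ^ (Module.finrank ℚ K) <
      r ^ (Module.finrank ℚ K) :=
    pow_lt_pow_left₀ h2 (mul_nonneg hC0.le (abs_nonneg _)) hn0.ne'
  have h5 : Ideal.absNorm b ≤ (Algebra.norm ℤ β).natAbs := by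
    rw [← Ideal.absNorm_span_singleton]
    refine Nat.le_of_dvd ?_ (Ideal.absNorm_dvd_absNorm_of_le
      ((Ideal.span_singleton_le_iff_mem b).2 hβ))
    rw [Nat.pos_iff_ne_zero, Ne, Ideal.absNorm_eq_zero_iff, Ideal.span_singleton_eq_bot]
    exact h0
  have h6 : (Ideal.absNorm b : ℝ) ≤ ((Algebra.norm ℤ β).natAbs : ℕ) := by exact_mod_cast h5
  rw [← hrn] at h6
  exact absurd (h6.trans h1) (not_le.2 h4)

theorem Lc_icc {x : ℝ} (hx : 0 ≤ x) : ((Finset.Icc ⌊-x⌋ ⌊x⌋).card : ℝ) ≤ 2 * x + 2 := by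
  rw [Int.card_Icc]
  have h1 : ⌊-x⌋ ≤ ⌊x⌋ := Int.floor_mono (by linarith)
  have h2 : (((⌊x⌋ + 1 - ⌊-x⌋).toNat : ℤ) : ℝ) = ((⌊x⌋ + 1 - ⌊-x⌋ : ℤ) : ℝ) := by
    rw [Int.toNat_of_nonneg (by omega)]
  have h3 : (((⌊x⌋ + 1 - ⌊-x⌋).toNat : ℕ) : ℝ) = ((⌊x⌋ + 1 - ⌊-x⌋ : ℤ) : ℝ) := by
    rw [← h2]
    norm_cast
  rw [h3]
  push_cast
  have h4 := Int.floor_le x
  have h5 := Int.lt_floor_add_one (-x)
  linarith

theorem Lc_pow {x : ℝ} (hx : 0 ≤ x) (n : ℕ) : (x + 2) ^ n ≤ 2 ^ n * (x ^ n + 2 ^ n) := by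
  rcases le_total x 2 with h | h
  · have h1 : (x + 2) ^ n ≤ (2 * 2) ^ n := pow_le_pow_left₀ (by linarith) (by linarith) n
    rw [mul_pow] at h1
    have h2 : 0 ≤ x ^ n := pow_nonneg hx n
    have h3 : (0 : ℝ) < 2 ^ n := by positivity
    nlinarith
  · have h1 : (x + 2) ^ n ≤ (2 * x) ^ n := pow_le_pow_left₀ (by linarith) (by linarith) n
    rw [mul_pow] at h1
    have h3 : (0 : ℝ) < 2 ^ n := by positivity
    nlinarith

theorem coset_upper : ∃ C : ℝ, 1 ≤ C ∧ ∀ b : Ideal (𝓞 K), b ≠ ⊥ → ∀ (a₀ : 𝓞 K) (T : ℝ), 0 ≤ T →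
    ({a : 𝓞 K | a ∈ bx K T ∧ a - a₀ ∈ b}.ncard : ℝ) ≤
      C * (T ^ (Module.finrank ℚ K) / (Ideal.absNorm b : ℝ) + 1) := by
  obtain ⟨C, hC1, hC2, hC3⟩ := coord K
  obtain ⟨n, hn⟩ : ∃ n, n = Module.finrank ℚ K := ⟨_, rfl⟩
  have hn0 : 0 < n := by
    rw [hn]
    exact Module.finrank_pos
  have hcard : Fintype.card (Module.Free.ChooseBasisIndex ℤ (𝓞 K)) = n := by
    rw [← Module.finrank_eq_card_chooseBasisIndex, RingOfIntegers.rank, hn]
  rw [← hn]
  have hC0 : 0 < C := by linarith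
  refine ⟨(4 * C ^ 2) ^ n + 4 ^ n, ?_, ?_⟩
  · have h1 : (1 : ℝ) ≤ 4 ^ n := one_le_pow₀ (by norm_num)
    have h2 : 0 ≤ (4 * C ^ 2) ^ n := by positivity
    linarith
  intro b hb a₀ T hT
  have hN1 : 0 < Ideal.absNorm b := by
    rw [Nat.pos_iff_ne_zero, Ne, Ideal.absNorm_eq_zero_iff]
    exact hb
  have hN0 : (0 : ℝ) < Ideal.absNorm b := by exact_mod_cast hN1
  obtain ⟨r, hr0, hrn⟩ : ∃ r : ℝ, 0 < r ∧ r ^ n = (Ideal.absNorm b : ℝ) :=
    ⟨(Ideal.absNorm b : ℝ) ^ ((n : ℝ)⁻¹), Real.rpow_pos_of_pos hN0 _,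
      Real.rpow_inv_natCast_pow hN0.le hn0.ne'⟩
  obtain ⟨ρ, hρ⟩ : ∃ ρ, ρ = r / C := ⟨_, rfl⟩
  have hρ0 : 0 < ρ := by
    rw [hρ]
    exact div_pos hr0 hC0
  obtain ⟨y, hy⟩ : ∃ y, y = C * T / ρ := ⟨_, rfl⟩
  have hy0 : 0 ≤ y := by
    rw [hy]
    positivity
  have hle : {a : 𝓞 K | a ∈ bx K T ∧ a - a₀ ∈ b}.ncard ≤
      (Fintype.piFinset (fun _ : Module.Free.ChooseBasisIndex ℤ (𝓞 K) =>
        Finset.Icc ⌊-y⌋ ⌊y⌋)).card := by
    rw [← Set.ncard_coe_finset]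
    refine Set.ncard_le_ncard_of_injOn
      (fun a i => ⌊((RingOfIntegers.basis K).repr a i : ℝ) / ρ⌋) ?_ ?_ (Finset.finite_toSet _)
    · intro a ha
      rw [Finset.mem_coe, Fintype.mem_piFinset]
      intro i
      have h1 := abs_le.1 (hC2 a T ha.1 i)
      rw [Finset.mem_Icc]
      constructor
      · apply Int.floor_mono
        rw [hy, ← neg_div]
        exact div_le_div_of_nonneg_right h1.1 hρ0.le
      · apply Int.floor_mono
        rw [hy]
        exact div_le_div_of_nonneg_right h1.2 hρ0.le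
    · intro a ha a' ha' haa
      by_contra hne
      have h1 : a - a' ∈ b := by
        have h2 := b.sub_mem ha.2 ha'.2
        rwa [sub_sub_sub_cancel_right] at h2
      have hrn' : r ^ (Module.finrank ℚ K) = (Ideal.absNorm b : ℝ) := by
        rw [← hn]
        exact hrn
      obtain ⟨i, hi⟩ := Lc_sep K hC1 hC3 hrn' h1 (sub_ne_zero.2 hne)
      have h3 : ⌊((RingOfIntegers.basis K).repr a i : ℝ) / ρ⌋ =
          ⌊((RingOfIntegers.basis K).repr a' i : ℝ) / ρ⌋ := congrFun haa i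
      have h4 := Int.abs_sub_lt_one_of_floor_eq_floor h3
      rw [← sub_div, abs_div, abs_of_pos hρ0, div_lt_one hρ0] at h4
      rw [map_sub, Finsupp.sub_apply, Int.cast_sub, ← hρ] at hi
      exact absurd h4 (not_lt.2 hi)
  have hle2 : ({a : 𝓞 K | a ∈ bx K T ∧ a - a₀ ∈ b}.ncard : ℝ) ≤ (2 * y + 2) ^ n := by
    have h1 : ((Fintype.piFinset (fun _ : Module.Free.ChooseBasisIndex ℤ (𝓞 K) =>
        Finset.Icc ⌊-y⌋ ⌊y⌋)).card : ℝ) = ((Finset.Icc ⌊-y⌋ ⌊y⌋).card : ℝ) ^ n := by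
      rw [Fintype.card_piFinset, Finset.prod_const, Finset.card_univ, hcard]
      push_cast
      rfl
    have h2 : ({a : 𝓞 K | a ∈ bx K T ∧ a - a₀ ∈ b}.ncard : ℝ) ≤
        ((Fintype.piFinset (fun _ : Module.Free.ChooseBasisIndex ℤ (𝓞 K) =>
        Finset.Icc ⌊-y⌋ ⌊y⌋)).card : ℝ) := by exact_mod_cast hle
    refine h2.trans ?_
    rw [h1]
    exact pow_le_pow_left₀ (Nat.cast_nonneg _) (Lc_icc hy0) n
  refine hle2.trans ((Lc_pow (by linarith) n).trans ?_)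
  have h1 : (2 * y) ^ n = (2 * C ^ 2) ^ n * (T ^ n / (Ideal.absNorm b : ℝ)) := by
    rw [← hrn, ← div_pow, ← mul_pow, hy, hρ]
    congr 1
    field_simp
  have h2 : (4 * C ^ 2) ^ n = 2 ^ n * (2 * C ^ 2) ^ n := by
    rw [← mul_pow]
    congr 1
    ring
  have h3 : (4 : ℝ) ^ n = 2 ^ n * 2 ^ n := by
    rw [← mul_pow]
    norm_num
  rw [h1, h2, h3]
  have h4 : 0 ≤ T ^ n / (Ideal.absNorm b : ℝ) := by positivity
  have h5 : 0 ≤ (2 : ℝ) ^ n * (2 * C ^ 2) ^ n := by positivity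
  have h6 : 0 ≤ (2 : ℝ) ^ n * 2 ^ n := by positivity
  nlinarith [mul_nonneg h6 h4]

end H76PP
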