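import Pool.Agent.H76.PP.Lb
import Pool.Agent.H76.PP.Le

/-!
ROW Ld (project MP_78d38b_PP, about 120 lines): lower bound for the number of small elements of a
residue class. Use the STATEMENTS `bx_finite`, `bx_lower` (Lb) and the closure lemmas of Le.

PROOF. `c₁` from `bx_lower`, `N = Ideal.absNorm b ≥ 1` the number of classes (`𝓞 K ⧸ b` is finite:
`Ideal.finiteQuotientOfFreeOfNeBot` or `Ideal.fintypeQuotientOfFreeOfNeBot`; `Ideal.absNorm_apply`,
`Submodule.cardQuot_apply`). Choose representatives `r q ∈ 𝓞 K` of the classes `q` and `T₀` with `r q ∈ bx K (T₀/2)`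
for all `q` (finitely many elements and embeddings), `T₀ ≥ 1`. Let `T ≥ T₀`. Pigeonhole: some class `q` contains at least
`#bx K (T/4) / N` elements of `bx K (T/4)` (`Finset.exists_lt_card_fiber..` or: the sum over the classes of the
numbers of elements is `#bx K (T/4)`, so one of them is at least the average). Fix one element `a₁` of this set
(if it is empty then `bx K (T/4)` is empty, impossible: it contains 0). Let `r₀` be the representative of the class of
`a₀`. The map `a ↦ a - a₁ + r₀` is injective from this set to `{a ∈ bx K T, a - a₀ ∈ b}`: size at most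
`T/4 + T/4 + T/2`. So `ncard ≥ c₁ (T/4)^n / N`; `c = c₁ / 4^n`.
-/

set_option autoImplicit false
open scoped Classical

open NumberField IsDedekindDomain

namespace H76PP

variable (K : Type) [Field K] [NumberField K]

theorem coset_lower : ∃ c : ℝ, 0 < c ∧ ∀ b : Ideal (𝓞 K), b ≠ ⊥ → ∃ T₀ : ℝ, ∀ T : ℝ, T₀ ≤ T →
    ∀ a₀ : 𝓞 K, c * (T ^ (Module.finrank ℚ K) / (Ideal.absNorm b : ℝ)) ≤
      ({a : 𝓞 K | a ∈ bx K T ∧ a - a₀ ∈ b}.ncard : ℝ) := by
  obtain ⟨c₁, hc₁, hlow⟩ := bx_lower K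
  set n := Module.finrank ℚ K with hn
  refine ⟨c₁ / 4 ^ n, by positivity, fun b hb => ?_⟩
  haveI hfin : Finite (𝓞 K ⧸ b) := Ideal.finiteQuotientOfFreeOfNeBot b hb
  haveI : Fintype (𝓞 K ⧸ b) := Fintype.ofFinite _
  have hcard : Ideal.absNorm b = Fintype.card (𝓞 K ⧸ b) := by
    rw [Ideal.absNorm_apply, Submodule.cardQuot_apply, Nat.card_eq_fintype_card]
  have hNpos : (0 : ℝ) < (Ideal.absNorm b : ℝ) := by
    rw [hcard]
    exact_mod_cast Fintype.card_pos
  have hrep : ∀ q : 𝓞 K ⧸ b, ∃ r : 𝓞 K, Ideal.Quotient.mk b r = q :=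
    fun q => Ideal.Quotient.mk_surjective q
  choose r hr using hrep
  choose Tq hTq using fun q => exists_bx (K := K) (r q)
  obtain ⟨B, hB⟩ : ∃ B : ℝ, ∀ q, Tq q ≤ B :=
    ⟨∑ q, |Tq q|, fun q => (le_abs_self _).trans
      (Finset.single_le_sum (f := fun q => |Tq q|) (fun i _ => abs_nonneg _) (Finset.mem_univ q))⟩
  refine ⟨max 1 (2 * B), fun T hT a₀ => ?_⟩
  have hT1 : 1 ≤ T := (le_max_left _ _).trans hT
  have hTB : 2 * B ≤ T := (le_max_right _ _).trans hT
  set S : Finset (𝓞 K) := (bx_finite K (T / 4)).toFinset with hSdef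
  have hS : c₁ * (T / 4) ^ n ≤ (S.card : ℝ) := by
    have h1 := hlow (T / 4) (by positivity)
    rw [Set.ncard_eq_toFinset_card _ (bx_finite K (T / 4))] at h1
    exact h1
  -- a class with many elements
  obtain ⟨q, -, hq⟩ : ∃ q ∈ (Finset.univ : Finset (𝓞 K ⧸ b)), (S.card : ℝ) / (Ideal.absNorm b : ℝ) ≤
      ((S.filter (fun a => Ideal.Quotient.mk b a = q)).card : ℝ) := by
    apply Finset.exists_le_of_sum_le (Finset.univ_nonempty)
    rw [Finset.sum_const, Finset.card_univ, ← hcard, nsmul_eq_mul,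
      mul_div_cancel₀ _ hNpos.ne']
    have h2 : S.card = ∑ q : 𝓞 K ⧸ b, (S.filter (fun a => Ideal.Quotient.mk b a = q)).card :=
      Finset.card_eq_sum_card_fiberwise (fun a _ => Finset.mem_coe.2 (Finset.mem_univ _))
    rw [h2]
    push_cast
    exact le_rfl
  set F := S.filter (fun a => Ideal.Quotient.mk b a = q) with hF
  have hSpos : (0 : ℝ) < (S.card : ℝ) := lt_of_lt_of_le (by positivity) hS
  have hFpos : (0 : ℝ) < (F.card : ℝ) := lt_of_lt_of_le (div_pos hSpos hNpos) hq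
  obtain ⟨a₁, ha₁⟩ : F.Nonempty := Finset.card_pos.1 (by exact_mod_cast hFpos)
  have ha₁' := Finset.mem_filter.1 ha₁
  have ha₁S : a₁ ∈ bx K (T / 4) := (Set.Finite.mem_toFinset _).1 ha₁'.1
  set r₀ := r (Ideal.Quotient.mk b a₀) with hr₀
  have hr₀' : r₀ ∈ bx K (T / 2) := by
    refine bx_mono ?_ (hTq (Ideal.Quotient.mk b a₀))
    have := hB (Ideal.Quotient.mk b a₀)
    linarith
  have hsub : (F.image (fun a => a - a₁ + r₀) : Set (𝓞 K)) ⊆
      {a : 𝓞 K | a ∈ bx K T ∧ a - a₀ ∈ b} := by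
    intro x hx
    rw [Finset.mem_coe, Finset.mem_image] at hx
    obtain ⟨a, ha, rfl⟩ := hx
    have ha' := Finset.mem_filter.1 ha
    have haS : a ∈ bx K (T / 4) := (Set.Finite.mem_toFinset _).1 ha'.1
    refine ⟨?_, ?_⟩
    · have h3 := bx_add (bx_sub haS ha₁S) hr₀'
      have h4 : T / 4 + T / 4 + T / 2 = T := by ring
      rw [h4] at h3
      exact h3
    · rw [← Ideal.Quotient.eq_zero_iff_mem]
      have h5 : Ideal.Quotient.mk b r₀ = Ideal.Quotient.mk b a₀ := hr _
      rw [map_sub, map_add, map_sub, ha'.2, ha₁'.2, h5]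
      ring
  have hfinset : {a : 𝓞 K | a ∈ bx K T ∧ a - a₀ ∈ b}.Finite :=
    (bx_finite K T).subset (fun a ha => ha.1)
  have hle : F.card ≤ {a : 𝓞 K | a ∈ bx K T ∧ a - a₀ ∈ b}.ncard := by
    have h6 := Set.ncard_le_ncard hsub hfinset
    rw [Set.ncard_coe_finset, Finset.card_image_of_injective] at h6
    · exact h6
    · intro x y hxy
      have h7 : x - a₁ + r₀ = y - a₁ + r₀ := hxy
      exact sub_left_injective (add_right_cancel h7)
  calc c₁ / 4 ^ n * (T ^ n / (Ideal.absNorm b : ℝ))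
      = (c₁ * (T / 4) ^ n) / (Ideal.absNorm b : ℝ) := by
        rw [div_pow]
        ring
    _ ≤ (S.card : ℝ) / (Ideal.absNorm b : ℝ) := by
        gcongr
    _ ≤ (F.card : ℝ) := hq
    _ ≤ _ := by exact_mod_cast hle

end H76PP
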