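import Pool.Agent.H76.PP.Te
import Pool.Agent.H76.PP.Td
import Pool.Agent.H38.T1.Ea

/-!
ROW Tg (project MP_78d38b_PP, about 190 lines): (8.3)(ii) of the note: the classes at `v ∈ J`. Use only the STATEMENTS of
the imported rows.

PROOF. As in Tf: `x', y, z` from `LC_approx` for `a = D^2 A`, `b = D^3 B`, `θ' = D θ`, `x = x'/D`; `D^3 f(x) / y^2 ≡ 1` at `v`,
`δ D (x - θ) / z^2 ≡ 1` at `w₁` and `w₂`. `ord_v D` is odd (`hD.odd`), `ord_{wᵢ} D = ord_v D` (`Two.ord1`, `ord2`).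
Case `v.valuation x ≤ 1`: `ord_v f(x)` is odd. `Two.unit2`: `ord_{w₂} (x - θ) = 0`, so `ord_{w₂} δ` is odd: the second claim is void
(`eo w₂ = 1 ≠ 0`). `ord_sub`: the place `w₁'` of `ord_sub` has `ord (x - θ) = ord_v f(x) ≠ 0`, so it is not `w₂`, so it is `w₁`
(`Two.only`): `ord_{w₁} (x - θ)` is odd and `ord_{w₁} δ` is even.
Case `1 < v.valuation x`: `ord_v (D^3 f(x)) = 3 ord_v D + 3 ord_v x` is even so `ord_v x` is odd and `ord_{wᵢ} (D (x - θ)) = ord_v D + ord_v x`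
is even: `eo w₁ = eo w₂ = 0`. Moreover `D (x - θ) = D x (1 - θ/x)`, `wᵢ.valuation (θ/x) < 1`, and `D^3 f(x) = (D x)^3 (1 + ε)`
with `v.valuation ε < 1`; so `D x = (y / (D x))^2 (1 + ε')`, `v.valuation ε' < 1`, hence `wᵢ.valuation ε' < 1` (val_lt) and
`δ = (z / (y/(Dx)))^2 (1 + ε'')` with `wᵢ.valuation ε'' < 1`. For such elements `la wᵢ (sc δ) = 0` for odd `wᵢ`: `sc δ = sc (1 + ε'')`
(`H38T1.sc_mul`, squares vanish), `H38T1.la_sc`, `H38RT.lam_unit`: `Sq V (1 + ε'')` with `t = 1`. `wᵢ` is odd: `6 ∉ v` (oddP_dn).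
-/

set_option autoImplicit false
set_option linter.unusedSectionVars false
open scoped Classical

open WithZero NumberField IsDedekindDomain H38RT
open H38T1 (SC sc scu rep eo la si Pri OddP tp unif)

namespace H76PP

variable {K L : Type} [Field K] [NumberField K] [Field L] [NumberField L] [Algebra K L]

theorem Tg_twist {K L : Type} [Field K] [Field L] [Algebra K L] {A B : K} {θ : L}
    (h : Cub K L A B θ) {D : K} (hD : D ≠ 0) :
    Cub K L (D ^ 2 * A) (D ^ 3 * B) (algebraMap K L D * θ) := by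
  have hr := h.root
  have hD' : algebraMap K L D ≠ 0 := (map_ne_zero _).2 hD
  refine ⟨?_, ?_, ?_⟩
  · simp only [map_mul, map_pow]
    linear_combination (algebraMap K L D) ^ 3 * hr
  · intro c₀ c₁ c₂ hc
    have h1 : algebraMap K L c₀ + algebraMap K L (c₁ * D) * θ +
        algebraMap K L (c₂ * D ^ 2) * θ ^ 2 = 0 := by
      simp only [map_mul, map_pow]
      linear_combination hc
    obtain ⟨h0, h2, h3⟩ := h.li _ _ _ h1
    refine ⟨h0, ?_, ?_⟩
    · exact (mul_eq_zero.1 h2).resolve_right hD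
    · exact (mul_eq_zero.1 h3).resolve_right (pow_ne_zero 2 hD)
  · intro x
    obtain ⟨c₀, c₁, c₂, hx⟩ := h.sp x
    refine ⟨c₀, c₁ / D, c₂ / D ^ 2, ?_⟩
    rw [hx]
    simp only [map_div₀, map_pow]
    field_simp

section Units

variable {F : Type} [Field F] {V : Valuation F (WithZero (Multiplicative ℤ))}

theorem Tg_ne {c : F} (h : V (c - 1) < 1) : V c = 1 ∧ c ≠ 0 := by
  have h1 : V c = 1 := by
    have h2 : c = 1 + (c - 1) := by ring
    rw [h2]
    exact V.map_one_add_of_lt h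
  refine ⟨h1, fun h0 => ?_⟩
  rw [h0, map_zero] at h1
  exact zero_ne_one h1

theorem Tg_mul {c c' : F} (h : V (c - 1) < 1) (h' : V (c' - 1) < 1) : V (c * c' - 1) < 1 := by
  have h1 : c * c' - 1 = (c - 1) * c' + (c' - 1) := by ring
  rw [h1]
  refine Valuation.map_add_lt V ?_ h'
  rw [map_mul, (Tg_ne h').1, mul_one]
  exact h

theorem Tg_inv {c : F} (h : V (c - 1) < 1) : V (c⁻¹ - 1) < 1 := by
  obtain ⟨h1, h2⟩ := Tg_ne h
  have h3 : c⁻¹ - 1 = -((c - 1) * c⁻¹) := by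
    field_simp
    ring
  rw [h3, Valuation.map_neg, map_mul, map_inv₀, h1, inv_one, mul_one]
  exact h

theorem Tg_rel {a b : F} (h : V (a / b ^ 2 - 1) < 1) (hb : b ≠ 0) : a ≠ 0 ∧ ord V a = 2 * ord V b := by
  obtain ⟨h1, h2⟩ := Tg_ne h
  have hb2 : b ^ 2 ≠ 0 := pow_ne_zero 2 hb
  have h3 : a = a / b ^ 2 * (b * b) := by
    rw [← pow_two]
    field_simp
  have ha : a ≠ 0 := by
    intro h0
    rw [h0, zero_div] at h2
    exact h2 rfl
  refine ⟨ha, ?_⟩
  have h4 : ord V (a / b ^ 2) = 0 := by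
    unfold ord
    rw [h1, WithZero.log_one, neg_zero]
  have h5 : ord V a = ord V (a / b ^ 2 * (b * b)) := by rw [← h3]
  rw [h5, ord_mul h2 (mul_ne_zero hb hb), ord_mul hb hb, h4]
  ring

end Units

theorem Tg_even {n : ℤ} : ((n : ZMod 2) = 0) ↔ Even n := by
  rw [ZMod.intCast_zmod_eq_zero_iff_dvd]
  exact even_iff_two_dvd.symm

theorem Tg_la {w : HeightOneSpectrum (𝓞 L)} (hv : OddP w) {c : L} (h : w.valuation L (c - 1) < 1) :
    la w (sc c) = 0 := by
  obtain ⟨h1, h2⟩ := Tg_ne h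
  rw [H38T1.la_sc hv h2, lam_unit h1, if_pos]
  exact ⟨1, by rwa [one_pow]⟩

theorem Tg_sq {s c : L} (hs : s ≠ 0) (hc : c ≠ 0) : (sc (s ^ 2 * c) : SC L) = sc c := by
  have hs2 : s ^ 2 ≠ 0 := pow_ne_zero 2 hs
  have h1 : (sc (s ^ 2) : SC L) = 0 := (H38T1.sc_eq_zero hs2).2 ⟨s, pow_two s⟩
  rw [H38T1.sc_mul hs2 hc, h1, zero_add]

/-- the case of a denominator -/
theorem Tg_big {A B : 𝓞 K} {θ : L} (h : Cub K L (A : K) (B : K) θ) {D x y : K} {δ z : L} (hD : D ≠ 0)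
    (hy : y ≠ 0) (hz : z ≠ 0) {w : HeightOneSpectrum (𝓞 L)} (hodd : OddP w)
    (hx : 1 < (dn K w).valuation K x)
    (h1 : (dn K w).valuation K (D ^ 3 * (x ^ 3 + (A : K) * x + (B : K)) / y ^ 2 - 1) < 1)
    (h2 : w.valuation L (δ * (algebraMap K L D * (algebraMap K L x - θ)) / z ^ 2 - 1) < 1) :
    la w (sc δ) = 0 := by
  obtain ⟨b1, b2, b3, b4⟩ := ord_sub_big h hx
  have hx0 : x ≠ 0 := by
    rintro rfl
    rw [map_zero] at hx
    exact absurd hx (not_lt.2 zero_le_one)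
  have hax : algebraMap K L x ≠ 0 := (map_ne_zero _).2 hx0
  have haD : algebraMap K L D ≠ 0 := (map_ne_zero _).2 hD
  have hay : algebraMap K L y ≠ 0 := (map_ne_zero _).2 hy
  obtain ⟨f, hf⟩ : ∃ f, f = x ^ 3 + (A : K) * x + (B : K) := ⟨_, rfl⟩
  rw [← hf] at h1 b3
  have hf0 : f ≠ 0 := by
    intro h0
    have h3 := (Tg_ne b3).2
    rw [h0, zero_div] at h3
    exact h3 rfl
  have haf : algebraMap K L f ≠ 0 := (map_ne_zero _).2 hf0
  have u1 : w.valuation L (algebraMap K L (D ^ 3 * f / y ^ 2) - 1) < 1 := by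
    have h3 := val_lt (w := w) h1
    rwa [map_sub, map_one] at h3
  have u2 : w.valuation L (algebraMap K L (f / x ^ 3) - 1) < 1 := by
    have h3 := val_lt (w := w) b3
    rwa [map_sub, map_one] at h3
  have u3 : w.valuation L ((1 - θ / algebraMap K L x) - 1) < 1 := by
    have h3 : (1 - θ / algebraMap K L x) - 1 = -(θ / algebraMap K L x) := by ring
    rw [h3, Valuation.map_neg]
    exact b2
  have h3 : 1 - θ / algebraMap K L x = (algebraMap K L x - θ) / algebraMap K L x := by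
    field_simp
  have hxt : algebraMap K L x - θ ≠ 0 := by
    intro h0
    rw [h3, h0, zero_div] at u3
    exact (Tg_ne u3).2 rfl
  have u := Tg_mul (Tg_mul (Tg_mul h2 u2) (Tg_inv u1)) (Tg_inv u3)
  have hs : z * algebraMap K L (D * x / y) ≠ 0 :=
    mul_ne_zero hz ((map_ne_zero _).2 (div_ne_zero (mul_ne_zero hD hx0) hy))
  have e : δ = (z * algebraMap K L (D * x / y)) ^ 2 *
      (δ * (algebraMap K L D * (algebraMap K L x - θ)) / z ^ 2 * algebraMap K L (f / x ^ 3) *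
        (algebraMap K L (D ^ 3 * f / y ^ 2))⁻¹ * (1 - θ / algebraMap K L x)⁻¹) := by
    rw [h3]
    simp only [map_div₀, map_mul, map_pow]
    field_simp
  rw [e, Tg_sq hs (Tg_ne u).2]
  exact Tg_la hodd u

theorem at_J {q₀ : HeightOneSpectrum (𝓞 K)} {T J : Finset (HeightOneSpectrum (𝓞 K))}
    {A B : 𝓞 K} (hF : Fam q₀ T A B) {θ : L} (h : Cub K L (A : K) (B : K) θ) {D : K}
    (hD : TwD q₀ J D) {d : Fin 3 → K} (hd : ev (algebraMap K L D * θ) d ≠ 0)
    {v : HeightOneSpectrum (𝓞 K)} (hv : v ∈ J) (h6 : (6 : 𝓞 K) ∉ v.asIdeal)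
    {w₁ w₂ : HeightOneSpectrum (𝓞 L)} (h2 : Two K θ v w₁ w₂)
    (hLC : LC (algebraMap K (v.adicCompletion K)) (D ^ 2 * A) (D ^ 3 * B) d) :
    eo w₁ (sc (ev (algebraMap K L D * θ) d)) = 0 ∧
    (eo w₂ (sc (ev (algebraMap K L D * θ) d)) = 0 →
      la w₁ (sc (ev (algebraMap K L D * θ) d)) = 0 ∧
      la w₂ (sc (ev (algebraMap K L D * θ) d)) = 0) := by
  have h' := Tg_twist h hD.ne
  obtain ⟨x', y, z, hy, hz, h1, hw⟩ := LC_approx h' hd v hLC
  obtain ⟨δ, hδ⟩ : ∃ δ, δ = ev (algebraMap K L D * θ) d := ⟨_, rfl⟩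
  rw [← hδ] at hd hw ⊢
  obtain ⟨x, hx'⟩ : ∃ x, x' = D * x := ⟨x' / D, by rw [mul_div_cancel₀ _ hD.ne]⟩
  rw [hx'] at h1 hw
  have hDne := hD.ne
  have hD' : algebraMap K L D ≠ 0 := (map_ne_zero _).2 hDne
  have e1 : (D * x) ^ 3 + D ^ 2 * (A : K) * (D * x) + D ^ 3 * (B : K) =
      D ^ 3 * (x ^ 3 + (A : K) * x + (B : K)) := by ring
  rw [e1] at h1
  have e2 : δ * (algebraMap K L (D * x) - algebraMap K L D * θ) =
      δ * (algebraMap K L D * (algebraMap K L x - θ)) := by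
    rw [map_mul]
    ring
  rw [e2] at hw
  have hoddv : OddP v := by
    by_contra hno
    rw [H38T1.not_oddP] at hno
    apply h6
    have h3 : (2 : 𝓞 K) ∈ v.asIdeal := by
      rw [← HeightOneSpectrum.valuation_lt_one_iff_mem (K := K)]
      have h4 : (algebraMap (𝓞 K) K) 2 = 2 := map_ofNat (algebraMap (𝓞 K) K) 2
      change v.valuation K (algebraMap (𝓞 K) K 2) < 1
      rw [h4]
      exact hno
    have h5 : (6 : 𝓞 K) = 3 * 2 := by norm_num
    rw [h5]
    exact v.asIdeal.mul_mem_left _ h3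
  have hodd1 : OddP w₁ := by
    rw [oddP_dn (K := K), h2.dn1]
    exact hoddv
  have hodd2 : OddP w₂ := by
    rw [oddP_dn (K := K), h2.dn2]
    exact hoddv
  obtain ⟨f, hf⟩ : ∃ f, f = x ^ 3 + (A : K) * x + (B : K) := ⟨_, rfl⟩
  have r0 := Tg_rel h1 hy
  rw [← hf] at r0
  obtain ⟨n0, r0⟩ := r0
  have hf0 : f ≠ 0 := right_ne_zero_of_mul n0
  have hDDD : ord (v.valuation K) (D ^ 3) = 3 * ord (v.valuation K) D := by
    have h3 : D ^ 3 = D * D * D := by ring
    rw [h3, ord_mul (mul_ne_zero hDne hDne) hDne, ord_mul hDne hDne]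
    ring
  rw [ord_mul (pow_ne_zero 3 hDne) hf0, hDDD] at r0
  obtain ⟨n1, r1⟩ := Tg_rel (hw w₁ h2.dn1) hz
  obtain ⟨n2, r2⟩ := Tg_rel (hw w₂ h2.dn2) hz
  have hxt : algebraMap K L x - θ ≠ 0 := right_ne_zero_of_mul (right_ne_zero_of_mul n1)
  rw [ord_mul hd (mul_ne_zero hD' hxt), ord_mul hD' hxt, h2.ord1 D hDne] at r1
  rw [ord_mul hd (mul_ne_zero hD' hxt), ord_mul hD' hxt, h2.ord2 D hDne] at r2
  have hodd := hD.odd v hv
  rw [H38T1.eo_sc hd, H38T1.eo_sc hd, Tg_even, Tg_even]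
  rcases le_or_gt (v.valuation K x) 1 with hx | hx
  · have g1 := h2.unit2 x hx
    have g2 : ord (w₂.valuation L) (algebraMap K L x - θ) = 0 := by
      unfold ord
      rw [g1, WithZero.log_one, neg_zero]
    rw [g2] at r2
    obtain ⟨w', g3, g4, g5⟩ := ord_sub hF h v hx (by rw [← hf]; exact hf0)
    rw [← hf] at g4
    have g6 : w' = w₁ := by
      rcases h2.only w' g3 with h3 | h3
      · exact h3
      · exfalso
        rw [h3, g2] at g4
        rw [← g4] at r0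
        obtain ⟨m, hm⟩ := hodd
        omega
    rw [g6] at g4
    rw [g4] at r1
    obtain ⟨m, hm⟩ := hodd
    constructor
    · rw [Int.even_iff]
      omega
    · intro h3
      exfalso
      obtain ⟨m', hm'⟩ := h3
      omega
  · have hx1 : 1 < (dn K w₁).valuation K x := by rw [h2.dn1]; exact hx
    have hx2 : 1 < (dn K w₂).valuation K x := by rw [h2.dn2]; exact hx
    have hx0 : x ≠ 0 := by
      rintro rfl
      rw [map_zero] at hx
      exact absurd hx (not_lt.2 zero_le_one)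
    obtain ⟨b1, -, -, b4⟩ := ord_sub_big h hx1
    obtain ⟨b1', -, -, -⟩ := ord_sub_big h hx2
    rw [h2.dn1, ← hf] at b4
    have o1 : ord (w₁.valuation L) (algebraMap K L x - θ) = ord (v.valuation K) x := by
      rw [← h2.ord1 x hx0]
      unfold ord
      rw [b1]
    have o2 : ord (w₂.valuation L) (algebraMap K L x - θ) = ord (v.valuation K) x := by
      rw [← h2.ord2 x hx0]
      unfold ord
      rw [b1']
    have of : ord (v.valuation K) f = 3 * ord (v.valuation K) x := by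
      have h3 : ord (v.valuation K) f = ord (v.valuation K) (x * x * x) := by
        unfold ord
        rw [b4, map_mul, map_mul, pow_succ, pow_two]
      rw [h3, ord_mul (mul_ne_zero hx0 hx0) hx0, ord_mul hx0 hx0]
      ring
    rw [of] at r0
    rw [o1] at r1
    rw [o2] at r2
    obtain ⟨m, hm⟩ := hodd
    refine ⟨?_, fun _ => ⟨?_, ?_⟩⟩
    · rw [Int.even_iff]
      omega
    · refine Tg_big h hDne hy hz hodd1 hx1 ?_ (hw w₁ h2.dn1)
      rw [h2.dn1]
      exact h1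
    · refine Tg_big h hDne hy hz hodd2 hx2 ?_ (hw w₂ h2.dn2)
      rw [h2.dn2]
      exact h1

end H76PP
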