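import Mathlib

/-!
ROW Ti (project MP_78d38b_PP, about 90 lines, Mathlib only): choice of the set `J`.

PROOF. Among the subsets `J` of `T` with `∀ y ∈ H, (∀ v ∈ J, u v y = 0) → y = 0` (`T` itself is one, `hker`) choose one with the least
number of elements (`Finset.exists_min_image` on the filtered powerset). Suppose `r` satisfies `∑ v ∈ J, r v * u v y = 0` for all
`y ∈ H` and `r v₀ ≠ 0` for some `v₀ ∈ J`; so `r v₀ = 1` (`ZMod 2`). Then `J.erase v₀` has the property too: if `y ∈ H` and `u v y = 0` for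
all `v ∈ J.erase v₀` then the relation gives `u v₀ y = 0`, so `y = 0`. It is smaller: contradiction.
-/

set_option autoImplicit false
open scoped Classical

namespace H76PP

theorem exists_J {V ι : Type*} [AddCommGroup V] (H : AddSubgroup V) (T : Finset ι)
    (u : ι → V →+ ZMod 2) (hker : ∀ y ∈ H, (∀ v ∈ T, u v y = 0) → y = 0) :
    ∃ J ⊆ T, (∀ y ∈ H, (∀ v ∈ J, u v y = 0) → y = 0) ∧
      ∀ r : ι → ZMod 2, (∀ y ∈ H, ∑ v ∈ J, r v * u v y = 0) → ∀ v ∈ J, r v = 0 := by
  have hne : (T.powerset.filter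
      (fun J => ∀ y ∈ H, (∀ v ∈ J, u v y = 0) → y = 0)).Nonempty :=
    ⟨T, Finset.mem_filter.2 ⟨Finset.mem_powerset_self T, hker⟩⟩
  obtain ⟨J, hJ, hmin⟩ := Finset.exists_min_image _ Finset.card hne
  obtain ⟨hJT, hJk⟩ := Finset.mem_filter.1 hJ
  rw [Finset.mem_powerset] at hJT
  refine ⟨J, hJT, hJk, ?_⟩
  intro r hr v₀ hv₀
  by_contra hne0
  have h1 : r v₀ = 1 := by
    have h2 : ∀ z : ZMod 2, z ≠ 0 → z = 1 := by decide
    exact h2 _ hne0
  have hE : ∀ y ∈ H, (∀ v ∈ J.erase v₀, u v y = 0) → y = 0 := by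
    intro y hy hv
    refine hJk y hy (fun v hvJ => ?_)
    by_cases hvv : v = v₀
    · subst hvv
      have h3 := hr y hy
      rw [← Finset.add_sum_erase J _ hvJ, h1, one_mul] at h3
      have h4 : ∑ x ∈ J.erase v, r x * u x y = 0 :=
        Finset.sum_eq_zero (fun x hx => by rw [hv x hx, mul_zero])
      rw [h4, add_zero] at h3
      exact h3
    · exact hv v (Finset.mem_erase.2 ⟨hvv, hvJ⟩)
  have h5 := hmin (J.erase v₀) (Finset.mem_filter.2
    ⟨Finset.mem_powerset.2 ((Finset.erase_subset _ _).trans hJT), hE⟩)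
  have h6 := Finset.card_erase_lt_of_mem hv₀
  omega

end H76PP
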