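import Pool.Agent.H76.PP.Tf
import Pool.Agent.H76.PP.Tg
import Pool.Agent.H76.PP.Th
import Pool.Agent.H76.PP.Ti

/-!
ROW Tj (project MP_78d38b_PP, about 250 lines): assembly of section 8 of the note. The statements of block R2
(projection formula and (8.5)) enter as the hypothesis `HR2`. Use only the STATEMENTS of the imported rows.

PROOF. (0) For `v ∈ T` choose `w₁ v, w₂ v` with `Two K θ v (w₁ v) (w₂ v)` (exists_two). `v` is odd (`6 ∉ v`), so are `w₁ v, w₂ v`
(oddP_dn). `u v : SC L →+ ZMod 2`, `u v c = la (w₁ v) c` for `v ∈ T` (additive: `H38T1.la_add`, `la_zero`; zero map for `v ∉ T`).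
(1) la_eq: if `c ∈ SC L`, `eo (w₁ v) c = eo (w₂ v) c = 0` and `scm (norm) c = 0` then `la (w₁ v) c = la (w₂ v) c`. Proof: `c = sc y`; `hR.proj` with
a uniformizer `ϖ = unif v` of `v`: the sum over `{w // dn K w = v} = {w₁, w₂}` (finsum over two elements, `Two.only`, `Two.ne`) of
`tp w (sc y) (sc ϖ) = eo w (sc ϖ) la w (sc y) + 0 = la w (sc y)` (`eo w (sc y) = 0`, `eo w (sc ϖ) = 1`: `ord_w ϖ = ord_v ϖ = 1`, `H38T1.eo_sc`)
equals `tp v (sc (N y)) (sc ϖ)`, and `sc (N y) = 0` (scm_sc), `tp v 0 _ = 0`. So the sum of the two `la` is zero.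
(2) `Y` = set of `c ∈ SC L` such that there is `d : Fin 3 → K` with `ev θ d ≠ 0`, `c = sc (ev θ d)`, `IsSquare (norm (ev θ d))`, `eo w c = 0` for all
`w`, `LC (..completion) A B d` for all `v` with `v.valuation K 2 < 1` and `LC s A B d` for all real `s`. `H = AddSubgroup.closure Y`. For `c ∈ H`
(`AddSubgroup.closure_induction`): `eo w c = 0` for all `w`, `scm norm c = 0`.
hker: `c ∈ H`, `la (w₁ v) c = 0` for all `v ∈ T`. By (1) `la (w₂ v) c = 0` too, so `la w c = 0` for all `w` with `dn K w ∈ T`; if `c ≠ 0` then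
`BadP T A B` (with `L, θ, c`), contradiction. So `c = 0`.
(3) `exists_J H T u hker` gives `J`. Claim: it works. Let `D` with `TwD q₀ J D`, and `d'` with `δ = ev (Dθ) d' ≠ 0`, square norm, `LC`
everywhere for `(D^2 A, D^3 B)`. Let `d j = d' j * D^j`; `ev θ d = δ`. `r v = eo (w₂ v) (sc δ)` for `v ∈ J`.
For `y ∈ Y`, `y = sc (ev θ d₁)`: `hR.iso` for `d` and `d₁` (LC for `d` over `(A, B)` at `v | 2`: `sq_two` with `hD.two` and `LC_twist`; at real `s`:
`s D > 0` is the square of `Real.sqrt`, `LC_twist`): `∑ᶠ w, (if OddP w then tp w (sc δ) y else 0) = 0`. The terms: `eo w y = 0`. If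
`dn K w ∉ J`: `eo w (sc δ) = 0` (even_off) so `tp w = 0`. If `w = w₁ v`, `v ∈ J`: `eo = 0` (at_J), `tp = 0`. If `w = w₂ v`:
`tp w (sc δ) y = eo w (sc δ) * la w y = r v * la (w₂ v) y = r v * u v y` by (1). So the finsum is `∑ v ∈ J, r v * u v y`
(`finsum_eq_sum_of_support_subset` with the finset `J.image w₂`; `w₂` is injective on `J` as `dn (w₂ v) = v`). Extend to
`y ∈ H` by additivity (closure_induction). So `r v = 0` on `J`.
(4) Hence `eo w (sc δ) = 0` for all `w` and `la (w₁ v) (sc δ) = 0` for `v ∈ J` (at_J). `sc δ ∈ Y ⊆ H`. So `sc δ = 0`, `IsSquare δ`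
(`H38T1.sc_eq_zero`).
-/

set_option autoImplicit false
set_option linter.unusedSectionVars false
open scoped Classical

open WithZero NumberField IsDedekindDomain H38RT
open H38T1 (SC sc scu rep eo la si Pri OddP tp unif)

namespace H76PP

/-- The statements of block R2. -/
structure HR2 (K L : Type) [Field K] [NumberField K] [Field L] [NumberField L] [Algebra K L]
    (A B : 𝓞 K) (θ : L) : Prop where
  proj : ∀ {v : HeightOneSpectrum (𝓞 K)}, OddP v → ∀ {u : L}, u ≠ 0 → ∀ {c : K}, c ≠ 0 →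
    ∑ᶠ w : {w : HeightOneSpectrum (𝓞 L) // dn K w = v},
      tp w.1 (sc u) (sc (algebraMap K L c)) = tp v (sc (Algebra.norm K u)) (sc c)
  iso : ∀ {d d' : Fin 3 → K}, ev θ d ≠ 0 → ev θ d' ≠ 0 → IsSquare (Algebra.norm K (ev θ d)) →
    IsSquare (Algebra.norm K (ev θ d')) →
    (∀ v : HeightOneSpectrum (𝓞 K), v.valuation K 2 < 1 →
      LC (algebraMap K (v.adicCompletion K)) (A : K) (B : K) d ∧
      LC (algebraMap K (v.adicCompletion K)) (A : K) (B : K) d') →
    (∀ s : K →+* ℝ, LC s (A : K) (B : K) d ∧ LC s (A : K) (B : K) d') →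
    ∑ᶠ w : HeightOneSpectrum (𝓞 L),
      (if OddP w then tp w (sc (ev θ d)) (sc (ev θ d')) else 0) = 0

private theorem Tj_odd {K : Type} [Field K] [NumberField K] {v : HeightOneSpectrum (𝓞 K)}
    (h6 : (6 : 𝓞 K) ∉ v.asIdeal) : OddP v := by
  have h2 : (2 : 𝓞 K) ∉ v.asIdeal := by
    intro h
    apply h6
    have : (6 : 𝓞 K) = 3 * 2 := by norm_num
    rw [this]
    exact v.asIdeal.mul_mem_left _ h
  have h3 := (v.valuation_eq_one_iff_notMem (K := K) (r := (2 : 𝓞 K))).2 h2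
  unfold H38T1.OddP
  rw [← h3]
  congr 1

private theorem Tj_unif_ne {K : Type} [Field K] [NumberField K] (v : HeightOneSpectrum (𝓞 K)) :
    unif v ≠ 0 := by
  intro h
  have h1 := H38T1.unif_spec v
  rw [h, map_zero] at h1
  exact exp_ne_zero h1.symm

private theorem Tj_neg {L : Type} [Field L] (c : SC L) : -c = c := by
  have h := H38T1.SC.two_smul c
  rw [two_nsmul] at h
  exact neg_eq_of_add_eq_zero_left h

private theorem Tj_la {K L : Type} [Field K] [NumberField K] [Field L] [NumberField L]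
    [Algebra K L] {A B : 𝓞 K} {θ : L} (hR : HR2 K L A B θ) {v : HeightOneSpectrum (𝓞 K)}
    (hv : OddP v) {w₁ w₂ : HeightOneSpectrum (𝓞 L)} (h2 : Two K θ v w₁ w₂) {c : SC L}
    (h1 : eo w₁ c = 0) (h1' : eo w₂ c = 0) (hc : scm (Algebra.norm K : L →* K) c = 0) :
    la w₁ c = la w₂ c := by
  obtain ⟨y, hy, rfl⟩ := H38T1.sc_surj c
  have hu := Tj_unif_ne v
  have h3 := hR.proj hv hy hu
  rw [scm_sc _ hy] at hc
  have h4 : sc (Algebra.norm K y) = (0 : SC K) := hc
  have h5 : tp v (sc (Algebra.norm K y)) (sc (unif v)) = 0 := by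
    rw [h4]
    unfold H38T1.tp
    rw [H38T1.eo_zero, H38T1.la_zero hv]
    ring
  have e1 : (ord (v.valuation K) (unif v) : ZMod 2) = 1 := by
    have : ord (v.valuation K) (unif v) = 1 := by
      unfold ord
      rw [H38T1.unif_spec]
      simp
    rw [this]
    simp
  have hne : algebraMap K L (unif v) ≠ 0 := (map_ne_zero _).2 hu
  have t1 : tp w₁ (sc y) (sc (algebraMap K L (unif v))) = la w₁ (sc y) := by
    unfold H38T1.tp
    rw [h1, H38T1.eo_sc hne, h2.ord1 _ hu, e1]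
    ring
  have t2 : tp w₂ (sc y) (sc (algebraMap K L (unif v))) = la w₂ (sc y) := by
    unfold H38T1.tp
    rw [h1', H38T1.eo_sc hne, h2.ord2 _ hu, e1]
    ring
  have h6 : ∑ᶠ w : {w : HeightOneSpectrum (𝓞 L) // dn K w = v},
      tp w.1 (sc y) (sc (algebraMap K L (unif v))) = la w₁ (sc y) + la w₂ (sc y) := by
    rw [← t1, ← t2, ← finsum_mem_pair (f := fun w => tp w (sc y) (sc (algebraMap K L (unif v)))) h2.ne,
      finsum_subtype_eq_finsum_cond (f := fun w => tp w (sc y) (sc (algebraMap K L (unif v))))]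
    refine finsum_congr fun w => ?_
    have hw : (dn K w = v) ↔ w ∈ ({w₁, w₂} : Set (HeightOneSpectrum (𝓞 L))) := by
      constructor
      · intro h
        rcases h2.only w h with h | h
        · exact Or.inl h
        · exact Or.inr h
      · rintro (h | h)
        · rw [h]
          exact h2.dn1
        · rw [Set.mem_singleton_iff.1 h]
          exact h2.dn2
    rw [finsum_congr_Prop (propext hw) fun _ => rfl]
  rw [h6, h5] at h3
  exact CharTwo.add_eq_zero.1 h3

theorem sel_of_HR2 {K : Type} [Field K] [NumberField K] {q₀ : HeightOneSpectrum (𝓞 K)}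
    {T : Finset (HeightOneSpectrum (𝓞 K))} (hT : ∀ v ∈ T, v ≠ q₀ ∧ (6 : 𝓞 K) ∉ v.asIdeal)
    {A B : 𝓞 K} (hF : Fam q₀ T A B) (hB : ¬ BadP T A B) {L : Type} [Field L] [NumberField L]
    [Algebra K L] {θ : L} (hL : Cub K L (A : K) (B : K) θ) (hR : HR2 K L A B θ) :
    ∃ J ⊆ T, ∀ D : K, TwD q₀ J D →
      SelTriv K L (D ^ 2 * A) (D ^ 3 * B) (algebraMap K L D * θ) := by
  obtain ⟨w₀, -⟩ := exists_above (L := L) q₀
  have : Nonempty (HeightOneSpectrum (𝓞 L)) := ⟨w₀⟩
  have h2 : ∀ v ∈ T, ∃ w₁ w₂ : HeightOneSpectrum (𝓞 L), Two K θ v w₁ w₂ := fun v hv =>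
    exists_two hF hL hv (hT v hv).2
  choose! w₁ w₂ hw using h2
  have hodd : ∀ v ∈ T, OddP v := fun v hv => Tj_odd (hT v hv).2
  have hodd1 : ∀ v ∈ T, OddP (w₁ v) := fun v hv => by
    rw [oddP_dn (K := K), (hw v hv).dn1]
    exact hodd v hv
  have hodd2 : ∀ v ∈ T, OddP (w₂ v) := fun v hv => by
    rw [oddP_dn (K := K), (hw v hv).dn2]
    exact hodd v hv
  have hu : ∃ u : HeightOneSpectrum (𝓞 K) → SC L →+ ZMod 2, ∀ v ∈ T, ∀ c, u v c = la (w₁ v) c := by
    refine ⟨fun v => if h : v ∈ T then ⟨⟨la (w₁ v), H38T1.la_zero (hodd1 v h)⟩,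
      H38T1.la_add (hodd1 v h)⟩ else 0, fun v hv c => ?_⟩
    beta_reduce
    rw [dif_pos hv]
    rfl
  obtain ⟨u, hu⟩ := hu
  let Y : Set (SC L) := {c | ∃ d : Fin 3 → K, ev θ d ≠ 0 ∧ c = sc (ev θ d) ∧
    IsSquare (Algebra.norm K (ev θ d)) ∧ (∀ w, eo w c = 0) ∧
    (∀ v : HeightOneSpectrum (𝓞 K), v.valuation K 2 < 1 →
      LC (algebraMap K (v.adicCompletion K)) (A : K) (B : K) d) ∧
    ∀ s : K →+* ℝ, LC s (A : K) (B : K) d}
  have hYn : ∀ c ∈ Y, scm (Algebra.norm K : L →* K) c = 0 := by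
    rintro c ⟨d, hd, rfl, hs, -⟩
    rw [scm_sc _ hd]
    exact (H38T1.sc_eq_zero (scm_ne _ hd)).2 hs
  have hH : ∀ c ∈ AddSubgroup.closure Y, (∀ w, eo w c = 0) ∧
      scm (Algebra.norm K : L →* K) c = 0 := by
    intro c hc
    induction hc using AddSubgroup.closure_induction with
    | mem c hc =>
      refine ⟨?_, hYn c hc⟩
      obtain ⟨d, -, -, -, h, -⟩ := hc
      exact h
    | zero => exact ⟨fun w => H38T1.eo_zero w, map_zero _⟩
    | add c c' _ _ h h' =>
      refine ⟨fun w => ?_, ?_⟩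
      · rw [H38T1.eo_add, h.1, h'.1, add_zero]
      · rw [map_add, h.2, h'.2, add_zero]
    | neg c _ h =>
      rw [Tj_neg]
      exact h
  have hla : ∀ v ∈ T, ∀ c ∈ AddSubgroup.closure Y, la (w₁ v) c = la (w₂ v) c := fun v hv c hc =>
    Tj_la hR (hodd v hv) (hw v hv) ((hH c hc).1 _) ((hH c hc).1 _) (hH c hc).2
  have hker : ∀ y ∈ AddSubgroup.closure Y, (∀ v ∈ T, u v y = 0) → y = 0 := by
    intro c hc h
    by_contra hne
    refine hB ⟨L, _, _, _, θ, c, hL, hne, (hH c hc).2, (hH c hc).1, fun w hwT => ?_⟩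
    have h3 : la (w₁ (dn K w)) c = 0 := by
      rw [← hu _ hwT]
      exact h _ hwT
    rcases (hw _ hwT).only w rfl with h4 | h4
    · rw [h4]
      exact h3
    · rw [h4, ← hla _ hwT c hc]
      exact h3
  obtain ⟨J, hJT, hJ1, hJ2⟩ := exists_J (AddSubgroup.closure Y) T u hker
  refine ⟨J, hJT, fun D hD d' hd' hsq hLC hLCr => ?_⟩
  set δ := ev (algebraMap K L D * θ) d' with hδ
  have hev : ev θ (fun j => d' j * D ^ (j : ℕ)) = δ := by
    rw [hδ]
    simp only [ev, map_mul, map_pow, Fin.val_zero, Fin.val_one, Fin.val_two]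
    ring
  have hd : ev θ (fun j => d' j * D ^ (j : ℕ)) ≠ 0 := by
    rw [hev]
    exact hd'
  have hL2 : ∀ v : HeightOneSpectrum (𝓞 K), v.valuation K 2 < 1 →
      LC (algebraMap K (v.adicCompletion K)) (A : K) (B : K) (fun j => d' j * D ^ (j : ℕ)) := by
    intro v hv
    obtain ⟨m, hm, h⟩ := hD.two v hv
    obtain ⟨r, hr⟩ := sq_two hv hm h
    exact LC_twist _ hD.ne hr (hLC v)
  have hLr : ∀ s : K →+* ℝ, LC s (A : K) (B : K) (fun j => d' j * D ^ (j : ℕ)) := by
    intro s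
    exact LC_twist _ hD.ne (Real.sq_sqrt (hD.pos s).le).symm (hLCr s)
  have hoff : ∀ w : HeightOneSpectrum (𝓞 L), dn K w ∉ J → eo w (sc δ) = 0 := fun w hwJ =>
    even_off hF hL hD hd' hwJ (hLC _)
  have hat : ∀ v ∈ J, eo (w₁ v) (sc δ) = 0 ∧ (eo (w₂ v) (sc δ) = 0 → la (w₁ v) (sc δ) = 0 ∧
      la (w₂ v) (sc δ) = 0) := fun v hv =>
    at_J hF hL hD hd' hv (hT v (hJT hv)).2 (hw v (hJT hv)) (hLC _)
  have hrel : ∀ y ∈ AddSubgroup.closure Y, ∑ v ∈ J, eo (w₂ v) (sc δ) * u v y = 0 := by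
    intro y hy
    induction hy using AddSubgroup.closure_induction with
    | mem y hy =>
      have hyH : y ∈ AddSubgroup.closure Y := AddSubgroup.subset_closure hy
      obtain ⟨d₁, hd₁, rfl, hs₁, he₁, hl₁, hr₁⟩ := hy
      have h3 := hR.iso (d := fun j => d' j * D ^ (j : ℕ)) (d' := d₁) hd hd₁ (by rw [hev]; exact hsq) hs₁
        (fun v hv => ⟨hL2 v hv, hl₁ v hv⟩) fun s => ⟨hLr s, hr₁ s⟩
      rw [hev] at h3
      have ht : ∀ w : HeightOneSpectrum (𝓞 L), tp w (sc δ) (sc (ev θ d₁)) =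
          eo w (sc δ) * la w (sc (ev θ d₁)) := by
        intro w
        unfold H38T1.tp
        rw [he₁ w]
        ring
      have hsub : Function.support (fun w : HeightOneSpectrum (𝓞 L) =>
          if OddP w then tp w (sc δ) (sc (ev θ d₁)) else 0) ⊆ ((J.image w₂ : Finset _) : Set _) := by
        intro w hwS
        by_contra hn
        apply hwS
        change (if OddP w then tp w (sc δ) (sc (ev θ d₁)) else 0) = 0
        have h5 : eo w (sc δ) = 0 := by
          by_cases hwJ : dn K w ∈ J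
          · rcases (hw _ (hJT hwJ)).only w rfl with h4 | h4
            · rw [h4]
              exact (hat _ hwJ).1
            · exact absurd (Finset.mem_coe.2 (Finset.mem_image.2 ⟨_, hwJ, h4.symm⟩)) hn
          · exact hoff w hwJ
        rw [ht, h5, zero_mul, ite_self]
      rw [finsum_eq_sum_of_support_subset _ hsub, Finset.sum_image] at h3
      · rw [← h3]
        refine Finset.sum_congr rfl fun v hv => ?_
        rw [if_pos (hodd2 v (hJT hv)), ht, hu v (hJT hv), hla v (hJT hv) _ hyH]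
      · intro v hv v' hv' h
        rw [← (hw v (hJT hv)).dn2, ← (hw v' (hJT hv')).dn2, h]
    | zero => simp
    | add y y' _ _ h h' =>
      simp only [map_add, mul_add, Finset.sum_add_distrib]
      rw [h, h', add_zero]
    | neg y _ h =>
      rw [Tj_neg]
      exact h
  have hr := hJ2 (fun v => eo (w₂ v) (sc δ)) hrel
  have heo : ∀ w : HeightOneSpectrum (𝓞 L), eo w (sc δ) = 0 := by
    intro w
    by_cases hwJ : dn K w ∈ J
    · rcases (hw _ (hJT hwJ)).only w rfl with h4 | h4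
      · rw [h4]
        exact (hat _ hwJ).1
      · rw [h4]
        exact hr _ hwJ
    · exact hoff w hwJ
  have hmem : sc δ ∈ AddSubgroup.closure Y := by
    refine AddSubgroup.subset_closure ⟨fun j => d' j * D ^ (j : ℕ), hd, by rw [hev], ?_, heo, hL2, hLr⟩
    rw [hev]
    exact hsq
  have h0 := hJ1 _ hmem fun v hv => by
    rw [hu v (hJT hv)]
    exact ((hat v hv).2 (hr v hv)).1
  exact (H38T1.sc_eq_zero hd').1 h0

end H76PP
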