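import Pool.Agent.H76.PP.Fe
import Pool.Agent.H54.PP.Fin

/-!
Block N: the first moment bound.
-/

set_option autoImplicit false
set_option linter.unusedSectionVars false
open scoped Classical

open WithZero NumberField IsDedekindDomain H38RT
open H38T1 (SC sc scu rep eo la si Pri OddP tp unif)

namespace H76PP

theorem bad_count (K : Type) [Field K] [NumberField K] (hfin : ∀ X : ℝ, (Bx K X).Finite) :
    ∃ (C : ℝ) (N₀ : ℕ), 0 < C ∧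
    ∀ (q₀ : HeightOneSpectrum (𝓞 K)) (T : Finset (HeightOneSpectrum (𝓞 K))),
      (∀ v ∈ T, N₀ ≤ Nv v ∧ (6 : 𝓞 K) ∉ v.asIdeal) → ∃ X₀ : ℝ, ∀ X : ℝ, X₀ ≤ X →
        ({p : 𝓞 K × 𝓞 K | p ∈ Bx K X ∧ Fam q₀ T p.1 p.2 ∧ BadP T p.1 p.2}.ncard : ℝ) ≤
          C * (∏ v ∈ T, ((1 + 1 / (Nv v : ℝ)) ^ 2 / 4)) * X ^ (5 * Module.finrank ℚ K) := by
  obtain ⟨C₂, hC₂, hdat⟩ := exists_dat K
  obtain ⟨C, N₀, hC, h⟩ := H54PP.dat_count K C₂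
  refine ⟨C, N₀, hC, fun q₀ T hT => ?_⟩
  obtain ⟨X₀, hX₀⟩ := h T hT
  refine ⟨max X₀ 0, fun X hX => ?_⟩
  refine le_trans ?_ (hX₀ X ((le_max_left _ _).trans hX))
  have hf : {p : 𝓞 K × 𝓞 K | p ∈ Bx K X ∧ ∃ (l : Fin 3 → ℝ)
      (M N : Matrix (Fin 3) (Fin 3) (𝓞 K)), Dat X C₂ T p.1 p.2 l M N}.Finite :=
    (hfin X).subset fun p hp => hp.1
  have hsub : {p : 𝓞 K × 𝓞 K | p ∈ Bx K X ∧ Fam q₀ T p.1 p.2 ∧ BadP T p.1 p.2} ⊆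
      {p : 𝓞 K × 𝓞 K | p ∈ Bx K X ∧ ∃ (l : Fin 3 → ℝ)
      (M N : Matrix (Fin 3) (Fin 3) (𝓞 K)), Dat X C₂ T p.1 p.2 l M N} := fun p hp =>
    ⟨hp.1, hdat q₀ T (fun v hv => (hT v hv).2) p.1 p.2 X
      ((le_max_right _ _).trans hX) hp.1 hp.2.1 hp.2.2⟩
  have h1 := Set.ncard_le_ncard hsub hf
  exact_mod_cast h1

end H76PP
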