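import Pool.Agent.H76.PP.Zb
import Pool.Agent.H76.PP.Zc
import Pool.Agent.H76.PP.Tj
import Pool.Agent.H36.PP.Mn
import Pool.Agent.H24.PD.Main

/-!
Assembly of the final theorem, part d: the blocks put together; only the statements of block R2
enter as a hypothesis.
-/

set_option autoImplicit false
set_option linter.unusedSectionVars false
open scoped Classical

open WithZero NumberField IsDedekindDomain H38RT
open H38T1 (SC sc scu rep eo la si Pri OddP tp unif)

namespace H76PP

/-- The statements of all blocks from those of block R2. -/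
theorem blocks_of_HR2 (K : Type) [Field K] [NumberField K]
    (hR : ∀ {A B : 𝓞 K} {L : Type} [Field L] [NumberField L] [Algebra K L] {θ : L},
      Cub K L (A : K) (B : K) θ → 4 * (A : K) ^ 3 + 27 * (B : K) ^ 2 ≠ 0 → HR2 K L A B θ) :
    Blocks K where
  fin := H36PP.Bx_finite K
  up := H36PP.Bx_upper K
  fam := H36PP.fam_lower K
  aux := H36PP.aux_primes K
  tw := fun hJ => H36PP.exists_twist hJ
  bad := bad_count K (H36PP.Bx_finite K)
  sel := by
    intro q₀ T _ hT A B hF hB L _ _ _ θ hL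
    exact sel_of_HR2 hT hF hB hL (hR hL hF.dsc_ne)
  desc := fun hL hS => H24PD.descent hL hS
  cub := fun h => H24PD.exists_cub h
  nr := fun hF x => hF.no_root x
  dn := fun hF => hF.dsc_ne

/-- The final theorem from the statements of block R2. -/
theorem result_of_HR2 (K : Type) [Field K] [NumberField K]
    (hR : ∀ {A B : 𝓞 K} {L : Type} [Field L] [NumberField L] [Algebra K L] {θ : L},
      Cub K L (A : K) (B : K) θ → 4 * (A : K) ^ 3 + 27 * (B : K) ^ 2 ≠ 0 → HR2 K L A B θ) :
    ∃ (c X₀ : ℝ), 0 < c ∧ ∀ X : ℝ, X₀ ≤ X →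
    c * ((Bx K X).ncard : ℝ) ≤
      ({p : 𝓞 K × 𝓞 K | p ∈ Bx K X ∧ 4 * p.1 ^ 3 + 27 * p.2 ^ 2 ≠ 0 ∧
        Finite (⟨0, 0, 0, (p.1 : K), (p.2 : K)⟩ : WeierstrassCurve K).toAffine.Point ∧
        Pool.Agent.H10.Sha2Trivial K (⟨0, 0, 0, (p.1 : K), (p.2 : K)⟩ :
          WeierstrassCurve K)}.ncard : ℝ) :=
  (blocks_of_HR2 K hR).result

end H76PP
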