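import Pool.Agent.H76.PP.Yb
import Pool.Agent.H76.PP.Zd
import Pool.Agent.H54.PR.Fin
import Pool.Agent.H85.PP.Pt

/-!
Assembly of the final theorem, part e: block R2 put in, final theorem.
-/

set_option autoImplicit false
set_option linter.unusedSectionVars false
open scoped Classical

open WithZero NumberField IsDedekindDomain H38RT
open H38T1 (SC sc scu rep eo la si Pri OddP tp unif)

namespace H76PP

/-- The statements of block R2. -/
theorem hr2 {K L : Type} [Field K] [NumberField K] [Field L] [NumberField L] [Algebra K L]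
    {A B : 𝓞 K} {θ : L} (h : Cub K L (A : K) (B : K) θ)
    (hd : 4 * (A : K) ^ 3 + 27 * (B : K) ^ 2 ≠ 0) : HR2 K L A B θ where
  proj := fun hv _ hu _ hc => proj_tame hv hu hc h hd
  iso := by
    intro d d' hd0 hd0' _ _ h2 hr
    exact H54PR.iso_sum' (fun x y hx hy h8 hs => rec_tame hx hy h8 hs)
      (fun x y hx hy h8 hs => rec_tame hx hy h8 hs)
      (fun v hv u hu c hc => proj_tame hv hu hc h hd) h hd0 hd0' h2 hr

/-- Finiteness of the box. -/
theorem Bx_fin (K : Type) [Field K] [NumberField K] (X : ℝ) : (Bx K X).Finite :=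
  H36PP.Bx_finite K X

/-- The final theorem. -/
theorem main (K : Type) [Field K] [NumberField K] : ∃ (c X₀ : ℝ), 0 < c ∧ ∀ X : ℝ, X₀ ≤ X →
    ∃ G : Finset (𝓞 K × 𝓞 K), (∀ p ∈ G, p ∈ Bx K X ∧ GoodE K p) ∧
      (∀ p ∈ G, ∀ q ∈ G, p.1 ^ 3 * q.2 ^ 2 = q.1 ^ 3 * p.2 ^ 2 → p = q) ∧
      c * ((Bx K X).ncard : ℝ) ≤ (G.card : ℝ) :=
  (blocks_of_HR2 K fun h hd => hr2 h hd).result2

end H76PP
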