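import Pool.Agent.H76.PP.Df1

/-!
ROW Ta (project MP_78d38b_PP, about 160 lines): places of `L` above a place of `K`.

PROOF. ord_dn: `e` = ramification index: `v.asIdeal.map = ∏ w^e ..`. Mathlib has results on the valuation of a Dedekind
extension (search `HeightOneSpectrum.valuation_liesOver`, `valuation_comap`, `intValuation` and
`ramificationIdx`; `H38T1.Ed_ord`, `H38T1.Ed_ordq` in `Pool/Agent/H38/T1/Ed.lean` is the case of `ℚ`,
`Pool/Agent/H10/RelVal.lean` another model). Direct proof: let `ϖ ∈ K` be a uniformizer at `v = dn K w`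
(`v.valuation_exists_uniformizer`), `e = ord (w.valuation L) (algebraMap ϖ)`. If `v.valuation K u = 1` then
`w.valuation L u = 1`: `u = a / b` with `a, b ∈ 𝓞 K`, `b ∉ v` (and then `a ∉ v`;
`HeightOneSpectrum.exists_primeCompl_mul_eq_of_integer` or `Ps.lean`), and `a ∉ v.asIdeal = comap w.asIdeal` means
`algebraMap a ∉ w.asIdeal`, so `w.valuation L (algebraMap a) = 1` (`valuation_eq_one_iff_notMem`). For `x ≠ 0`: `x = u ϖ^m`,
`m = ord x`. `e > 0`: multiply `ϖ` by a `v`-unit of `𝓞 K` to get an element of `v.asIdeal`, whose image is in `w.asIdeal`.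
val_le, val_lt, val_one: consequences (for `x = 0` trivial; `v.valuation x = exp (-ord x)` is `H38RT.V_eq`/`Ta_V_eq`).
exists_above: `Ideal.exists_ideal_over_prime_of_isIntegral` (as in `H38T1.exists_above`, `Pool/Agent/H38/T1/Md.lean`).
fin_above: the prime factors of the nonzero ideal `v.asIdeal.map (algebraMap)` (`Ideal.finite_factors`).
-/

set_option autoImplicit false
set_option linter.unusedSectionVars false
open scoped Classical

open WithZero NumberField IsDedekindDomain H38RT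
open H38T1 (SC sc scu rep eo la si Pri OddP tp unif)

namespace H76PP

variable {K L : Type} [Field K] [NumberField K] [Field L] [NumberField L] [Algebra K L]

private theorem Ta_int (x : 𝓞 K) : algebraMap K L (algebraMap (𝓞 K) K x) =
    algebraMap (𝓞 L) L (algebraMap (𝓞 K) (𝓞 L) x) := rfl

private theorem Ta_inj : Function.Injective (algebraMap (𝓞 K) (𝓞 L)) := by
  intro x y h
  have h1 : algebraMap K L (algebraMap (𝓞 K) K x) = algebraMap K L (algebraMap (𝓞 K) K y) := by
    rw [Ta_int, Ta_int, h]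
  exact RingOfIntegers.coe_injective ((algebraMap K L).injective h1)

private theorem Ta_mem (w : HeightOneSpectrum (𝓞 L)) (a : 𝓞 K) :
    a ∈ (dn K w).asIdeal ↔ algebraMap (𝓞 K) (𝓞 L) a ∈ w.asIdeal := Iff.rfl

private theorem Ta_le {w : HeightOneSpectrum (𝓞 L)} {x : K} (h : (dn K w).valuation K x ≤ 1) :
    w.valuation L (algebraMap K L x) ≤ 1 := by
  obtain ⟨n, ⟨d, hd⟩, hnd⟩ := (dn K w).exists_primeCompl_mul_eq_of_integer x h
  have hd' : algebraMap (𝓞 K) (𝓞 L) d ∉ w.asIdeal := fun h' => hd ((Ta_mem w d).2 h')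
  have h1 : w.valuation L (algebraMap (𝓞 L) L (algebraMap (𝓞 K) (𝓞 L) d)) = 1 :=
    (w.valuation_eq_one_iff_notMem (K := L)).2 hd'
  have h2 : w.valuation L (algebraMap (𝓞 L) L (algebraMap (𝓞 K) (𝓞 L) n)) ≤ 1 :=
    w.valuation_le_one _
  have h3 : algebraMap K L x * algebraMap (𝓞 L) L (algebraMap (𝓞 K) (𝓞 L) d) =
      algebraMap (𝓞 L) L (algebraMap (𝓞 K) (𝓞 L) n) := by
    rw [← Ta_int, ← Ta_int, ← map_mul]
    exact congrArg (algebraMap K L) hnd
  rw [← h3, map_mul, h1, mul_one] at h2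
  exact h2

private theorem Ta_one {w : HeightOneSpectrum (𝓞 L)} {x : K} (h : (dn K w).valuation K x = 1) :
    w.valuation L (algebraMap K L x) = 1 := by
  have h1 := Ta_le (w := w) h.le
  have h2 : (dn K w).valuation K x⁻¹ ≤ 1 := by rw [map_inv₀, h, inv_one]
  have h3 := Ta_le (w := w) h2
  have hx : x ≠ 0 := by
    rintro rfl
    rw [map_zero] at h
    exact zero_ne_one h
  have h4 : w.valuation L (algebraMap K L x) * w.valuation L (algebraMap K L x⁻¹) = 1 := by
    rw [← map_mul, ← map_mul, mul_inv_cancel₀ hx, map_one, map_one]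
  refine le_antisymm h1 ?_
  calc (1 : WithZero (Multiplicative ℤ)) =
      w.valuation L (algebraMap K L x) * w.valuation L (algebraMap K L x⁻¹) := h4.symm
    _ ≤ w.valuation L (algebraMap K L x) * 1 := mul_le_mul_right h3 _
    _ = _ := mul_one _

private theorem Ta_unif (w : HeightOneSpectrum (𝓞 L)) : ∃ ϖ : K, ϖ ≠ 0 ∧
    (dn K w).valuation K ϖ = exp (-1 : ℤ) ∧ w.valuation L (algebraMap K L ϖ) < 1 := by
  obtain ⟨r, hr⟩ := (dn K w).valuation_exists_uniformizer' K
  refine ⟨algebraMap (𝓞 K) K r, ?_, hr, ?_⟩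
  · intro h0
    have h1 : (dn K w).valuation K (algebraMap (𝓞 K) K r) = exp (-1 : ℤ) := hr
    rw [h0, map_zero] at h1
    exact exp_ne_zero h1.symm
  · have h1 : (dn K w).valuation K (algebraMap (𝓞 K) K r) < 1 := by
      have h2 : (dn K w).valuation K (algebraMap (𝓞 K) K r) = exp (-1 : ℤ) := hr
      rw [h2, ← exp_zero, exp_lt_exp]
      norm_num
    have h3 : r ∈ (dn K w).asIdeal := ((dn K w).valuation_lt_one_iff_mem (K := K) r).1 h1
    rw [Ta_int]
    exact (w.valuation_lt_one_iff_mem (K := L) _).2 ((Ta_mem w r).1 h3)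

private theorem Ta_eq {F : Type} [Field F] {V : Valuation F (WithZero (Multiplicative ℤ))} {x : F}
    (hx : x ≠ 0) : V x = exp (- ord V x) := by
  unfold ord
  rw [neg_neg, exp_log ((Valuation.ne_zero_iff V).2 hx)]

theorem ord_dn (w : HeightOneSpectrum (𝓞 L)) : ∃ e : ℕ, 0 < e ∧ ∀ x : K, x ≠ 0 →
    ord (w.valuation L) (algebraMap K L x) = e * ord ((dn K w).valuation K) x := by
  obtain ⟨ϖ, h0, h1, h2⟩ := Ta_unif (K := K) w
  have hL0 : algebraMap K L ϖ ≠ 0 := fun h => h0 ((algebraMap K L).injective (by rw [h, map_zero]))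
  have hw0 : w.valuation L (algebraMap K L ϖ) ≠ 0 := (Valuation.ne_zero_iff _).2 hL0
  have hpos : 0 < ord (w.valuation L) (algebraMap K L ϖ) := by
    unfold ord
    rw [← exp_zero, ← log_lt_iff_lt_exp hw0] at h2
    omega
  obtain ⟨e, he⟩ := Int.eq_ofNat_of_zero_le hpos.le
  refine ⟨e, by omega, ?_⟩
  intro x hx
  obtain ⟨m, hm⟩ : ∃ m : ℤ, m = ord ((dn K w).valuation K) x := ⟨_, rfl⟩
  have hϖm : ϖ ^ m ≠ 0 := zpow_ne_zero m h0
  have h3 : (dn K w).valuation K (x / ϖ ^ m) = 1 := by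
    rw [map_div₀, map_zpow₀, h1, Ta_eq (V := (dn K w).valuation K) hx, ← hm]
    have h4 : (exp (-1 : ℤ) : WithZero (Multiplicative ℤ)) ^ m = exp (-m) := by
      rw [← exp_zsmul]
      congr 1
      simp
    rw [h4, div_self exp_ne_zero]
  have h5 := Ta_one (w := w) h3
  rw [map_div₀, map_div₀, map_zpow₀, map_zpow₀,
    div_eq_one_iff_eq (zpow_ne_zero m hw0)] at h5
  rw [← hm, ← he]
  unfold ord
  rw [h5, log_zpow, smul_eq_mul]
  ring

theorem val_le {w : HeightOneSpectrum (𝓞 L)} {x : K} (h : (dn K w).valuation K x ≤ 1) :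
    w.valuation L (algebraMap K L x) ≤ 1 := by
  exact Ta_le h

theorem val_lt {w : HeightOneSpectrum (𝓞 L)} {x : K} (h : (dn K w).valuation K x < 1) :
    w.valuation L (algebraMap K L x) < 1 := by
  obtain ⟨ϖ, h0, h1, h2⟩ := Ta_unif (K := K) w
  have hL0 : algebraMap K L ϖ ≠ 0 := fun h => h0 ((algebraMap K L).injective (by rw [h, map_zero]))
  by_cases hx : x = 0
  · rw [hx, map_zero, map_zero]
    exact zero_lt_one
  have h3 : (dn K w).valuation K (x / ϖ) ≤ 1 := by
    rw [map_div₀, h1, Ta_eq (V := (dn K w).valuation K) hx, ← exp_sub, ← exp_zero, exp_le_exp]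
    rw [Ta_eq (V := (dn K w).valuation K) hx, ← exp_zero, exp_lt_exp] at h
    omega
  have h4 := Ta_le (w := w) h3
  have h5 : algebraMap K L x = algebraMap K L (x / ϖ) * algebraMap K L ϖ := by
    rw [← map_mul, div_mul_cancel₀ x h0]
  rw [h5, map_mul]
  calc w.valuation L (algebraMap K L (x / ϖ)) * w.valuation L (algebraMap K L ϖ) ≤
      1 * w.valuation L (algebraMap K L ϖ) := mul_le_mul_left h4 _
    _ = w.valuation L (algebraMap K L ϖ) := one_mul _
    _ < 1 := h2

theorem val_one {w : HeightOneSpectrum (𝓞 L)} {x : K} (h : (dn K w).valuation K x = 1) :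
    w.valuation L (algebraMap K L x) = 1 := by
  exact Ta_one h

theorem val_exp_le {w : HeightOneSpectrum (𝓞 L)} {x : K} {m : ℤ} (hm : 0 ≤ m)
    (h : (dn K w).valuation K x ≤ exp (-m)) : w.valuation L (algebraMap K L x) ≤ exp (-m) := by
  by_cases hx : x = 0
  · rw [hx, map_zero, map_zero]
    exact zero_le
  obtain ⟨e, he, h1⟩ := ord_dn (K := K) w
  have hL0 : algebraMap K L x ≠ 0 := fun h => hx ((algebraMap K L).injective (by rw [h, map_zero]))
  rw [Ta_eq (V := (dn K w).valuation K) hx, exp_le_exp] at h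
  rw [Ta_eq (V := w.valuation L) hL0, exp_le_exp, h1 x hx]
  have he' : (1 : ℤ) ≤ e := by exact_mod_cast he
  nlinarith

theorem oddP_dn {w : HeightOneSpectrum (𝓞 L)} : OddP w ↔ OddP (dn K w) := by
  have h2 : algebraMap K L (2 : K) = 2 := map_ofNat _ 2
  unfold OddP
  constructor
  · intro h
    by_contra h1
    have h3 : (dn K w).valuation K (2 : K) ≤ 1 := by
      have h4 : (dn K w).valuation K (algebraMap (𝓞 K) K 2) ≤ 1 :=
        (dn K w).valuation_le_one (K := K) (2 : 𝓞 K)
      have h5 : algebraMap (𝓞 K) K 2 = 2 := map_ofNat (algebraMap (𝓞 K) K) 2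
      rwa [h5] at h4
    have h6 := val_lt (w := w) (lt_of_le_of_ne h3 h1)
    rw [h2, h] at h6
    exact lt_irrefl _ h6
  · intro h
    have h3 := Ta_one (w := w) h
    rwa [h2] at h3

theorem exists_above (v : HeightOneSpectrum (𝓞 K)) :
    ∃ w : HeightOneSpectrum (𝓞 L), dn K w = v := by
  have hp := v.isPrime
  obtain ⟨Q, -, hQ, hQc⟩ := Ideal.exists_ideal_over_prime_of_isIntegral (S := 𝓞 L) v.asIdeal ⊥ (by
    intro x hx
    rw [Ideal.mem_comap, Ideal.mem_bot] at hx
    have h1 : x = 0 := Ta_inj (L := L) (by rw [hx, map_zero])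
    rw [h1]
    exact v.asIdeal.zero_mem)
  refine ⟨⟨Q, hQ, ?_⟩, ?_⟩
  · rintro rfl
    apply v.ne_bot
    rw [← hQc, eq_bot_iff]
    intro x hx
    rw [Ideal.mem_comap, Ideal.mem_bot] at hx
    exact Ta_inj (L := L) (by rw [hx, map_zero])
  · apply HeightOneSpectrum.ext
    exact hQc

theorem fin_above (v : HeightOneSpectrum (𝓞 K)) :
    {w : HeightOneSpectrum (𝓞 L) | dn K w = v}.Finite := by
  have hb : v.asIdeal.map (algebraMap (𝓞 K) (𝓞 L)) ≠ 0 := by
    intro h
    exact v.ne_bot ((Ideal.map_eq_bot_iff_of_injective (Ta_inj (K := K) (L := L))).1 h)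
  refine (Ideal.finite_factors hb).subset ?_
  intro w hw
  have hw' : dn K w = v := hw
  show w.asIdeal ∣ _
  rw [Ideal.dvd_iff_le, Ideal.map_le_iff_le_comap, ← hw']
  exact le_rfl

end H76PP
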