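import Pool.Agent.H76.PP.La

/-! ROW Lb (project MP_78d38b_PP): number of integers in a box. -/

set_option autoImplicit false
open scoped Classical

open NumberField IsDedekindDomain

namespace H76PP

variable (K : Type) [Field K] [NumberField K]

theorem Lb_inj : Function.Injective
    (fun (a : 𝓞 K) => (fun i => (RingOfIntegers.basis K).repr a i)) := by
  intro a b h
  apply (RingOfIntegers.basis K).repr.injective
  ext i
  exact congrFun h i

theorem Lb_card :
    Fintype.card (Module.Free.ChooseBasisIndex ℤ (𝓞 K)) = Module.finrank ℚ K := by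
  rw [← Module.finrank_eq_card_chooseBasisIndex, RingOfIntegers.rank]

/-- integer vectors in a box -/
noncomputable def Lb_set (M : ℤ) : Finset (Module.Free.ChooseBasisIndex ℤ (𝓞 K) → ℤ) :=
  Fintype.piFinset (fun _ => Finset.Icc (-M) M)

theorem Lb_setcard {M : ℤ} (hM : 0 ≤ M) :
    ((Lb_set K M).card : ℝ) = (2 * (M : ℝ) + 1) ^ (Module.finrank ℚ K) := by
  have h1 : (((M + 1 - -M).toNat : ℕ) : ℝ) = 2 * (M : ℝ) + 1 := by
    have h2 : (((M + 1 - -M).toNat : ℕ) : ℤ) = 2 * M + 1 := by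
      rw [Int.toNat_of_nonneg (by omega)]
      ring
    exact_mod_cast h2
  unfold Lb_set
  rw [Fintype.card_piFinset, Finset.prod_const, Finset.card_univ, Lb_card, Int.card_Icc,
    Nat.cast_pow, h1]

theorem Lb_box {C : ℝ} (hC : ∀ (a : 𝓞 K) (T : ℝ), a ∈ bx K T →
    ∀ i, |((RingOfIntegers.basis K).repr a i : ℝ)| ≤ C * T) {T : ℝ} {a : 𝓞 K} (ha : a ∈ bx K T) :
    (fun i => (RingOfIntegers.basis K).repr a i) ∈ Lb_set K ⌊C * T⌋ := by
  unfold Lb_set
  rw [Fintype.mem_piFinset]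
  intro i
  have h := abs_le.1 (hC a T ha i)
  rw [Finset.mem_Icc]
  constructor
  · have h2 : -((RingOfIntegers.basis K).repr a i) ≤ ⌊C * T⌋ := by
      refine Int.le_floor.2 ?_
      rw [Int.cast_neg]
      linarith [h.1]
    omega
  · exact Int.le_floor.2 h.2

theorem bx_finite (T : ℝ) : (bx K T).Finite := by
  obtain ⟨C, hC1, hC, -⟩ := coord K
  refine Set.Finite.subset (Set.Finite.preimage ((Lb_inj K).injOn)
    (Finset.finite_toSet (Lb_set K ⌊C * T⌋))) ?_
  intro a ha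
  exact Finset.mem_coe.2 (Lb_box K hC ha)

theorem bx_lower : ∃ c : ℝ, 0 < c ∧ ∀ T : ℝ, 0 ≤ T →
    c * T ^ (Module.finrank ℚ K) ≤ ((bx K T).ncard : ℝ) := by
  obtain ⟨C, hC1, -, hC⟩ := coord K
  have hC0 : 0 < C := by linarith
  refine ⟨(1 / C) ^ (Module.finrank ℚ K), by positivity, fun T hT => ?_⟩
  obtain ⟨t, ht⟩ : ∃ t : ℝ, t = T / C := ⟨_, rfl⟩
  have ht0 : 0 ≤ t := by rw [ht]; positivity
  have hCt : C * t = T := by rw [ht]; field_simp
  have hM0 : 0 ≤ ⌊t⌋ := Int.floor_nonneg.2 ht0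
  have h1 : ∀ m ∈ Lb_set K ⌊t⌋, (RingOfIntegers.basis K).equivFun.symm m ∈ bx K T := by
    intro m hm
    rw [← hCt]
    apply hC
    intro i
    have h2 : (RingOfIntegers.basis K).repr ((RingOfIntegers.basis K).equivFun.symm m) i = m i := by
      have h3 := congrFun ((RingOfIntegers.basis K).equivFun.apply_symm_apply m) i
      rwa [Module.Basis.equivFun_apply] at h3
    rw [h2]
    unfold Lb_set at hm
    rw [Fintype.mem_piFinset] at hm
    have h4 := Finset.mem_Icc.1 (hm i)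
    have h5 : ((⌊t⌋ : ℤ) : ℝ) ≤ t := Int.floor_le t
    have h6 : ((-⌊t⌋ : ℤ) : ℝ) ≤ (m i : ℝ) := by exact_mod_cast h4.1
    have h7 : ((m i : ℤ) : ℝ) ≤ ((⌊t⌋ : ℤ) : ℝ) := by exact_mod_cast h4.2
    rw [Int.cast_neg] at h6
    rw [abs_le]
    constructor
    · linarith
    · linarith
  have h2 : (Lb_set K ⌊t⌋).card ≤ (bx K T).ncard := by
    rw [← Set.ncard_coe_finset]
    refine Set.ncard_le_ncard_of_injOn (fun m => (RingOfIntegers.basis K).equivFun.symm m) ?_ ?_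
      (bx_finite K T)
    · intro m hm
      exact h1 m (Finset.mem_coe.1 hm)
    · intro m _ m' _ h
      exact (RingOfIntegers.basis K).equivFun.symm.injective h
  have h3 : ((Lb_set K ⌊t⌋).card : ℝ) ≤ ((bx K T).ncard : ℝ) := by exact_mod_cast h2
  rw [Lb_setcard K hM0] at h3
  refine le_trans ?_ h3
  rw [← mul_pow]
  have h4 : 1 / C * T = t := by rw [ht]; ring
  rw [h4]
  refine pow_le_pow_left₀ ht0 ?_ _
  have h5 := Int.lt_floor_add_one t
  have h6 : (0 : ℝ) ≤ (⌊t⌋ : ℝ) := by exact_mod_cast hM0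
  linarith

theorem bx_upper : ∃ C : ℝ, 1 ≤ C ∧ ∀ T : ℝ, 1 ≤ T →
    ((bx K T).ncard : ℝ) ≤ C * T ^ (Module.finrank ℚ K) := by
  obtain ⟨C, hC1, hC, -⟩ := coord K
  refine ⟨(3 * C) ^ (Module.finrank ℚ K), one_le_pow₀ (by linarith), fun T hT => ?_⟩
  have hCT : 1 ≤ C * T := by
    have := mul_le_mul hC1 hT zero_le_one (by linarith)
    linarith
  have hM0 : 0 ≤ ⌊C * T⌋ := Int.floor_nonneg.2 (by linarith)
  have h1 : (bx K T).ncard ≤ (Lb_set K ⌊C * T⌋).card := by
    rw [← Set.ncard_coe_finset]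
    exact Set.ncard_le_ncard_of_injOn (fun (a : 𝓞 K) => (fun i => (RingOfIntegers.basis K).repr a i))
      (fun a ha => Finset.mem_coe.2 (Lb_box K hC ha)) ((Lb_inj K).injOn)
      (Finset.finite_toSet (Lb_set K ⌊C * T⌋))
  have h2 : ((bx K T).ncard : ℝ) ≤ ((Lb_set K ⌊C * T⌋).card : ℝ) := by exact_mod_cast h1
  refine h2.trans ?_
  rw [Lb_setcard K hM0, ← mul_pow]
  have h3 : (0 : ℝ) ≤ (⌊C * T⌋ : ℝ) := by exact_mod_cast hM0
  have h4 := Int.floor_le (C * T)
  refine pow_le_pow_left₀ (by linarith) ?_ _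
  linarith

end H76PP
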