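import Pool.Agent.H76.PP.Ya

/-!
Counting up to isomorphism, part b: the final theorem from the statements of the blocks, with curves
which have pairwise different `j`-invariants.
-/

set_option autoImplicit false
set_option linter.unusedSectionVars false
open scoped Classical

open WithZero NumberField IsDedekindDomain

namespace H76PP

variable {K : Type} [Field K] [NumberField K]

/-- A finite set of members of the family without small conjugates of `A` contains a large subset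
of members with pairwise different `j`-invariants. -/
theorem exists_sub (K : Type) [Field K] [NumberField K] {ε : ℝ} (hε : 0 < ε) (hε1 : ε ≤ 1) :
    ∃ M : ℕ, ∀ (q₀ : HeightOneSpectrum (𝓞 K)) (T : Finset (HeightOneSpectrum (𝓞 K))) (X : ℝ),
      0 < X → ∀ S : Finset (𝓞 K × 𝓞 K), (∀ p ∈ S, p ∈ Bx K X ∧ Fam q₀ T p.1 p.2 ∧
        ∀ s : K →+* ℂ, ε * X ^ 2 ≤ ‖s (p.1 : K)‖) → ∃ G ⊆ S, S.card ≤ M * G.card ∧
          ∀ p ∈ G, ∀ q ∈ G, p.1 ^ 3 * q.2 ^ 2 = q.1 ^ 3 * p.2 ^ 2 → p = q := by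
  refine ⟨(bx_finite K (1 / ε)).toFinset.card, fun q₀ T X hX S hS => ?_⟩
  set φ : 𝓞 K × 𝓞 K → K := fun p => (p.1 : K) ^ 3 / (p.2 : K) ^ 2 with hφ
  have hφ1 : ∀ p ∈ S, ∀ q ∈ S, φ p = φ q ↔ p.1 ^ 3 * q.2 ^ 2 = q.1 ^ 3 * p.2 ^ 2 := by
    intro p hp q hq
    have h1 : (p.2 : K) ≠ 0 := RingOfIntegers.coe_ne_zero_iff.2 (hS p hp).2.1.ne'
    have h2 : (q.2 : K) ≠ 0 := RingOfIntegers.coe_ne_zero_iff.2 (hS q hq).2.1.ne'
    rw [hφ]
    beta_reduce
    rw [div_eq_div_iff (pow_ne_zero 2 h1) (pow_ne_zero 2 h2)]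
    constructor
    · intro h
      apply RingOfIntegers.coe_injective
      simp only [map_mul, map_pow]
      exact h
    · intro h
      have h3 := congrArg (algebraMap (𝓞 K) K) h
      simp only [map_mul, map_pow] at h3
      exact h3
  have hfib : ∀ b ∈ S.image φ, (S.filter fun a => φ a = b).card ≤
      (bx_finite K (1 / ε)).toFinset.card := by
    intro b hb
    obtain ⟨p, hp, rfl⟩ := Finset.mem_image.1 hb
    have htw : ∀ q : 𝓞 K × 𝓞 K, ∃ t : 𝓞 K, q ∈ S → φ q = φ p →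
        q.1 = t ^ 2 * p.1 ∧ q.2 = t ^ 3 * p.2 := by
      intro q
      by_cases hq : q ∈ S ∧ φ q = φ p
      · obtain ⟨t, ht⟩ := (hS p hp).2.1.same_j (hS q hq.1).2.1 ((hφ1 p hp q hq.1).1 hq.2.symm)
        exact ⟨t, fun _ _ => ht⟩
      · exact ⟨0, fun h h' => absurd ⟨h, h'⟩ hq⟩
    choose t ht using htw
    refine Finset.card_le_card_of_injOn t ?_ ?_
    · intro q hq
      rw [Finset.mem_coe, Finset.mem_filter] at hq
      rw [Finset.mem_coe, Set.Finite.mem_toFinset]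
      intro s
      obtain ⟨h1, -⟩ := ht q hq.1 hq.2
      have h2 : s (q.1 : K) = s ((t q : 𝓞 K) : K) ^ 2 * s (p.1 : K) := by
        have h3 := congrArg (algebraMap (𝓞 K) K) h1
        rw [map_mul, map_pow] at h3
        have h4 := congrArg s h3
        rw [map_mul, map_pow] at h4
        exact h4
      have h5 := (hS q hq.1).1.1 s
      have h6 := (hS p hp).2.2 s
      rw [h2, norm_mul, norm_pow] at h5
      set y := ‖s ((t q : 𝓞 K) : K)‖ with hy
      have hy0 : 0 ≤ y := norm_nonneg _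
      have h7 : y ^ 2 * (ε * X ^ 2) ≤ X ^ 2 :=
        (mul_le_mul_of_nonneg_left h6 (by positivity)).trans h5
      have h8 : y ^ 2 * ε ≤ 1 := by
        have hX2 : 0 < X ^ 2 := by positivity
        by_contra hcon
        rw [not_le] at hcon
        nlinarith
      have h9 : (ε * y) ^ 2 ≤ 1 := by
        have h10 : (ε * y) ^ 2 = ε * (y ^ 2 * ε) := by ring
        rw [h10]
        nlinarith
      have h11 : ε * y ≤ 1 := by
        have h12 : 0 ≤ ε * y := by positivity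
        nlinarith
      rw [le_div_iff₀ hε, mul_comm]
      exact h11
    · intro q hq q' hq' h
      rw [Finset.mem_coe, Finset.mem_filter] at hq hq'
      obtain ⟨h1, h2⟩ := ht q hq.1 hq.2
      obtain ⟨h3, h4⟩ := ht q' hq'.1 hq'.2
      rw [h] at h1 h2
      exact Prod.ext (h1.trans h3.symm) (h2.trans h4.symm)
  have hcard := Finset.card_le_mul_card_image S _ hfib
  have hsurj : Set.SurjOn φ (S : Set (𝓞 K × 𝓞 K)) ((S.image φ : Finset K) : Set K) := by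
    intro b hb
    rw [Finset.mem_coe, Finset.mem_image] at hb
    obtain ⟨p, hp, hpb⟩ := hb
    exact ⟨p, hp, hpb⟩
  obtain ⟨G, hGS, hGinj, hGim⟩ :=
    Finset.exists_subset_injOn_image_eq_of_surjOn (S : Set (𝓞 K × 𝓞 K)) (S.image φ) hsurj
  have hGS' : G ⊆ S := fun p hp => by exact_mod_cast hGS (Finset.mem_coe.2 hp)
  refine ⟨G, hGS', ?_, ?_⟩
  · rw [← hGim, Finset.card_image_of_injOn hGinj] at hcard
    exact hcard
  · intro p hp q hq h
    exact hGinj (Finset.mem_coe.2 hp) (Finset.mem_coe.2 hq) ((hφ1 p (hGS' hp) q (hGS' hq)).2 h)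

/-- The final theorem from the statements of the blocks, with pairwise different `j`-invariants. -/
theorem Blocks.result2 (H : Blocks K) : ∃ (c X₀ : ℝ), 0 < c ∧ ∀ X : ℝ, X₀ ≤ X →
    ∃ G : Finset (𝓞 K × 𝓞 K), (∀ p ∈ G, p ∈ Bx K X ∧ GoodE K p) ∧
      (∀ p ∈ G, ∀ q ∈ G, p.1 ^ 3 * q.2 ^ 2 = q.1 ^ 3 * p.2 ^ 2 → p = q) ∧
      c * ((Bx K X).ncard : ℝ) ≤ (G.card : ℝ) := by
  obtain ⟨q₀, T, c, X₀, h6, hT, hc, hmain⟩ := H.main
  obtain ⟨C, hC, hup⟩ := H.up
  obtain ⟨ε, X₁, hε, hε1, hsmall⟩ := H.small (δ := c / 2) (by positivity)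
  obtain ⟨M, hM⟩ := exists_sub K hε hε1
  have hT' : ∀ v ∈ T, v ≠ q₀ ∧ (6 : 𝓞 K) ∉ v.asIdeal := fun v hv => ⟨(hT v hv).2.1, (hT v hv).1⟩
  -- the twisting factors
  have htw : ∀ J : Finset (HeightOneSpectrum (𝓞 K)), ∃ D : 𝓞 K, J ⊆ T → TwD q₀ J (D : K) := by
    intro J
    by_cases hJ : J ⊆ T
    · obtain ⟨D, hD⟩ := H.tw (fun p hp => hT p (hJ hp))
      exact ⟨D, fun _ => hD⟩
    · exact ⟨0, fun h => absurd h hJ⟩
  choose D hD using htw
  choose t ht using fun J => exists_bx (D J)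
  set κ : ℝ := 1 + ∑ J ∈ T.powerset, |t J| with hκ
  have hκ1 : 1 ≤ κ := by
    have : 0 ≤ ∑ J ∈ T.powerset, |t J| := Finset.sum_nonneg fun _ _ => abs_nonneg _
    linarith
  have hκD : ∀ J ⊆ T, D J ∈ bx K κ := by
    intro J hJ
    refine bx_mono ?_ (ht J)
    have h1 : |t J| ≤ ∑ J ∈ T.powerset, |t J| :=
      Finset.single_le_sum (f := fun J => |t J|) (fun _ _ => abs_nonneg _)
        (Finset.mem_powerset.2 hJ)
    have := le_abs_self (t J)
    linarith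
  set n := Module.finrank ℚ K with hn
  refine ⟨(c / 2) / ((M + 1) * (2 ^ T.card * (C * κ ^ (5 * n)))), κ * max (max X₀ X₁) 1,
    by positivity, ?_⟩
  intro Y hY
  set X := Y / κ with hXdef
  have hκ0 : 0 < κ := by linarith
  have hYX : Y = κ * X := by rw [hXdef]; field_simp
  have hX : max (max X₀ X₁) 1 ≤ X := by
    rw [hXdef, le_div_iff₀ hκ0, mul_comm]
    exact hY
  have hX0 : X₀ ≤ X := (le_max_left _ _).trans ((le_max_left _ _).trans hX)
  have hX1' : X₁ ≤ X := (le_max_right _ _).trans ((le_max_left _ _).trans hX)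
  have hX1 : 1 ≤ X := (le_max_right _ _).trans hX
  have hY1 : 1 ≤ Y := by rw [hYX]; nlinarith
  -- the good pairs without small conjugates and the choice of the twisting factor
  set G₀ : Set (𝓞 K × 𝓞 K) := {p | p ∈ Bx K X ∧ Fam q₀ T p.1 p.2 ∧ ¬ BadP T p.1 p.2} with hG₀
  set G : Set (𝓞 K × 𝓞 K) := {p | p ∈ G₀ ∧ ∀ s : K →+* ℂ, ε * X ^ 2 ≤ ‖s (p.1 : K)‖} with hG
  have hG₀fin : G₀.Finite := (H.fin X).subset fun p hp => hp.1
  have hGfin : G.Finite := hG₀fin.subset fun p hp => hp.1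
  have hGcard : c / 2 * X ^ (5 * n) ≤ (G.ncard : ℝ) := by
    have h1 := hmain X hX0
    have h2 := hsmall X hX1'
    have hsfin : {p : 𝓞 K × 𝓞 K | p ∈ Bx K X ∧
        ∃ s : K →+* ℂ, ‖s (p.1 : K)‖ < ε * X ^ 2}.Finite := (H.fin X).subset fun p hp => hp.1
    have h3 : G₀ ⊆ G ∪ {p : 𝓞 K × 𝓞 K | p ∈ Bx K X ∧
        ∃ s : K →+* ℂ, ‖s (p.1 : K)‖ < ε * X ^ 2} := by
      intro p hp
      by_cases h4 : ∀ s : K →+* ℂ, ε * X ^ 2 ≤ ‖s (p.1 : K)‖
      · exact Or.inl ⟨hp, h4⟩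
      · push Not at h4
        exact Or.inr ⟨hp.1, h4⟩
    have h5 := (Set.ncard_le_ncard h3 (hGfin.union hsfin)).trans (Set.ncard_union_le _ _)
    have h6 : (G₀.ncard : ℝ) ≤ (G.ncard : ℝ) + ({p : 𝓞 K × 𝓞 K | p ∈ Bx K X ∧
        ∃ s : K →+* ℂ, ‖s (p.1 : K)‖ < ε * X ^ 2}.ncard : ℝ) := by exact_mod_cast h5
    have h7 : c * X ^ (5 * n) = c / 2 * X ^ (5 * n) + c / 2 * X ^ (5 * n) := by ring
    linarith
  have hJ : ∀ p : 𝓞 K × 𝓞 K, ∃ J : Finset (HeightOneSpectrum (𝓞 K)), p ∈ G →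
      J ⊆ T ∧ GoodE K (D J ^ 2 * p.1, D J ^ 3 * p.2) := by
    intro p
    by_cases hp : p ∈ G
    · obtain ⟨J, hJ, h1⟩ := H.good h6 hT' hp.1.2.1 hp.1.2.2
      exact ⟨J, fun _ => ⟨hJ, h1 (D J) (hD J hJ)⟩⟩
    · exact ⟨∅, fun h => absurd h hp⟩
  choose J hJ using hJ
  -- pigeonhole
  have hpig : ∃ J₀ ∈ T.powerset, (G.ncard : ℝ) ≤
      2 ^ T.card * ({p ∈ hGfin.toFinset | J p = J₀}.card : ℝ) := by
    by_contra hcon
    push Not at hcon
    have h1 : hGfin.toFinset.card = ∑ J₀ ∈ T.powerset, {p ∈ hGfin.toFinset | J p = J₀}.card := by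
      refine Finset.card_eq_sum_card_fiberwise fun p hp => ?_
      exact Finset.mem_coe.2 (Finset.mem_powerset.2 (hJ p (by simpa using hp)).1)
    have h2 : (G.ncard : ℝ) = ∑ J₀ ∈ T.powerset,
        ({p ∈ hGfin.toFinset | J p = J₀}.card : ℝ) := by
      rw [Set.ncard_eq_toFinset_card G hGfin, h1]
      push_cast
      rfl
    have h3 : (2 : ℝ) ^ T.card * ∑ J₀ ∈ T.powerset, ({p ∈ hGfin.toFinset | J p = J₀}.card : ℝ) <
        ∑ J₀ ∈ T.powerset, (G.ncard : ℝ) := by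
      rw [Finset.mul_sum]
      exact Finset.sum_lt_sum_of_nonempty ⟨∅, Finset.empty_mem_powerset _⟩ hcon
    rw [← h2, Finset.sum_const, Finset.card_powerset, nsmul_eq_mul] at h3
    push_cast at h3
    exact lt_irrefl _ h3
  obtain ⟨J₀, hJ₀, hcard⟩ := hpig
  rw [Finset.mem_powerset] at hJ₀
  obtain ⟨G₁, hG₁, hcard₁, hinj₁⟩ := hM q₀ T X (by linarith)
    ({p ∈ hGfin.toFinset | J p = J₀}) (by
      intro p hp
      rw [Finset.mem_filter, Set.Finite.mem_toFinset] at hp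
      exact ⟨hp.1.1.1, hp.1.1.2.1, hp.1.2⟩)
  -- the injection
  have hD0 : D J₀ ≠ 0 := by
    intro h0
    apply (hD J₀ hJ₀).ne
    rw [h0]
    exact map_zero (algebraMap (𝓞 K) K)
  have hi : Set.InjOn (fun p : 𝓞 K × 𝓞 K => (D J₀ ^ 2 * p.1, D J₀ ^ 3 * p.2)) (G₁ : Set _) := by
    intro p _ p' _ hpp
    simp only [Prod.mk.injEq] at hpp
    exact Prod.ext (mul_left_cancel₀ (pow_ne_zero 2 hD0) hpp.1)
      (mul_left_cancel₀ (pow_ne_zero 3 hD0) hpp.2)
  refine ⟨G₁.image (fun p => (D J₀ ^ 2 * p.1, D J₀ ^ 3 * p.2)), ?_, ?_, ?_⟩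
  · intro q hq
    rw [Finset.mem_image] at hq
    obtain ⟨p, hp, rfl⟩ := hq
    have hp' := hG₁ hp
    rw [Finset.mem_filter, Set.Finite.mem_toFinset] at hp'
    obtain ⟨hpG, hpJ⟩ := hp'
    have h2 := hJ p hpG
    rw [hpJ] at h2
    refine ⟨⟨?_, ?_⟩, h2.2⟩
    · rw [hYX]
      exact bx_int_mul (hκD J₀ hJ₀) hpG.1.1.1
    · rw [hYX]
      exact bx_int_mul3 (hκD J₀ hJ₀) hpG.1.1.2
  · intro q hq q' hq' h
    rw [Finset.mem_image] at hq hq'
    obtain ⟨p, hp, rfl⟩ := hq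
    obtain ⟨p', hp', rfl⟩ := hq'
    have h1 : p = p' := by
      refine hinj₁ p hp p' hp' ?_
      have h2 : D J₀ ^ 12 * (p.1 ^ 3 * p'.2 ^ 2) = D J₀ ^ 12 * (p'.1 ^ 3 * p.2 ^ 2) := by
        change (D J₀ ^ 2 * p.1) ^ 3 * (D J₀ ^ 3 * p'.2) ^ 2 =
          (D J₀ ^ 2 * p'.1) ^ 3 * (D J₀ ^ 3 * p.2) ^ 2 at h
        linear_combination h
      exact mul_left_cancel₀ (pow_ne_zero 12 hD0) h2
    rw [h1]
  · rw [Finset.card_image_of_injOn hi]
    have h2 := hup Y hY1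
    have hpow : Y ^ (5 * n) = κ ^ (5 * n) * X ^ (5 * n) := by rw [hYX, mul_pow]
    have h3 : (({p ∈ hGfin.toFinset | J p = J₀}.card : ℕ) : ℝ) ≤ (M + 1) * (G₁.card : ℝ) := by
      have h4 : (({p ∈ hGfin.toFinset | J p = J₀}.card : ℕ) : ℝ) ≤ M * (G₁.card : ℝ) := by
        exact_mod_cast hcard₁
      have h5 : (0 : ℝ) ≤ (G₁.card : ℝ) := Nat.cast_nonneg _
      linarith
    calc (c / 2) / ((M + 1) * (2 ^ T.card * (C * κ ^ (5 * n)))) * ((Bx K Y).ncard : ℝ)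
        ≤ (c / 2) / ((M + 1) * (2 ^ T.card * (C * κ ^ (5 * n)))) * (C * Y ^ (5 * n)) :=
          mul_le_mul_of_nonneg_left h2 (by positivity)
      _ = (c / 2 * X ^ (5 * n)) / 2 ^ T.card / (M + 1) := by
          rw [hpow]
          field_simp
      _ ≤ (G.ncard : ℝ) / 2 ^ T.card / (M + 1) := by
          refine div_le_div_of_nonneg_right (div_le_div_of_nonneg_right hGcard (by positivity))
            (by positivity)
      _ ≤ ({p ∈ hGfin.toFinset | J p = J₀}.card : ℝ) / (M + 1) := by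
          refine div_le_div_of_nonneg_right ?_ (by positivity)
          rw [div_le_iff₀ (by positivity), mul_comm]
          exact hcard
      _ ≤ (G₁.card : ℝ) := by
          rw [div_le_iff₀ (by positivity), mul_comm]
          exact h3

end H76PP
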