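import Pool.Agent.H76.PP.Za

/-!
Assembly of the final theorem, part b: the pigeonhole argument of section 10 from the statements of
the four blocks.
-/

set_option autoImplicit false
set_option linter.unusedSectionVars false
open scoped Classical

open WithZero NumberField IsDedekindDomain H38RT
open H38T1 (SC sc scu rep eo la si Pri OddP tp unif)

namespace H76PP

/-- The curve attached to `p` is elliptic, has finitely many points and no two-primary Tate-Shafarevich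
group. -/
def GoodE (K : Type) [Field K] [NumberField K] (p : 𝓞 K × 𝓞 K) : Prop :=
  4 * p.1 ^ 3 + 27 * p.2 ^ 2 ≠ 0 ∧
    Finite (⟨0, 0, 0, (p.1 : K), (p.2 : K)⟩ : WeierstrassCurve K).toAffine.Point ∧
    Pool.Agent.H10.Sha2Trivial K (⟨0, 0, 0, (p.1 : K), (p.2 : K)⟩ : WeierstrassCurve K)

/-- The statements of the blocks. -/
structure Blocks (K : Type) [Field K] [NumberField K] : Prop where
  fin : ∀ X : ℝ, (Bx K X).Finite
  up : ∃ C : ℝ, 0 < C ∧ ∀ X : ℝ, 1 ≤ X →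
    ((Bx K X).ncard : ℝ) ≤ C * X ^ (5 * Module.finrank ℚ K)
  fam : ∀ q₀ : HeightOneSpectrum (𝓞 K), (6 : 𝓞 K) ∉ q₀.asIdeal →
    ∃ c : ℝ, 0 < c ∧ ∀ T : Finset (HeightOneSpectrum (𝓞 K)),
      (∀ v ∈ T, v ≠ q₀ ∧ (6 : 𝓞 K) ∉ v.asIdeal) → ∃ X₀ : ℝ, ∀ X : ℝ, X₀ ≤ X →
        c * (∏ v ∈ T, (1 / 2 * (1 - 1 / (Nv v : ℝ)))) * X ^ (5 * Module.finrank ℚ K) ≤
          ({p : 𝓞 K × 𝓞 K | p ∈ Bx K X ∧ Fam q₀ T p.1 p.2}.ncard : ℝ)
  aux : ∃ q₀ : HeightOneSpectrum (𝓞 K), (6 : 𝓞 K) ∉ q₀.asIdeal ∧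
    {p : HeightOneSpectrum (𝓞 K) | AuxP q₀ p}.Infinite
  tw : ∀ {q₀ : HeightOneSpectrum (𝓞 K)} {J : Finset (HeightOneSpectrum (𝓞 K))},
    (∀ p ∈ J, AuxP q₀ p) → ∃ D : 𝓞 K, TwD q₀ J (D : K)
  bad : ∃ (C : ℝ) (N₀ : ℕ), 0 < C ∧
    ∀ (q₀ : HeightOneSpectrum (𝓞 K)) (T : Finset (HeightOneSpectrum (𝓞 K))),
      (∀ v ∈ T, N₀ ≤ Nv v ∧ (6 : 𝓞 K) ∉ v.asIdeal) → ∃ X₀ : ℝ, ∀ X : ℝ, X₀ ≤ X →
        ({p : 𝓞 K × 𝓞 K | p ∈ Bx K X ∧ Fam q₀ T p.1 p.2 ∧ BadP T p.1 p.2}.ncard : ℝ) ≤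
          C * (∏ v ∈ T, ((1 + 1 / (Nv v : ℝ)) ^ 2 / 4)) * X ^ (5 * Module.finrank ℚ K)
  sel : ∀ {q₀ : HeightOneSpectrum (𝓞 K)} {T : Finset (HeightOneSpectrum (𝓞 K))},
    (6 : 𝓞 K) ∉ q₀.asIdeal → (∀ v ∈ T, v ≠ q₀ ∧ (6 : 𝓞 K) ∉ v.asIdeal) → ∀ {A B : 𝓞 K},
    Fam q₀ T A B → ¬ BadP T A B → ∀ {L : Type} [Field L] [NumberField L] [Algebra K L] {θ : L},
    Cub K L (A : K) (B : K) θ → ∃ J ⊆ T, ∀ D : K, TwD q₀ J D →
      SelTriv K L (D ^ 2 * A) (D ^ 3 * B) (algebraMap K L D * θ)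
  desc : ∀ {L : Type} [Field L] [NumberField L] [Algebra K L] {a b : K} {θ : L},
    Cub K L a b θ → SelTriv K L a b θ →
    Finite (⟨0, 0, 0, a, b⟩ : WeierstrassCurve K).toAffine.Point ∧
      Pool.Agent.H10.Sha2Trivial K (⟨0, 0, 0, a, b⟩ : WeierstrassCurve K)
  cub : ∀ {A B : K}, (∀ t : K, t ^ 3 + A * t + B ≠ 0) →
    ∃ (L : Type) (_ : Field L) (_ : NumberField L) (_ : Algebra K L) (θ : L), Cub K L A B θ
  nr : ∀ {q₀ : HeightOneSpectrum (𝓞 K)} {T : Finset (HeightOneSpectrum (𝓞 K))} {A B : 𝓞 K},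
    Fam q₀ T A B → ∀ x : K, x ^ 3 + (A : K) * x + (B : K) ≠ 0
  dn : ∀ {q₀ : HeightOneSpectrum (𝓞 K)} {T : Finset (HeightOneSpectrum (𝓞 K))} {A B : 𝓞 K},
    Fam q₀ T A B → (4 * (A : K) ^ 3 + 27 * (B : K) ^ 2) ≠ 0

variable {K : Type} [Field K] [NumberField K]

/-- A member of the family which is not bad has a good twist. -/
theorem Blocks.good (H : Blocks K) {q₀ : HeightOneSpectrum (𝓞 K)}
    {T : Finset (HeightOneSpectrum (𝓞 K))} (h6 : (6 : 𝓞 K) ∉ q₀.asIdeal)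
    (hT : ∀ v ∈ T, v ≠ q₀ ∧ (6 : 𝓞 K) ∉ v.asIdeal) {A B : 𝓞 K} (hF : Fam q₀ T A B)
    (hB : ¬ BadP T A B) : ∃ J ⊆ T, ∀ D : 𝓞 K, TwD q₀ J (D : K) →
      GoodE K (D ^ 2 * A, D ^ 3 * B) := by
  obtain ⟨L, _, _, _, θ, hL⟩ := H.cub (H.nr hF)
  obtain ⟨J, hJ, hsel⟩ := H.sel h6 hT hF hB hL
  refine ⟨J, hJ, fun D hD => ?_⟩
  have hD0 : (D : K) ≠ 0 := hD.ne
  have h1 := hsel (D : K) hD
  obtain ⟨h2, h3⟩ := H.desc (hL.twist hD0) h1
  have e1 : ((D ^ 2 * A : 𝓞 K) : K) = (D : K) ^ 2 * (A : K) := by push_cast; rfl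
  have e2 : ((D ^ 3 * B : 𝓞 K) : K) = (D : K) ^ 3 * (B : K) := by push_cast; rfl
  refine ⟨?_, ?_, ?_⟩
  · intro h4
    have h5 : (4 * ((D ^ 2 * A : 𝓞 K) : K) ^ 3 + 27 * ((D ^ 3 * B : 𝓞 K) : K) ^ 2) = 0 := by
      have h6 := congrArg (algebraMap (𝓞 K) K) h4
      simp only [map_add, map_mul, map_pow, map_ofNat, map_zero] at h6 ⊢
      exact h6
    rw [e1, e2] at h5
    have h6 : (D : K) ^ 6 * (4 * (A : K) ^ 3 + 27 * (B : K) ^ 2) = 0 := by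
      linear_combination h5
    exact (mul_ne_zero (pow_ne_zero 6 hD0) (H.dn hF)) h6
  · change Finite (⟨0, 0, 0, ((D ^ 2 * A : 𝓞 K) : K), ((D ^ 3 * B : 𝓞 K) : K)⟩ :
      WeierstrassCurve K).toAffine.Point
    rw [e1, e2]
    exact h2
  · change Pool.Agent.H10.Sha2Trivial K (⟨0, 0, 0, ((D ^ 2 * A : 𝓞 K) : K),
      ((D ^ 3 * B : 𝓞 K) : K)⟩ : WeierstrassCurve K)
    rw [e1, e2]
    exact h3

/-- The auxiliary primes and the number of pairs in the family which are not bad. -/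
theorem Blocks.main (H : Blocks K) : ∃ (q₀ : HeightOneSpectrum (𝓞 K))
    (T : Finset (HeightOneSpectrum (𝓞 K))) (c X₀ : ℝ), (6 : 𝓞 K) ∉ q₀.asIdeal ∧
      (∀ v ∈ T, AuxP q₀ v) ∧ 0 < c ∧ ∀ X : ℝ, X₀ ≤ X →
        c * X ^ (5 * Module.finrank ℚ K) ≤
          ({p : 𝓞 K × 𝓞 K | p ∈ Bx K X ∧ Fam q₀ T p.1 p.2 ∧ ¬ BadP T p.1 p.2}.ncard : ℝ) := by
  obtain ⟨q₀, h6, hinf⟩ := H.aux
  obtain ⟨C₄, N₀, hC, hbad⟩ := H.bad
  obtain ⟨c₃, hc₃, hfam⟩ := H.fam q₀ h6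
  -- the number of auxiliary primes
  obtain ⟨k, hk⟩ := exists_pow_lt_of_lt_one (x := c₃ / (2 * C₄)) (y := (0.55 : ℝ))
    (by positivity) (by norm_num)
  obtain ⟨T, hT, hTk⟩ := exists_T hinf (max N₀ 40) k
  obtain ⟨X₁, h1⟩ := hfam T (fun v hv => ⟨(hT v hv).1.2.1, (hT v hv).1.1⟩)
  obtain ⟨X₂, h2⟩ := hbad q₀ T (fun v hv => ⟨(le_max_left _ _).trans (hT v hv).2, (hT v hv).1.1⟩)
  set P : ℝ := ∏ v ∈ T, (1 / 2 * (1 - 1 / (Nv v : ℝ))) with hP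
  have hPpos : 0 < P := by
    refine Finset.prod_pos fun v hv => ?_
    have h3 : 40 ≤ Nv v := (le_max_right _ _).trans (hT v hv).2
    have h4 : (40 : ℝ) ≤ (Nv v : ℝ) := by exact_mod_cast h3
    have h5 : 1 / (Nv v : ℝ) ≤ 1 / 40 := one_div_le_one_div_of_le (by norm_num) h4
    nlinarith
  refine ⟨q₀, T, c₃ * P / 2, max (max X₁ X₂) 0, h6, fun v hv => (hT v hv).1, by positivity, ?_⟩
  intro X hX
  have hX1 : X₁ ≤ X := (le_max_left _ _).trans ((le_max_left _ _).trans hX)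
  have hX2 : X₂ ≤ X := (le_max_right _ _).trans ((le_max_left _ _).trans hX)
  have hX0 : 0 ≤ X := (le_max_right _ _).trans hX
  have e1 := h1 X hX1
  have e2 := h2 X hX2
  have e3 := prod_ratio_le (T := T) (fun v hv => (le_max_right _ _).trans (hT v hv).2)
  rw [hTk, ← hP] at e3
  have hXp : 0 ≤ X ^ (5 * Module.finrank ℚ K) := by positivity
  have hk' : C₄ * 0.55 ^ k ≤ c₃ / 2 := by
    have h7 : C₄ * 0.55 ^ k ≤ C₄ * (c₃ / (2 * C₄)) := mul_le_mul_of_nonneg_left hk.le hC.le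
    have h8 : C₄ * (c₃ / (2 * C₄)) = c₃ / 2 := by field_simp
    rwa [h8] at h7
  have e4 : C₄ * (∏ v ∈ T, ((1 + 1 / (Nv v : ℝ)) ^ 2 / 4)) * X ^ (5 * Module.finrank ℚ K) ≤
      c₃ / 2 * P * X ^ (5 * Module.finrank ℚ K) := by
    refine mul_le_mul_of_nonneg_right ?_ hXp
    calc C₄ * (∏ v ∈ T, ((1 + 1 / (Nv v : ℝ)) ^ 2 / 4)) ≤ C₄ * (0.55 ^ k * P) :=
          mul_le_mul_of_nonneg_left e3 hC.le
      _ = (C₄ * 0.55 ^ k) * P := by ring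
      _ ≤ c₃ / 2 * P := mul_le_mul_of_nonneg_right hk' hPpos.le
  -- the family is the union of the bad and the good pairs
  have hfin : {p : 𝓞 K × 𝓞 K | p ∈ Bx K X ∧ Fam q₀ T p.1 p.2 ∧ ¬ BadP T p.1 p.2}.Finite :=
    (H.fin X).subset fun p hp => hp.1
  have hfinb : {p : 𝓞 K × 𝓞 K | p ∈ Bx K X ∧ Fam q₀ T p.1 p.2 ∧ BadP T p.1 p.2}.Finite :=
    (H.fin X).subset fun p hp => hp.1
  have e5 : ({p : 𝓞 K × 𝓞 K | p ∈ Bx K X ∧ Fam q₀ T p.1 p.2}.ncard : ℝ) ≤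
      ({p : 𝓞 K × 𝓞 K | p ∈ Bx K X ∧ Fam q₀ T p.1 p.2 ∧ BadP T p.1 p.2}.ncard : ℝ) +
      ({p : 𝓞 K × 𝓞 K | p ∈ Bx K X ∧ Fam q₀ T p.1 p.2 ∧ ¬ BadP T p.1 p.2}.ncard : ℝ) := by
    have h9 : {p : 𝓞 K × 𝓞 K | p ∈ Bx K X ∧ Fam q₀ T p.1 p.2} ⊆
        {p : 𝓞 K × 𝓞 K | p ∈ Bx K X ∧ Fam q₀ T p.1 p.2 ∧ BadP T p.1 p.2} ∪
        {p : 𝓞 K × 𝓞 K | p ∈ Bx K X ∧ Fam q₀ T p.1 p.2 ∧ ¬ BadP T p.1 p.2} := by
      rintro p ⟨h10, h11⟩
      by_cases h12 : BadP T p.1 p.2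
      · exact Or.inl ⟨h10, h11, h12⟩
      · exact Or.inr ⟨h10, h11, h12⟩
    have h13 := (Set.ncard_le_ncard h9 (hfinb.union hfin)).trans (Set.ncard_union_le _ _)
    exact_mod_cast h13
  have e6 : c₃ * P * X ^ (5 * Module.finrank ℚ K) =
      c₃ * P / 2 * X ^ (5 * Module.finrank ℚ K) + c₃ / 2 * P * X ^ (5 * Module.finrank ℚ K) := by
    ring
  linarith

/-- The final theorem from the statements of the blocks. -/
theorem Blocks.result (H : Blocks K) : ∃ (c X₀ : ℝ), 0 < c ∧ ∀ X : ℝ, X₀ ≤ X →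
    c * ((Bx K X).ncard : ℝ) ≤
      ({p : 𝓞 K × 𝓞 K | p ∈ Bx K X ∧ GoodE K p}.ncard : ℝ) := by
  obtain ⟨q₀, T, c, X₀, h6, hT, hc, hmain⟩ := H.main
  obtain ⟨C, hC, hup⟩ := H.up
  have hT' : ∀ v ∈ T, v ≠ q₀ ∧ (6 : 𝓞 K) ∉ v.asIdeal := fun v hv => ⟨(hT v hv).2.1, (hT v hv).1⟩
  -- the twisting factors
  have htw : ∀ J : Finset (HeightOneSpectrum (𝓞 K)), ∃ D : 𝓞 K, J ⊆ T → TwD q₀ J (D : K) := by
    intro J
    by_cases hJ : J ⊆ T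
    · obtain ⟨D, hD⟩ := H.tw (fun p hp => hT p (hJ hp))
      exact ⟨D, fun _ => hD⟩
    · exact ⟨0, fun h => absurd h hJ⟩
  choose D hD using htw
  choose t ht using fun J => exists_bx (D J)
  set κ : ℝ := 1 + ∑ J ∈ T.powerset, |t J| with hκ
  have hκ1 : 1 ≤ κ := by
    have : 0 ≤ ∑ J ∈ T.powerset, |t J| := Finset.sum_nonneg fun _ _ => abs_nonneg _
    linarith
  have hκD : ∀ J ⊆ T, D J ∈ bx K κ := by
    intro J hJ
    refine bx_mono ?_ (ht J)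
    have h1 : |t J| ≤ ∑ J ∈ T.powerset, |t J| :=
      Finset.single_le_sum (f := fun J => |t J|) (fun _ _ => abs_nonneg _)
        (Finset.mem_powerset.2 hJ)
    have := le_abs_self (t J)
    linarith
  set n := Module.finrank ℚ K with hn
  refine ⟨c / (2 ^ T.card * (C * κ ^ (5 * n))), κ * max X₀ 1, by positivity, ?_⟩
  intro Y hY
  set X := Y / κ with hXdef
  have hκ0 : 0 < κ := by linarith
  have hYX : Y = κ * X := by rw [hXdef]; field_simp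
  have hX : max X₀ 1 ≤ X := by
    rw [hXdef, le_div_iff₀ hκ0, mul_comm]
    exact hY
  have hX0 : X₀ ≤ X := (le_max_left _ _).trans hX
  have hX1 : 1 ≤ X := (le_max_right _ _).trans hX
  have hY1 : 1 ≤ Y := by rw [hYX]; nlinarith
  -- the good pairs and the choice of the twisting factor
  set G : Set (𝓞 K × 𝓞 K) := {p | p ∈ Bx K X ∧ Fam q₀ T p.1 p.2 ∧ ¬ BadP T p.1 p.2} with hG
  have hGfin : G.Finite := (H.fin X).subset fun p hp => hp.1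
  have hJ : ∀ p : 𝓞 K × 𝓞 K, ∃ J : Finset (HeightOneSpectrum (𝓞 K)), p ∈ G →
      J ⊆ T ∧ GoodE K (D J ^ 2 * p.1, D J ^ 3 * p.2) := by
    intro p
    by_cases hp : p ∈ G
    · obtain ⟨J, hJ, h1⟩ := H.good h6 hT' hp.2.1 hp.2.2
      exact ⟨J, fun _ => ⟨hJ, h1 (D J) (hD J hJ)⟩⟩
    · exact ⟨∅, fun h => absurd h hp⟩
  choose J hJ using hJ
  -- pigeonhole
  have hpig : ∃ J₀ ∈ T.powerset, (G.ncard : ℝ) ≤
      2 ^ T.card * ({p ∈ hGfin.toFinset | J p = J₀}.card : ℝ) := by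
    by_contra hcon
    push Not at hcon
    have h1 : hGfin.toFinset.card = ∑ J₀ ∈ T.powerset, {p ∈ hGfin.toFinset | J p = J₀}.card := by
      refine Finset.card_eq_sum_card_fiberwise fun p hp => ?_
      exact Finset.mem_coe.2 (Finset.mem_powerset.2 (hJ p (by simpa using hp)).1)
    have h2 : (G.ncard : ℝ) = ∑ J₀ ∈ T.powerset,
        ({p ∈ hGfin.toFinset | J p = J₀}.card : ℝ) := by
      rw [Set.ncard_eq_toFinset_card G hGfin, h1]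
      push_cast
      rfl
    have h3 : (2 : ℝ) ^ T.card * ∑ J₀ ∈ T.powerset, ({p ∈ hGfin.toFinset | J p = J₀}.card : ℝ) <
        ∑ J₀ ∈ T.powerset, (G.ncard : ℝ) := by
      rw [Finset.mul_sum]
      exact Finset.sum_lt_sum_of_nonempty ⟨∅, Finset.empty_mem_powerset _⟩ hcon
    rw [← h2, Finset.sum_const, Finset.card_powerset, nsmul_eq_mul] at h3
    push_cast at h3
    exact lt_irrefl _ h3
  obtain ⟨J₀, hJ₀, hcard⟩ := hpig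
  rw [Finset.mem_powerset] at hJ₀
  -- the injection
  have hD0 : D J₀ ≠ 0 := by
    intro h0
    apply (hD J₀ hJ₀).ne
    rw [h0]
    exact map_zero (algebraMap (𝓞 K) K)
  have hinj : ({p ∈ hGfin.toFinset | J p = J₀}.card : ℝ) ≤
      ({p : 𝓞 K × 𝓞 K | p ∈ Bx K Y ∧ GoodE K p}.ncard : ℝ) := by
    have hfin2 : {p : 𝓞 K × 𝓞 K | p ∈ Bx K Y ∧ GoodE K p}.Finite :=
      (H.fin Y).subset fun p hp => hp.1
    have h1 : {p ∈ hGfin.toFinset | J p = J₀}.card ≤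
        {p : 𝓞 K × 𝓞 K | p ∈ Bx K Y ∧ GoodE K p}.ncard := by
      rw [← Set.ncard_coe_finset]
      refine Set.ncard_le_ncard_of_injOn (fun p => (D J₀ ^ 2 * p.1, D J₀ ^ 3 * p.2)) ?_ ?_ hfin2
      · intro p hp
        rw [Finset.mem_coe, Finset.mem_filter, Set.Finite.mem_toFinset] at hp
        obtain ⟨hpG, hpJ⟩ := hp
        have h2 := hJ p hpG
        rw [hpJ] at h2
        refine ⟨⟨?_, ?_⟩, h2.2⟩
        · rw [hYX]
          exact bx_int_mul (hκD J₀ hJ₀) hpG.1.1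
        · rw [hYX]
          exact bx_int_mul3 (hκD J₀ hJ₀) hpG.1.2
      · intro p _ p' _ hpp
        simp only [Prod.mk.injEq] at hpp
        exact Prod.ext (mul_left_cancel₀ (pow_ne_zero 2 hD0) hpp.1)
          (mul_left_cancel₀ (pow_ne_zero 3 hD0) hpp.2)
    exact_mod_cast h1
  have h1 := hmain X hX0
  have h2 := hup Y hY1
  have hpow : Y ^ (5 * n) = κ ^ (5 * n) * X ^ (5 * n) := by rw [hYX, mul_pow]
  calc c / (2 ^ T.card * (C * κ ^ (5 * n))) * ((Bx K Y).ncard : ℝ)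
      ≤ c / (2 ^ T.card * (C * κ ^ (5 * n))) * (C * Y ^ (5 * n)) :=
        mul_le_mul_of_nonneg_left h2 (by positivity)
    _ = c * X ^ (5 * n) / 2 ^ T.card := by
        rw [hpow]
        field_simp
    _ ≤ (G.ncard : ℝ) / 2 ^ T.card := by
        refine div_le_div_of_nonneg_right h1 (by positivity)
    _ ≤ ({p ∈ hGfin.toFinset | J p = J₀}.card : ℝ) := by
        rw [div_le_iff₀ (by positivity), mul_comm]
        exact hcard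
    _ ≤ _ := hinj

end H76PP
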