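import Pool.Agent.H76.PP.Zb
import Pool.Agent.H76.PP.Lb

/-!
Counting up to isomorphism, part a: two members of the family with the same `j`-invariant are twists by
a unit; pairs with a small conjugate of `A` are rare.
-/

set_option autoImplicit false
set_option linter.unusedSectionVars false
open scoped Classical

open WithZero NumberField IsDedekindDomain

namespace H76PP

variable {K : Type} [Field K] [NumberField K]

theorem Ya_two_not_unit (K : Type) [Field K] [NumberField K] : ¬ IsUnit (2 : 𝓞 K) := by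
  intro h
  obtain ⟨u, hu⟩ := h.exists_right_inv
  have h1 : IsIntegral ℤ ((u : 𝓞 K) : K) := RingOfIntegers.isIntegral_coe u
  have h2 : ((u : 𝓞 K) : K) = algebraMap ℚ K (1 / 2) := by
    have h3 := congrArg (algebraMap (𝓞 K) K) hu
    rw [map_mul, map_ofNat, map_one] at h3
    rw [map_div₀, map_one, map_ofNat, eq_div_iff (two_ne_zero)]
    rw [mul_comm]
    exact h3
  rw [h2] at h1
  have h3 : IsIntegral ℤ (1 / 2 : ℚ) :=
    (isIntegral_algebraMap_iff (algebraMap ℚ K).injective).1 h1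
  obtain ⟨n, hn⟩ := IsIntegrallyClosed.isIntegral_iff.1 h3
  have h4 : (2 * n : ℤ) = 1 := by
    have h5 : ((2 * n : ℤ) : ℚ) = ((1 : ℤ) : ℚ) := by
      push_cast
      have : (n : ℚ) = 1 / 2 := hn
      rw [this]
      norm_num
    exact_mod_cast h5
  omega

theorem Ya_exists_two (K : Type) [Field K] [NumberField K] :
    ∃ v : HeightOneSpectrum (𝓞 K), (2 : 𝓞 K) ∈ v.asIdeal := by
  obtain ⟨M, hM, h2⟩ := exists_max_ideal_of_mem_nonunits (Ya_two_not_unit K)
  refine ⟨⟨M, hM.isPrime, ?_⟩, h2⟩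
  rintro rfl
  exact two_ne_zero (Ideal.mem_bot.1 h2)

theorem Fam.ne' {q₀ : HeightOneSpectrum (𝓞 K)} {T : Finset (HeightOneSpectrum (𝓞 K))}
    {A B : 𝓞 K} (hF : Fam q₀ T A B) : B ≠ 0 := by
  obtain ⟨v, hv⟩ := Ya_exists_two K
  rintro rfl
  exact hF.two v hv (Submodule.zero_mem _)

private theorem Ya_one {v : HeightOneSpectrum (𝓞 K)} {a : 𝓞 K} (h : a ∉ v.asIdeal) :
    v.valuation K (a : K) = 1 := (v.valuation_eq_one_iff_notMem (K := K)).2 h

private theorem Ya_pow {x : WithZero (Multiplicative ℤ)} {n : ℕ} (hn : n ≠ 0)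
    (h : x ^ n ≤ 1) : x ≤ 1 := (pow_le_one_iff hn).1 h

private theorem Ya_six {x : WithZero (Multiplicative ℤ)} (h : x ^ 6 ≤ exp (1 : ℤ)) : x ≤ 1 := by
  by_cases h0 : x = 0
  · rw [h0]
    exact zero_le
  · rw [← exp_log h0] at h ⊢
    rw [← exp_nsmul, exp_le_exp] at h
    rw [← exp_zero, exp_le_exp]
    rw [nsmul_eq_mul] at h
    push_cast at h
    omega

/-- Two members of the family with the same `j`-invariant are quadratic twists by an integer. -/
theorem Fam.same_j {q₀ : HeightOneSpectrum (𝓞 K)} {T : Finset (HeightOneSpectrum (𝓞 K))}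
    {A B A' B' : 𝓞 K} (hF : Fam q₀ T A B) (hF' : Fam q₀ T A' B')
    (h : A ^ 3 * B' ^ 2 = A' ^ 3 * B ^ 2) : ∃ t : 𝓞 K, A' = t ^ 2 * A ∧ B' = t ^ 3 * B := by
  have hA : (A : K) ≠ 0 := RingOfIntegers.coe_ne_zero_iff.2 hF.ne
  have hA' : (A' : K) ≠ 0 := RingOfIntegers.coe_ne_zero_iff.2 hF'.ne
  have hB : (B : K) ≠ 0 := RingOfIntegers.coe_ne_zero_iff.2 hF.ne'
  have hB' : (B' : K) ≠ 0 := RingOfIntegers.coe_ne_zero_iff.2 hF'.ne'
  have hK : (A : K) ^ 3 * (B' : K) ^ 2 = (A' : K) ^ 3 * (B : K) ^ 2 := by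
    have h1 := congrArg (algebraMap (𝓞 K) K) h
    simpa only [map_mul, map_pow] using h1
  set t : K := (B' : K) * (A : K) / ((B : K) * (A' : K)) with ht
  have e1 : (A' : K) = t ^ 2 * (A : K) := by
    rw [ht]
    field_simp
    linear_combination -hK
  have e2 : (B' : K) = t ^ 3 * (B : K) := by
    have e3 : t ^ 3 * (B : K) = (t ^ 2 * (A : K)) * (t * (B : K) / (A : K)) := by
      field_simp
    rw [e3, ← e1, ht]
    field_simp
  have e4 : ((dsc A' B' : 𝓞 K) : K) = t ^ 6 * ((dsc A B : 𝓞 K) : K) := by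
    have e5 : ((dsc A' B' : 𝓞 K) : K) = 4 * (A' : K) ^ 3 + 27 * (B' : K) ^ 2 := by
      simp only [dsc, map_add, map_mul, map_pow, map_ofNat]
    have e6 : ((dsc A B : 𝓞 K) : K) = 4 * (A : K) ^ 3 + 27 * (B : K) ^ 2 := by
      simp only [dsc, map_add, map_mul, map_pow, map_ofNat]
    rw [e5, e6]
    rw [e1, e2]
    ring
  have hint : ∀ v : HeightOneSpectrum (𝓞 K), v.valuation K t ≤ 1 := by
    intro v
    by_cases h2 : (2 : 𝓞 K) ∈ v.asIdeal
    · have h3 := congrArg (v.valuation K) e2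
      rw [map_mul, map_pow, Ya_one (hF.two v h2), Ya_one (hF'.two v h2), mul_one] at h3
      exact Ya_pow (n := 3) (by norm_num) h3.ge
    · by_cases h3 : (3 : 𝓞 K) ∈ v.asIdeal
      · have h4 := congrArg (v.valuation K) e1
        rw [map_mul, map_pow, Ya_one (hF.three v h3), Ya_one (hF'.three v h3), mul_one] at h4
        exact Ya_pow (n := 2) (by norm_num) h4.ge
      · have h6 : (6 : 𝓞 K) ∉ v.asIdeal := by
          intro h
          have e7 : (6 : 𝓞 K) = 2 * 3 := by norm_num
          rw [e7] at h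
          rcases v.isPrime.mem_or_mem h with h | h
          · exact h2 h
          · exact h3 h
        have h4 := congrArg (v.valuation K) e4
        rw [map_mul, map_pow] at h4
        have h5 : v.valuation K ((dsc A' B' : 𝓞 K) : K) ≤ 1 := v.valuation_le_one _
        have h7 : exp (-1 : ℤ) ≤ v.valuation K ((dsc A B : 𝓞 K) : K) := by
          by_contra hlt
          apply hF.sqf v h6
          have h8 : v.valuation K ((dsc A B : 𝓞 K) : K) ≤ exp (-2 : ℤ) := by
            rw [not_le] at hlt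
            by_cases h0 : v.valuation K ((dsc A B : 𝓞 K) : K) = 0
            · rw [h0]
              exact zero_le
            · rw [← exp_log h0] at hlt ⊢
              rw [exp_lt_exp] at hlt
              rw [exp_le_exp]
              omega
          rw [HeightOneSpectrum.valuation_of_algebraMap] at h8
          have h9 := (v.intValuation_le_pow_iff_mem (dsc A B) 2).1 (by exact_mod_cast h8)
          exact h9
        apply Ya_six
        rw [h4] at h5
        have h10 : v.valuation K t ^ 6 * exp (-1 : ℤ) ≤ 1 :=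
          (mul_le_mul_right h7 _).trans h5
        have h11 : v.valuation K t ^ 6 * exp (-1 : ℤ) * exp (1 : ℤ) ≤ 1 * exp (1 : ℤ) :=
          mul_le_mul_left h10 _
        rwa [mul_assoc, ← exp_add, neg_add_cancel, exp_zero, mul_one, one_mul] at h11
  obtain ⟨t', ht'⟩ := HeightOneSpectrum.mem_integers_of_valuation_le_one K t hint
  refine ⟨t', ?_, ?_⟩
  · apply RingOfIntegers.coe_injective
    rw [map_mul, map_pow, ht']
    exact e1
  · apply RingOfIntegers.coe_injective
    rw [map_mul, map_pow, ht']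
    exact e2

/-- The pairs in the box with a small conjugate of `A` are rare. -/
theorem Blocks.small (H : Blocks K) {δ : ℝ} (hδ : 0 < δ) : ∃ (ε X₁ : ℝ), 0 < ε ∧ ε ≤ 1 ∧
    ∀ X : ℝ, X₁ ≤ X →
      ({p : 𝓞 K × 𝓞 K | p ∈ Bx K X ∧ ∃ s : K →+* ℂ, ‖s (p.1 : K)‖ < ε * X ^ 2}.ncard : ℝ) ≤
        δ * X ^ (5 * Module.finrank ℚ K) := by
  obtain ⟨C, hC, hup⟩ := H.up
  set n := Module.finrank ℚ K with hn
  set N : ℕ := Fintype.card (K →+* ℂ) with hN
  obtain ⟨k, hk⟩ := exists_nat_gt (max ((N : ℝ) * (C * 2 ^ (5 * n)) / δ) 1)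
  have hk1 : (1 : ℝ) < k := (le_max_right _ _).trans_lt hk
  have hk2 : (N : ℝ) * (C * 2 ^ (5 * n)) ≤ k * δ := by
    have h1 := ((le_max_left _ _).trans_lt hk).le
    rwa [div_le_iff₀ hδ] at h1
  refine ⟨1 / (4 * k), 2 * k, by positivity, ?_, fun X hX => ?_⟩
  · rw [div_le_one (by positivity)]
    linarith
  have hX1 : 1 ≤ X := by linarith
  have hX0 : 0 ≤ X := by linarith
  set m : ℕ := ⌊X ^ 2 / k⌋₊ with hm
  have hm1 : (k : ℝ) * m ≤ X ^ 2 := by
    have h1 : (m : ℝ) ≤ X ^ 2 / k := Nat.floor_le (by positivity)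
    rwa [le_div_iff₀ (by positivity), mul_comm] at h1
  have hm2 : 2 * (1 / (4 * k) * X ^ 2) ≤ m := by
    have h1 : X ^ 2 / k < m + 1 := Nat.lt_floor_add_one _
    have h2 : 2 * (1 / (4 * (k : ℝ)) * X ^ 2) = X ^ 2 / k / 2 := by
      field_simp
      ring
    have h3 : 2 ≤ X ^ 2 / k := by
      rw [le_div_iff₀ (by positivity)]
      nlinarith
    rw [h2]
    linarith
  have hm0 : (0 : ℝ) < m := by
    have : 0 < 2 * (1 / (4 * (k : ℝ)) * X ^ 2) := by positivity
    linarith
  -- one embedding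
  have hone : ∀ s : K →+* ℂ,
      ((H.fin X).toFinset.filter fun p => ‖s (p.1 : K)‖ < 1 / (4 * k) * X ^ 2).card * k ≤
        (Bx K (2 * X)).ncard := by
    intro s
    rw [Set.ncard_eq_toFinset_card _ (H.fin (2 * X)), ← Finset.card_range k, ← Finset.card_product,
      Finset.card_range]
    refine Finset.card_le_card_of_injOn (fun q => (q.1.1 + ((q.2 * m : ℕ) : 𝓞 K), q.1.2)) ?_ ?_
    · rintro ⟨p, j⟩ hp
      simp only [Finset.coe_product, Set.mem_prod, Finset.mem_coe, Finset.mem_filter,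
        Set.Finite.mem_toFinset, Finset.mem_range] at hp
      obtain ⟨⟨hp, -⟩, hj⟩ := hp
      simp only [Finset.mem_coe, Set.Finite.mem_toFinset]
      refine ⟨fun s' => ?_, fun s' => (hp.2 s').trans ?_⟩
      · have h1 : ((p.1 + ((j * m : ℕ) : 𝓞 K) : 𝓞 K) : K) = (p.1 : K) + ((j * m : ℕ) : K) := by
          simp only [map_add, map_natCast]
        change ‖s' ((p.1 + ((j * m : ℕ) : 𝓞 K) : 𝓞 K) : K)‖ ≤ _
        rw [h1, map_add, map_natCast]
        refine (norm_add_le _ _).trans ?_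
        have h2 : ‖((j * m : ℕ) : ℂ)‖ = ((j * m : ℕ) : ℝ) := Complex.norm_natCast _
        have h3 : ((j * m : ℕ) : ℝ) ≤ X ^ 2 := by
          refine le_trans ?_ hm1
          push_cast
          have h4 : (j : ℝ) ≤ k := by exact_mod_cast hj.le
          nlinarith
        have h5 := hp.1 s'
        rw [h2]
        nlinarith
      · have : (2 * X) ^ 3 = 8 * X ^ 3 := by ring
        rw [this]
        have h3 : 0 ≤ X ^ 3 := by positivity
        linarith
    · rintro ⟨p, j⟩ hp ⟨p', j'⟩ hp' heq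
      simp only [Finset.coe_product, Set.mem_prod, Finset.mem_coe, Finset.mem_filter,
        Set.Finite.mem_toFinset, Finset.mem_range] at hp hp'
      simp only [Prod.mk.injEq] at heq
      obtain ⟨h1, h2⟩ := heq
      have hjj : j = j' := by
        by_contra hne
        have h3 : s (p.1 : K) - s (p'.1 : K) = ((j' : ℂ) - (j : ℂ)) * (m : ℂ) := by
          have h4 := congrArg (algebraMap (𝓞 K) K) h1
          simp only [map_add, map_natCast] at h4
          have h5 := congrArg s h4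
          simp only [map_add, map_natCast] at h5
          push_cast at h5
          change s (p.1 : K) + _ = s (p'.1 : K) + _ at h5
          linear_combination h5
        have h6 : (1 : ℝ) ≤ ‖(j' : ℂ) - (j : ℂ)‖ := by
          have h7 : (j' : ℂ) - (j : ℂ) = (((j' : ℤ) - (j : ℤ) : ℤ) : ℂ) := by push_cast; rfl
          rw [h7, Complex.norm_intCast]
          have h8 : (1 : ℤ) ≤ |(j' : ℤ) - (j : ℤ)| := Int.one_le_abs (by omega)
          exact_mod_cast h8
        have h9 : ‖s (p.1 : K) - s (p'.1 : K)‖ < 2 * (1 / (4 * k) * X ^ 2) := by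
          refine (norm_sub_le _ _).trans_lt ?_
          linarith [hp.1.2, hp'.1.2]
        rw [h3, norm_mul, Complex.norm_natCast] at h9
        nlinarith
      subst hjj
      have h10 := add_right_cancel h1
      exact Prod.ext (Prod.ext h10 h2) rfl
  -- all embeddings
  have hall : {p : 𝓞 K × 𝓞 K | p ∈ Bx K X ∧ ∃ s : K →+* ℂ, ‖s (p.1 : K)‖ < 1 / (4 * k) * X ^ 2} =
      ((Finset.univ : Finset (K →+* ℂ)).biUnion fun s =>
        (H.fin X).toFinset.filter fun p => ‖s (p.1 : K)‖ < 1 / (4 * k) * X ^ 2 : Finset _) := by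
    ext p
    simp only [Set.mem_ofPred_eq, Finset.coe_biUnion, Finset.mem_coe, Finset.mem_univ,
      Set.iUnion_true, Set.mem_iUnion, Finset.mem_filter, Set.Finite.mem_toFinset]
    constructor
    · rintro ⟨h1, s, h2⟩
      exact ⟨s, h1, h2⟩
    · rintro ⟨s, h1, h2⟩
      exact ⟨h1, s, h2⟩
  rw [hall, Set.ncard_coe_finset]
  have hsum := Finset.card_biUnion_le (s := (Finset.univ : Finset (K →+* ℂ)))
    (t := fun s => (H.fin X).toFinset.filter fun p => ‖s (p.1 : K)‖ < 1 / (4 * k) * X ^ 2)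
  have hsum2 : ((Finset.univ : Finset (K →+* ℂ)).biUnion fun s =>
        (H.fin X).toFinset.filter fun p => ‖s (p.1 : K)‖ < 1 / (4 * k) * X ^ 2).card * k ≤
        N * (Bx K (2 * X)).ncard := by
    refine (Nat.mul_le_mul_right k hsum).trans ?_
    rw [Finset.sum_mul]
    refine (Finset.sum_le_sum fun s _ => hone s).trans ?_
    rw [Finset.sum_const, Finset.card_univ, smul_eq_mul]
  have hb := hup (2 * X) (by linarith)
  have hkpos : (0 : ℝ) < k := by linarith
  have hsum3 : ((((Finset.univ : Finset (K →+* ℂ)).biUnion fun s =>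
        (H.fin X).toFinset.filter fun p => ‖s (p.1 : K)‖ < 1 / (4 * k) * X ^ 2).card : ℕ) : ℝ) * k ≤
        N * (Bx K (2 * X)).ncard := by exact_mod_cast hsum2
  refine le_of_mul_le_mul_right (hsum3.trans ?_) hkpos
  calc (N : ℝ) * (Bx K (2 * X)).ncard ≤ N * (C * (2 * X) ^ (5 * n)) :=
        mul_le_mul_of_nonneg_left hb (Nat.cast_nonneg _)
    _ = (N * (C * 2 ^ (5 * n))) * X ^ (5 * n) := by rw [mul_pow]; ring
    _ ≤ (k * δ) * X ^ (5 * n) := mul_le_mul_of_nonneg_right hk2 (by positivity)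
    _ = δ * X ^ (5 * n) * k := by ring

end H76PP
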