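import Mathlib

/-!
Definitions for the project MP_78d38b_PP (no row). The paper proof is `Pool/Agent/H76/PP/NOTE.md`
(= /team-store/H76_78d38b_PP.md).
-/

set_option autoImplicit false

open NumberField IsDedekindDomain
open scoped Matrix

namespace H76PP

section Boxes

variable (K : Type) [Field K] [NumberField K]

/-- The integers of `K` all of whose conjugates have absolute value at most `T`. -/
def bx (T : ℝ) : Set (𝓞 K) := {a | ∀ s : K →+* ℂ, ‖s (a : K)‖ ≤ T}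

/-- The pairs `(A, B)` of integers of `K` of height at most `X`. -/
def Bx (X : ℝ) : Set (𝓞 K × 𝓞 K) := {p | p.1 ∈ bx K (X ^ 2) ∧ p.2 ∈ bx K (X ^ 3)}

end Boxes

section Primes

variable {K : Type} [Field K] [NumberField K]

/-- The norm of a prime. -/
noncomputable def Nv (v : HeightOneSpectrum (𝓞 K)) : ℕ := Ideal.absNorm v.asIdeal

/-- Minus the discriminant of `x^3 + A x + B`. -/
def dsc {R : Type*} [CommRing R] (A B : R) : R := 4 * A ^ 3 + 27 * B ^ 2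

/-- The family of pairs `(A, B)`. -/
structure Fam (q₀ : HeightOneSpectrum (𝓞 K)) (T : Finset (HeightOneSpectrum (𝓞 K))) (A B : 𝓞 K) :
    Prop where
  ne : A ≠ 0
  irr : ∀ t : 𝓞 K, t ^ 3 + A * t + B ∉ q₀.asIdeal
  typ : ∀ v ∈ T, ∃ t : 𝓞 K, t ^ 3 + A * t + B ∈ v.asIdeal ∧
    ∀ s : 𝓞 K, -3 * t ^ 2 - 4 * A - s ^ 2 ∉ v.asIdeal
  two : ∀ v : HeightOneSpectrum (𝓞 K), (2 : 𝓞 K) ∈ v.asIdeal → B ∉ v.asIdeal
  three : ∀ v : HeightOneSpectrum (𝓞 K), (3 : 𝓞 K) ∈ v.asIdeal → A ∉ v.asIdeal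
  sqf : ∀ v : HeightOneSpectrum (𝓞 K), (6 : 𝓞 K) ∉ v.asIdeal → dsc A B ∉ v.asIdeal ^ 2

/-- The residue condition on a pair of symmetric `3 × 3` matrices. -/
def Rs {k : Type*} [Field k] (M N : Matrix (Fin 3) (Fin 3) k) : Prop :=
  ∃ (a b t : k) (e : Fin 3 → k), e ≠ 0 ∧
    (∀ x : k, (x • M - N).det = M.det * (x ^ 3 + a * x + b)) ∧
    N.mulVec e = t • M.mulVec e ∧ ¬ IsSquare (-3 * t ^ 2 - 4 * a) ∧
    e ⬝ᵥ M.mulVec e ≠ 0 ∧ IsSquare ((e ⬝ᵥ M.mulVec e) * (3 * t ^ 2 + a))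

noncomputable instance (v : HeightOneSpectrum (𝓞 K)) : Field (𝓞 K ⧸ v.asIdeal) :=
  letI := v.isMaximal
  Ideal.Quotient.field v.asIdeal

/-- Reduction of matrices modulo a prime. -/
noncomputable def rd (v : HeightOneSpectrum (𝓞 K)) (M : Matrix (Fin 3) (Fin 3) (𝓞 K)) :
    Matrix (Fin 3) (Fin 3) (𝓞 K ⧸ v.asIdeal) := M.map (Ideal.Quotient.mk v.asIdeal)

/-- The data attached to a bad pair `(A, B)`. -/
structure Dat (X C₂ : ℝ) (T : Finset (HeightOneSpectrum (𝓞 K))) (A B : 𝓞 K)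
    (l : Fin 3 → ℝ) (M N : Matrix (Fin 3) (Fin 3) (𝓞 K)) : Prop where
  pos : 0 < l 0
  le01 : l 0 ≤ l 1
  le12 : l 1 ≤ l 2
  prod : l 0 * l 1 * l 2 ≤ C₂
  symM : M.IsSymm
  symN : N.IsSymm
  detM : M.det ≠ 0
  bdM : ∀ (s : K →+* ℂ) (i j : Fin 3), ‖s (M i j : K)‖ ≤ l i * l j
  bdN : ∀ (s : K →+* ℂ) (i j : Fin 3), ‖s (N i j : K)‖ ≤ 2 * X * (l i * l j)
  char : ∀ x : 𝓞 K, (x • M - N).det = M.det * (x ^ 3 + A * x + B)
  red : M 0 0 = 0 → N 0 0 ≠ 0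
  fix : ∀ Q : Matrix (Fin 3) (Fin 3) (𝓞 K), Qᵀ * M * Q = M → Qᵀ * N * Q = N →
    (∃ e : Fin 3 → 𝓞 K, e ≠ 0 ∧ Q.mulVec e = e) → Q = 1
  res : ∀ v ∈ T, M.det ∉ v.asIdeal → Rs (rd v M) (rd v N)

end Primes

/-- `L = K(θ)`, `θ` a root of the irreducible polynomial `x^3 + A x + B`. -/
structure Cub (K L : Type) [Field K] [Field L] [Algebra K L] (A B : K) (θ : L) : Prop where
  root : θ ^ 3 + algebraMap K L A * θ + algebraMap K L B = 0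
  li : ∀ c₀ c₁ c₂ : K, algebraMap K L c₀ + algebraMap K L c₁ * θ + algebraMap K L c₂ * θ ^ 2 = 0 →
    c₀ = 0 ∧ c₁ = 0 ∧ c₂ = 0
  sp : ∀ x : L, ∃ c₀ c₁ c₂ : K,
    x = algebraMap K L c₀ + algebraMap K L c₁ * θ + algebraMap K L c₂ * θ ^ 2

end H76PP
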