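import Pool.Agent.H76.PP.Lf

/-!
ROW Lg (project MP_78d38b_PP, about 120 lines): the same with residues at a finite set of primes
(Chinese remainder theorem). Use only the STATEMENT `count_ideal`.

PROOF. `m = ∏ v ∈ T, v.asIdeal ≠ ⊥` (`Finset.prod_ne_zero_iff`), `Ideal.absNorm m = ∏ v ∈ T, Nv v` (`map_prod`).
`S_m = {y : ι → 𝓞 K ⧸ m | ∀ v (hv : v ∈ T), (fun i => Ideal.Quotient.factor _ (y i)) ∈ S v}` (`m ≤ v.asIdeal` for `v ∈ T`:
`Ideal.prod_le_inf`/`Finset.dvd_prod_of_mem`). The given set is contained in the set of `count_ideal` for `S_m`.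
`S_m.ncard ≤ ∏ v ∈ T, (S v).ncard`: the map `S_m → ∏ v ∈ T, S v`, `y ↦ (reductions)` is injective, because an element
of `𝓞 K` which lies in all `v.asIdeal`, `v ∈ T`, lies in `m` (distinct maximal ideals are coprime:
`Ideal.prod_eq_iInf_of_pairwise_isCoprime`-like lemma or `IsDedekindDomain.inf_prime_pow_eq_prod` with exponents one;
or `Finset.prod_dvd_of_coprime` for the ideals `v.asIdeal ∣ span {a}`). Count the product with
`Fintype.card_piFinset`/`Finset.pi` (`Finset.card_pi`), or argue by induction on `T` with one prime at a time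
(`Ideal.quotientInfEquivQuotientProd` / injectivity of `𝓞 K ⧸ (v * m') → 𝓞 K ⧸ v × 𝓞 K ⧸ m'`).
(If some `S v` is empty both sides are zero; the sets `S v` are finite.)
-/

set_option autoImplicit false
open scoped Classical

open NumberField IsDedekindDomain

namespace H76PP

variable (K : Type) [Field K] [NumberField K]

theorem count_primes : ∃ C : ℝ, 1 ≤ C ∧ ∀ (ι : Type) [Fintype ι]
    (T : Finset (HeightOneSpectrum (𝓞 K))) (S : ∀ v : HeightOneSpectrum (𝓞 K),
      Set (ι → 𝓞 K ⧸ v.asIdeal)) (t : ι → ℝ), (∀ i, 0 ≤ t i) →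
      ({x : ι → 𝓞 K | (∀ i, x i ∈ bx K (t i)) ∧
        ∀ v ∈ T, (fun i => Ideal.Quotient.mk v.asIdeal (x i)) ∈ S v}.ncard : ℝ) ≤
      (∏ v ∈ T, ((S v).ncard : ℝ)) *
        ∏ i, (C * (t i ^ (Module.finrank ℚ K) / (∏ v ∈ T, (Nv v : ℝ)) + 1)) := by
  obtain ⟨C, hC1, hC⟩ := count_ideal K
  refine ⟨C, hC1, ?_⟩
  intro ι _ T S t ht
  have hle : ∀ v ∈ T, (∏ w ∈ T, w.asIdeal) ≤ v.asIdeal := fun v hv =>
    Ideal.prod_le_inf.trans (Finset.inf_le hv)
  have hm : (∏ w ∈ T, w.asIdeal) ≠ ⊥ := by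
    have : (∏ w ∈ T, w.asIdeal) ≠ 0 := Finset.prod_ne_zero_iff.mpr (fun v _ => v.ne_bot)
    exact this
  have hnorm : (Ideal.absNorm (∏ w ∈ T, w.asIdeal) : ℝ) = ∏ v ∈ T, (Nv v : ℝ) := by
    rw [map_prod]
    push_cast
    rfl
  have hmem : ∀ a : 𝓞 K, (∀ v ∈ T, a ∈ v.asIdeal) → a ∈ ∏ w ∈ T, w.asIdeal := by
    intro a ha
    rw [← Ideal.dvd_span_singleton]
    refine Finset.prod_dvd_of_coprime ?_ ?_
    · intro v _ w _ hvw
      have := v.isMaximal
      have := w.isMaximal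
      refine Ideal.isCoprime_of_isMaximal ?_
      intro h
      exact hvw (HeightOneSpectrum.ext h)
    · intro v hv
      exact Ideal.dvd_span_singleton.mpr (ha v hv)
  set Sm : Set (ι → 𝓞 K ⧸ (∏ w ∈ T, w.asIdeal)) :=
    {y | ∀ v (hv : v ∈ T), (fun i => Ideal.Quotient.factor (hle v hv) (y i)) ∈ S v} with hSm
  have hset : {x : ι → 𝓞 K | (∀ i, x i ∈ bx K (t i)) ∧
        ∀ v ∈ T, (fun i => Ideal.Quotient.mk v.asIdeal (x i)) ∈ S v} =
      {x : ι → 𝓞 K | (∀ i, x i ∈ bx K (t i)) ∧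
        (fun i => Ideal.Quotient.mk (∏ w ∈ T, w.asIdeal) (x i)) ∈ Sm} := by
    ext x
    simp only [Set.mem_setOf_eq, hSm, Ideal.Quotient.factor_mk]
  have hcard : Sm.ncard ≤ ∏ v ∈ T, (S v).ncard := by
    have hfin : ∀ v : HeightOneSpectrum (𝓞 K), Finite (𝓞 K ⧸ v.asIdeal) := fun v =>
      Ideal.finiteQuotientOfFreeOfNeBot v.asIdeal v.ne_bot
    have hfin2 : ∀ v : HeightOneSpectrum (𝓞 K), Finite (ι → 𝓞 K ⧸ v.asIdeal) := fun v => by
      have := hfin v
      infer_instance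
    have hfin3 : ∀ v : HeightOneSpectrum (𝓞 K), Finite (S v) := fun v => by
      have := hfin2 v
      infer_instance
    let f : Sm → ((v : T) → S (v : HeightOneSpectrum (𝓞 K))) := fun y v =>
      ⟨fun i => Ideal.Quotient.factor (hle v.1 v.2) (y.1 i), y.2 v.1 v.2⟩
    have hf : Function.Injective f := by
      intro y y' h
      apply Subtype.ext
      funext i
      obtain ⟨a, ha⟩ := Ideal.Quotient.mk_surjective (y.1 i)
      obtain ⟨b, hb⟩ := Ideal.Quotient.mk_surjective (y'.1 i)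
      rw [← ha, ← hb, Ideal.Quotient.eq]
      apply hmem
      intro v hv
      have h1 := congrFun h ⟨v, hv⟩
      have h2 := congrFun (congrArg Subtype.val h1) i
      simp only [f] at h2
      rw [← ha, ← hb, Ideal.Quotient.factor_mk, Ideal.Quotient.factor_mk, Ideal.Quotient.eq] at h2
      exact h2
    have h1 : Nat.card Sm ≤ Nat.card ((v : T) → S (v : HeightOneSpectrum (𝓞 K))) :=
      Nat.card_le_card_of_injective f hf
    rw [Nat.card_pi] at h1
    calc Sm.ncard = Nat.card Sm := (Nat.card_coe_set_eq Sm).symm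
      _ ≤ ∏ v : T, Nat.card (S (v : HeightOneSpectrum (𝓞 K))) := h1
      _ = ∏ v : T, (S (v : HeightOneSpectrum (𝓞 K))).ncard := by
        refine Finset.prod_congr rfl ?_
        intro v _
        exact Nat.card_coe_set_eq _
      _ = ∏ v ∈ T, (S v).ncard := Finset.prod_coe_sort T (fun v => (S v).ncard)
  rw [hset]
  have key := hC ι (∏ w ∈ T, w.asIdeal) hm Sm t ht
  rw [hnorm] at key
  refine key.trans ?_
  refine mul_le_mul_of_nonneg_right ?_ ?_
  · exact_mod_cast hcard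
  · refine Finset.prod_nonneg ?_
    intro i _
    have h1 : 0 ≤ ∏ v ∈ T, (Nv v : ℝ) := Finset.prod_nonneg (fun v _ => Nat.cast_nonneg _)
    have h2 : 0 ≤ t i ^ (Module.finrank ℚ K) := pow_nonneg (ht i) _
    have h3 : 0 ≤ t i ^ (Module.finrank ℚ K) / (∏ v ∈ T, (Nv v : ℝ)) := div_nonneg h2 h1
    have h4 : 0 ≤ C := by linarith
    exact mul_nonneg h4 (by linarith)

end H76PP
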