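import Pool.Agent.H76.PP.Eb

/-!
ROW Ea (project MP_78d38b_PP, about 220 lines): the ring of integers of `L` is `𝓞 K [θ]` if
`4 A^3 + 27 B^2` is squarefree. Use only STATEMENTS of the imported files.

PROOF. unit_or: for every prime `v` of `K`: `dsc A B ∉ v.asIdeal ^ 2`. If `6 ∉ v` this is `hF.sqf`. If `6 = 2 * 3 ∈ v` then
`2 ∈ v` or `3 ∈ v`. If `2 ∈ v`: `4 A^3 ∈ v`, `27 B^2 ∉ v` (`B ∉ v` by `hF.two`, `27 = 1 + 13 * 2 ∉ v`), so `dsc ∉ v` and a fortiori
`∉ v^2` (`Ideal.pow_le_self`). If `3 ∈ v`: `27 B^2 ∈ v`, `4 A^3 ∉ v` (`4 = 1 + 3`).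
int_coord: let `x : 𝓞 L`, `cᵢ = h.co i x ∈ K`. Suppose some `cᵢ` is not in the image of `𝓞 K`; then
(`HeightOneSpectrum.mem_integers_of_valuation_le_one`) there is `v` with `v.valuation K cᵢ > 1` for some `i`; choose `i₀`
with the largest valuation `exp m`, `m ≥ 1`. There is `a : 𝓞 K` with `v.valuation K a = exp (1 - m)` (a power of an
element of `v` not in `v^2`; `v.valuation_exists_uniformizer` gives an element of `K`; or
`HeightOneSpectrum.intValuation_exists_uniformizer` gives `ϖ : 𝓞 K` with `intValuation = exp (-1)`, `a = ϖ^(m-1)`).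
`y = a x ∈ 𝓞 L` has the coordinates `a cᵢ`, `v (a c_{i₀}) = exp 1`, all `v (a cᵢ) ≤ exp 1`. Consider the three elements
`b = (1, θ, θ^2)` with the entry `i₀` replaced by `y`; they are integral (`θ` is integral over `𝓞 K` by `h.root`: use
`IsIntegral` of a root of the monic polynomial `X^3 + C A X + C B`; `y : 𝓞 L`). So `Algebra.discr K b` is integral over
`𝓞 K` (`Algebra.discr_isIntegral` over `𝓞 K`, or `Algebra.discr_def`, `traceMatrix`, `Algebra.isIntegral_trace` and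
`IsIntegral` closed under `det`), hence its `v`-valuation is `≤ 1`. On the other hand `b = (1, θ, θ^2) P` with `P` the identity
matrix with the column `i₀` replaced by the coordinates of `y`: `det P = a c_{i₀}` (three cases, `Matrix.det_fin_three`), and
`Algebra.discr_of_matrix_vecMul` gives `discr b = (a c_{i₀})^2 discr (1, θ, θ^2)`, where
`discr K ![1, θ, θ^2] = -(4 A^3 + 27 B^2)` (determinant of the matrix of the traces of `1, θ, .., θ^4`, which are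
`3, 0, -2A, -3B, 2A^2` by `Cub.trace` and `Cub.co_mul`; `θ^3 = -Aθ - B`, `θ^4 = -Aθ^2 - Bθ`).
So `exp 2 * v (dsc A B) ≤ 1`, i.e. `v (dsc A B) ≤ exp (-2)`, so `dsc A B ∈ v.asIdeal^2`
(`HeightOneSpectrum.intValuation_le_pow_iff_mem`, `valuation_of_algebraMap`), contradiction.
(Shorter: the determinant of the trace matrix of `b` can be computed directly by `Matrix.det_fin_three`.)
-/

set_option autoImplicit false
open scoped Classical

open WithZero NumberField IsDedekindDomain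

namespace H76PP

variable {K : Type} [Field K] [NumberField K]

theorem Fam.dsc_notMem {q₀ : HeightOneSpectrum (𝓞 K)} {T : Finset (HeightOneSpectrum (𝓞 K))}
    {A B : 𝓞 K} (hF : Fam q₀ T A B) (v : HeightOneSpectrum (𝓞 K)) : dsc A B ∉ v.asIdeal ^ 2 := by
  by_cases h6 : (6 : 𝓞 K) ∈ v.asIdeal
  · intro hd
    have hd1 : dsc A B ∈ v.asIdeal := Ideal.pow_le_self two_ne_zero hd
    unfold dsc at hd1
    have e6 : (6 : 𝓞 K) = 2 * 3 := by norm_num
    rw [e6] at h6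
    rcases v.isPrime.mem_or_mem h6 with h2 | h3
    · have h4 : B ^ 2 ∈ v.asIdeal := by
        have e1 : B ^ 2 = (4 * A ^ 3 + 27 * B ^ 2) - (2 * A ^ 3 + 13 * B ^ 2) * 2 := by ring
        rw [e1]
        exact v.asIdeal.sub_mem hd1 (v.asIdeal.mul_mem_left _ h2)
      exact hF.two v h2 (v.isPrime.mem_of_pow_mem 2 h4)
    · have h4 : A ^ 3 ∈ v.asIdeal := by
        have e1 : A ^ 3 = (4 * A ^ 3 + 27 * B ^ 2) - (A ^ 3 + 9 * B ^ 2) * 3 := by ring
        rw [e1]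
        exact v.asIdeal.sub_mem hd1 (v.asIdeal.mul_mem_left _ h3)
      exact hF.three v h3 (v.isPrime.mem_of_pow_mem 3 h4)
  · exact hF.sqf v h6

theorem Ea_cast (A B : 𝓞 K) :
    ((dsc A B : 𝓞 K) : K) = 4 * (A : K) ^ 3 + 27 * (B : K) ^ 2 := by
  unfold dsc
  push_cast
  rfl

theorem Fam.dsc_ne {q₀ : HeightOneSpectrum (𝓞 K)} {T : Finset (HeightOneSpectrum (𝓞 K))}
    {A B : 𝓞 K} (hF : Fam q₀ T A B) : (4 * (A : K) ^ 3 + 27 * (B : K) ^ 2) ≠ 0 := by
  intro h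
  apply hF.dsc_notMem q₀
  have h1 : dsc A B = 0 := by
    apply RingOfIntegers.coe_injective
    show ((dsc A B : 𝓞 K) : K) = ((0 : 𝓞 K) : K)
    rw [Ea_cast, h]
    exact (map_zero (algebraMap (𝓞 K) K)).symm
  rw [h1]
  exact Submodule.zero_mem _

theorem theta_int {L : Type} [Field L] [NumberField L] [Algebra K L] {A B : 𝓞 K} {θ : L}
    (h : Cub K L (A : K) (B : K) θ) : ∃ t : 𝓞 L, (t : L) = θ := by
  have h1 : IsIntegral (𝓞 K) θ := by
    refine ⟨Polynomial.X ^ 3 + (Polynomial.C A * Polynomial.X + Polynomial.C B), ?_, ?_⟩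
    · refine Polynomial.monic_X_pow_add ?_
      refine lt_of_le_of_lt Polynomial.degree_linear_le ?_
      norm_num
    · rw [Polynomial.eval₂_add, Polynomial.eval₂_add, Polynomial.eval₂_mul, Polynomial.eval₂_pow,
        Polynomial.eval₂_X, Polynomial.eval₂_C, Polynomial.eval₂_C]
      have h2 := h.root
      rw [← h2, ← add_assoc]
      rfl
  have h2 : IsIntegral ℤ θ := isIntegral_trans θ h1
  exact ⟨⟨θ, h2⟩, rfl⟩

/-- the trace of an integer -/
theorem Ea_tr {L : Type} [Field L] [NumberField L] [Algebra K L] (x : 𝓞 L) :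
    ∃ t : 𝓞 K, (t : K) = Algebra.trace K L (x : L) :=
  ⟨⟨_, Algebra.isIntegral_trace x.isIntegral_coe⟩, rfl⟩

theorem Ea_val {v : HeightOneSpectrum (𝓞 K)} {c : K} {d E : 𝓞 K} (hd : d ∉ v.asIdeal ^ 2)
    (hE : (E : K) = -(c ^ 2 * (d : K))) : v.valuation K c ≤ 1 := by
  have h1 : exp (-1 : ℤ) ≤ v.valuation K (d : K) := by
    have h2 := mt (v.intValuation_le_pow_iff_mem d 2).1 hd
    rw [not_le] at h2
    have h3 : v.valuation K (d : K) = v.intValuation d := v.valuation_of_algebraMap d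
    have h0 : v.intValuation d ≠ 0 := fun h0 => by
      rw [h0] at h2
      exact absurd h2 not_lt_zero
    rw [h3]
    rw [← exp_log h0, exp_lt_exp] at h2
    rw [← exp_log h0, exp_le_exp]
    push_cast at h2
    omega
  have h4 : v.valuation K (E : K) ≤ 1 := v.valuation_le_one E
  rw [hE, Valuation.map_neg, map_mul, map_pow] at h4
  by_contra hc
  rw [not_le] at hc
  have h0 : v.valuation K c ≠ 0 := fun h0 => by
    rw [h0] at hc
    exact absurd hc not_lt_zero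
  have h5 : exp (1 : ℤ) ≤ v.valuation K c := by
    rw [← exp_log h0, ← exp_zero, exp_lt_exp] at hc
    rw [← exp_log h0, exp_le_exp]
    omega
  have h6 : exp (1 : ℤ) ^ 2 * exp (-1 : ℤ) ≤ v.valuation K c ^ 2 * v.valuation K (d : K) :=
    mul_le_mul' (pow_le_pow_left' h5 2) h1
  have h7 := h6.trans h4
  rw [← exp_nsmul, ← exp_add, ← exp_zero, exp_le_exp] at h7
  norm_num at h7

theorem int_coord {q₀ : HeightOneSpectrum (𝓞 K)} {T : Finset (HeightOneSpectrum (𝓞 K))}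
    {A B : 𝓞 K} (hF : Fam q₀ T A B) {L : Type} [Field L] [NumberField L] [Algebra K L] {θ : L}
    (h : Cub K L (A : K) (B : K) θ) (x : 𝓞 L) :
    ∃ c : Fin 3 → 𝓞 K, ∀ i, h.co i (x : L) = (c i : K) := by
  obtain ⟨t, ht⟩ := theta_int h
  obtain ⟨s, hs⟩ := Ea_tr (K := K) (x * x)
  obtain ⟨t0, ht0⟩ := Ea_tr (K := K) x
  obtain ⟨t1, ht1⟩ := Ea_tr (K := K) (x * t)
  obtain ⟨t2, ht2⟩ := Ea_tr (K := K) (x * (t * t))
  have e1 : ((x * x : 𝓞 L) : L) = (x : L) * (x : L) := by push_cast; rfl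
  have e2 : ((x * t : 𝓞 L) : L) = (x : L) * θ := by rw [← ht]; push_cast; rfl
  have e3 : ((x * (t * t) : 𝓞 L) : L) = (x : L) * θ ^ 2 := by
    rw [← ht, sq]
    push_cast
    rfl
  rw [e1, h.trace, (h.co_mul _ _).1, (h.co_mul _ _).2.2] at hs
  rw [h.trace] at ht0
  rw [e2, h.trace, (h.co_mul _ _).1, (h.co_mul _ _).2.2, h.co_theta.1, h.co_theta.2.1,
    h.co_theta.2.2] at ht1
  rw [e3, h.trace, (h.co_mul _ _).1, (h.co_mul _ _).2.2, h.co_theta_sq.1, h.co_theta_sq.2.1,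
    h.co_theta_sq.2.2] at ht2
  obtain ⟨a, ha⟩ : ∃ a, a = algebraMap (𝓞 K) K A := ⟨_, rfl⟩
  obtain ⟨b, hb⟩ : ∃ b, b = algebraMap (𝓞 K) K B := ⟨_, rfl⟩
  obtain ⟨c0, hc0⟩ : ∃ c0, c0 = h.co 0 (x : L) := ⟨_, rfl⟩
  obtain ⟨c1, hc1⟩ : ∃ c1, c1 = h.co 1 (x : L) := ⟨_, rfl⟩
  obtain ⟨c2, hc2⟩ : ∃ c2, c2 = h.co 2 (x : L) := ⟨_, rfl⟩
  have hs' : algebraMap (𝓞 K) K s = 3 * (c0 * c0 - b * (c1 * c2 + c2 * c1)) -
      2 * a * (c0 * c2 + c1 * c1 + c2 * c0 - a * (c2 * c2)) := by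
    rw [hc0, hc1, hc2, ha, hb]
    exact hs
  have ht0' : algebraMap (𝓞 K) K t0 = 3 * c0 - 2 * a * c2 := by
    rw [hc0, hc2, ha]
    exact ht0
  have ht1' : algebraMap (𝓞 K) K t1 = 3 * (c0 * 0 - b * (c1 * 0 + c2 * 1)) -
      2 * a * (c0 * 0 + c1 * 1 + c2 * 0 - a * (c2 * 0)) := by
    rw [hc0, hc1, hc2, ha, hb]
    exact ht1
  have ht2' : algebraMap (𝓞 K) K t2 = 3 * (c0 * 0 - b * (c1 * 1 + c2 * 0)) -
      2 * a * (c0 * 1 + c1 * 0 + c2 * 0 - a * (c2 * 1)) := by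
    rw [hc0, hc1, hc2, ha, hb]
    exact ht2
  have hd : ((dsc A B : 𝓞 K) : K) = 4 * a ^ 3 + 27 * b ^ 2 := by
    rw [ha, hb]
    exact Ea_cast A B
  have key0 : ∃ E : 𝓞 K, (E : K) = -(h.co 0 (x : L) ^ 2 * ((dsc A B : 𝓞 K) : K)) := by
    refine ⟨s * ((-2 * A) * (2 * A ^ 2) - 9 * B ^ 2) - t1 * (t1 * (2 * A ^ 2) + 3 * B * t2) +
        t2 * (t1 * (-3 * B) + 2 * A * t2), ?_⟩
    rw [hd, ← hc0]
    show algebraMap (𝓞 K) K _ = _
    simp only [map_add, map_mul, map_sub, map_pow, map_neg, map_ofNat, hs', ht1', ht2', ← ha, ← hb]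
    ring
  have key1 : ∃ E : 𝓞 K, (E : K) = -(h.co 1 (x : L) ^ 2 * ((dsc A B : 𝓞 K) : K)) := by
    refine ⟨3 * (s * (2 * A ^ 2) - t2 * t2) - t0 * (t0 * (2 * A ^ 2) + 2 * A * t2) +
        (-2 * A) * (t0 * t2 + 2 * A * s), ?_⟩
    rw [hd, ← hc1]
    show algebraMap (𝓞 K) K _ = _
    simp only [map_add, map_mul, map_sub, map_pow, map_neg, map_ofNat, hs', ht0', ht2', ← ha, ← hb]
    ring
  have key2 : ∃ E : 𝓞 K, (E : K) = -(h.co 2 (x : L) ^ 2 * ((dsc A B : 𝓞 K) : K)) := by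
    refine ⟨3 * (-2 * A * s - t1 * t1) + t0 * (2 * A * t0), ?_⟩
    rw [hd, ← hc2]
    show algebraMap (𝓞 K) K _ = _
    simp only [map_add, map_mul, map_sub, map_pow, map_neg, map_ofNat, hs', ht0', ht1', ← ha, ← hb]
    ring
  have key : ∀ i, ∃ E : 𝓞 K, (E : K) = -(h.co i (x : L) ^ 2 * ((dsc A B : 𝓞 K) : K)) := by
    intro i
    fin_cases i
    · exact key0
    · exact key1
    · exact key2
  have hval : ∀ i, ∃ c : 𝓞 K, h.co i (x : L) = (c : K) := by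
    intro i
    obtain ⟨E, hE⟩ := key i
    obtain ⟨c, hc⟩ := HeightOneSpectrum.mem_integers_of_valuation_le_one K (h.co i (x : L))
      fun v => Ea_val (hF.dsc_notMem v) hE
    exact ⟨c, hc.symm⟩
  choose c hc using hval
  exact ⟨c, hc⟩

end H76PP
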