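import Pool.Agent.H76.PP.Eb

/-!
ROW Ec (project MP_78d38b_PP, about 170 lines): the two symmetric matrices attached to a basis
`e 0, e 1, e 2` of `L` over `K` and a factor `z₀ = 1/δ`.

PROOF. `Mx i j = co 2 (e i * e j * z₀)`, `Nx i j = co 2 (θ * (e i * e j * z₀))`.
Let `E` be the matrix with `E a j = co a (e j)` (coordinates), `M₀ a b = co 2 (θ^a θ^b z₀)`, `N₀ a b = co 2 (θ (θ^a θ^b z₀))` for
`a, b ∈ Fin 3`. By linearity `Mx = Eᵀ M₀ E`, `Nx = Eᵀ N₀ E` (`Cub.eq_co` for `e i`, `e j`, linearity of `co 2`; or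
avoid sums: both sides are bilinear, expand with `Fin.sum_univ_three`).
Let `z₀` have the coordinates `(p, q, r)`. Then (by `Cub.co_mul`; `θ^3 = -Aθ - B`) `M₀` and `N₀` are explicit:
`co 2 (z₀) = r`, `co 2 (θ z₀) = q`, `co 2 (θ^2 z₀) = p - A r`, `co 2 (θ^3 z₀) = -A q - B r`, `co 2 (θ^4 z₀) = -A (p - A r) - B q`,
`co 2 (θ^5 z₀) = -A(-A q - B r) - B (p - A r)`; `M₀ a b` is the entry `a + b`, `N₀ a b` the entry `a + b + 1`.
`det (x M₀ - N₀) = det M₀ (x^3 + A x + B)` is a polynomial identity (`Matrix.det_fin_three`, `ring`), and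
`det M₀ = - N(z₀)` (`Cub.norm`), nonzero because `z₀ ≠ 0` (`Algebra.norm_ne_zero_iff`). `det E ≠ 0` because the `e i`
are linearly independent (`Module.Basis.det`/`LinearIndependent` of the columns: `Matrix.det ≠ 0` iff rows/columns are
linearly independent, `Matrix.linearIndependent_cols_iff_isUnit`; the coordinate map is a linear equivalence).
So `det (x Mx - Nx) = det E ^2 det (x M₀ - N₀)` etc.
expand: for `u = ∑ c i • e i`: `∑ i j, c i * c j * Mx i j = co 2 (u * u * z₀)` and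
`(Mx.mulVec c) j = co 2 (u * e j * z₀)`, `(Nx.mulVec c) j = co 2 (θ * (u * e j * z₀))`.
-/

set_option autoImplicit false
open scoped Classical

open NumberField IsDedekindDomain
open scoped Matrix

namespace H76PP

variable {K L : Type} [Field K] [Field L] [Algebra K L] {A B : K} {θ : L}

/-- The matrix of the form `co 2 (x y z₀)`. -/
noncomputable def Mx (h : Cub K L A B θ) (e : Fin 3 → L) (z₀ : L) : Matrix (Fin 3) (Fin 3) K :=
  Matrix.of fun i j => h.co 2 (e i * e j * z₀)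

/-- The matrix of the form `co 2 (θ x y z₀)`. -/
noncomputable def Nx (h : Cub K L A B θ) (e : Fin 3 → L) (z₀ : L) : Matrix (Fin 3) (Fin 3) K :=
  Matrix.of fun i j => h.co 2 (θ * (e i * e j * z₀))

theorem Mx_symm (h : Cub K L A B θ) (e : Fin 3 → L) (z₀ : L) : (Mx h e z₀).IsSymm := by
  ext i j
  rw [Matrix.transpose_apply, Mx, Matrix.of_apply, Matrix.of_apply, mul_comm (e j) (e i)]

theorem Nx_symm (h : Cub K L A B θ) (e : Fin 3 → L) (z₀ : L) : (Nx h e z₀).IsSymm := by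
  ext i j
  rw [Matrix.transpose_apply, Nx, Matrix.of_apply, Matrix.of_apply, mul_comm (e j) (e i)]

/-- The coordinates. -/
noncomputable def Ec_E (h : Cub K L A B θ) (e : Fin 3 → L) : Matrix (Fin 3) (Fin 3) K :=
  Matrix.of fun a j => h.co a (e j)

/-- The first form in the basis `1, θ, θ^2`. -/
def Ec_M0 (A B p q r : K) : Matrix (Fin 3) (Fin 3) K :=
  !![r, q, p - A * r; q, p - A * r, -A * q - B * r;
    p - A * r, -A * q - B * r, -A * (p - A * r) - B * q]

/-- The second form in the basis `1, θ, θ^2`. -/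
def Ec_N0 (A B p q r : K) : Matrix (Fin 3) (Fin 3) K :=
  !![q, p - A * r, -A * q - B * r; p - A * r, -A * q - B * r, -A * (p - A * r) - B * q;
    -A * q - B * r, -A * (p - A * r) - B * q, -A * (-A * q - B * r) - B * (p - A * r)]

theorem Ec_M (h : Cub K L A B θ) (e : Fin 3 → L) (z₀ : L) :
    Mx h e z₀ = (Ec_E h e)ᵀ * Ec_M0 A B (h.co 0 z₀) (h.co 1 z₀) (h.co 2 z₀) * Ec_E h e := by
  ext i j
  obtain ⟨a0, a1, a2⟩ := h.co_mul (e i) (e j)
  obtain ⟨b0, b1, b2⟩ := h.co_mul (e i * e j) z₀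
  simp only [Mx, Matrix.of_apply, b2, a0, a1, a2, Matrix.mul_apply, Fin.sum_univ_three,
    Matrix.transpose_apply, Ec_E, Ec_M0, Matrix.cons_val', Matrix.cons_val_zero, Matrix.cons_val_one,
    Matrix.cons_val_two, Matrix.head_cons, Matrix.tail_cons, Matrix.head_fin_const,
    Matrix.empty_val', Matrix.cons_val_fin_one]
  simp
  ring

theorem Ec_theta (h : Cub K L A B θ) (w : L) : h.co 2 (θ * w) = h.co 1 w := by
  obtain ⟨a0, a1, a2⟩ := h.co_theta
  obtain ⟨b0, b1, b2⟩ := h.co_mul θ w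
  rw [b2, a0, a1, a2]
  ring

theorem Ec_N (h : Cub K L A B θ) (e : Fin 3 → L) (z₀ : L) :
    Nx h e z₀ = (Ec_E h e)ᵀ * Ec_N0 A B (h.co 0 z₀) (h.co 1 z₀) (h.co 2 z₀) * Ec_E h e := by
  ext i j
  obtain ⟨a0, a1, a2⟩ := h.co_mul (e i) (e j)
  obtain ⟨b0, b1, b2⟩ := h.co_mul (e i * e j) z₀
  simp only [Nx, Matrix.of_apply, Ec_theta, b1, a0, a1, a2, Matrix.mul_apply, Fin.sum_univ_three,
    Matrix.transpose_apply, Ec_E, Ec_N0, Matrix.cons_val', Matrix.cons_val_zero, Matrix.cons_val_one,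
    Matrix.cons_val_two, Matrix.head_cons, Matrix.tail_cons, Matrix.head_fin_const,
    Matrix.empty_val', Matrix.cons_val_fin_one]
  simp
  ring

theorem Ec_detM (h : Cub K L A B θ) (z : L) :
    (Ec_M0 A B (h.co 0 z) (h.co 1 z) (h.co 2 z)).det = -Algebra.norm K z := by
  rw [h.norm, Matrix.det_fin_three, Matrix.det_fin_three, Ec_M0]
  simp
  ring

theorem Ec_char (A B p q r x : K) :
    (x • Ec_M0 A B p q r - Ec_N0 A B p q r).det = (Ec_M0 A B p q r).det * (x ^ 3 + A * x + B) := by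
  rw [Matrix.det_fin_three, Matrix.det_fin_three, Ec_M0, Ec_N0]
  simp
  ring

theorem Ec_detE (h : Cub K L A B θ) {e : Fin 3 → L} (he : LinearIndependent K e) :
    (Ec_E h e).det ≠ 0 := by
  have hfin : Module.Finite K L := Module.Finite.of_basis h.basis
  have h1 : Submodule.span K (Set.range e) = ⊤ := by
    apply he.span_eq_top_of_card_eq_finrank'
    rw [h.finrank, Fintype.card_fin]
  have h2 := (h.basis.is_basis_iff_det).1 ⟨he, h1⟩
  rw [Module.Basis.det_apply] at h2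
  exact h2.ne_zero

theorem Mx_det (h : Cub K L A B θ) {e : Fin 3 → L} (he : LinearIndependent K e) {z₀ : L}
    (hz : z₀ ≠ 0) : (Mx h e z₀).det ≠ 0 := by
  have hfin : Module.Finite K L := Module.Finite.of_basis h.basis
  rw [Ec_M, Matrix.det_mul, Matrix.det_mul, Matrix.det_transpose, Ec_detM]
  have h1 := Ec_detE h he
  have h2 : Algebra.norm K z₀ ≠ 0 := (Algebra.norm_ne_zero_iff (R := K)).2 hz
  exact mul_ne_zero (mul_ne_zero h1 (neg_ne_zero.2 h2)) h1

theorem Mx_char (h : Cub K L A B θ) (e : Fin 3 → L) (z₀ : L) (x : K) :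
    (x • Mx h e z₀ - Nx h e z₀).det = (Mx h e z₀).det * (x ^ 3 + A * x + B) := by
  have h1 : x • Mx h e z₀ - Nx h e z₀ = (Ec_E h e)ᵀ *
      (x • Ec_M0 A B (h.co 0 z₀) (h.co 1 z₀) (h.co 2 z₀) -
        Ec_N0 A B (h.co 0 z₀) (h.co 1 z₀) (h.co 2 z₀)) * Ec_E h e := by
    rw [Ec_M, Ec_N, Matrix.mul_sub, Matrix.sub_mul, Matrix.mul_smul, Matrix.smul_mul]
  rw [h1, Ec_M, Matrix.det_mul, Matrix.det_mul, Matrix.det_mul, Matrix.det_mul, Ec_char]
  ring

theorem Mx_mulVec (h : Cub K L A B θ) (e : Fin 3 → L) (z₀ : L) (c : Fin 3 → K) (j : Fin 3) :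
    (Mx h e z₀).mulVec c j = h.co 2 ((∑ i, c i • e i) * e j * z₀) ∧
    (Nx h e z₀).mulVec c j = h.co 2 (θ * ((∑ i, c i • e i) * e j * z₀)) := by
  constructor
  · rw [Finset.sum_mul, Finset.sum_mul, map_sum, Matrix.mulVec, dotProduct]
    refine Finset.sum_congr rfl fun i _ => ?_
    rw [Mx, Matrix.of_apply, smul_mul_assoc, smul_mul_assoc, map_smul, smul_eq_mul, mul_comm (e j) (e i),
      mul_comm]
  · rw [Finset.sum_mul, Finset.sum_mul, Finset.mul_sum, map_sum, Matrix.mulVec, dotProduct]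
    refine Finset.sum_congr rfl fun i _ => ?_
    rw [Nx, Matrix.of_apply, smul_mul_assoc, smul_mul_assoc, mul_smul_comm, map_smul, smul_eq_mul,
      mul_comm (e j) (e i), mul_comm]

theorem Mx_quad (h : Cub K L A B θ) (e : Fin 3 → L) (z₀ : L) (c : Fin 3 → K) :
    c ⬝ᵥ (Mx h e z₀).mulVec c = h.co 2 ((∑ i, c i • e i) * (∑ i, c i • e i) * z₀) := by
  obtain ⟨u, hu⟩ : ∃ u : L, u = ∑ i, c i • e i := ⟨_, rfl⟩
  have h1 : u * (∑ i, c i • e i) * z₀ = ∑ i, c i • (u * e i * z₀) := by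
    rw [Finset.mul_sum, Finset.sum_mul]
    refine Finset.sum_congr rfl fun i _ => ?_
    rw [mul_smul_comm, smul_mul_assoc]
  have h2 : ∀ j, (Mx h e z₀).mulVec c j = h.co 2 (u * e j * z₀) := by
    intro j
    rw [(Mx_mulVec h e z₀ c j).1, ← hu]
  have h3 : h.co 2 (u * (∑ i, c i • e i) * z₀) = ∑ i, c i * h.co 2 (u * e i * z₀) := by
    rw [h1, map_sum]
    refine Finset.sum_congr rfl fun i _ => ?_
    rw [map_smul, smul_eq_mul]
  rw [← hu] at h3 ⊢
  rw [h3, dotProduct]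
  refine Finset.sum_congr rfl fun i _ => ?_
  rw [h2]

end H76PP
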