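import Pool.Agent.H76.PP.Df1
import Pool.Agent.H38.T1.Ea

/-!
ROW Fb (project MP_78d38b_PP, about 130 lines): a unit in a trivial square class is a square in the residue field.

PROOF. `x^2 = z δ`, `z ∉ w`, so `z ≠ 0`, `w.valuation L z = 1`. If `x = 0` then `z δ = 0`, impossible. `sc δ = sc z` (`z = x^2 / δ`:
`H38T1.sc_mul`, `sc (x^2) = 0` by `H38T1.sc_eq_zero`, `SC.two_smul`; or `sc (z * δ) = sc z + sc δ = 0`). So
`la w (sc z) = 0`; `H38T1.la_sc` (for odd `w`) and `H38RT.lam_unit`: `lam = 0` means `Sq (w.valuation L) z`: there is `s : L` with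
`w.valuation L (z - s^2) < 1`. Then `w.valuation L s ≤ 1`, and there is `s' : 𝓞 L` with `w.valuation L (s - s') < 1`
(`HeightOneSpectrum.exists_valuation_sub_lt_of_integer` or as in `Pool/Agent/H38/RT/Rs.lean`), so `z - s'^2 ∈ w.asIdeal`
(`HeightOneSpectrum.valuation_lt_one_iff_mem`), and `χ z = (χ s')^2`.
-/

set_option autoImplicit false
open scoped Classical

open WithZero NumberField IsDedekindDomain H38RT
open H38T1 (SC sc scu rep eo la si Pri OddP tp unif)

namespace H76PP

theorem isSquare_res {L : Type} [Field L] [NumberField L] {w : HeightOneSpectrum (𝓞 L)}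
    (hw : OddP w) {k : Type} [Field k] (χ : 𝓞 L →+* k) (hχ : ∀ x, x ∈ w.asIdeal → χ x = 0)
    {z δ x : 𝓞 L} (hδ : δ ≠ 0) (hz : z ∉ w.asIdeal) (hx : x ^ 2 = z * δ)
    (hla : la w (sc (δ : L)) = 0) : IsSquare (χ z) := by
  have hz0 : z ≠ 0 := by
    rintro rfl
    exact hz (Ideal.zero_mem _)
  have hzL : (z : L) ≠ 0 := by simpa using hz0
  have hδL : (δ : L) ≠ 0 := by simpa using hδ
  have hVz : w.valuation L (z : L) = 1 := by
    have h2 : w.valuation L (z : L) = w.intValuation z := w.valuation_of_algebraMap z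
    have h3 : ¬ w.intValuation z < 1 := fun h4 => hz ((w.intValuation_lt_one_iff_mem z).mp h4)
    rw [h2]
    exact le_antisymm (w.intValuation_le_one z) (not_lt.mp h3)
  have hxL : (z : L) * (δ : L) = (x : L) * (x : L) := by
    have h8 := congrArg (algebraMap (𝓞 L) L) hx
    rw [map_mul, map_pow, sq] at h8
    exact h8.symm
  have hsc : sc ((z : L) * (δ : L)) = 0 :=
    (H38T1.sc_eq_zero (mul_ne_zero hzL hδL)).2 ⟨(x : L), hxL⟩
  rw [H38T1.sc_mul hzL hδL] at hsc
  have h1 : la w (sc (z : L) + sc (δ : L)) = 0 := by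
    rw [hsc]
    exact H38T1.la_zero hw
  rw [H38T1.la_add hw, hla, add_zero, H38T1.la_sc hw hzL, lam_unit hVz] at h1
  have hSq : Sq (w.valuation L) (z : L) := by
    by_contra hcon
    rw [if_neg hcon] at h1
    exact one_ne_zero h1
  obtain ⟨s, hs⟩ := hSq
  have hs1 : w.valuation L s ≤ 1 := by
    have h2 : w.valuation L (s ^ 2) ≤ 1 := by
      have h3 : s ^ 2 = (z : L) - ((z : L) - s ^ 2) := by ring
      rw [h3]
      refine (Valuation.map_sub _ _ _).trans (max_le hVz.le hs.le)
    rw [map_pow] at h2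
    exact (pow_le_one_iff two_ne_zero).1 h2
  obtain ⟨a, ha⟩ := w.exists_valuation_sub_lt_of_integer hs1 1
  have ha' : w.valuation L ((a : L) - s) < 1 := by simpa using ha
  have haL : w.valuation L (a : L) ≤ 1 := w.valuation_le_one a
  have h4 : w.valuation L ((z : L) - (a : L) ^ 2) < 1 := by
    have h3 : (z : L) - (a : L) ^ 2 = ((z : L) - s ^ 2) - ((a : L) - s) * ((a : L) + s) := by ring
    rw [h3]
    refine (Valuation.map_sub _ _ _).trans_lt (max_lt hs ?_)
    rw [map_mul]
    have h5 : w.valuation L ((a : L) + s) ≤ 1 :=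
      (Valuation.map_add _ _ _).trans (max_le haL hs1)
    exact (mul_le_of_le_one_right' h5).trans_lt ha'
  have h5 : z - a ^ 2 ∈ w.asIdeal := by
    have h6 : (algebraMap (𝓞 L) L) (z - a ^ 2) = (z : L) - (a : L) ^ 2 := by
      rw [map_sub, map_pow]
    rw [← h6] at h4
    exact (HeightOneSpectrum.valuation_lt_one_iff_mem (K := L) w (z - a ^ 2)).mp h4
  have h6 := hχ _ h5
  rw [map_sub, map_pow, sub_eq_zero, sq] at h6
  exact ⟨χ a, h6⟩

end H76PP
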