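import Pool.Agent.H76.PP.Df0

/-!
ROW Fc (project MP_78d38b_PP, about 140 lines, Mathlib only): the eigenvector of a simple eigenvalue is not
isotropic.

PROOF. Let `m = M.mulVec e`, suppose `e ⬝ᵥ m = 0`. Choose an invertible matrix `P` with first column `e`
(`e ≠ 0`: some coordinate `i` is nonzero; `P` = identity with the column `i` replaced by `e`, then exchanged with the column
`0`; or avoid the exchange and argue with the column/row `i`). Put `M' = Pᵀ M P`, `N' = Pᵀ N P`. The first column of `N'` is
`Pᵀ N e = t Pᵀ M e`, i.e. `t` times the first column of `M'`, and `M' 0 0 = e ⬝ᵥ M e = 0`; both are symmetric. So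
`x M' - N'` has the first column `(x - t) (0, m₁, m₂)ᵀ` and the same first row, hence
`det (x M' - N') = (x - t)^2 * g(x)` with `g` a polynomial of degree `≤ 1` in `x`
(`Matrix.det_fin_three`: `= (x-t)^2 (2 m₁ m₂ n₁₂(x) - m₁^2 n₂₂(x) - m₂^2 n₁₁(x))` up to sign, `nᵢⱼ(x) = x M'ᵢⱼ - N'ᵢⱼ`).
On the other hand it is `det P^2 det M (x^3 + a x + b)`. Put `D = det P ^2 det M ≠ 0`. Since `t` is a root of the cubic
(`det (t M - N) = 0` as it kills `e`), `x^3 + a x + b = (x - t)(x^2 + t x + t^2 + a)`. So for all `x ≠ t`: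
`D (x^2 + t x + t^2 + a) = (x - t) g(x)`. Both sides are polynomials of degree `≤ 2` which agree at the at least
three elements `x ≠ t` of `F` (`hF`: at least four elements), so they are equal (`Polynomial.funext`-like with degrees:
`Polynomial.eq_of_degree_sub_lt_of_eval_finset_eq`), and `x = t` gives `D (3 t^2 + a) = 0`. Contradiction.
(`F` is allowed to be finite with at least four elements.)
-/

set_option autoImplicit false
open scoped Classical

open scoped Matrix

namespace H76PP

theorem Fc_quad {F : Type} [Field F] {A B C x y z : F} (hxy : x ≠ y) (hxz : x ≠ z) (hyz : y ≠ z)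
    (hx : A * x ^ 2 + B * x + C = 0) (hy : A * y ^ 2 + B * y + C = 0)
    (hz : A * z ^ 2 + B * z + C = 0) : A = 0 ∧ B = 0 ∧ C = 0 := by
  have h1 : A * (x + y) + B = 0 := by
    have h : (x - y) * (A * (x + y) + B) = 0 := by linear_combination hx - hy
    exact (mul_eq_zero.1 h).resolve_left (sub_ne_zero.2 hxy)
  have h2 : A * (x + z) + B = 0 := by
    have h : (x - z) * (A * (x + z) + B) = 0 := by linear_combination hx - hz
    exact (mul_eq_zero.1 h).resolve_left (sub_ne_zero.2 hxz)
  have h3 : A = 0 := by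
    have h : (y - z) * A = 0 := by linear_combination h1 - h2
    exact (mul_eq_zero.1 h).resolve_left (sub_ne_zero.2 hyz)
  have h4 : B = 0 := by
    rw [h3] at h1
    linear_combination h1
  refine ⟨h3, h4, ?_⟩
  rw [h3, h4] at hx
  linear_combination hx

theorem Fc_col {F : Type} [Field F] (M N : Matrix (Fin 3) (Fin 3) F) (m : Fin 3 → F) (i : Fin 3)
    (x : F) : ((x • M - N).updateCol i m).det = (M.updateCol i m).det * x ^ 2 +
      (((M - N).updateCol i m).det - (M.updateCol i m).det - ((-N).updateCol i m).det) * x +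
        ((-N).updateCol i m).det := by
  fin_cases i <;> simp [Matrix.det_fin_three, Matrix.updateCol_apply] <;> ring

theorem eig_ne {F : Type} [Field F] (S : Finset F) (hF : 4 ≤ S.card)
    {M N : Matrix (Fin 3) (Fin 3) F} (hM : M.IsSymm) (hN : N.IsSymm) (hdet : M.det ≠ 0) {a b t : F}
    (hc : ∀ x : F, (x • M - N).det = M.det * (x ^ 3 + a * x + b)) {e : Fin 3 → F} (he : e ≠ 0)
    (hte : N.mulVec e = t • M.mulVec e) (hs : 3 * t ^ 2 + a ≠ 0) : e ⬝ᵥ M.mulVec e ≠ 0 := by
  intro h0
  obtain ⟨m, hm⟩ : ∃ m, m = M.mulVec e := ⟨_, rfl⟩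
  rw [← hm] at h0 hte
  have hA : ∀ x : F, (x • M - N).mulVec e = (x - t) • m := by
    intro x
    rw [Matrix.sub_mulVec, Matrix.smul_mulVec, hte, ← hm, sub_smul]
  have hA0 : (t • M - N).mulVec e = 0 := by
    rw [hA, sub_self, zero_smul]
  have hdt : (t • M - N).det = 0 := Matrix.exists_mulVec_eq_zero_iff.1 ⟨e, he, hA0⟩
  have ht : t ^ 3 + a * t + b = 0 := by
    have h1 := hc t
    rw [hdt] at h1
    exact (mul_eq_zero.1 h1.symm).resolve_left hdet
  have hu : ∀ (x : F) (i : Fin 3), (x - t) * ((x • M - N).updateCol i m).det =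
      (M.det * (x ^ 3 + a * x + b)) * e i := by
    intro x i
    have h1 : (x • M - N).adjugate.mulVec ((x • M - N).mulVec e) = (x • M - N).det • e := by
      rw [Matrix.mulVec_mulVec, Matrix.adjugate_mul, Matrix.smul_mulVec, Matrix.one_mulVec]
    rw [hA, Matrix.mulVec_smul, ← Matrix.cramer_eq_adjugate_mulVec, hc] at h1
    have h2 := congrFun h1 i
    simp only [Pi.smul_apply, smul_eq_mul, Matrix.cramer_apply] at h2
    exact h2
  have hu2 : ∀ (x : F) (i : Fin 3), x ≠ t → ((x • M - N).updateCol i m).det =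
      M.det * (x ^ 2 + t * x + t ^ 2 + a) * e i := by
    intro x i hx
    have h1 := hu x i
    have h2 : (x - t) * (((x • M - N).updateCol i m).det -
        M.det * (x ^ 2 + t * x + t ^ 2 + a) * e i) = 0 := by
      linear_combination h1 + M.det * e i * ht
    exact sub_eq_zero.1 ((mul_eq_zero.1 h2).resolve_left (sub_ne_zero.2 hx))
  have hz : ∀ i : Fin 3, ((t • M - N).updateCol i m).det = 0 := by
    intro i
    have hsym : (t • M - N).transpose = t • M - N := by
      rw [Matrix.transpose_sub, Matrix.transpose_smul, hM.eq, hN.eq]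
    rw [← Matrix.det_transpose, ← Matrix.updateRow_transpose, hsym]
    refine Matrix.exists_mulVec_eq_zero_iff.1 ⟨e, he, ?_⟩
    funext k
    by_cases hk : k = i
    · subst hk
      rw [Matrix.mulVec, Matrix.updateRow_self, dotProduct_comm]
      exact h0
    · rw [Matrix.mulVec, Matrix.updateRow_ne hk]
      exact congrFun hA0 k
  have hcard : 2 < (S.erase t).card := by
    have := Finset.pred_card_le_card_erase (s := S) (a := t)
    omega
  obtain ⟨x, y, z, hx, hy, hz', hxy, hxz, hyz⟩ := Finset.two_lt_card_iff.1 hcard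
  apply he
  funext i
  have key : ∀ w : F, w ∈ S.erase t → ((M.updateCol i m).det - M.det * e i) * w ^ 2 +
      ((((M - N).updateCol i m).det - (M.updateCol i m).det - ((-N).updateCol i m).det) -
        M.det * t * e i) * w + (((-N).updateCol i m).det - M.det * (t ^ 2 + a) * e i) = 0 := by
    intro w hw
    have h1 := hu2 w i (Finset.ne_of_mem_erase hw)
    rw [Fc_col] at h1
    linear_combination h1
  obtain ⟨k1, k2, k3⟩ := Fc_quad hxy hxz hyz (key x hx) (key y hy) (key z hz')
  have h1 := hz i
  rw [Fc_col] at h1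
  have h2 : M.det * (3 * t ^ 2 + a) * e i = 0 := by
    linear_combination h1 - t ^ 2 * k1 - t * k2 - k3
  exact (mul_eq_zero.1 h2).resolve_left (mul_ne_zero hdet hs)

end H76PP
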