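import Pool.Agent.H76.PP.Fa
import Pool.Agent.H76.PP.Fb
import Pool.Agent.H76.PP.Fc
import Pool.Agent.H76.PP.Ec

/-!
ROW Fd (project MP_78d38b_PP, about 230 lines): (6.1) of the note, the residue condition at `v ∈ T`. Use only the
STATEMENTS of the imported rows.

PROOF. `k = 𝓞 K ⧸ v.asIdeal`, bar = reduction. `hF.typ v`: `t` with `t^3 + A t + B ∈ v` and `-3 t^2 - 4 A - s^2 ∉ v` for all `s`, so
`-3 t̄^2 - 4 Ā` is not a square in `k` (`Ideal.Quotient.mk_surjective`). In `Rs (rd v M) (rd v N)` take `a = Ā`, `b = B̄`, `t̄`.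
(1) The determinant identity for `x ∈ k`: lift `x` and reduce `hchar` (`RingHom.map_det`, `rd` is `Matrix.map`).
(2) `det (t̄ M̄ - N̄) = M̄.det * 0 = 0`, so there is `ē ≠ 0` with `(t̄ M̄ - N̄) ē = 0` (`Matrix.exists_mulVec_eq_zero_iff`), i.e.
`N̄ ē = t̄ M̄ ē`. Let `c : Fin 3 → 𝓞 K` be a lift of `ē`.
(3) `3 t̄^2 + Ā ≠ 0`: otherwise `-3 t̄^2 - 4 Ā = 9 t̄^2 = (3 t̄)^2` is a square. `k` has at least 4 elements: `6 ∉ v`, so the
characteristic is not 2, 3: `0, 1, -1, 2` are pairwise different. `eig_ne` (Fc): `ē ⬝ᵥ M̄ ē ≠ 0`.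
(4) Let `E = ∑ c i e i ∈ I`, `E^2 ∈ I^2 = (δ)`: `E^2 = z δ` with `z : 𝓞 L`, and `E * e j = y j * δ`, `y j : 𝓞 L`. By `Mx_mulVec` (Ec)
`co 2 (y j) = (M c) j` and `co 2 (θ y j) = (N c) j` (coordinates in `K`; `M i j = Mx h e δ⁻¹ i j`, hypotheses `hM`, `hN`), and
`co 2 z = c ⬝ᵥ M c` (`Mx_quad`).
(5) `(θ - t) z` has all coordinates in `v`. Let `d = M_K⁻¹ ((N - t M) c)`, i.e. `M_K d = (co 2 ((θ - t) E e_j δ⁻¹))_j`. The form
`(x,y) ↦ co 2 (x y δ⁻¹)` has the invertible matrix `M_K` in the basis `e` (`LinearIndependent`, `finrank = 3` so a basis), hence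
`(θ - t) E = ∑ d j e j` (both sides have the same products with all `e j`). The entries of `(N - t M) c` lie in `v`
(they reduce to `N̄ ē - t̄ M̄ ē = 0`); `det M * d j = (adjugate M ((N - t M) c)) j ∈ v`. So
`det M (θ - t) z = det M (θ - t) E E / δ = ∑ (det M d j) (e j E / δ) = ∑ (det M d j) y j`; its coordinates are in `v`
(`int_coord` for `y j`). Since `det M ∉ v` and `v` is prime the coordinates of `(θ - t) z` are in `v`.
(6) Let `z` have the coordinates `z₀, z₁, z₂ ∈ 𝓞 K` (int_coord). The coordinates of `(θ - t) z` are (`Cub.co_mul`, `co_theta`)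
`-B z₂ - t z₀`, `z₀ - A z₂ - t z₁`, `z₁ - t z₂`; so modulo `v`: `z₁ = t z₂`, `z₀ = (A + t^2) z₂`, and
`χ z = z₀ + z₁ t + z₂ t^2 = z₂ (3 t^2 + A)` where `χ`, `w` come from `exists_place` (Fa). `z₂ = co 2 z` reduces to `ē ⬝ᵥ M̄ ē`.
(7) So `(ē ⬝ᵥ M̄ ē) * (3 t̄^2 + Ā) = χ z`. If `z ∈ w` it is zero, a square. Otherwise `isSquare_res` (Fb) with `x = E`:
`w` is odd because `dn K w = v` and `2 ∉ v` (`OddP w`: `w.valuation L 2 = 1`, `2 ∉ w.asIdeal` as `dn K w = v`), `hla w`.
-/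

set_option autoImplicit false
open scoped Classical

open WithZero NumberField IsDedekindDomain H38RT
open scoped Matrix
open H38T1 (SC sc scu rep eo la si Pri OddP tp unif)

namespace H76PP

theorem Fd_lin {K L : Type} [Field K] [Field L] [Algebra K L] {A B : K} {θ : L}
    (h : Cub K L A B θ) {e : Fin 3 → L} (he : LinearIndependent K e) (z₀ : L) (c : Fin 3 → K)
    (t : K) : algebraMap K L (Mx h e z₀).det * ((θ - algebraMap K L t) * ∑ i, c i • e i) =
      ∑ j, ((Mx h e z₀).adjugate.mulVec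
        ((Nx h e z₀).mulVec c - t • (Mx h e z₀).mulVec c)) j • e j := by
  have hfin : Module.Finite K L := Module.Finite.of_basis h.basis
  have h1 : Submodule.span K (Set.range e) = ⊤ := by
    apply he.span_eq_top_of_card_eq_finrank'
    rw [h.finrank, Fintype.card_fin]
  obtain ⟨E, hE⟩ : ∃ E : L, E = ∑ i, c i • e i := ⟨_, rfl⟩
  obtain ⟨d, hd⟩ := (Submodule.mem_span_range_iff_exists_fun K).1
    (show (θ - algebraMap K L t) * E ∈ Submodule.span K (Set.range e) by
      rw [h1]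
      exact Submodule.mem_top)
  have h2 : (Mx h e z₀).mulVec d = (Nx h e z₀).mulVec c - t • (Mx h e z₀).mulVec c := by
    funext j
    rw [(Mx_mulVec h e z₀ d j).1, hd, Pi.sub_apply, Pi.smul_apply, (Mx_mulVec h e z₀ c j).1,
      (Mx_mulVec h e z₀ c j).2, ← hE]
    have h3 : (θ - algebraMap K L t) * E * e j * z₀ = θ * (E * e j * z₀) - t • (E * e j * z₀) := by
      rw [Algebra.smul_def]
      ring
    rw [h3, map_sub, map_smul]
  rw [← h2, Matrix.mulVec_mulVec, Matrix.adjugate_mul, Matrix.smul_mulVec, Matrix.one_mulVec, ← hE,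
    ← hd, Finset.mul_sum]
  refine Finset.sum_congr rfl fun j _ => ?_
  rw [Pi.smul_apply, smul_eq_mul, mul_smul, Algebra.smul_def (Mx h e z₀).det]

theorem Fd_four {k : Type} [Field k] (h2 : (2 : k) ≠ 0) (h3 : (3 : k) ≠ 0) :
    ∃ S : Finset k, 4 ≤ S.card := by
  refine ⟨{0, 1, -1, 2}, ?_⟩
  have e1 : (0 : k) ≠ 1 := zero_ne_one
  have e2 : (0 : k) ≠ -1 := fun h => one_ne_zero (neg_eq_zero.1 h.symm)
  have e3 : (0 : k) ≠ 2 := h2.symm
  have e4 : (1 : k) ≠ -1 := by
    intro h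
    apply h2
    linear_combination h
  have e5 : (1 : k) ≠ 2 := by
    intro h
    have : (1 : k) = 0 := by linear_combination -h
    exact one_ne_zero this
  have e6 : (-1 : k) ≠ 2 := by
    intro h
    apply h3
    linear_combination -h
  rw [Finset.card_insert_of_notMem, Finset.card_insert_of_notMem, Finset.card_insert_of_notMem,
    Finset.card_singleton]
  · rw [Finset.mem_singleton]
    exact e6
  · rw [Finset.mem_insert, Finset.mem_singleton]
    rintro (h | h)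
    · exact e4 h
    · exact e5 h
  · rw [Finset.mem_insert, Finset.mem_insert, Finset.mem_singleton]
    rintro (h | h | h)
    · exact e1 h
    · exact e2 h
    · exact e3 h

theorem Fd_main {K : Type} [Field K] [NumberField K] {q₀ : HeightOneSpectrum (𝓞 K)}
    {T : Finset (HeightOneSpectrum (𝓞 K))} {A B : 𝓞 K} (hF : Fam q₀ T A B) {L : Type} [Field L]
    [NumberField L] [Algebra K L] {θ : L} (h : Cub K L (A : K) (B : K) θ) {δ : 𝓞 L} (hδ : δ ≠ 0)
    {I : Ideal (𝓞 L)} (hI : I ^ 2 = Ideal.span {δ}) {e : Fin 3 → 𝓞 L} (heI : ∀ i, e i ∈ I)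
    (hli : LinearIndependent K (fun i => (e i : L))) {M N : Matrix (Fin 3) (Fin 3) (𝓞 K)}
    (hM : ∀ i j, (M i j : K) = Mx h (fun i => (e i : L)) (δ : L)⁻¹ i j)
    (hN : ∀ i j, (N i j : K) = Nx h (fun i => (e i : L)) (δ : L)⁻¹ i j)
    (hchar : ∀ x : 𝓞 K, (x • M - N).det = M.det * (x ^ 3 + A * x + B))
    {v : HeightOneSpectrum (𝓞 K)} (h6 : (6 : 𝓞 K) ∉ v.asIdeal) (hdet : M.det ∉ v.asIdeal)
    {t : 𝓞 K} (ht : t ^ 3 + A * t + B ∈ v.asIdeal)
    (hts : ∀ s : 𝓞 K, -3 * t ^ 2 - 4 * A - s ^ 2 ∉ v.asIdeal)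
    {k : Type} [Field k] (π : 𝓞 K →+* k) (hπ : ∀ x, π x = 0 ↔ x ∈ v.asIdeal)
    (hs : Function.Surjective π) {w : HeightOneSpectrum (𝓞 L)} (hw : OddP w)
    (hlw : la w (sc (δ : L)) = 0) (χ : 𝓞 L →+* k) (hχ0 : ∀ x, x ∈ w.asIdeal → χ x = 0)
    (hχ : ∀ (x : 𝓞 L) (c : Fin 3 → 𝓞 K), (∀ i, h.co i (x : L) = (c i : K)) →
        χ x = π (c 0 + c 1 * t + c 2 * t ^ 2)) : Rs (M.map π) (N.map π) := by
  have hpr := v.isPrime
  have hp2 : (2 : k) ≠ 0 := by
    intro h2
    apply h6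
    rw [← hπ, show (6 : 𝓞 K) = 2 * 3 by norm_num, map_mul, map_ofNat, h2, zero_mul]
  have hp3 : (3 : k) ≠ 0 := by
    intro h2
    apply h6
    rw [← hπ, show (6 : 𝓞 K) = 2 * 3 by norm_num, map_mul, map_ofNat π 3, h2, mul_zero]
  have hsq : ¬ IsSquare (-3 * (π t) ^ 2 - 4 * π A) := by
    rintro ⟨r, hr⟩
    obtain ⟨s, rfl⟩ := hs r
    apply hts s
    rw [← hπ, map_sub, map_sub, map_mul, map_mul, map_pow, map_pow, map_neg, map_ofNat, map_ofNat,
      hr]
    ring
  have h3t : 3 * (π t) ^ 2 + π A ≠ 0 := by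
    intro h0
    apply hsq
    refine ⟨3 * π t, ?_⟩
    linear_combination -4 * h0
  have hmd : ∀ P : Matrix (Fin 3) (Fin 3) (𝓞 K), (P.map π).det = π P.det := fun P =>
    (RingHom.map_det π P).symm
  have hchar' : ∀ x : k, (x • M.map π - N.map π).det =
      (M.map π).det * (x ^ 3 + π A * x + π B) := by
    intro x
    obtain ⟨x, rfl⟩ := hs x
    have h1 : π x • M.map π - N.map π = (x • M - N).map π := by
      ext i j
      simp
    rw [h1, hmd, hmd, hchar, map_mul, map_add, map_add, map_mul, map_pow]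
  have hsing : (π t • M.map π - N.map π).det = 0 := by
    rw [hchar']
    have h1 := (hπ _).2 ht
    rw [map_add, map_add, map_mul, map_pow] at h1
    rw [h1, mul_zero]
  obtain ⟨eb, heb0, heb⟩ := Matrix.exists_mulVec_eq_zero_iff.2 hsing
  choose c hc using fun i => hs (eb i)
  have hceb : π ∘ c = eb := funext hc
  have hNM : (N.map π).mulVec eb = π t • (M.map π).mulVec eb := by
    rw [Matrix.sub_mulVec, Matrix.smul_mulVec, sub_eq_zero] at heb
    exact heb.symm
  have hMs : M.IsSymm := by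
    ext i j
    rw [Matrix.transpose_apply, hM, hM]
    exact (Mx_symm h _ _).apply i j
  have hNs : N.IsSymm := by
    ext i j
    rw [Matrix.transpose_apply, hN, hN]
    exact (Nx_symm h _ _).apply i j
  have hMs' : (M.map π).IsSymm := by
    ext i j
    rw [Matrix.transpose_apply, Matrix.map_apply, Matrix.map_apply, hMs.apply]
  have hNs' : (N.map π).IsSymm := by
    ext i j
    rw [Matrix.transpose_apply, Matrix.map_apply, Matrix.map_apply, hNs.apply]
  have hdet' : (M.map π).det ≠ 0 := by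
    rw [hmd]
    exact fun h1 => hdet ((hπ _).1 h1)
  obtain ⟨S, hS⟩ := Fd_four hp2 hp3
  have hne := eig_ne S hS hMs' hNs' hdet' hchar' heb0 hNM h3t
  refine ⟨π A, π B, π t, eb, heb0, hchar', hNM, hsq, hne, ?_⟩
  -- the integers E, z, y
  have hδL : (δ : L) ≠ 0 := fun h0 => hδ (RingOfIntegers.ext (by
    rw [h0]
    exact (map_zero (algebraMap (𝓞 L) L)).symm))
  obtain ⟨E, hE⟩ : ∃ E : 𝓞 L, E = ∑ i, algebraMap (𝓞 K) (𝓞 L) (c i) * e i := ⟨_, rfl⟩
  have hEI : E ∈ I := by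
    rw [hE]
    exact I.sum_mem fun i _ => I.mul_mem_left _ (heI i)
  have hEL : (E : L) = ∑ i, (c i : K) • (e i : L) := by
    rw [hE]
    change algebraMap (𝓞 L) L (∑ i, algebraMap (𝓞 K) (𝓞 L) (c i) * e i) = _
    rw [map_sum]
    refine Finset.sum_congr rfl fun i _ => ?_
    rw [map_mul, Algebra.smul_def]
    rfl
  obtain ⟨z, hz⟩ : ∃ z, E ^ 2 = δ * z := by
    have h1 := Ideal.pow_mem_pow hEI 2
    rw [hI, Ideal.mem_span_singleton] at h1
    exact h1
  have hy : ∀ j, ∃ y, E * e j = δ * y := by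
    intro j
    have h1 := Ideal.mul_mem_mul hEI (heI j)
    rw [← pow_two, hI, Ideal.mem_span_singleton] at h1
    exact h1
  choose y hy using hy
  have hzL : (z : L) = (E : L) * (E : L) * (δ : L)⁻¹ := by
    have h1 := congrArg (algebraMap (𝓞 L) L) hz
    rw [map_pow, map_mul] at h1
    rw [← pow_two, eq_mul_inv_iff_mul_eq₀ hδL, mul_comm]
    exact h1.symm
  have hyL : ∀ j, (y j : L) = (E : L) * (e j : L) * (δ : L)⁻¹ := by
    intro j
    have h1 := congrArg (algebraMap (𝓞 L) L) (hy j)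
    rw [map_mul, map_mul] at h1
    rw [eq_mul_inv_iff_mul_eq₀ hδL, mul_comm]
    exact h1.symm
  obtain ⟨zc, hzc⟩ := int_coord hF h z
  choose yc hyc using fun j => int_coord hF h (y j)
  have hMx : Mx h (fun i => (e i : L)) (δ : L)⁻¹ = M.map (algebraMap (𝓞 K) K) := by
    ext i j
    exact (hM i j).symm
  have hNx : Nx h (fun i => (e i : L)) (δ : L)⁻¹ = N.map (algebraMap (𝓞 K) K) := by
    ext i j
    exact (hN i j).symm
  -- the last coordinate of z
  have hz2 : c ⬝ᵥ M.mulVec c = zc 2 := by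
    apply RingOfIntegers.ext
    have h1 := Mx_quad h (fun i => (e i : L)) (δ : L)⁻¹ (fun i => (c i : K))
    rw [← hEL, ← hzL, hzc, hMx] at h1
    rw [← h1]
    have h2 := RingHom.map_dotProduct (algebraMap (𝓞 K) K) c (M.mulVec c)
    refine h2.trans ?_
    have h3 : (algebraMap (𝓞 K) K ∘ M.mulVec c) =
        (M.map (algebraMap (𝓞 K) K)).mulVec (algebraMap (𝓞 K) K ∘ c) :=
      funext fun i => RingHom.map_mulVec (algebraMap (𝓞 K) K) M c i
    rw [h3]
    rfl
  have hz2' : eb ⬝ᵥ (M.map π).mulVec eb = π (zc 2) := by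
    rw [← hz2, ← hceb]
    refine ((RingHom.map_dotProduct π c (M.mulVec c)).trans ?_).symm
    congr 1
    funext i
    exact RingHom.map_mulVec π M c i
  -- the vector r
  have hr : ∀ j, (N.mulVec c - t • M.mulVec c) j ∈ v.asIdeal := by
    intro j
    rw [← hπ, Pi.sub_apply, Pi.smul_apply, smul_eq_mul, map_sub, map_mul, RingHom.map_mulVec,
      RingHom.map_mulVec, hceb, hNM]
    simp
  have hg : ∀ j, (M.adjugate.mulVec (N.mulVec c - t • M.mulVec c)) j ∈ v.asIdeal := by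
    intro j
    rw [Matrix.mulVec, dotProduct]
    exact v.asIdeal.sum_mem fun i _ => v.asIdeal.mul_mem_left _ (hr i)
  have hlin := Fd_lin h hli (δ : L)⁻¹ (fun i => (c i : K)) (t : K)
  rw [hMx, hNx] at hlin
  have hcoef : ∀ j, ((M.map (algebraMap (𝓞 K) K)).adjugate.mulVec
      ((N.map (algebraMap (𝓞 K) K)).mulVec (fun i => (c i : K)) -
        (t : K) • (M.map (algebraMap (𝓞 K) K)).mulVec (fun i => (c i : K)))) j =
      ((M.adjugate.mulVec (N.mulVec c - t • M.mulVec c)) j : K) := by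
    intro j
    have h1 : (M.map (algebraMap (𝓞 K) K)).adjugate = M.adjugate.map (algebraMap (𝓞 K) K) :=
      (RingHom.map_adjugate (algebraMap (𝓞 K) K) M).symm
    have h2 : (N.map (algebraMap (𝓞 K) K)).mulVec (fun i => (c i : K)) -
        (t : K) • (M.map (algebraMap (𝓞 K) K)).mulVec (fun i => (c i : K)) =
        algebraMap (𝓞 K) K ∘ (N.mulVec c - t • M.mulVec c) := by
      funext i
      have e1 := RingHom.map_mulVec (algebraMap (𝓞 K) K) M c i
      have e2 := RingHom.map_mulVec (algebraMap (𝓞 K) K) N c i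
      rw [Function.comp_apply, Pi.sub_apply, Pi.sub_apply, Pi.smul_apply, Pi.smul_apply, map_sub,
        smul_eq_mul, smul_eq_mul, map_mul, e1, e2]
      rfl
    rw [h1, h2]
    exact (RingHom.map_mulVec (algebraMap (𝓞 K) K) M.adjugate _ j).symm
  have hmdK : (M.map (algebraMap (𝓞 K) K)).det = (M.det : K) :=
    (RingHom.map_det (algebraMap (𝓞 K) K) M).symm
  rw [hmdK, ← hEL] at hlin
  simp only [hcoef] at hlin
  have hlin2 : (M.det : K) • ((θ - algebraMap K L (t : K)) * (z : L)) =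
      ∑ j, ((M.adjugate.mulVec (N.mulVec c - t • M.mulVec c)) j : K) • (y j : L) := by
    rw [Algebra.smul_def, hzL]
    calc algebraMap K L (M.det : K) * ((θ - algebraMap K L (t : K)) * ((E : L) * (E : L) * (δ : L)⁻¹))
        = (algebraMap K L (M.det : K) * ((θ - algebraMap K L (t : K)) * (E : L))) *
          ((E : L) * (δ : L)⁻¹) := by ring
      _ = _ := by
        rw [hlin, Finset.sum_mul]
        refine Finset.sum_congr rfl fun j _ => ?_
        rw [hyL, smul_mul_assoc]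
        congr 1
        ring
  have hco : ∀ i, (M.det : K) * h.co i ((θ - algebraMap K L (t : K)) * (z : L)) =
      ∑ j, ((M.adjugate.mulVec (N.mulVec c - t • M.mulVec c)) j : K) * (yc j i : K) := by
    intro i
    have h1 := congrArg (h.co i) hlin2
    rw [map_smul, map_sum, smul_eq_mul] at h1
    rw [h1]
    refine Finset.sum_congr rfl fun j _ => ?_
    rw [map_smul, smul_eq_mul, hyc]
  have hmem : ∀ (i : Fin 3) (q : 𝓞 K),
      h.co i ((θ - algebraMap K L (t : K)) * (z : L)) = (q : K) → q ∈ v.asIdeal := by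
    intro i q hq
    have h1 := hco i
    rw [hq] at h1
    have h2 : M.det * q = ∑ j, (M.adjugate.mulVec (N.mulVec c - t • M.mulVec c)) j * yc j i := by
      apply RingOfIntegers.coe_injective
      rw [map_mul, map_sum]
      simp only [map_mul]
      exact h1
    have h3 : M.det * q ∈ v.asIdeal := by
      rw [h2]
      exact v.asIdeal.sum_mem fun j _ => v.asIdeal.mul_mem_right _ (hg j)
    exact (hpr.mem_or_mem h3).resolve_left hdet
  obtain ⟨t0, t1, t2⟩ := h.co_theta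
  obtain ⟨m0, m1, m2⟩ := h.co_mul θ (z : L)
  have hsplit : (θ - algebraMap K L (t : K)) * (z : L) = θ * (z : L) - (t : K) • (z : L) := by
    rw [Algebra.smul_def]
    ring
  have hq1 : zc 0 - A * zc 2 - t * zc 1 ∈ v.asIdeal := by
    apply hmem 1
    rw [hsplit, map_sub, map_smul, m1, t0, t1, t2, hzc, hzc, hzc, smul_eq_mul]
    simp only [map_sub, map_mul]
    ring
  have hq2 : zc 1 - t * zc 2 ∈ v.asIdeal := by
    apply hmem 2
    rw [hsplit, map_sub, map_smul, m2, t0, t1, t2, hzc, hzc, hzc, smul_eq_mul]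
    simp only [map_sub, map_mul]
    ring
  have hχz := hχ z zc hzc
  have k1 := (hπ _).2 hq1
  have k2 := (hπ _).2 hq2
  rw [map_sub, map_sub, map_mul, map_mul] at k1
  rw [map_sub, map_mul] at k2
  rw [map_add, map_add, map_mul, map_mul, map_pow] at hχz
  have hfin : (eb ⬝ᵥ (M.map π).mulVec eb) * (3 * (π t) ^ 2 + π A) = χ z := by
    rw [hχz, hz2']
    linear_combination -k1 - 2 * π t * k2
  rw [hfin]
  by_cases hzw : z ∈ w.asIdeal
  · rw [hχ0 z hzw]
    exact ⟨0, (mul_zero 0).symm⟩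
  · exact isSquare_res hw χ hχ0 hδ hzw (hz.trans (mul_comm _ _)) hlw

theorem res_cond {K : Type} [Field K] [NumberField K] {q₀ : HeightOneSpectrum (𝓞 K)}
    {T : Finset (HeightOneSpectrum (𝓞 K))} {A B : 𝓞 K} (hF : Fam q₀ T A B) {L : Type} [Field L]
    [NumberField L] [Algebra K L] {θ : L} (h : Cub K L (A : K) (B : K) θ) {δ : 𝓞 L} (hδ : δ ≠ 0)
    {I : Ideal (𝓞 L)} (hI : I ^ 2 = Ideal.span {δ}) {e : Fin 3 → 𝓞 L} (heI : ∀ i, e i ∈ I)
    (hli : LinearIndependent K (fun i => (e i : L))) {M N : Matrix (Fin 3) (Fin 3) (𝓞 K)}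
    (hM : ∀ i j, (M i j : K) = Mx h (fun i => (e i : L)) (δ : L)⁻¹ i j)
    (hN : ∀ i j, (N i j : K) = Nx h (fun i => (e i : L)) (δ : L)⁻¹ i j)
    (hchar : ∀ x : 𝓞 K, (x • M - N).det = M.det * (x ^ 3 + A * x + B))
    {v : HeightOneSpectrum (𝓞 K)} (hv : v ∈ T) (h6 : (6 : 𝓞 K) ∉ v.asIdeal)
    (hla : ∀ w : HeightOneSpectrum (𝓞 L), dn K w = v → la w (sc (δ : L)) = 0)
    (hdet : M.det ∉ v.asIdeal) : Rs (rd v M) (rd v N) := by
  obtain ⟨t, ht, hts⟩ := hF.typ v hv
  obtain ⟨w, χ, hdn, hχ0, -, hχ⟩ := exists_place hF h v ht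
  have hw : OddP w := by
    have h2 : (2 : 𝓞 L) ∉ w.asIdeal := by
      intro h2
      have h3 : (2 : 𝓞 K) ∈ v.asIdeal := by
        rw [← hdn]
        change algebraMap (𝓞 K) (𝓞 L) 2 ∈ w.asIdeal
        rw [map_ofNat]
        exact h2
      apply h6
      rw [show (6 : 𝓞 K) = 3 * 2 by norm_num]
      exact v.asIdeal.mul_mem_left _ h3
    have h3 := (HeightOneSpectrum.valuation_eq_one_iff_notMem (K := L) w (r := (2 : 𝓞 L))).2 h2
    unfold H38T1.OddP
    have h4 : algebraMap (𝓞 L) L 2 = 2 := map_ofNat _ 2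
    rw [h4] at h3
    exact h3
  exact Fd_main hF h hδ hI heI hli hM hN hchar h6 hdet ht hts (Ideal.Quotient.mk v.asIdeal)
    (fun x => Ideal.Quotient.eq_zero_iff_mem) Ideal.Quotient.mk_surjective hw (hla w hdn) χ
    (fun x hx => (hχ0 x).2 hx) hχ

end H76PP
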