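import Pool.Agent.H76.PP.R0
import Pool.Agent.H76.PP.E0

/-!
ROW Ga (project MP_78d38b_PP, about 130 lines): bound for the discriminant of the cubic extension.

PROOF. `t : 𝓞 L`, `(t : L) = θ` (`hL.root`: `θ` is integral over `𝓞 K`). Mathlib
`NumberField.natAbs_discr_eq_absNorm_differentIdeal_mul_natAbs_discr_pow` (file
`Mathlib/NumberTheory/NumberField/Discriminant/Different.lean`): `|d_L| = absNorm (differentIdeal (𝓞 K) (𝓞 L)) * |d_K| ^ [L : K]`,
`[L : K] = 3` (`Cub.finrank`). `f'(θ) = 3 θ^2 + A` lies in the different: `aeval_derivative_mem_differentIdeal`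
(`Mathlib/RingTheory/DedekindDomain/Different.lean`) with the minimal polynomial `X^3 + C A X + C B` of `t` over `𝓞 K`
(`minpoly.eq_of_irreducible`.. or: the minimal polynomial over `K` is monic of degree three and `X^3 + A X + B` annihilates
`θ`, so they are equal (`minpoly.unique'`/degree: `hL.li` shows that no polynomial of degree `≤ 2` annihilates `θ`);
`minpoly.isIntegrallyClosed_eq_field_fractions'`; `Algebra.adjoin K {θ} = ⊤` from `hL.sp`). So
`absNorm (different)` divides `absNorm (span {3 t^2 + A}) = |N_{L/ℚ} (3 θ^2 + A)| = ∏ τ, ‖τ (3 θ^2 + A)‖`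
(`Ideal.absNorm_dvd_absNorm_of_le`, `Ideal.absNorm_span_singleton`, `Algebra.norm_eq_prod_embeddings`, `Algebra.coe_norm_int`),
which is nonzero by `hd` (`(3θ^2+A)(4A^2 - 9Bθ + 6Aθ^2) = 4A^3+27B^2`, see `Cub.der_inv` of Eb), so `≤`.
-/

set_option autoImplicit false
open scoped Classical

open NumberField IsDedekindDomain

namespace H76PP

open Polynomial in
theorem Ga_minpoly {K L : Type} [Field K] [Field L] [Algebra K L] {A B : K} {θ : L}
    (h : Cub K L A B θ) : minpoly K θ = X ^ 3 + C A * X + C B := by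
  set p : K[X] := X ^ 3 + C A * X + C B with hp
  have hdeg : p.natDegree = 3 := by
    rw [hp]
    compute_degree!
  have hmon : p.Monic := by
    rw [hp]
    monicity!
  have hev : aeval θ p = 0 := by
    rw [hp]
    simp only [map_add, map_mul, map_pow, aeval_X, aeval_C]
    exact h.root
  have hint : IsIntegral K θ := ⟨p, hmon, by rw [← aeval_def]; exact hev⟩
  symm
  refine (eq_of_monic_of_dvd_of_natDegree_le (minpoly.monic hint) hmon
    (minpoly.dvd K θ hev) ?_)
  rw [hdeg]
  by_contra hlt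
  push Not at hlt
  have h1 := minpoly.aeval K θ
  rw [aeval_eq_sum_range' hlt, Finset.sum_range_succ, Finset.sum_range_succ,
    Finset.sum_range_succ, Finset.sum_range_zero] at h1
  obtain ⟨e0, e1, e2⟩ := h.li ((minpoly K θ).coeff 0) ((minpoly K θ).coeff 1)
    ((minpoly K θ).coeff 2) (by
      simp only [Algebra.smul_def, pow_zero, mul_one, pow_one, zero_add] at h1
      exact h1)
  have h2 : minpoly K θ = 0 := by
    ext n
    rw [coeff_zero]
    rcases Nat.lt_or_ge n 3 with hn | hn
    · interval_cases n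
      · exact e0
      · exact e1
      · exact e2
    · exact coeff_eq_zero_of_natDegree_lt (lt_of_lt_of_le hlt hn)
  exact minpoly.ne_zero hint h2

theorem Ga_int {K L : Type} [Field K] [NumberField K] [Field L] [NumberField L] [Algebra K L]
    {A B : 𝓞 K} {θ : L} (hL : Cub K L (A : K) (B : K) θ) : ∃ t : 𝓞 L, (t : L) = θ := by
  have h1 : IsIntegral (𝓞 K) θ := by
    refine ⟨Polynomial.X ^ 3 + Polynomial.C A * Polynomial.X + Polynomial.C B, by monicity!, ?_⟩
    rw [← Polynomial.aeval_def]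
    simp only [map_add, map_mul, map_pow, Polynomial.aeval_X, Polynomial.aeval_C]
    exact hL.root
  have h2 : IsIntegral ℤ θ := isIntegral_trans θ h1
  exact ⟨⟨θ, h2⟩, rfl⟩

theorem Ga_prod {L : Type} [Field L] [NumberField L] (x : L) :
    ∏ τ : L →+* ℂ, ‖τ x‖ = |((Algebra.norm ℚ x : ℚ) : ℝ)| := by
  have h := congr_arg (‖·‖) (Algebra.norm_eq_prod_embeddings ℚ ℂ x).symm
  rw [norm_prod, ← Fintype.prod_equiv (RingHom.equivRatAlgHom L ℂ) (fun f => ‖f x‖)
      (fun φ => ‖φ x‖) fun _ => by simp [RingHom.equivRatAlgHom_apply]] at h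
  rw [h, eq_ratCast, ← Real.norm_eq_abs, ← Complex.norm_real, Complex.ofReal_ratCast]

theorem disc_le {K L : Type} [Field K] [NumberField K] [Field L] [NumberField L] [Algebra K L]
    {A B : 𝓞 K} {θ : L} (hL : Cub K L (A : K) (B : K) θ)
    (hd : (4 * (A : K) ^ 3 + 27 * (B : K) ^ 2) ≠ 0) :
    (((NumberField.discr L).natAbs : ℕ) : ℝ) ≤ (((NumberField.discr K).natAbs : ℕ) : ℝ) ^ 3 *
      ∏ τ : L →+* ℂ, ‖τ (3 * θ ^ 2 + algebraMap K L (A : K))‖ := by
  obtain ⟨t, ht⟩ := Ga_int hL
  have htop : Algebra.adjoin K {algebraMap (𝓞 L) L t} = ⊤ := by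
    rw [eq_top_iff]
    intro x _
    have hmem : θ ∈ Algebra.adjoin K {algebraMap (𝓞 L) L t} := by
      apply Algebra.subset_adjoin
      exact ht.symm
    obtain ⟨c₀, c₁, c₂, rfl⟩ := hL.sp x
    exact Subalgebra.add_mem _ (Subalgebra.add_mem _ (Subalgebra.algebraMap_mem _ _)
      (Subalgebra.mul_mem _ (Subalgebra.algebraMap_mem _ _) hmem))
      (Subalgebra.mul_mem _ (Subalgebra.algebraMap_mem _ _) (Subalgebra.pow_mem _ hmem 2))
  set y : 𝓞 L := Polynomial.aeval t (Polynomial.derivative (minpoly (𝓞 K) t)) with hy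
  have hmemd : y ∈ differentIdeal (𝓞 K) (𝓞 L) :=
    aeval_derivative_mem_differentIdeal (𝓞 K) K L t htop
  have htint : IsIntegral (𝓞 K) t := Algebra.IsIntegral.isIntegral t
  have hyL : (y : L) = 3 * θ ^ 2 + algebraMap K L (A : K) := by
    have h1 : minpoly K (algebraMap (𝓞 L) L t) = (minpoly (𝓞 K) t).map (algebraMap (𝓞 K) K) :=
      minpoly.isIntegrallyClosed_eq_field_fractions K L htint
    have h2 : algebraMap (𝓞 L) L t = θ := ht
    rw [h2, Ga_minpoly hL] at h1
    have h3 : (y : L) = Polynomial.aeval θ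
        (Polynomial.derivative ((minpoly (𝓞 K) t).map (algebraMap (𝓞 K) K))) := by
      rw [Polynomial.derivative_map, Polynomial.aeval_map_algebraMap, ← h2,
        Polynomial.aeval_algebraMap_apply]
    rw [h3, ← h1]
    simp only [Polynomial.derivative_add, Polynomial.derivative_X_pow, Polynomial.derivative_mul,
      Polynomial.derivative_C, Polynomial.derivative_X, map_add, map_mul, map_pow,
      Polynomial.aeval_X, Polynomial.aeval_C, zero_mul, zero_add, mul_one, add_zero, map_zero,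
      Nat.cast_ofNat, map_ofNat]
  have hy0 : (y : L) ≠ 0 := by
    rw [hyL]
    intro h0
    have h1 : (3 * θ ^ 2 + algebraMap K L (A : K)) * (4 * algebraMap K L (A : K) ^ 2 -
        9 * algebraMap K L (B : K) * θ + 6 * algebraMap K L (A : K) * θ ^ 2) =
        algebraMap K L (4 * (A : K) ^ 3 + 27 * (B : K) ^ 2) := by
      simp only [map_add, map_mul, map_pow, map_ofNat]
      linear_combination (18 * algebraMap K L (A : K) * θ - 27 * algebraMap K L (B : K)) * hL.root
    rw [h0, zero_mul] at h1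
    exact hd ((map_eq_zero _).1 h1.symm)
  have hdvd : Ideal.absNorm (differentIdeal (𝓞 K) (𝓞 L)) ∣ Ideal.absNorm (Ideal.span {y}) :=
    Ideal.absNorm_dvd_absNorm_of_le ((Ideal.span_singleton_le_iff_mem _).2 hmemd)
  rw [Ideal.absNorm_span_singleton] at hdvd
  have hnz : Algebra.norm ℤ y ≠ 0 := by
    rw [Ne, Algebra.norm_eq_zero_iff]
    intro h0
    apply hy0
    rw [h0]
    simp
  have hle := Nat.le_of_dvd (Int.natAbs_pos.2 hnz) hdvd
  have hdisc := NumberField.natAbs_discr_eq_absNorm_differentIdeal_mul_natAbs_discr_pow K (𝓞 K) L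
    (𝓞 L)
  rw [hL.finrank] at hdisc
  rw [hdisc, ← hyL, Ga_prod]
  push_cast
  rw [mul_comm]
  refine mul_le_mul_of_nonneg_left ?_ (by positivity)
  have h5 : ((Ideal.absNorm (differentIdeal (𝓞 K) (𝓞 L)) : ℕ) : ℝ) ≤
      (((Algebra.norm ℤ y).natAbs : ℕ) : ℝ) := by exact_mod_cast hle
  refine h5.trans (le_of_eq ?_)
  rw [← Algebra.coe_norm_int, Nat.cast_natAbs]
  push_cast
  rfl

end H76PP
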