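import Pool.Agent.H76.PP.R0

/-!
ROW Gb (project MP_78d38b_PP, about 150 lines, Mathlib only): discriminant of a basis of an ideal.

PROOF. `N = Module.finrank ℚ L`. The ideal `I ≠ ⊥` of `𝓞 L` is a free `ℤ`-module of rank `N` (`Ideal.selfBasis` or
`Ideal.constr`/`Ideal.finrank_eq_finrank`; any basis indexed by `Fin N`). `Ideal.natAbs_det_basis_change`: for an integral basis
`ω` of `𝓞 L` (indexed by `Fin N`) `|ω.det (b)| = absNorm I`. `NumberField.coe_discr`/`discr_eq_discr` :
`discr L = Algebra.discr ℤ ω`, and `Algebra.discr ℚ` of `b` is `(det)^2` times that of `ω` (`Algebra.discr_of_matrix_vecMul`,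
`Algebra.discr_localizationLocalization` for the passage from `ℤ` to `ℚ`). Finally `Algebra.discr_eq_det_embeddingsMatrixReindex_pow_two`:
`discr ℚ b = det (embeddingsMatrixReindex ℚ ℂ b e)^2` for a bijection `e : Fin N ≃ (L →ₐ[ℚ] ℂ)`, and `(L →ₐ[ℚ] ℂ)` is the same as
`L →+* ℂ` (`RingHom.equivRatAlgHom`). Taking absolute values: `‖det‖^2 = absNorm I ^ 2 * |d_L|`. See also
`NumberField.mixedEmbedding.det_basisOfFractionalIdeal_eq_norm` for a model.
-/

set_option autoImplicit false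
open scoped Classical

open NumberField IsDedekindDomain

namespace H76PP

theorem Gb_discr {L : Type} [Field L] [NumberField L]
    (c : Module.Free.ChooseBasisIndex ℤ (𝓞 L) → 𝓞 L) :
    Algebra.discr ℚ (fun i => (c i : L)) =
      (((RingOfIntegers.basis L).det c : ℤ) : ℚ) ^ 2 * ((NumberField.discr L : ℤ) : ℚ) := by
  obtain ⟨P, hP⟩ : ∃ P : Matrix (Module.Free.ChooseBasisIndex ℤ (𝓞 L))
      (Module.Free.ChooseBasisIndex ℤ (𝓞 L)) ℤ, P = (RingOfIntegers.basis L).toMatrix c := ⟨_, rfl⟩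
  have hdet : (RingOfIntegers.basis L).det c = P.det := by
    rw [hP]
    rfl
  have hc : (fun i => (c i : L)) =
      Matrix.vecMul (integralBasis L) ((P.map (Int.cast : ℤ → ℚ)).map (algebraMap ℚ L)) := by
    funext i
    have h1 : c i = ∑ j, P j i • RingOfIntegers.basis L j := by
      rw [hP]
      exact ((RingOfIntegers.basis L).sum_toMatrix_smul_self c i).symm
    rw [h1]
    simp only [Matrix.vecMul, dotProduct, Matrix.map_apply, integralBasis_apply, zsmul_eq_mul,
      map_sum, map_mul, map_intCast]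
    exact Finset.sum_congr rfl fun j _ => mul_comm _ _
  rw [hc, Algebra.discr_of_matrix_vecMul, NumberField.coe_discr, hdet]
  congr 2
  exact (Int.cast_det (R := ℚ) P).symm

theorem ideal_basis {L : Type} [Field L] [NumberField L] {I : Ideal (𝓞 L)} (hI : I ≠ ⊥) :
    ∃ (e : Fin (Module.finrank ℚ L) ≃ (L →+* ℂ)) (b : Fin (Module.finrank ℚ L) → 𝓞 L),
      (∀ i, b i ∈ I) ∧ LinearIndependent ℤ b ∧
      ‖(Matrix.of fun i j => (e i) (b j : L)).det‖ ^ 2 =
        (Ideal.absNorm I : ℝ) ^ 2 * (((NumberField.discr L).natAbs : ℕ) : ℝ) := by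
  have hcard : Fintype.card (Module.Free.ChooseBasisIndex ℤ (𝓞 L)) = Module.finrank ℚ L := by
    rw [← Module.finrank_eq_card_chooseBasisIndex, RingOfIntegers.rank]
  let bI : Module.Basis (Module.Free.ChooseBasisIndex ℤ (𝓞 L)) ℤ I :=
    Ideal.selfBasis (RingOfIntegers.basis L) I hI
  obtain ⟨c, hc⟩ : ∃ c : Module.Free.ChooseBasisIndex ℤ (𝓞 L) → 𝓞 L, c = fun i => (bI i : 𝓞 L) :=
    ⟨_, rfl⟩
  have hdet : ((RingOfIntegers.basis L).det c).natAbs = Ideal.absNorm I := by
    rw [hc]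
    exact Ideal.natAbs_det_basis_change (RingOfIntegers.basis L) I bI
  have hmem : ∀ i, c i ∈ I := fun i => by
    rw [hc]
    exact (bI i).2
  have hli : LinearIndependent ℤ c := by
    rw [hc]
    exact bI.linearIndependent.map' (I.restrictScalars ℤ).subtype
      (Submodule.ker_subtype _)
  let σ : Fin (Module.finrank ℚ L) ≃ Module.Free.ChooseBasisIndex ℤ (𝓞 L) :=
    (Fintype.equivFinOfCardEq hcard).symm
  let ε : Module.Free.ChooseBasisIndex ℤ (𝓞 L) ≃ (L →ₐ[ℚ] ℂ) :=
    Fintype.equivOfCardEq (by rw [hcard, AlgHom.card])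
  have h1 := Algebra.discr_eq_det_embeddingsMatrixReindex_pow_two ℚ ℂ (fun i => (c i : L)) ε
  rw [Gb_discr] at h1
  refine ⟨(σ.trans ε).trans (RingHom.equivRatAlgHom L ℂ).symm, c ∘ σ, fun i => hmem _,
    hli.comp _ σ.injective, ?_⟩
  have h2 : (Matrix.of fun i j => (((σ.trans ε).trans (RingHom.equivRatAlgHom L ℂ).symm) i)
      (((c ∘ σ) j : 𝓞 L) : L)) =
      (Algebra.embeddingsMatrixReindex ℚ ℂ (fun i => (c i : L)) ε).transpose.submatrix σ σ := by
    ext i j
    rfl
  rw [h2, Matrix.det_submatrix_equiv_self, Matrix.det_transpose, ← norm_pow, ← h1]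
  rw [map_mul, map_pow, map_intCast, map_intCast, norm_mul, norm_pow, Complex.norm_intCast,
    Complex.norm_intCast, ← hdet]
  rw [Nat.cast_natAbs, Nat.cast_natAbs, Int.cast_abs, Int.cast_abs]

end H76PP
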