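import Pool.Agent.H76.PP.Df1

/-!
INTERFACE of the project MP_78d38b_PP (no row, documentation only: nobody imports this file).
The main statements of the four blocks M (lattice points, family, auxiliary primes), N (first
moment), R (twisting and reciprocity), D (descent).
-/

set_option autoImplicit false
set_option linter.unusedSectionVars false
open scoped Classical

open WithZero NumberField IsDedekindDomain H38RT
open H38T1 (SC sc scu rep eo la si Pri OddP tp unif)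

namespace H76PP.Interface

variable (K : Type) [Field K] [NumberField K]

/-! Block M -/

theorem Bx_finite (X : ℝ) : (Bx K X).Finite := by
  sorry

theorem Bx_upper : ∃ C : ℝ, 0 < C ∧ ∀ X : ℝ, 1 ≤ X →
    ((Bx K X).ncard : ℝ) ≤ C * X ^ (5 * Module.finrank ℚ K) := by
  sorry

/-- lower bound for the family -/
theorem fam_lower (q₀ : HeightOneSpectrum (𝓞 K)) (h6 : (6 : 𝓞 K) ∉ q₀.asIdeal) :
    ∃ c : ℝ, 0 < c ∧ ∀ T : Finset (HeightOneSpectrum (𝓞 K)),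
      (∀ v ∈ T, v ≠ q₀ ∧ (6 : 𝓞 K) ∉ v.asIdeal) → ∃ X₀ : ℝ, ∀ X : ℝ, X₀ ≤ X →
        c * (∏ v ∈ T, (1 / 2 * (1 - 1 / (Nv v : ℝ)))) * X ^ (5 * Module.finrank ℚ K) ≤
          ({p : 𝓞 K × 𝓞 K | p ∈ Bx K X ∧ Fam q₀ T p.1 p.2}.ncard : ℝ) := by
  sorry

theorem aux_primes : ∃ q₀ : HeightOneSpectrum (𝓞 K), (6 : 𝓞 K) ∉ q₀.asIdeal ∧
    {p : HeightOneSpectrum (𝓞 K) | AuxP q₀ p}.Infinite := by
  sorry

variable {K}

theorem exists_twist {q₀ : HeightOneSpectrum (𝓞 K)} {J : Finset (HeightOneSpectrum (𝓞 K))}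
    (hJ : ∀ p ∈ J, AuxP q₀ p) : ∃ D : 𝓞 K, TwD q₀ J (D : K) := by
  sorry

/-! Block N -/

/-- the first moment bound -/
theorem bad_count (K : Type) [Field K] [NumberField K] : ∃ (C : ℝ) (N₀ : ℕ), 0 < C ∧
    ∀ (q₀ : HeightOneSpectrum (𝓞 K)) (T : Finset (HeightOneSpectrum (𝓞 K))),
      (∀ v ∈ T, N₀ ≤ Nv v ∧ (6 : 𝓞 K) ∉ v.asIdeal) → ∃ X₀ : ℝ, ∀ X : ℝ, X₀ ≤ X →
        ({p : 𝓞 K × 𝓞 K | p ∈ Bx K X ∧ Fam q₀ T p.1 p.2 ∧ BadP T p.1 p.2}.ncard : ℝ) ≤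
          C * (∏ v ∈ T, ((1 + 1 / (Nv v : ℝ)) ^ 2 / 4)) * X ^ (5 * Module.finrank ℚ K) := by
  sorry

/-! Block R -/

/-- a good pair has a twist by a divisor of the auxiliary primes with trivial Selmer group -/
theorem sel_triv {q₀ : HeightOneSpectrum (𝓞 K)} {T : Finset (HeightOneSpectrum (𝓞 K))}
    (h6 : (6 : 𝓞 K) ∉ q₀.asIdeal) (hT : ∀ v ∈ T, v ≠ q₀ ∧ (6 : 𝓞 K) ∉ v.asIdeal) {A B : 𝓞 K}
    (hF : Fam q₀ T A B) (hB : ¬ BadP T A B) {L : Type} [Field L] [NumberField L] [Algebra K L]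
    {θ : L} (hL : Cub K L (A : K) (B : K) θ) : ∃ J ⊆ T, ∀ D : K, TwD q₀ J D →
      SelTriv K L (D ^ 2 * A) (D ^ 3 * B) (algebraMap K L D * θ) := by
  sorry

/-! Block D -/

/-- two-descent on the Tate-Shafarevich group -/
theorem descent {L : Type} [Field L] [NumberField L] [Algebra K L] {a b : K} {θ : L}
    (hL : Cub K L a b θ) (hS : SelTriv K L a b θ) :
    Finite (⟨0, 0, 0, a, b⟩ : WeierstrassCurve K).toAffine.Point ∧
      Pool.Agent.H10.Sha2Trivial K (⟨0, 0, 0, a, b⟩ : WeierstrassCurve K) := by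
  sorry

/-- existence of the cubic extension -/
theorem exists_cub {A B : K} (h : ∀ t : K, t ^ 3 + A * t + B ≠ 0) :
    ∃ (L : Type) (_ : Field L) (_ : NumberField L) (_ : Algebra K L) (θ : L), Cub K L A B θ := by
  sorry

/-! Final theorem -/

theorem result (K : Type) [Field K] [NumberField K] : ∃ (c X₀ : ℝ), 0 < c ∧ ∀ X : ℝ, X₀ ≤ X →
    c * ((Bx K X).ncard : ℝ) ≤
      ({p : 𝓞 K × 𝓞 K | p ∈ Bx K X ∧ 4 * p.1 ^ 3 + 27 * p.2 ^ 2 ≠ 0 ∧
        Finite (⟨0, 0, 0, (p.1 : K), (p.2 : K)⟩ : WeierstrassCurve K).toAffine.Point ∧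
        Pool.Agent.H10.Sha2Trivial K (⟨0, 0, 0, (p.1 : K), (p.2 : K)⟩ : WeierstrassCurve K)}.ncard :
          ℝ) := by
  sorry

end H76PP.Interface
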