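import Pool.Agent.H76.PP.Df1
import Pool.Agent.H76.PP.E0
import Pool.Agent.H38.T1.Ea

/-!
INTERFACE inside block R of the project MP_78d38b_PP (documentation only): the statements (8.4), (8.5),
(8.6) of the note = block R2 (co-PI helper85); the rest of section 8 (local analysis, choice of `J`,
assembly `sel_triv`) = block R1 (co-PI helper11) uses them.
-/

set_option autoImplicit false
set_option linter.unusedSectionVars false
open scoped Classical

open WithZero NumberField IsDedekindDomain H38RT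
open H38T1 (SC sc scu rep eo la si Pri OddP tp unif)

namespace H76PP.InterfaceR

/-- (8.6) reciprocity, from `H88T7.recip7` -/
theorem rec_tame {F : Type} [Field F] [NumberField F] {x y : F} (hx : x ≠ 0) (hy : y ≠ 0)
    (h2 : ∀ v : HeightOneSpectrum (𝓞 F), v.valuation F 2 < 1 → ∃ m : F, m ≠ 0 ∧
      v.valuation F (y * m ^ 2 - 1) ≤ v.valuation F 8) (hr : ∀ s : F →+* ℝ, 0 < s y) :
    ∑ᶠ v : HeightOneSpectrum (𝓞 F), (if OddP v then tp v (sc x) (sc y) else 0) = 0 := by
  sorry

variable {K L : Type} [Field K] [NumberField K] [Field L] [NumberField L] [Algebra K L]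

/-- (8.4) projection formula for tame symbols -/
theorem proj_tame {v : HeightOneSpectrum (𝓞 K)} (hv : OddP v) {u : L} (hu : u ≠ 0) {c : K}
    (hc : c ≠ 0) {A B : 𝓞 K} {θ : L} (h : Cub K L (A : K) (B : K) θ)
    (hd : 4 * (A : K) ^ 3 + 27 * (B : K) ^ 2 ≠ 0) :
    ∑ᶠ w : {w : HeightOneSpectrum (𝓞 L) // dn K w = v},
      tp w.1 (sc u) (sc (algebraMap K L c)) = tp v (sc (Algebra.norm K u)) (sc c) := by
  sorry

/-- (8.5) -/
theorem iso_sum {A B : 𝓞 K} {θ : L} (h : Cub K L (A : K) (B : K) θ)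
    (hd : 4 * (A : K) ^ 3 + 27 * (B : K) ^ 2 ≠ 0) {d d' : Fin 3 → K} (hd0 : ev θ d ≠ 0)
    (hd0' : ev θ d' ≠ 0) (hN : IsSquare (Algebra.norm K (ev θ d)))
    (hN' : IsSquare (Algebra.norm K (ev θ d')))
    (h2 : ∀ v : HeightOneSpectrum (𝓞 K), v.valuation K 2 < 1 →
      LC (algebraMap K (v.adicCompletion K)) (A : K) (B : K) d ∧
      LC (algebraMap K (v.adicCompletion K)) (A : K) (B : K) d')
    (hr : ∀ s : K →+* ℝ, LC s (A : K) (B : K) d ∧ LC s (A : K) (B : K) d') :
    ∑ᶠ w : HeightOneSpectrum (𝓞 L),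
      (if OddP w then tp w (sc (ev θ d)) (sc (ev θ d')) else 0) = 0 := by
  sorry

end H76PP.InterfaceR
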