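import Pool.Agent.H76.PP.Df0

/-!
ROW La (project MP_78d38b_PP, about 130 lines, Mathlib only): size of an integer and size of its
coordinates with respect to the integral basis.

PROOF. Let `w i = RingOfIntegers.basis K i`. There are finitely many `i` (`Fintype` of
`Module.Free.ChooseBasisIndex`, nonempty as `𝓞 K ≠ 0`) and finitely many `s : K →+* ℂ`.
Second part: `a = ∑ i, (repr a i) • w i` (`Module.Basis.sum_repr`), so
`‖s a‖ ≤ ∑ i, |repr a i| ‖s (w i)‖ ≤ T * ∑ i, ‖s (w i)‖` (`T ≥ 0` because the index set is nonempty);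
`C ≥ ∑ s, ∑ i, ‖s (w i)‖`.
First part: dual basis. Let `w' i` be the dual basis of the basis `NumberField.integralBasis K` of
`K` over `ℚ` for the trace form (`LinearMap.BilinForm.dualBasis` with `traceForm_nondegenerate ℚ K`),
so `Algebra.trace ℚ K (w' i * w j) = if i = j then 1 else 0` and the coordinate of `a` is
`(repr a i : ℚ) = Algebra.trace ℚ K (w' i * a)` (expand `a`). By `trace_eq_sum_embeddings` (`ℂ`)
`|repr a i| = ‖∑ s, s (w' i) s a‖ ≤ T * ∑ s, ‖s (w' i)‖` (`s` runs through `K →ₐ[ℚ] ℂ`, which are the same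
as ring homomorphisms: `RingHom.equivRatAlgHom`; compare `Sy_trace` in `Pool/Agent/H38/RT/Sy.lean`).
Take `C` as one plus the sum of all these constants.
-/

set_option autoImplicit false
open scoped Classical

open NumberField IsDedekindDomain

namespace H76PP

variable (K : Type) [Field K] [NumberField K]

private lemma La_emb (x : K) :
    ((Algebra.trace ℚ K x : ℚ) : ℂ) = ∑ s : K →+* ℂ, s x := by
  have h := trace_eq_sum_embeddings (K := ℚ) (L := K) ℂ (x := x)
  rw [← (RingHom.equivRatAlgHom K ℂ).sum_comp] at h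
  simpa [RingHom.equivRatAlgHom_apply] using h

private lemma La_repr (a : 𝓞 K) (i : Module.Free.ChooseBasisIndex ℤ (𝓞 K)) :
    (((RingOfIntegers.basis K).repr a i : ℤ) : ℂ) =
      ∑ s : K →+* ℂ, s (a : K) * s ((integralBasis K).traceDual i) := by
  have h1 : (integralBasis K).repr (a : K) i =
      Algebra.trace ℚ K ((a : K) * (integralBasis K).traceDual i) := by
    have h2 := Module.Basis.traceDual_repr_apply (K := ℚ) (L := K) (integralBasis K).traceDual
      (a : K) i
    rw [Module.Basis.traceDual_traceDual] at h2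
    rw [h2, Algebra.traceForm_apply]
  have h3 := integralBasis_repr_apply K a i
  have h4 : (((RingOfIntegers.basis K).repr a i : ℤ) : ℚ) =
      Algebra.trace ℚ K ((a : K) * (integralBasis K).traceDual i) := by
    rw [← h1]
    exact h3.symm
  have h5 := La_emb K ((a : K) * (integralBasis K).traceDual i)
  rw [← h4] at h5
  simp only [map_mul] at h5
  rw [← h5]
  push_cast
  rfl

theorem coord : ∃ C : ℝ, 1 ≤ C ∧
    (∀ (a : 𝓞 K) (T : ℝ), a ∈ bx K T → ∀ i, |((RingOfIntegers.basis K).repr a i : ℝ)| ≤ C * T) ∧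
    ∀ (a : 𝓞 K) (T : ℝ), (∀ i, |((RingOfIntegers.basis K).repr a i : ℝ)| ≤ T) →
      a ∈ bx K (C * T) := by
  set c : (K →+* ℂ) → Module.Free.ChooseBasisIndex ℤ (𝓞 K) → ℝ := fun s i =>
    ‖s ((RingOfIntegers.basis K i : 𝓞 K) : K)‖ + ‖s ((integralBasis K).traceDual i)‖ with hc
  have hc0 : ∀ s i, 0 ≤ c s i := fun s i => add_nonneg (norm_nonneg _) (norm_nonneg _)
  have hs0 : 0 ≤ ∑ s, ∑ i, c s i :=
    Finset.sum_nonneg fun s _ => Finset.sum_nonneg fun i _ => hc0 s i
  refine ⟨1 + ∑ s, ∑ i, c s i, by linarith, ?_, ?_⟩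
  · intro a T ha i
    obtain ⟨s₀⟩ : Nonempty (K →+* ℂ) := inferInstance
    have hT : 0 ≤ T := (norm_nonneg _).trans (ha s₀)
    have h1 : |((RingOfIntegers.basis K).repr a i : ℝ)| =
        ‖(((RingOfIntegers.basis K).repr a i : ℤ) : ℂ)‖ := by
      rw [Complex.norm_intCast]
    rw [h1, La_repr]
    refine (norm_sum_le _ _).trans ?_
    have h2 : ∀ s ∈ (Finset.univ : Finset (K →+* ℂ)),
        ‖s (a : K) * s ((integralBasis K).traceDual i)‖ ≤ T * ∑ i, c s i := by
      intro s _
      rw [norm_mul]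
      refine mul_le_mul (ha s) ?_ (norm_nonneg _) hT
      refine le_trans ?_ (Finset.single_le_sum (fun j _ => hc0 s j) (Finset.mem_univ i))
      exact le_add_of_nonneg_left (norm_nonneg _)
    refine (Finset.sum_le_sum h2).trans ?_
    rw [← Finset.mul_sum]
    nlinarith
  · intro a T ha s
    obtain ⟨i₀⟩ : Nonempty (Module.Free.ChooseBasisIndex ℤ (𝓞 K)) :=
      (RingOfIntegers.basis K).index_nonempty
    have hT : 0 ≤ T := (abs_nonneg _).trans (ha i₀)
    have h1 : s (a : K) = ∑ i, (((RingOfIntegers.basis K).repr a i : ℤ) : ℂ) *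
        s ((RingOfIntegers.basis K i : 𝓞 K) : K) := by
      have h2 := (RingOfIntegers.basis K).sum_repr a
      have h3 := congrArg (fun x : 𝓞 K => s (x : K)) h2
      simp only [zsmul_eq_mul, map_sum, map_mul, map_intCast] at h3
      exact h3.symm
    rw [h1]
    refine (norm_sum_le _ _).trans ?_
    have h2 : ∀ i ∈ (Finset.univ : Finset (Module.Free.ChooseBasisIndex ℤ (𝓞 K))),
        ‖(((RingOfIntegers.basis K).repr a i : ℤ) : ℂ) *
          s ((RingOfIntegers.basis K i : 𝓞 K) : K)‖ ≤ T * c s i := by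
      intro i _
      rw [norm_mul, Complex.norm_intCast]
      exact mul_le_mul (ha i) (le_add_of_nonneg_right (norm_nonneg _)) (norm_nonneg _) hT
    refine (Finset.sum_le_sum h2).trans ?_
    rw [← Finset.mul_sum]
    have h3 : ∑ i, c s i ≤ ∑ s, ∑ i, c s i :=
      Finset.single_le_sum (f := fun s => ∑ i, c s i)
        (fun s _ => Finset.sum_nonneg fun i _ => hc0 s i) (Finset.mem_univ s)
    nlinarith

end H76PP
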