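import Pool.Agent.H76.PP.Lc

/-!
ROW Lf (project MP_78d38b_PP, about 110 lines): counting integer vectors in boxes with residues in a
given set. Use only the STATEMENT `coset_upper` (and `bx_finite` of Lb).

PROOF. `C` from `coset_upper`. The set is the union over `y ∈ S` (a finite set as `𝓞 K ⧸ m` is finite,
`Ideal.finiteQuotientOfFreeOfNeBot`) of the sets `{x | ∀ i, x i ∈ bx K (t i) ∧ mk (x i) = y i}`, which is the
product over `i` (`Set.pi Set.univ`) of the sets `{a ∈ bx K (t i) | a - a₀ ∈ m}`, `a₀` a lift of `y i`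
(`Ideal.Quotient.mk_surjective`, `Ideal.Quotient.eq`). The cardinality of the product is the product of the
cardinalities (`Set.ncard_pi`-like; or via Finsets: `Fintype.card_piFinset` with `Set.Finite.toFinset`), each at most
`C (t i^n / N + 1)`. Sum over `S` (`Finset.card_biUnion_le` / `Set.ncard` of a union over a finite set).
-/

set_option autoImplicit false
open scoped Classical

open NumberField IsDedekindDomain

namespace H76PP

variable (K : Type) [Field K] [NumberField K]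

theorem count_ideal : ∃ C : ℝ, 1 ≤ C ∧ ∀ (ι : Type) [Fintype ι] (m : Ideal (𝓞 K)), m ≠ ⊥ →
    ∀ (S : Set (ι → 𝓞 K ⧸ m)) (t : ι → ℝ), (∀ i, 0 ≤ t i) →
      ({x : ι → 𝓞 K | (∀ i, x i ∈ bx K (t i)) ∧
        (fun i => Ideal.Quotient.mk m (x i)) ∈ S}.ncard : ℝ) ≤
      (S.ncard : ℝ) * ∏ i, (C * (t i ^ (Module.finrank ℚ K) / (Ideal.absNorm m : ℝ) + 1)) := by
  obtain ⟨C, hC1, hC⟩ := coset_upper K
  refine ⟨C, hC1, fun ι _ m hm S t ht => ?_⟩
  have hfq : Finite (𝓞 K ⧸ m) := Ideal.finiteQuotientOfFreeOfNeBot m hm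
  have hSf : S.Finite := S.toFinite
  have hAf : ∀ (y : 𝓞 K ⧸ m) (i : ι),
      {a : 𝓞 K | a ∈ bx K (t i) ∧ Ideal.Quotient.mk m a = y}.Finite :=
    fun y i => (bx_finite K (t i)).subset fun a ha => ha.1
  have hAc : ∀ (y : 𝓞 K ⧸ m) (i : ι),
      (({a : 𝓞 K | a ∈ bx K (t i) ∧ Ideal.Quotient.mk m a = y}.ncard : ℕ) : ℝ) ≤
      C * (t i ^ (Module.finrank ℚ K) / (Ideal.absNorm m : ℝ) + 1) := by
    intro y i
    obtain ⟨a₀, rfl⟩ := Ideal.Quotient.mk_surjective y
    have h := hC m hm a₀ (t i) (ht i)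
    have he : {a : 𝓞 K | a ∈ bx K (t i) ∧ Ideal.Quotient.mk m a = Ideal.Quotient.mk m a₀} =
        {a : 𝓞 K | a ∈ bx K (t i) ∧ a - a₀ ∈ m} := by
      ext a
      constructor
      · rintro ⟨h1, h2⟩
        exact ⟨h1, Ideal.Quotient.eq.1 h2⟩
      · rintro ⟨h1, h2⟩
        exact ⟨h1, Ideal.Quotient.eq.2 h2⟩
    rw [he]
    exact h
  have hsub : {x : ι → 𝓞 K | (∀ i, x i ∈ bx K (t i)) ∧
      (fun i => Ideal.Quotient.mk m (x i)) ∈ S} ⊆
      ((hSf.toFinset.biUnion fun y => Fintype.piFinset fun i => (hAf (y i) i).toFinset :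
        Finset (ι → 𝓞 K)) : Set (ι → 𝓞 K)) := by
    rintro x ⟨h1, h2⟩
    rw [Finset.mem_coe, Finset.mem_biUnion]
    refine ⟨_, hSf.mem_toFinset.2 h2, ?_⟩
    rw [Fintype.mem_piFinset]
    intro i
    rw [Set.Finite.mem_toFinset]
    exact ⟨h1 i, rfl⟩
  have h1 := Set.ncard_le_ncard hsub (Finset.finite_toSet _)
  rw [Set.ncard_coe_finset] at h1
  have h2 := h1.trans (Finset.card_biUnion_le (s := hSf.toFinset)
    (t := fun y => Fintype.piFinset fun i => (hAf (y i) i).toFinset))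
  have h3 : ∀ y ∈ hSf.toFinset,
      ((Fintype.piFinset fun i => (hAf (y i) i).toFinset).card : ℝ) ≤
      ∏ i, (C * (t i ^ (Module.finrank ℚ K) / (Ideal.absNorm m : ℝ) + 1)) := by
    intro y _
    rw [Fintype.card_piFinset]
    push_cast
    refine Finset.prod_le_prod (fun i _ => Nat.cast_nonneg _) fun i _ => ?_
    rw [← Set.ncard_eq_toFinset_card _ (hAf (y i) i)]
    exact hAc (y i) i
  have h4 := Finset.sum_le_sum h3
  rw [Finset.sum_const, ← Set.ncard_eq_toFinset_card _ hSf, nsmul_eq_mul] at h4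
  have h5 : ({x : ι → 𝓞 K | (∀ i, x i ∈ bx K (t i)) ∧
      (fun i => Ideal.Quotient.mk m (x i)) ∈ S}.ncard : ℝ) ≤
      ∑ y ∈ hSf.toFinset, ((Fintype.piFinset fun i => (hAf (y i) i).toFinset).card : ℝ) := by
    exact_mod_cast h2
  exact h5.trans h4

end H76PP
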