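import Mathlib

/-!
Definition for the reduction of positive definite quadratic forms (no row).
-/

set_option autoImplicit false

open scoped Matrix

namespace H76PP

/-- The value of the quadratic form with matrix `G` at an integer vector. -/
noncomputable def qf {N : ℕ} (G : Matrix (Fin N) (Fin N) ℝ) (x : Fin N → ℤ) : ℝ :=
  (fun i => (x i : ℝ)) ⬝ᵥ G.mulVec (fun i => (x i : ℝ))

end H76PP
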