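import Pool.Agent.H76.PP.R0

/-!
ROW Ra (project MP_78d38b_PP, about 130 lines, Mathlib only): shortest vectors of a positive definite
form.

PROOF. exists_min: there is a constant `m > 0` with `m * ∑ i, y i ^ 2 ≤ y ⬝ᵥ G.mulVec y` for all real `y` (the continuous
positive function on the compact unit sphere of `EuclideanSpace ℝ (Fin (N+1))` attains a positive minimum; or use the
least eigenvalue: `Matrix.PosDef` has positive eigenvalues; or complete induction). So for every bound `R` the set of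
integer vectors with `qf G x ≤ R` is finite (`|x i| ≤ R / m + 1`, `Set.Finite.pi`/`Set.finite_Icc`). Let `x₀ = Pi.single 0 1`; the
finite nonempty set `{x ≠ 0 | qf G x ≤ qf G x₀}` contains an element of least value (`Set.exists_min_image`), which is the
minimum over all nonzero integer vectors.
prim: if `x` is a nonzero vector of least value and `d` divides all `x i` then `x = d • y`, `y ≠ 0`, `qf G x = d^2 qf G y`,
`qf G y > 0`, `qf G x ≤ qf G y`, so `d^2 ≤ 1`, `d ≠ 0`, so `d` is a unit (`Int.isUnit_iff`).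
-/

set_option autoImplicit false

open scoped Matrix

namespace H76PP

theorem qf_pos {N : ℕ} {G : Matrix (Fin N) (Fin N) ℝ} (hG : G.PosDef) {x : Fin N → ℤ} (hx : x ≠ 0) :
    0 < qf G x := by
  have h1 : (fun i => (x i : ℝ)) ≠ 0 := by
    intro h
    apply hx
    ext i
    have h2 := congrFun h i
    simpa using h2
  have h3 := hG.dotProduct_mulVec_pos h1
  unfold qf
  simpa using h3

theorem Ra_smul {N : ℕ} (G : Matrix (Fin N) (Fin N) ℝ) (c : ℝ) (y : Fin N → ℝ) :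
    (c • y) ⬝ᵥ G.mulVec (c • y) = c ^ 2 * (y ⬝ᵥ G.mulVec y) := by
  rw [Matrix.mulVec_smul, smul_dotProduct, dotProduct_smul, smul_eq_mul, smul_eq_mul]
  ring

theorem Ra_lower {N : ℕ} {G : Matrix (Fin (N + 1)) (Fin (N + 1)) ℝ} (hG : G.PosDef) :
    ∃ m : ℝ, 0 < m ∧ ∀ y : Fin (N + 1) → ℝ, m * ‖y‖ ^ 2 ≤ y ⬝ᵥ G.mulVec y := by
  have hc : Continuous fun y : Fin (N + 1) → ℝ => y ⬝ᵥ G.mulVec y := by
    unfold dotProduct Matrix.mulVec dotProduct
    fun_prop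
  have hne : (Metric.sphere (0 : Fin (N + 1) → ℝ) 1).Nonempty := by
    refine ⟨fun _ => 1, ?_⟩
    rw [mem_sphere_zero_iff_norm, pi_norm_const, norm_one]
  obtain ⟨y₀, hy₀, hmin⟩ := (isCompact_sphere (0 : Fin (N + 1) → ℝ) 1).exists_isMinOn hne hc.continuousOn
  have hy₀n : ‖y₀‖ = 1 := mem_sphere_zero_iff_norm.1 hy₀
  have hy₀0 : y₀ ≠ 0 := by
    intro h
    rw [h, norm_zero] at hy₀n
    exact zero_ne_one hy₀n
  have hpos : 0 < y₀ ⬝ᵥ G.mulVec y₀ := by
    have h3 := hG.dotProduct_mulVec_pos hy₀0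
    simpa using h3
  refine ⟨y₀ ⬝ᵥ G.mulVec y₀, hpos, fun y => ?_⟩
  rcases eq_or_ne y 0 with rfl | hy
  · simp
  · have hyn : 0 < ‖y‖ := norm_pos_iff.2 hy
    have h1 : (‖y‖⁻¹ • y) ∈ Metric.sphere (0 : Fin (N + 1) → ℝ) 1 := by
      rw [mem_sphere_zero_iff_norm, norm_smul, norm_inv, norm_norm, inv_mul_cancel₀ hyn.ne']
    have h2 := hmin h1
    simp only [Set.mem_setOf_eq] at h2
    rw [Ra_smul, inv_pow, inv_mul_eq_div, le_div_iff₀ (by positivity)] at h2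
    exact h2

theorem Ra_finite {N : ℕ} {G : Matrix (Fin (N + 1)) (Fin (N + 1)) ℝ} (hG : G.PosDef) (R : ℝ) :
    {x : Fin (N + 1) → ℤ | qf G x ≤ R}.Finite := by
  obtain ⟨m, hm, hlow⟩ := Ra_lower hG
  refine Set.Finite.subset (Set.finite_Icc (fun _ => -⌈R / m⌉) (fun _ => ⌈R / m⌉)) ?_
  intro x hx
  have h1 : ∀ i, |x i| ≤ ⌈R / m⌉ := by
    intro i
    have h2 : m * ‖(fun i => (x i : ℝ))‖ ^ 2 ≤ R := (hlow _).trans hx
    have h3 : |(x i : ℝ)| ≤ ‖(fun i => (x i : ℝ))‖ := norm_le_pi_norm (fun i => (x i : ℝ)) i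
    have h4 : |(x i : ℝ)| ^ 2 ≤ R / m := by
      rw [le_div_iff₀ hm]
      have h5 : |(x i : ℝ)| ^ 2 ≤ ‖(fun i => (x i : ℝ))‖ ^ 2 := pow_le_pow_left₀ (abs_nonneg _) h3 2
      nlinarith
    have h6 : |x i| ≤ |x i| ^ 2 := by
      have h7 : 0 ≤ |x i| := abs_nonneg _
      rcases h7.eq_or_lt with h8 | h8
      · rw [← h8]
        norm_num
      · nlinarith
    have h9 : ((|x i| : ℤ) : ℝ) ≤ R / m := by
      have h10 : ((|x i| : ℤ) : ℝ) ≤ ((|x i| ^ 2 : ℤ) : ℝ) := by exact_mod_cast h6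
      refine h10.trans ?_
      push_cast
      exact h4
    have h11 : ((|x i| : ℤ) : ℝ) ≤ ((⌈R / m⌉ : ℤ) : ℝ) := h9.trans (Int.le_ceil _)
    exact_mod_cast h11
  rw [Set.mem_Icc]
  exact ⟨fun i => (abs_le.1 (h1 i)).1, fun i => (abs_le.1 (h1 i)).2⟩

theorem exists_min {N : ℕ} {G : Matrix (Fin (N + 1)) (Fin (N + 1)) ℝ} (hG : G.PosDef) :
    ∃ x : Fin (N + 1) → ℤ, x ≠ 0 ∧ (∀ y : Fin (N + 1) → ℤ, y ≠ 0 → qf G x ≤ qf G y) ∧
      ∀ d : ℤ, (∀ i, d ∣ x i) → IsUnit d := by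
  set x₀ : Fin (N + 1) → ℤ := fun _ => 1 with hx₀
  have hx₀0 : x₀ ≠ 0 := by
    intro h
    have := congrFun h 0
    simp [hx₀] at this
  have hfin : ({x : Fin (N + 1) → ℤ | x ≠ 0 ∧ qf G x ≤ qf G x₀}).Finite :=
    (Ra_finite hG (qf G x₀)).subset fun x hx => hx.2
  obtain ⟨x, ⟨hx0, hxle⟩, hmin⟩ := Set.exists_min_image _ (qf G) hfin ⟨x₀, hx₀0, le_rfl⟩
  have hall : ∀ y : Fin (N + 1) → ℤ, y ≠ 0 → qf G x ≤ qf G y := by
    intro y hy
    rcases le_total (qf G y) (qf G x₀) with h1 | h1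
    · exact hmin y ⟨hy, h1⟩
    · exact hxle.trans h1
  refine ⟨x, hx0, hall, fun d hd => ?_⟩
  choose y hy using hd
  have hy0 : y ≠ 0 := by
    intro h
    apply hx0
    ext i
    rw [hy i, h]
    simp
  have h1 : qf G x = (d : ℝ) ^ 2 * qf G y := by
    unfold qf
    rw [← Ra_smul]
    have h2 : (fun i => (x i : ℝ)) = (d : ℝ) • fun i => (y i : ℝ) := by
      ext i
      rw [hy i]
      simp
    rw [h2]
  have h2 := qf_pos hG hy0
  have h3 := hall y hy0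
  rw [h1] at h3
  have h4 : (d : ℝ) ^ 2 ≤ 1 := by
    by_contra hcon
    push Not at hcon
    nlinarith
  have h5 : d ^ 2 ≤ 1 := by exact_mod_cast h4
  have h6 : d ≠ 0 := by
    intro h
    apply hx0
    ext i
    rw [hy i, h]
    simp
  have h7 : |d| ≤ 1 := by
    rw [← sq_le_one_iff_abs_le_one]
    exact h5
  rw [Int.isUnit_iff]
  have h8 := abs_le.1 h7
  omega

end H76PP
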